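import Mathlib

/-!
# The algebra of the comparison function (machine generated expansions)
-/

set_option autoImplicit false

namespace Pool.Agent.H76.BP

/-- coefficient -/
noncomputable def Q0 (m k D q c : ℝ) : ℝ :=
    D*D*2 + k*(D*((-3) + q) + k*(1 + q*(-1)))

/-- coefficient -/
noncomputable def Q1 (m k D q c : ℝ) : ℝ :=
    D*D*D*D*D*((-1) + q) + k*(D*D*D*(q*(6 + q*(-2)) + D*(1 + q*(-1))) + k*(D*D*(q*((-3) + q*3)))) +
    m*(k*(D*D*D*(6 + q*(-2)) + k*(D*D*((-3) + q*3)))) + c*(k*(D*D*8 + k*((-4) + q*4 + D*((-12) +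
    q*4) + k*(3 + q*(-3)))))

/-- coefficient -/
noncomputable def Q2 (m k D q c : ℝ) : ℝ :=
    D*D*D*D*D*(q*q*((-3) + q) + D*(q*(1 + q))) + k*(D*D*D*D*(q*q*(3 + q*(-3)))) +
    m*(D*D*D*D*D*(q*((-6) + q*2) + D*(1 + q)) + k*(D*D*D*D*(q*(6 + q*(-6)))) +
    m*(D*D*D*D*D*((-3) + q) + k*(D*D*D*D*(3 + q*(-3))))) + c*(D*D*D*D*((-4) + q*(-2) + D*((-4) +
    q*4)) + k*(D*D*(q*(8 + q*(-8)) + D*(q*(18 + q*(-6)) + D*(3 + q*(-3)))) + k*(D*D*((-2) +
    q*((-4) + q*6)))) + m*(k*(D*D*(8 + q*(-8) + D*(24 + q*(-8))) + k*(D*D*((-9) + q*9)))) +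
    c*(k*(D*D*12 + k*((-10) + q*10 + D*((-18) + q*6) + k*(3 + q*(-3))))))

/-- coefficient -/
noncomputable def Q3 (m k D q c : ℝ) : ℝ :=
    D*D*D*D*D*D*(q*q*q*((-1) + q)) + m*(D*D*D*D*D*D*(q*q*((-3) + q*3)) + m*(D*D*D*D*D*D*(q*((-3) +
    q*3)) + m*(D*D*D*D*D*D*((-1) + q)))) + c*(D*D*D*D*(q*q*((-4) + q*4) + D*(q*q*((-6) + q*2) +
    D*((-2) + q*(2 + q*2)))) + k*(D*D*D*D*(q*(4 + q*((-1) + q*(-3))))) + m*(D*D*D*D*(q*((-8) +
    q*8) + D*(q*((-18) + q*6) + D*(5 + q*3))) + k*(D*D*D*D*(4 + q*(8 + q*(-12)))) +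
    m*(D*D*D*D*((-4) + q*4 + D*((-12) + q*4)) + k*(D*D*D*D*(9 + q*(-9))))) + c*(D*D*D*D*((-10) +
    q*(-4) + D*((-6) + q*6)) + k*(D*D*(q*(12 + q*(-12)) + D*(q*(18 + q*(-6)) + D*(3 + q*(-3)))) +
    k*(D*D*((-4) + q*(1 + q*3)))) + m*(k*(D*D*(20 + q*(-20) + D*(36 + q*(-12))) + k*(D*D*((-9) +
    q*9)))) + c*(k*(D*D*8 + k*((-8) + q*8 + D*((-12) + q*4) + k*(1 + q*(-1)))))))

/-- coefficient -/
noncomputable def Q4 (m k D q c : ℝ) : ℝ :=
    D*D*D*D*D*D*(q*q*((-2) + q*2)) + m*(D*D*D*D*D*D*(q*((-4) + q*(1 + q*3))) + m*(D*D*D*D*D*D*((-2) +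
    q*((-4) + q*6)) + m*(D*D*D*D*D*D*((-3) + q*3)))) + c*(D*D*D*D*(q*q*((-2) + q*2) +
    D*(q*q*((-3) + q) + D*((-4) + q*(1 + q)))) + k*(D*D*D*D*(q*(4 + q*(-4)))) +
    m*(D*D*D*D*(q*((-12) + q*12) + D*(q*((-18) + q*6) + D*(9 + q*3))) + k*(D*D*D*D*(8 + q*((-2) +
    q*(-6)))) + m*(D*D*D*D*((-10) + q*10 + D*((-18) + q*6)) + k*(D*D*D*D*(9 + q*(-9))))) +
    c*(D*D*D*D*((-8) + q*(-2) + D*((-4) + q*4)) + k*(D*D*(q*(4 + q*(-4)) + D*(q*(6 + q*(-2)) +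
    D*(1 + q*(-1)))) + k*(D*D*((-2) + q*2))) + m*(k*(D*D*(16 + q*(-16) + D*(24 + q*(-8))) +
    k*(D*D*((-3) + q*3)))) + c*(k*(D*D*2 + k*((-2) + q*2 + D*((-3) + q))))))

/-- coefficient -/
noncomputable def Q5 (m k D q c : ℝ) : ℝ :=
    m*(D*D*D*D*(q*((-4) + q*4)) + m*(D*D*D*D*((-4) + q*(1 + q*3)) + m*(D*D*D*D*((-3) + q*3)))) +
    c*(D*D*D*D*(-2) + m*(D*D*(q*((-4) + q*4) + D*(q*((-6) + q*2) + D*(7 + q))) + k*(D*D*(4 +
    q*(-4))) + m*(D*D*((-8) + q*8 + D*((-12) + q*4)) + k*(D*D*(3 + q*(-3))))) + c*(D*D*((-2) +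
    D*((-1) + q)) + m*(k*(4 + q*(-4) + D*(6 + q*(-2))))))

/-- coefficient -/
noncomputable def Q6 (m k D q c : ℝ) : ℝ :=
    m*(D*D*((-2) + q*2) + m*(D*D*((-1) + q))) + c*(D*D*2 + m*((-2) + q*2 + D*((-3) + q)))

lemma QA0 (i j q : ℝ) (hi : 0 ≤ i) (hj : 0 ≤ j) (hq : 0 ≤ q) :
    0 < Q0 (i + 2) (i + 3 + j) (2 * i + 5 + j + q) q (2 * (i + 2) * (i + 4)) := by
  have e : Q0 (i + 2) (i + 3 + j) (2 * i + 5 + j + q) q (2 * (i + 2) * (i + 4)) =
    14 + i*(13 + i*3) + j*(2 + i) + q*(17 + i*(10 + i) + j*(3 + i) + q*(5 + i + j)) := by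
    unfold Q0; ring
  rw [e]; positivity

lemma QA1 (i j q : ℝ) (hi : 0 ≤ i) (hj : 0 ≤ j) (hq : 0 ≤ q) :
    0 ≤ Q1 (i + 2) (i + 3 + j) (2 * i + 5 + j + q) q (2 * (i + 2) * (i + 4)) := by
  have e : Q1 (i + 2) (i + 3 + j) (2 * i + 5 + j + q) q (2 * (i + 2) * (i + 4)) =
    3580 + i*(7706 + i*(6476 + i*(2659 + i*(534 + i*42)))) + j*(2224 + i*(4028 + i*(2654 + i*(754 +
    i*78))) + j*(496 + i*(700 + i*(320 + i*47)) + j*(64 + i*(60 + i*14) + j*(4 + i*2)))) +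
    q*(7482 + i*(12582 + i*(8195 + i*(2571 + i*(386 + i*22)))) + j*(5312 + i*(7180 + i*(3480 +
    i*(708 + i*50))) + j*(1288 + i*(1312 + i*(419 + i*41)) + j*(136 + i*(92 + i*14) + j*(6 +
    i*2)))) + q*(2916 + i*(4003 + i*(2041 + i*(463 + i*40))) + j*(2028 + i*(2078 + i*(688 +
    i*74)) + j*(478 + i*(327 + i*53) + j*(48 + i*16 + j*2))) + q*(583 + i*(663 + i*(259 + i*35)) +
    j*(334 + i*(236 + i*42) + j*(63 + i*21 + j*4)) + q*(111 + i*(95 + i*21) + j*(36 + i*14 +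
    j*3) + q*(15 + i*7 + j*2 + q))))) := by
    unfold Q1; ring
  rw [e]; positivity

lemma QA2 (i j q : ℝ) (hi : 0 ≤ i) (hj : 0 ≤ j) (hq : 0 ≤ q) :
    0 ≤ Q2 (i + 2) (i + 3 + j) (2 * i + 5 + j + q) q (2 * (i + 2) * (i + 4)) := by
  have e : Q2 (i + 2) (i + 3 + j) (2 * i + 5 + j + q) q (2 * (i + 2) * (i + 4)) =
    122186 + i*(373401 + i*(476228 + i*(329541 + i*(133892 + i*(31986 + i*(4164 + i*228)))))) +
    j*(96204 + i*(262602 + i*(288730 + i*(164372 + i*(51240 + i*(8308 + i*548))))) + j*(30158 +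
    i*(70895 + i*(64048 + i*(27926 + i*(5892 + i*482)))) + j*(5512 + i*(10508 + i*(7212 +
    i*(2116 + i*224))) + j*(614 + i*(887 + i*(412 + i*61)) + j*(44 + i*(42 + i*10) + j*(2 +
    i)))))) + q*(296467 + i*(745063 + i*(792149 + i*(462395 + i*(160376 + i*(33162 + i*(3804 +
    i*188)))))) + j*(265358 + i*(576388 + i*(512336 + i*(238472 + i*(61336 + i*(8280 +
    i*460))))) + j*(91421 + i*(166603 + i*(118718 + i*(41270 + i*(6992 + i*462)))) + j*(16708 +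
    i*(24304 + i*(12876 + i*(2928 + i*240))) + j*(1805 + i*(1933 + i*(661 + i*71)) + j*(110 +
    i*(76 + i*12) + j*(3 + i)))))) + q*(141283 + i*(327860 + i*(318003 + i*(165352 + i*(48692 +
    i*(7706 + i*512))))) + j*(128320 + i*(244366 + i*(185432 + i*(70228 + i*(13308 + i*1012)))) +
    j*(44291 + i*(66696 + i*(37302 + i*(9192 + i*844))) + j*(7800 + i*(8644 + i*(3136 + i*372)) +
    j*(761 + i*(548 + i*95) + j*(40 + i*14 + j))))) + q*(54496 + i*(114524 + i*(96402 + i*(40572 +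
    i*(8524 + i*714)))) + j*(41556 + i*(67040 + i*(40620 + i*(10952 + i*1108))) + j*(12056 +
    i*(14136 + i*(5514 + i*716)) + j*(1688 + i*(1280 + i*240) + j*(120 + i*44 + j*4)))) +
    q*(18402 + i*(31633 + i*(20330 + i*(5779 + i*612))) + j*(10172 + i*(12766 + i*(5342 +
    i*744)) + j*(2114 + i*(1729 + i*354) + j*(200 + i*80 + j*8))) + q*(4155 + i*(5383 + i*(2313 +
    i*329)) + j*(1670 + i*(1436 + i*308) + j*(235 + i*101 + j*12)) + q*(591 + i*(514 + i*111) +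
    j*(168 + i*74 + j*13) + q*(50 + i*22 + j*8 + q*2))))))) := by
    unfold Q2; ring
  rw [e]; positivity

lemma QA3 (i j q : ℝ) (hi : 0 ≤ i) (hj : 0 ≤ j) (hq : 0 ≤ q) :
    0 ≤ Q3 (i + 2) (i + 3 + j) (2 * i + 5 + j + q) q (2 * (i + 2) * (i + 4)) := by
  have e : Q3 (i + 2) (i + 3 + j) (2 * i + 5 + j + q) q (2 * (i + 2) * (i + 4)) =
    2149240 + i*(8481748 + i*(14484574 + i*(14100949 + i*(8645378 + i*(3467670 + i*(910968 +
    i*(151252 + i*(14408 + i*600)))))))) + j*(2232016 + i*(8010856 + i*(12199996 + i*(10342722 +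
    i*(5353698 + i*(1735896 + i*(344720 + i*(38360 + i*1832))))))) + j*(925960 + i*(2959356 +
    i*(3916298 + i*(2795135 + i*(1165364 + i*(284324 + i*(37624 + i*2084)))))) + j*(216416 +
    i*(597104 + i*(661800 + i*(378636 + i*(118180 + i*(19096 + i*1248))))) + j*(31240 + i*(71692 +
    i*(63378 + i*(27011 + i*(5546 + i*438)))) + j*(2768 + i*(5032 + i*(3292 + i*(914 + i*90))) +
    j*(120 + i*(164 + i*(70 + i*9)))))))) + q*(4418092 + i*(15541672 + i*(24112995 + i*(21685225 +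
    i*(12475826 + i*(4769258 + i*(1213468 + i*(198484 + i*(18968 + i*808)))))))) + j*(5098712 +
    i*(15844184 + i*(21296502 + i*(16185820 + i*(7617150 + i*(2276600 + i*(422888 + i*(44752 +
    i*2072))))))) + j*(2253348 + i*(6101472 + i*(6981873 + i*(4378685 + i*(1627172 + i*(358972 +
    i*(43660 + i*2268)))))) + j*(522128 + i*(1202864 + i*(1135844 + i*(562864 + i*(154604 +
    i*(22392 + i*1344))))) + j*(68020 + i*(129384 + i*(96533 + i*(35347 + i*(6378 + i*458)))) +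
    j*(4632 + i*(7032 + i*(3910 + i*(948 + i*86))) + j*(124 + i*(144 + i*(55 + i*7)))))))) +
    q*(3124502 + i*(10755441 + i*(16031081 + i*(13524523 + i*(7068104 + i*(2344368 + i*(482132 +
    i*(56228 + i*2848))))))) + j*(3410412 + i*(9886370 + i*(12189106 + i*(8288662 + i*(3358932 +
    i*(811632 + i*(108344 + i*6168)))))) + j*(1383162 + i*(3374047 + i*(3403365 + i*(1817954 +
    i*(542836 + i*(86016 + i*5660))))) + j*(277096 + i*(559388 + i*(448004 + i*(178144 +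
    i*(35244 + i*2784)))) + j*(29258 + i*(47631 + i*(28827 + i*(7707 + i*772))) + j*(1580 +
    i*(1986 + i*(826 + i*114)) + j*(38 + i*(33 + i*7))))))) + q*(2100533 + i*(6366705 +
    i*(8176849 + i*(5770867 + i*(2418064 + i*(601752 + i*(82380 + i*4788)))))) + j*(1762826 +
    i*(4475288 + i*(4693256 + i*(2602568 + i*(804996 + i*(131720 + i*8912))))) + j*(572731 +
    i*(1202857 + i*(1002478 + i*(414534 + i*(85096 + i*6944)))) + j*(92812 + i*(157464 +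
    i*(99348 + i*(27648 + i*2868))) + j*(8075 + i*(10595 + i*(4585 + i*655)) + j*(362 + i*(336 +
    i*76) + j*(5 + i*3)))))) + q*(939473 + i*(2393789 + i*(2518567 + i*(1400467 + i*(434078 +
    i*(71114 + i*4812))))) + j*(622844 + i*(1318818 + i*(1107584 + i*(461166 + i*(95210 +
    i*7800)))) + j*(164751 + i*(281778 + i*(179128 + i*(50175 + i*5228))) + j*(22440 + i*(29504 +
    i*(12788 + i*1828)) + j*(1663 + i*(1521 + i*341) + j*(60 + i*30 + j))))) + q*(261957 +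
    i*(550997 + i*(459869 + i*(190343 + i*(39070 + i*3182)))) + j*(145658 + i*(247512 +
    i*(156390 + i*(43548 + i*4510))) + j*(32810 + i*(42642 + i*(18289 + i*2589)) + j*(3792 +
    i*(3384 + i*744) + j*(225 + i*105 + j*6)))) + q*(48973 + i*(82435 + i*(51623 + i*(14253 +
    i*1464))) + j*(23444 + i*(30086 + i*(12754 + i*1786)) + j*(4448 + i*(3891 + i*841) + j*(400 +
    i*180 + j*15))) + q*(6455 + i*(8195 + i*(3439 + i*477)) + j*(2590 + i*(2232 + i*476) +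
    j*(375 + i*165 + j*20)) + q*(595 + i*(507 + i*107) + j*(180 + i*78 + j*15) + q*(35 + i*15 +
    j*6 + q))))))))) := by
    unfold Q3; ring
  rw [e]; positivity

lemma QA4 (i j q : ℝ) (hi : 0 ≤ i) (hj : 0 ≤ j) (hq : 0 ≤ q) :
    0 ≤ Q4 (i + 2) (i + 3 + j) (2 * i + 5 + j + q) q (2 * (i + 2) * (i + 4)) := by
  have e : Q4 (i + 2) (i + 3 + j) (2 * i + 5 + j + q) q (2 * (i + 2) * (i + 4)) =
    1309312 + i*(5230076 + i*(9013372 + i*(8838875 + i*(5452402 + i*(2198454 + i*(580096 + i*(96644 +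
    i*(9224 + i*384)))))))) + j*(1950016 + i*(6930168 + i*(10480848 + i*(8843694 + i*(4564830 +
    i*(1478136 + i*(293456 + i*(32664 + i*1560))))))) + j*(1062080 + i*(3321620 + i*(4326364 +
    i*(3052153 + i*(1262020 + i*(306148 + i*(40352 + i*2228)))))) + j*(303232 + i*(817232 +
    i*(889856 + i*(502324 + i*(155212 + i*(24888 + i*1616))))) + j*(50176 + i*(113252 + i*(98740 +
    i*(41597 + i*(8458 + i*662)))) + j*(4672 + i*(8504 + i*(5552 + i*(1534 + i*150))) + j*(192 +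
    i*(268 + i*(116 + i*15)))))))) + q*(1900656 + i*(8113628 + i*(14725192 + i*(15110007 +
    i*(9739490 + i*(4111746 + i*(1141384 + i*(201492 + i*(20576 + i*928)))))))) + j*(3147168 +
    i*(10935616 + i*(16209384 + i*(13452844 + i*(6863850 + i*(2211776 + i*(440896 + i*(49856 +
    i*2456))))))) + j*(1730192 + i*(5079036 + i*(6251088 + i*(4194163 + i*(1661732 + i*(390036 +
    i*(50408 + i*2780)))))) + j*(462528 + i*(1141664 + i*(1148176 + i*(603712 + i*(175620 +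
    i*(26928 + i*1712))))) + j*(65168 + i*(133012 + i*(105896 + i*(41229 + i*(7898 + i*602)))) +
    j*(4512 + i*(7456 + i*(4488 + i*(1172 + i*114))) + j*(112 + i*(148 + i*(64 + i*9)))))))) +
    q*(3050424 + i*(11234605 + i*(17615822 + i*(15445315 + i*(8313848 + i*(2820992 + i*(590464 +
    i*(69820 + i*3576))))))) + j*(3486880 + i*(10742362 + i*(13922886 + i*(9866922 + i*(4138068 +
    i*(1028856 + i*(140648 + i*8168)))))) + j*(1483256 + i*(3840747 + i*(4076324 + i*(2274178 +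
    i*(704724 + i*(115232 + i*7784))))) + j*(308096 + i*(663180 + i*(561084 + i*(233704 +
    i*(48044 + i*3912)))) + j*(33064 + i*(57859 + i*(37158 + i*(10403 + i*1076))) + j*(1760 +
    i*(2394 + i*(1054 + i*150)) + j*(40 + i*(37 + i*8))))))) + q*(2584392 + i*(7889277 +
    i*(10174200 + i*(7195023 + i*(3016628 + i*(750520 + i*(102680 + i*5964)))))) + j*(2196848 +
    i*(5675644 + i*(6030006 + i*(3375304 + i*(1050732 + i*(172624 + i*11704))))) + j*(728952 +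
    i*(1564961 + i*(1325544 + i*(554142 + i*(114444 + i*9352)))) + j*(121248 + i*(209248 +
    i*(133284 + i*(37152 + i*3828))) + j*(10808 + i*(14047 + i*(5968 + i*827)) + j*(496 + i*(420 +
    i*86) + j*(8 + i*3)))))) + q*(1125944 + i*(2863309 + i*(3003118 + i*(1663241 + i*(513170 +
    i*(83658 + i*5632))))) + j*(770928 + i*(1629910 + i*(1363660 + i*(564418 + i*(115598 +
    i*9376)))) + j*(207600 + i*(351130 + i*(220044 + i*(60533 + i*6168))) + j*(27872 + i*(35208 +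
    i*(14612 + i*1988)) + j*(1880 + i*(1545 + i*310) + j*(48 + i*18))))) + q*(289576 + i*(603621 +
    i*(498856 + i*(204285 + i*(41450 + i*3334)))) + j*(162304 + i*(270280 + i*(167124 + i*(45452 +
    i*4586))) + j*(34688 + i*(43062 + i*(17608 + i*2367)) + j*(3360 + i*(2720 + i*540) + j*(120 +
    i*45)))) + q*(47208 + i*(77727 + i*(47578 + i*(12825 + i*1284))) + j*(20864 + i*(25606 +
    i*(10366 + i*1382)) + j*(3160 + i*(2535 + i*500) + j*(160 + i*60))) + q*(4888 + i*(5951 +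
    i*(2392 + i*317)) + j*(1520 + i*(1212 + i*238) + j*(120 + i*45)) + q*(296 + i*(235 + i*46) +
    j*(48 + i*18) + q*(8 + i*3))))))))) := by
    unfold Q4; ring
  rw [e]; positivity

lemma QA5 (i j q : ℝ) (hi : 0 ≤ i) (hj : 0 ≤ j) (hq : 0 ≤ q) :
    0 ≤ Q5 (i + 2) (i + 3 + j) (2 * i + 5 + j + q) q (2 * (i + 2) * (i + 4)) := by
  have e : Q5 (i + 2) (i + 3 + j) (2 * i + 5 + j + q) q (2 * (i + 2) * (i + 4)) =
    17624 + i*(52508 + i*(64958 + i*(43375 + i*(16906 + i*(3846 + i*(472 + i*24)))))) + j*(33184 +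
    i*(84608 + i*(87760 + i*(47416 + i*(14070 + i*(2172 + i*136))))) + j*(13648 + i*(29304 +
    i*(24508 + i*(9966 + i*(1966 + i*150)))) + j*(2336 + i*(4064 + i*(2560 + i*(688 + i*66))) +
    j*(152 + i*(204 + i*(86 + i*11)))))) + q*(44372 + i*(151708 + i*(210531 + i*(156089 +
    i*(67374 + i*(17030 + i*(2344 + i*136)))))) + j*(47024 + i*(123648 + i*(131500 + i*(72736 +
    i*(22154 + i*(3536 + i*232))))) + j*(14488 + i*(30776 + i*(25362 + i*(10170 + i*(1994 +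
    i*154)))) + j*(1648 + i*(2848 + i*(1772 + i*(472 + i*46))) + j*(52 + i*(76 + i*(35 +
    i*5)))))) + q*(72244 + i*(185688 + i*(195515 + i*(108042 + i*(33074 + i*(5322 + i*352))))) +
    j*(42272 + i*(89600 + i*(74576 + i*(30480 + i*(6122 + i*484)))) + j*(8440 + i*(14360 +
    i*(8954 + i*(2422 + i*240))) + j*(672 + i*(864 + i*(360 + i*48)) + j*(20 + i*(16 + i*3))))) +
    q*(30120 + i*(62888 + i*(51774 + i*(20998 + i*(4194 + i*330)))) + j*(12544 + i*(20992 +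
    i*(12936 + i*(3472 + i*342))) + j*(1704 + i*(2136 + i*(870 + i*114)) + j*(80 + i*(64 +
    i*12)))) + q*(5600 + i*(9276 + i*(5668 + i*(1511 + i*148))) + j*(1600 + i*(1984 + i*(800 +
    i*104)) + j*(120 + i*(96 + i*18))) + q*(516 + i*(636 + i*(255 + i*33)) + j*(80 + i*(64 +
    i*12)) + q*(20 + i*(16 + i*3))))))) := by
    unfold Q5; ring
  rw [e]; positivity

lemma QA6 (i j q : ℝ) (hi : 0 ≤ i) (hj : 0 ≤ j) (hq : 0 ≤ q) :
    0 ≤ Q6 (i + 2) (i + 3 + j) (2 * i + 5 + j + q) q (2 * (i + 2) * (i + 4)) := by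
  have e : Q6 (i + 2) (i + 3 + j) (2 * i + 5 + j + q) q (2 * (i + 2) * (i + 4)) =
    56 + i*(58 + i*(19 + i*2)) + j*(144 + i*(156 + i*(54 + i*6)) + j*(24 + i*(18 + i*3))) + q*(568 +
    i*(810 + i*(423 + i*(96 + i*8))) + j*(160 + i*(168 + i*(56 + i*6)) + j*(8 + i*(6 + i))) +
    q*(136 + i*(150 + i*(53 + i*6)) + j*(16 + i*(12 + i*2)) + q*(8 + i*(6 + i)))) := by
    unfold Q6; ring
  rw [e]; positivity

lemma QB0 (j q : ℝ) (hj : 0 ≤ j) (hq : 0 ≤ q) :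
    0 < Q0 1 (3 + j) (4 + j + q) q 6 := by
  have e : Q0 1 (3 + j) (4 + j + q) q 6 =
    5 + j + q*(10 + j*2 + q*(5 + j)) := by
    unfold Q0; ring
  rw [e]; positivity

lemma QB1 (j q : ℝ) (hj : 0 ≤ j) (hq : 0 ≤ q) :
    0 ≤ Q1 1 (3 + j) (4 + j + q) q 6 := by
  have e : Q1 1 (3 + j) (4 + j + q) q 6 =
    446 + j*(374 + j*(135 + j*(26 + j*2))) + q*(2258 + j*(1852 + j*(552 + j*(74 + j*4))) + q*(1333 +
    j*(1076 + j*(312 + j*(40 + j*2))) + q*(330 + j*(236 + j*(54 + j*4)) + q*(62 + j*(28 + j*3) +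
    q*(10 + j*2 + q))))) := by
    unfold Q1; ring
  rw [e]; positivity

lemma QB2 (j q : ℝ) (hj : 0 ≤ j) (hq : 0 ≤ q) :
    0 ≤ Q2 1 (3 + j) (4 + j + q) q 6 := by
  have e : Q2 1 (3 + j) (4 + j + q) q 6 =
    3964 + j*(4380 + j*(2370 + j*(776 + j*(153 + j*(18 + j))))) + q*(40236 + j*(43808 + j*(19834 +
    j*(4940 + j*(722 + j*(58 + j*2))))) + q*(27830 + j*(31680 + j*(14432 + j*(3432 + j*(453 +
    j*(32 + j))))) + q*(12350 + j*(12996 + j*(5158 + j*(992 + j*(96 + j*4)))) + q*(4803 +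
    j*(3874 + j*(1147 + j*(152 + j*8))) + q*(1444 + j*(846 + j*(170 + j*12)) + q*(295 + j*(120 +
    j*13) + q*(36 + j*8 + q*2))))))) := by
    unfold Q2; ring
  rw [e]; positivity

lemma QB3 (j q : ℝ) (hj : 0 ≤ j) (hq : 0 ≤ q) :
    0 ≤ Q3 1 (3 + j) (4 + j + q) q 6 := by
  have e : Q3 1 (3 + j) (4 + j + q) q 6 =
    15176 + j*(26760 + j*(21204 + j*(9280 + j*(2298 + j*(306 + j*17))))) + q*(226744 + j*(319056 +
    j*(183408 + j*(55808 + j*(9402 + j*(816 + j*28))))) + q*(182940 + j*(263736 + j*(141444 +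
    j*(37404 + j*(5229 + j*(378 + j*12))))) + q*(141528 + j*(168264 + j*(75228 + j*(16616 +
    j*(1950 + j*(114 + j*2))))) + q*(90978 + j*(85938 + j*(32055 + j*(6148 + j*(648 + j*(36 +
    j))))) + q*(39018 + j*(31200 + j*(10104 + j*(1692 + j*(150 + j*6)))) + q*(11331 + j*(7842 +
    j*(2148 + j*(280 + j*15))) + q*(2286 + j*(1314 + j*(270 + j*20)) + q*(312 + j*(132 + j*15) +
    q*(26 + j*6 + q))))))))) := by
    unfold Q3; ring
  rw [e]; positivity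

lemma QB4 (j q : ℝ) (hj : 0 ≤ j) (hq : 0 ≤ q) :
    0 ≤ Q4 1 (3 + j) (4 + j + q) q 6 := by
  have e : Q4 1 (3 + j) (4 + j + q) q 6 =
    22384 + j*(49080 + j*(39996 + j*(16784 + j*(3918 + j*(486 + j*25))))) + q*(50920 + j*(134688 +
    j*(104460 + j*(37448 + j*(6834 + j*(600 + j*19))))) + q*(107252 + j*(188880 + j*(112296 +
    j*(31492 + j*(4551 + j*(336 + j*11))))) + q*(157348 + j*(191016 + j*(89472 + j*(21288 +
    j*(2787 + j*(192 + j*5))))) + q*(112250 + j*(109374 + j*(42183 + j*(8168 + j*(795 + j*30)))) +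
    q*(45046 + j*(35856 + j*(10857 + j*(1480 + j*75))) + q*(10985 + j*(6792 + j*(1425 + j*100)) +
    q*(1633 + j*(696 + j*75) + q*(137 + j*30 + q*5)))))))) := by
    unfold Q4; ring
  rw [e]; positivity

lemma QB5 (j q : ℝ) (hj : 0 ≤ j) (hq : 0 ≤ q) :
    0 ≤ Q5 1 (3 + j) (4 + j + q) q 6 := by
  have e : Q5 1 (3 + j) (4 + j + q) q 6 =
    2096 + j*(3080 + j*(1470 + j*(302 + j*23))) + q*(1544 + j*(2940 + j*(1218 + j*(170 + j*6))) +
    q*(5518 + j*(4498 + j*(1254 + j*(148 + j*7))) + q*(3582 + j*(2090 + j*(408 + j*28)) + q*(983 +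
    j*(396 + j*42) + q*(130 + j*28 + q*7))))) := by
    unfold Q5; ring
  rw [e]; positivity

lemma QB6 (j q : ℝ) (hj : 0 ≤ j) (hq : 0 ≤ q) :
    0 ≤ Q6 1 (3 + j) (4 + j + q) q 6 := by
  have e : Q6 1 (3 + j) (4 + j + q) q 6 =
    60 + j*(54 + j*9) + q*(138 + j*(48 + j*3) + q*(39 + j*6 + q*3)) := by
    unfold Q6; ring
  rw [e]; positivity

end Pool.Agent.H76.BP
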