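import Pool.Agent.H76.BP.Alg

/-!
# The comparison function
-/

set_option autoImplicit false
open Filter Topology Set

namespace Pool.Agent.H76.BP

/-- the polynomial which is positive for a strict subsolution. -/
noncomputable def FF (m k q z z' X : ℝ) : ℝ :=
  (z - 2 * X * z') * (1 + X) * ((1 - q) * z ^ 2 + (1 + q) * (m + k + q) ^ 2 * X)
    - (z ^ 2 + (m + k + q) ^ 2 * X) * ((1 + q) * (2 - q) * (m + k + q) * X
      + (1 - q) * z * (z - k + 1 + (m - 1) * X))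

/-- the same with denominators cleared. -/
noncomputable def GG (m k q D N N' L X : ℝ) : ℝ :=
  (N * L - 2 * X * N') * (1 + X) * ((1 - q) * N ^ 2 + (1 + q) * D ^ 2 * X * L ^ 2)
    - (N ^ 2 + D ^ 2 * X * L ^ 2) * ((1 + q) * (2 - q) * D * X * L ^ 2
      + (1 - q) * N * (N - (k - 1) * L + (m - 1) * X * L))

lemma FF_eq (m k q N N' L X : ℝ) (hL : L ≠ 0) :
    FF m k q (N / L) (N' / L ^ 2) X = GG m k q (m + k + q) N N' L X / L ^ 4 := by
  unfold FF GG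
  rw [eq_div_iff (by positivity)]
  have e1 : N / L * L = N := div_mul_cancel₀ _ hL
  have e2 : N' / L ^ 2 * L ^ 2 = N' := div_mul_cancel₀ _ (by positivity)
  generalize N / L = z at *
  generalize N' / L ^ 2 = z' at *
  subst e1
  subst e2
  ring

/-- the linear comparison function: `p = 2` -/
lemma FF_zero (m k X : ℝ) : FF m k 0 (k - m * X) (-m) X = 0 := by
  unfold FF; ring

/-- the linear comparison function: `m = k` -/
lemma FF_diag (m q X : ℝ) : FF m m q (m - m * X) (-m) X =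
    q * X * (m * (2 * m * (m - 1) + (2 * m ^ 2 + 7 * m) * q + (2 + m) * q ^ 2) * (1 - X) ^ 2
      + (2 * m + q) ^ 2 * (2 * (m - 1) + (2 * m - 1) * q + q ^ 2) * X) := by
  unfold FF; ring

lemma FF_diag_pos (m q X : ℝ) (hm : 1 ≤ m) (hq : 0 < q) (hX : 0 < X) :
    0 < FF m m q (m - m * X) (-m) X := by
  rw [FF_diag]
  obtain ⟨a, ha⟩ : ∃ a, a = m - 1 := ⟨_, rfl⟩
  have ha0 : 0 ≤ a := by rw [ha]; linarith
  have hm' : m = a + 1 := by rw [ha]; ring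
  have h1 : 0 ≤ m * (2 * m * (m - 1) + (2 * m ^ 2 + 7 * m) * q + (2 + m) * q ^ 2) := by
    rw [hm']
    have : (a + 1) * (2 * (a + 1) * (a + 1 - 1) + (2 * (a + 1) ^ 2 + 7 * (a + 1)) * q
      + (2 + (a + 1)) * q ^ 2) = (a + 1) * (2 * (a + 1) * a + (2 * (a + 1) ^ 2 + 7 * (a + 1)) * q
      + (2 + (a + 1)) * q ^ 2) := by ring
    rw [this]; positivity
  have h2 : 0 < (2 * m + q) ^ 2 * (2 * (m - 1) + (2 * m - 1) * q + q ^ 2) := by
    rw [hm']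
    have : (2 * (a + 1) + q) ^ 2 * (2 * (a + 1 - 1) + (2 * (a + 1) - 1) * q + q ^ 2)
      = (2 * (a + 1) + q) ^ 2 * (2 * a + (2 * a + 1) * q + q ^ 2) := by ring
    rw [this]; positivity
  have h3 : 0 ≤ (1 - X) ^ 2 := sq_nonneg _
  have := mul_nonneg h1 h3
  have := mul_pos h2 hX
  have : 0 < q * X := mul_pos hq hX
  apply mul_pos this
  linarith

/-- the general identity -/
lemma GG_id (m k q L X : ℝ) :
    GG m k q (m + k + q) ((k - m * X) * L - q * X) (-m * L ^ 2 - q) L X = q * X *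
      ((m + k + q) ^ 2 * L ^ 4 * (2 * (k + m * X ^ 2) - (m + k + 2 - (m + k - 1) * q - q ^ 2) * X)
      - (3 * (m + k) + 2 - (m + k - 1) * q - q ^ 2) * ((k - m * X) * L - q * X) ^ 2 * L ^ 2
      + (1 - q) * (2 * (1 + X) + (k - (m + 2) * X) * L - q * X)
        * (((k - m * X) * L - q * X) ^ 2 + (m + k + q) ^ 2 * X * L ^ 2)
      + 2 * q * (m + k + q) ^ 2 * X * (1 + X) * L ^ 2 * (2 - L)) := by
  unfold GG; ring

/-- expansion in powers of `T` -/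
lemma PP_expand (m k D q c T : ℝ) :
      D ^ 2 * (1 + c * T) ^ 4 * (2 * (k + m * (D ^ 2 * T) ^ 2) - (D + 2 - D * q) * (D ^ 2 * T))
      - (3 * D - 2 * q + 2 - D * q) * ((k - m * (D ^ 2 * T)) * (1 + c * T) - q * (D ^ 2 * T)) ^ 2
        * (1 + c * T) ^ 2
      + (1 - q) * (2 * (1 + (D ^ 2 * T)) + (k - (m + 2) * (D ^ 2 * T)) * (1 + c * T)
          - q * (D ^ 2 * T))
        * (((k - m * (D ^ 2 * T)) * (1 + c * T) - q * (D ^ 2 * T)) ^ 2
          + D ^ 2 * (D ^ 2 * T) * (1 + c * T) ^ 2)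
      + 2 * q * D ^ 2 * (D ^ 2 * T) * (1 + (D ^ 2 * T)) * (1 + c * T) ^ 2 * (2 - (1 + c * T))
    = k * Q0 m k D q c + Q1 m k D q c * T + Q2 m k D q c * T ^ 2 + Q3 m k D q c * T ^ 3
      + c * Q4 m k D q c * T ^ 4 + D ^ 2 * c ^ 2 * Q5 m k D q c * T ^ 5
      + m * D ^ 4 * c ^ 3 * Q6 m k D q c * T ^ 6 := by
  unfold Q0 Q1 Q2 Q3 Q4 Q5 Q6; ring

/-- positivity in the general case -/
lemma FF_gen_pos (m k q X c : ℝ) (hm : 0 < m) (hk : 0 < k) (hq : 0 < q) (hX : 0 < X) (hc : 0 ≤ c)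
    (h0 : 0 < Q0 m k (m + k + q) q c) (h1 : 0 ≤ Q1 m k (m + k + q) q c)
    (h2 : 0 ≤ Q2 m k (m + k + q) q c) (h3 : 0 ≤ Q3 m k (m + k + q) q c)
    (h4 : 0 ≤ Q4 m k (m + k + q) q c) (h5 : 0 ≤ Q5 m k (m + k + q) q c)
    (h6 : 0 ≤ Q6 m k (m + k + q) q c) :
    0 < FF m k q (((k - m * X) * (1 + c / (m + k + q) ^ 2 * X) - q * X)
        / (1 + c / (m + k + q) ^ 2 * X))
      ((-m * (1 + c / (m + k + q) ^ 2 * X) ^ 2 - q) / (1 + c / (m + k + q) ^ 2 * X) ^ 2) X := by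
  have hL : 0 < 1 + c / (m + k + q) ^ 2 * X := by positivity
  rw [FF_eq _ _ _ _ _ _ _ hL.ne', GG_id]
  apply div_pos _ (by positivity)
  apply mul_pos (mul_pos hq hX)
  obtain ⟨D, hD⟩ : ∃ D, D = m + k + q := ⟨_, rfl⟩
  have hD0 : 0 < D := by rw [hD]; positivity
  obtain ⟨T, hT⟩ : ∃ T, T = X / D ^ 2 := ⟨_, rfl⟩
  have hT0 : 0 < T := by rw [hT]; positivity
  have hXT : X = D ^ 2 * T := by rw [hT]; field_simp
  have hcT : c / (m + k + q) ^ 2 * X = c * T := by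
    rw [hT, ← hD]; ring
  have e1 : m + k + 2 - (m + k - 1) * q - q ^ 2 = D + 2 - D * q := by rw [hD]; ring
  have e2 : 3 * (m + k) + 2 - (m + k - 1) * q - q ^ 2 = 3 * D - 2 * q + 2 - D * q := by
    rw [hD]; ring
  rw [hcT, e1, e2, ← hD, hXT, PP_expand]
  rw [← hD] at h0 h1 h2 h3 h4 h5 h6
  generalize Q0 m k D q c = a0 at *
  generalize Q1 m k D q c = a1 at *
  generalize Q2 m k D q c = a2 at *
  generalize Q3 m k D q c = a3 at *
  generalize Q4 m k D q c = a4 at *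
  generalize Q5 m k D q c = a5 at *
  generalize Q6 m k D q c = a6 at *
  positivity

/-- the case `(m, k) = (1, 2)` -/
lemma GG_12 (q X : ℝ) : GG 1 2 q (1 + 2 + q) ((2 - X) * ((5 - q) * (9 + 4 * X)) - 36 * q * X)
    (-((5 - q) * (9 + 4 * X)) ^ 2 - 324 * q * (5 - q)) ((5 - q) * (9 + 4 * X)) X =
    q * X^1 * (19683000*(1 - q)^6 + 191581200*q*(1 - q)^5 + 620408160*q^2*(1 - q)^4 +
    959060736*q^3*(1 - q)^3 + 779341824*q^4*(1 - q)^2 + 322486272*q^5*(1 - q) + 53747712*q^6) +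
    q * X^2 * (48387375*(1 - q)^8 + 640645200*q*(1 - q)^7 + 3032705610*q^2*(1 - q)^6 +
    7445848536*q^3*(1 - q)^5 + 10779087312*q^4*(1 - q)^4 + 9598538880*q^5*(1 - q)^3 +
    5187960576*q^6*(1 - q)^2 + 1566148608*q^7*(1 - q) + 203046912*q^8) + q * X^3 * (43729875*(1 -
    q)^8 + 587448450*q*(1 - q)^7 + 2825716995*q^2*(1 - q)^6 + 7063657164*q^3*(1 - q)^5 +
    10427481864*q^4*(1 - q)^4 + 9476984448*q^5*(1 - q)^3 + 5229277056*q^6*(1 - q)^2 +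
    1611104256*q^7*(1 - q) + 213000192*q^8) + q * X^4 * (19579500*(1 - q)^8 + 202122000*q*(1 -
    q)^7 + 892474920*q^2*(1 - q)^6 + 2210018544*q^3*(1 - q)^5 + 3358470636*q^4*(1 - q)^4 +
    3207140640*q^5*(1 - q)^3 + 1880213760*q^6*(1 - q)^2 + 619333632*q^7*(1 - q) + 87883776*q^8) +
    q * X^5 * (5938000*(1 - q)^8 + 30737600*q*(1 - q)^7 + 87132800*q^2*(1 - q)^6 +
    205779392*q^3*(1 - q)^5 + 378560368*q^4*(1 - q)^4 + 456635840*q^5*(1 - q)^3 +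
    328605696*q^6*(1 - q)^2 + 127758336*q^7*(1 - q) + 20676608*q^8) + q * X^6 * (1640000*(1 -
    q)^8 + 15059200*q*(1 - q)^7 + 65704320*q^2*(1 - q)^6 + 166976768*q^3*(1 - q)^5 +
    261633856*q^4*(1 - q)^4 + 255716352*q^5*(1 - q)^3 + 151872512*q^6*(1 - q)^2 +
    50176000*q^7*(1 - q) + 7077888*q^8) + q * X^7 * (256000*(1 - q)^6 + 4262400*q*(1 - q)^5 +
    15806720*q^2*(1 - q)^4 + 25951232*q^3*(1 - q)^3 + 21835776*q^4*(1 - q)^2 + 9256960*q^5*(1 -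
    q) + 1572864*q^6) := by
  unfold GG; ring

lemma FF_12_pos (q X : ℝ) (hq : 0 < q) (hq1 : q < 1) (hX : 0 < X) :
    0 < FF 1 2 q (((2 - X) * ((5 - q) * (9 + 4 * X)) - 36 * q * X) / ((5 - q) * (9 + 4 * X)))
      ((-((5 - q) * (9 + 4 * X)) ^ 2 - 324 * q * (5 - q)) / ((5 - q) * (9 + 4 * X)) ^ 2) X := by
  have h5 : 0 < 5 - q := by linarith
  have hL : 0 < (5 - q) * (9 + 4 * X) := by positivity
  rw [FF_eq _ _ _ _ _ _ _ hL.ne', GG_12]
  apply div_pos _ (by positivity)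
  have hu : 0 < 1 - q := by linarith
  positivity

end Pool.Agent.H76.BP
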