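import Pool.Agent.H76.BP.Contra

/-!
# The function `f'(t) / (2 sin t cos t)`
-/

set_option autoImplicit false
open Filter Topology Set

namespace Pool.Agent.H76.BP

lemma sin_div_tendsto' : Tendsto (fun t : ℝ => Real.sin t / t) (𝓝[>] 0) (𝓝 1) := by
  have h1 : HasDerivAt Real.sin 1 0 := by
    have := Real.hasDerivAt_sin 0
    rwa [Real.cos_zero] at this
  have h2 := (hasDerivWithinAt_iff_tendsto_slope' (s := Ioi (0 : ℝ)) (by simp)).mp
    h1.hasDerivWithinAt
  refine h2.congr' ?_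
  filter_upwards [self_mem_nhdsWithin] with t ht
  rw [slope_def_field, Real.sin_zero, sub_zero, sub_zero]

lemma cos_tendsto' : Tendsto Real.cos (𝓝[>] 0) (𝓝 1) := by
  have := Real.continuous_cos.continuousAt (x := 0)
  have h := this.tendsto.mono_left (nhdsWithin_le_nhds (s := Ioi (0 : ℝ)))
  rwa [Real.cos_zero] at h

lemma sin_tendsto' : Tendsto Real.sin (𝓝[>] 0) (𝓝 0) := by
  have := Real.continuous_sin.continuousAt (x := 0)
  have h := this.tendsto.mono_left (nhdsWithin_le_nhds (s := Ioi (0 : ℝ)))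
  rwa [Real.sin_zero] at h

lemma sin_pos' {t : ℝ} (ht : t ∈ Ioo 0 (Real.pi / 2)) : 0 < Real.sin t :=
  Real.sin_pos_of_pos_of_lt_pi ht.1 (by linarith [ht.2, Real.pi_pos])

lemma cos_pos' {t : ℝ} (ht : t ∈ Ioo 0 (Real.pi / 2)) : 0 < Real.cos t :=
  Real.cos_pos_of_mem_Ioo ⟨by linarith [ht.1, Real.pi_pos], ht.2⟩

section
variable {m k μ β f0 f1 : ℝ} {f f' f'' : ℝ → ℝ}

/-- limit of the second derivative at the pole -/
lemma Full.lim2 (h : Full m k μ β f f' f'' f0 f1) (hβ : 0 < β) (hk : 0 < k) (hμ : 0 < μ) :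
    Tendsto f'' (𝓝[>] 0) (𝓝 (-(β * (μ * β + m + k - 1 - μ) * f0 / k))) := by
  set B := μ * β + m + k - 1 - μ with hB
  set L := -(β * B * f0 / k) with hL
  have hf0 := h.ne0
  have hI : ∀ᶠ t in 𝓝[>] (0 : ℝ), t ∈ Ioo 0 (Real.pi / 2) := Ioo_mem_nhdsGT (by positivity)
  have htan : Tendsto (fun t : ℝ => Real.tan t / t) (𝓝[>] 0) (𝓝 1) := tan_div_tendsto
  have htan0 : Tendsto Real.tan (𝓝[>] 0) (𝓝 0) := by
    have h1 : ContinuousAt Real.tan 0 := by
      refine Real.continuousAt_tan.mpr ?_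
      rw [Real.cos_zero]; exact one_ne_zero
    have h2 := h1.tendsto.mono_left (nhdsWithin_le_nhds (s := Ioi (0 : ℝ)))
    rwa [Real.tan_zero] at h2
  have hid : Tendsto (fun t : ℝ => t) (𝓝[>] 0) (𝓝 0) := nhdsWithin_le_nhds
  have hf'0 : Tendsto f' (𝓝[>] 0) (𝓝 0) := by
    have h1 := h.l0'.mul hid
    rw [mul_zero] at h1
    refine h1.congr' ?_
    filter_upwards [hI] with t ht
    have : t ≠ 0 := ne_of_gt ht.1
    field_simp
  have hN : Tendsto (fun t => β ^ 2 * f t ^ 2 + f' t ^ 2) (𝓝[>] 0) (𝓝 (β ^ 2 * f0 ^ 2)) := by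
    have h1 := ((h.l0.pow 2).const_mul (β ^ 2)).add (hf'0.pow 2)
    simpa using h1
  have hM : Tendsto (fun t => β ^ 2 * f t ^ 2 + μ * f' t ^ 2) (𝓝[>] 0) (𝓝 (β ^ 2 * f0 ^ 2)) := by
    have h1 := ((h.l0.pow 2).const_mul (β ^ 2)).add ((hf'0.pow 2).const_mul μ)
    simpa using h1
  have hM0 : β ^ 2 * f0 ^ 2 ≠ 0 := by positivity
  have hc : Tendsto (fun t => (k - 1) * (f' t / t / (Real.tan t / t)) - (m - 1) * Real.tan t * f' t)
      (𝓝[>] 0) (𝓝 ((k - 1) * (L / 1) - (m - 1) * 0 * 0)) :=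
    ((h.l0'.div htan one_ne_zero).const_mul (k - 1)).sub ((htan0.const_mul (m - 1)).mul hf'0)
  have hR := (((hc.neg.mul hN).sub (h.l0.mul (((hf'0.pow 2).const_mul ((μ - 1) * β ^ 2)).add
    (hN.const_mul (β * B)))))).div hM hM0
  have e : (-((k - 1) * (L / 1) - (m - 1) * 0 * 0) * (β ^ 2 * f0 ^ 2)
      - f0 * ((μ - 1) * β ^ 2 * 0 ^ 2 + β * B * (β ^ 2 * f0 ^ 2))) / (β ^ 2 * f0 ^ 2) = L := by
    rw [hL]
    field_simp
    ring
  rw [e] at hR
  refine hR.congr' ?_
  filter_upwards [hI] with t ht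
  have ht0 : 0 < t := ht.1
  have htp := tan_pos ht
  have hode := h.ode t ht
  have hMp : 0 < β ^ 2 * f t ^ 2 + μ * f' t ^ 2 := by
    have hn := h.N t ht
    by_cases hft : f' t = 0
    · rw [hft] at hn ⊢
      simpa using hn
    · positivity
  simp only [Pi.div_apply]
  rw [div_eq_iff hMp.ne', hode]
  field_simp
  ring

/-- the function `f'(t) / (2 sin t cos t)`, extended to the poles -/
noncomputable def al (m k μ β : ℝ) (f' : ℝ → ℝ) (f0 f1 : ℝ) (t : ℝ) : ℝ :=
  if t ≤ 0 then -(β * (μ * β + m + k - 1 - μ) * f0 / k) / 2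
  else if Real.pi / 2 ≤ t then (β * (μ * β + m + k - 1 - μ) * f1 / m) / 2
  else f' t / (2 * Real.sin t * Real.cos t)

/-- its derivative -/
noncomputable def al' (f' f'' : ℝ → ℝ) (t : ℝ) : ℝ :=
  (f'' t * (2 * Real.sin t * Real.cos t)
    - f' t * (2 * (Real.cos t ^ 2 - Real.sin t ^ 2))) / (2 * Real.sin t * Real.cos t) ^ 2

lemma al_eq {t : ℝ} (ht : t ∈ Ioo 0 (Real.pi / 2)) :
    al m k μ β f' f0 f1 t = f' t / (2 * Real.sin t * Real.cos t) := by
  unfold al
  rw [if_neg (not_le.mpr ht.1), if_neg (not_le.mpr ht.2)]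

lemma Full.hasDerivAt_al (h : Full m k μ β f f' f'' f0 f1) {t : ℝ}
    (ht : t ∈ Ioo 0 (Real.pi / 2)) :
    HasDerivAt (al m k μ β f' f0 f1) (al' f' f'' t) t := by
  have hs := sin_pos' ht
  have hc := cos_pos' ht
  have h1 : HasDerivAt (fun t => 2 * Real.sin t * Real.cos t)
      (2 * (Real.cos t ^ 2 - Real.sin t ^ 2)) t := by
    have := ((Real.hasDerivAt_sin t).const_mul 2).mul (Real.hasDerivAt_cos t)
    refine this.congr_deriv ?_
    ring
  have h2 := (h.d2 t ht).div h1 (by positivity)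
  refine h2.congr_of_eventuallyEq ?_
  filter_upwards [Ioo_mem_nhds ht.1 ht.2] with s hs
  exact al_eq hs

lemma Full.continuousOn_al' (h : Full m k μ β f f' f'' f0 f1) (hμ : 0 < μ) :
    ContinuousOn (al' f' f'') (Ioo 0 (Real.pi / 2)) := by
  have hfc : ContinuousOn f (Ioo 0 (Real.pi / 2)) :=
    fun t ht => (h.d1 t ht).continuousAt.continuousWithinAt
  have hf'c : ContinuousOn f' (Ioo 0 (Real.pi / 2)) :=
    fun t ht => (h.d2 t ht).continuousAt.continuousWithinAt
  have htan : ContinuousOn Real.tan (Ioo 0 (Real.pi / 2)) :=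
    fun t ht => (hasDerivAt_tan ht).continuousAt.continuousWithinAt
  have hMp : ∀ t ∈ Ioo 0 (Real.pi / 2), β ^ 2 * f t ^ 2 + μ * f' t ^ 2 ≠ 0 := by
    intro t ht
    have hn := h.N t ht
    by_cases hft : f' t = 0
    · rw [hft] at hn ⊢
      simpa using hn.ne'
    · positivity
  have hf''c : ContinuousOn f'' (Ioo 0 (Real.pi / 2)) := by
    have h1 : ContinuousOn (fun t => (-((k - 1) / Real.tan t - (m - 1) * Real.tan t) * f' t
        * (β ^ 2 * f t ^ 2 + f' t ^ 2)
      - f t * ((μ - 1) * β ^ 2 * f' t ^ 2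
        + β * (μ * β + m + k - 1 - μ) * (β ^ 2 * f t ^ 2 + f' t ^ 2)))
        / (β ^ 2 * f t ^ 2 + μ * f' t ^ 2)) (Ioo 0 (Real.pi / 2)) := by
      refine ContinuousOn.div ?_ (by fun_prop) hMp
      have h2 : ContinuousOn (fun t => (k - 1) / Real.tan t) (Ioo 0 (Real.pi / 2)) :=
        continuousOn_const.div htan fun t ht => (tan_pos ht).ne'
      fun_prop
    refine h1.congr fun t ht => ?_
    rw [eq_div_iff (hMp t ht), h.ode t ht]
  unfold al'
  refine ContinuousOn.div (by fun_prop) (by fun_prop) fun t ht => ?_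
  have := sin_pos' ht
  have := cos_pos' ht
  positivity

lemma Full.al'_lim (h : Full m k μ β f f' f'' f0 f1) (hβ : 0 < β) (hk : 0 < k) (hμ : 0 < μ) :
    Tendsto (fun t => al' f' f'' t * (Real.sin t * Real.cos t)) (𝓝[>] 0) (𝓝 0) := by
  have hI : ∀ᶠ t in 𝓝[>] (0 : ℝ), t ∈ Ioo 0 (Real.pi / 2) := Ioo_mem_nhdsGT (by positivity)
  have h1 := h.lim2 hβ hk hμ
  have h2 := h.l0'
  set L := -(β * (μ * β + m + k - 1 - μ) * f0 / k)
  have h3 : Tendsto (fun t => f'' t / 2 - (f' t / t) * (Real.cos t ^ 2 - Real.sin t ^ 2)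
      / (2 * (Real.sin t / t) * Real.cos t)) (𝓝[>] 0)
      (𝓝 (L / 2 - L * (1 ^ 2 - 0 ^ 2) / (2 * 1 * 1))) :=
    (h1.div_const 2).sub ((h2.mul ((cos_tendsto'.pow 2).sub (sin_tendsto'.pow 2))).div
      ((sin_div_tendsto'.const_mul 2).mul cos_tendsto') (by norm_num))
  have e : L / 2 - L * (1 ^ 2 - 0 ^ 2) / (2 * 1 * 1) = 0 := by ring
  rw [e] at h3
  refine h3.congr' ?_
  filter_upwards [hI] with t ht
  have ht0 : 0 < t := ht.1
  have hs := sin_pos' ht
  have hc := cos_pos' ht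
  unfold al'
  field_simp

lemma Full.al_lim0 (h : Full m k μ β f f' f'' f0 f1) :
    Tendsto (al m k μ β f' f0 f1) (𝓝[>] 0) (𝓝 (-(β * (μ * β + m + k - 1 - μ) * f0 / k) / 2)) := by
  have hI : ∀ᶠ t in 𝓝[>] (0 : ℝ), t ∈ Ioo 0 (Real.pi / 2) := Ioo_mem_nhdsGT (by positivity)
  have h2 := h.l0'
  set L := -(β * (μ * β + m + k - 1 - μ) * f0 / k)
  have h3 : Tendsto (fun t => (f' t / t) / (2 * (Real.sin t / t) * Real.cos t)) (𝓝[>] 0)
      (𝓝 (L / (2 * 1 * 1))) :=
    h2.div ((sin_div_tendsto'.const_mul 2).mul cos_tendsto') (by norm_num)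
  have e : L / (2 * 1 * 1) = L / 2 := by ring
  rw [e] at h3
  refine h3.congr' ?_
  filter_upwards [hI] with t ht
  have ht0 : 0 < t := ht.1
  have hs := sin_pos' ht
  have hc := cos_pos' ht
  rw [al_eq ht]
  field_simp

lemma al_refl (t : ℝ) : al k m μ β (fun t => -f' (Real.pi / 2 - t)) f1 f0 t
    = -al m k μ β f' f0 f1 (Real.pi / 2 - t) := by
  unfold al
  have e : μ * β + k + m - 1 - μ = μ * β + m + k - 1 - μ := by ring
  by_cases h1 : t ≤ 0
  · rw [if_pos h1, if_neg, if_pos (by linarith), e, neg_div]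
    intro h; linarith [Real.pi_pos]
  · rw [if_neg h1]
    push Not at h1
    by_cases h2 : Real.pi / 2 ≤ t
    · rw [if_pos h2, if_pos (by linarith), e]
      ring
    · rw [if_neg h2, if_neg (by push Not; linarith [not_le.mp h2]), if_neg (by push Not; linarith)]
      rw [Real.sin_pi_div_two_sub, Real.cos_pi_div_two_sub]
      ring

lemma al'_refl (t : ℝ) : al' (fun t => -f' (Real.pi / 2 - t)) (fun t => f'' (Real.pi / 2 - t)) t
    = al' f' f'' (Real.pi / 2 - t) := by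
  unfold al'
  rw [Real.sin_pi_div_two_sub, Real.cos_pi_div_two_sub]
  ring

lemma tendsto_refl : Tendsto (fun t : ℝ => Real.pi / 2 - t) (𝓝[<] (Real.pi / 2)) (𝓝[>] 0) := by
  rw [tendsto_nhdsWithin_iff]
  constructor
  · have : Continuous fun t : ℝ => Real.pi / 2 - t := by fun_prop
    have h1 := (this.continuousAt (x := Real.pi / 2)).tendsto.mono_left
      (nhdsWithin_le_nhds (s := Iio (Real.pi / 2)))
    simpa using h1
  · filter_upwards [self_mem_nhdsWithin] with t ht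
    have : t < Real.pi / 2 := ht
    rw [mem_Ioi]; linarith

lemma Full.al'_lim1 (h : Full m k μ β f f' f'' f0 f1) (hβ : 0 < β) (hm : 0 < m) (hμ : 0 < μ) :
    Tendsto (fun t => al' f' f'' t * (Real.sin t * Real.cos t)) (𝓝[<] (Real.pi / 2)) (𝓝 0) := by
  have h1 := (h.refl.al'_lim hβ hm hμ).comp tendsto_refl
  refine h1.congr fun t => ?_
  simp only [Function.comp_apply]
  rw [al'_refl, Real.sin_pi_div_two_sub, Real.cos_pi_div_two_sub, sub_sub_cancel]
  ring

lemma Full.continuousOn_al (h : Full m k μ β f f' f'' f0 f1) :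
    ContinuousOn (al m k μ β f' f0 f1) (Icc 0 (Real.pi / 2)) := by
  have hpi : (0 : ℝ) < Real.pi / 2 := by positivity
  intro t ht
  rcases eq_or_lt_of_le ht.1 with h0 | h0
  · subst h0
    have h1 : ContinuousWithinAt (al m k μ β f' f0 f1) (Ioi 0) 0 := by
      have := h.al_lim0
      unfold ContinuousWithinAt
      convert! this using 2
      unfold al
      rw [if_pos (le_refl _)]
    have h2 : ContinuousWithinAt (al m k μ β f' f0 f1) (Ici 0) 0 := by
      rw [← Ioi_insert]; exact h1.insert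
    exact h2.mono Icc_subset_Ici_self
  · rcases eq_or_lt_of_le ht.2 with h1 | h1
    · subst h1
      have h2 : Tendsto (al m k μ β f' f0 f1) (𝓝[<] (Real.pi / 2))
          (𝓝 (al m k μ β f' f0 f1 (Real.pi / 2))) := by
        have h3 := (h.refl.al_lim0.comp tendsto_refl).neg
        have e1 : - (-(β * (μ * β + k + m - 1 - μ) * f1 / m) / 2)
            = al m k μ β f' f0 f1 (Real.pi / 2) := by
          unfold al
          rw [if_neg (not_le.mpr h0), if_pos (le_refl _)]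
          ring
        rw [e1] at h3
        refine h3.congr fun t => ?_
        simp only [Function.comp_apply]
        rw [al_refl, sub_sub_cancel, neg_neg]
      have h3 : ContinuousWithinAt (al m k μ β f' f0 f1) (Iio (Real.pi / 2)) (Real.pi / 2) := h2
      have h4 : ContinuousWithinAt (al m k μ β f' f0 f1) (Iic (Real.pi / 2)) (Real.pi / 2) := by
        rw [← Iio_insert]; exact h3.insert
      exact h4.mono Icc_subset_Iic_self
    · exact (h.hasDerivAt_al ⟨h0, h1⟩).continuousAt.continuousWithinAt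

end

end Pool.Agent.H76.BP
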