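import Pool.Agent.H76.BP.Alg2

/-!
# Comparison from a pole
-/

set_option autoImplicit false
open Filter Topology Set

namespace Pool.Agent.H76.BP

/-- the right hand side of the first order equation -/
noncomputable def RR (μ β m k X Z : ℝ) : ℝ :=
  Z - (Z ^ 2 + X) * (μ * β * X + (μ * β + m + k - 1 - μ) * Z ^ 2 - (k - 1) * Z + (m - 1) * X * Z)
    / ((1 + X) * (Z ^ 2 + μ * X))

lemma sub_of_FF {m k q μ β z z' X : ℝ} (hm : 0 < m) (hk : 0 < k) (hq : 0 ≤ q) (hq1 : q < 1)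
    (hμ : μ = (1 + q) / (1 - q)) (hβ : β ≤ 2 - q) (hX : 0 < X) (h : 0 ≤ FF m k q z z' X)
    (h' : 0 < FF m k q z z' X ∨ β < 2 - q) :
    2 * X * z' / (m + k + q) < RR μ β m k X (z / (m + k + q)) := by
  have hu : 0 < 1 - q := by linarith
  have hD : 0 < m + k + q := by positivity
  have hμ0 : 0 < μ := by rw [hμ]; positivity
  set Z := z / (m + k + q) with hZ
  have hden : 0 < (1 + X) * (Z ^ 2 + μ * X) := by positivity
  have key : (RR μ β m k X Z - 2 * X * z' / (m + k + q)) * ((1 + X) * (Z ^ 2 + μ * X))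
      = FF m k q z z' X / ((m + k + q) ^ 3 * (1 - q)) + (2 - q - β) * μ * (Z ^ 2 + X) ^ 2 := by
    unfold RR FF
    rw [sub_mul, sub_mul, div_mul_cancel₀ _ hden.ne', hZ, hμ]
    field_simp
    ring
  have hpos : 0 < FF m k q z z' X / ((m + k + q) ^ 3 * (1 - q))
      + (2 - q - β) * μ * (Z ^ 2 + X) ^ 2 := by
    rcases h' with h' | h'
    · have h1 : 0 < FF m k q z z' X / ((m + k + q) ^ 3 * (1 - q)) := by positivity
      have h2 : 0 ≤ (2 - q - β) * μ * (Z ^ 2 + X) ^ 2 := by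
        have : 0 ≤ 2 - q - β := by linarith
        positivity
      linarith
    · have h1 : 0 ≤ FF m k q z z' X / ((m + k + q) ^ 3 * (1 - q)) := by positivity
      have h2 : 0 < (2 - q - β) * μ * (Z ^ 2 + X) ^ 2 := by
        have : 0 < 2 - q - β := by linarith
        positivity
      linarith
  rw [← key] at hpos
  have := (pos_iff_pos_of_mul_pos hpos).mpr hden
  linarith

/-- the difference quotient of `RR` -/
noncomputable def QF (μ β m k X Z Y : ℝ) : ℝ :=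
  1 - (Z ^ 2 + X) / (Z ^ 2 + μ * X)
      * (((μ * β + m + k - 1 - μ) * (Z + Y) - (k - 1) + (m - 1) * X) / (1 + X))
    - (μ * β * X + (μ * β + m + k - 1 - μ) * Y ^ 2 - (k - 1) * Y + (m - 1) * X * Y) / (1 + X)
      * ((μ - 1) * X * (Z + Y) / ((Z ^ 2 + μ * X) * (Y ^ 2 + μ * X)))

lemma RR_sub {μ β m k X Z Y : ℝ} (hμ : 0 < μ) (hX : 0 < X) :
    RR μ β m k X Z - RR μ β m k X Y = (Z - Y) * QF μ β m k X Z Y := by
  have h1 : 0 < Z ^ 2 + μ * X := by positivity
  have h2 : 0 < Y ^ 2 + μ * X := by positivity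
  have h3 : 0 < 1 + X := by positivity
  unfold RR QF
  field_simp
  ring

lemma QF_tendsto {μ β m k z : ℝ} {l : Filter ℝ} {X Z Y : ℝ → ℝ} (hz : 0 < z)
    (hzk : (μ * β + m + k - 1 - μ) * z = k)
    (hX : Tendsto X l (𝓝 0)) (hZ : Tendsto Z l (𝓝 z)) (hY : Tendsto Y l (𝓝 z)) :
    Tendsto (fun t => QF μ β m k (X t) (Z t) (Y t)) l (𝓝 (-k)) := by
  have e : -k = 1 - (z ^ 2 + 0) / (z ^ 2 + μ * 0)
      * (((μ * β + m + k - 1 - μ) * (z + z) - (k - 1) + (m - 1) * 0) / (1 + 0))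
    - (μ * β * 0 + (μ * β + m + k - 1 - μ) * z ^ 2 - (k - 1) * z + (m - 1) * 0 * z) / (1 + 0)
      * ((μ - 1) * 0 * (z + z) / ((z ^ 2 + μ * 0) * (z ^ 2 + μ * 0))) := by
    have h1 : (z ^ 2 + 0) / (z ^ 2 + μ * 0) = 1 := by
      rw [mul_zero, add_zero, div_self (by positivity)]
    rw [h1]
    have h2 : (μ * β + m + k - 1 - μ) * (z + z) = 2 * k := by linear_combination 2 * hzk
    rw [h2]
    simp only [mul_zero, zero_mul, add_zero, div_one, zero_div]
    ring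
  rw [e]
  unfold QF
  have hz2 : z ^ 2 + μ * 0 ≠ 0 := by rw [mul_zero, add_zero]; positivity
  have hZ2 := hZ.pow 2
  have hY2 := hY.pow 2
  refine Tendsto.sub (Tendsto.sub tendsto_const_nhds (Tendsto.mul ?_ ?_)) (Tendsto.mul ?_ ?_)
  · exact (hZ2.add hX).div (hZ2.add (hX.const_mul μ)) hz2
  · exact ((((hZ.add hY).const_mul _).sub tendsto_const_nhds).add (hX.const_mul _)).div
      (tendsto_const_nhds.add hX) (by norm_num)
  · exact ((((hX.const_mul _).add (hY2.const_mul _)).sub (hY.const_mul _)).add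
      ((hX.const_mul _).mul hY)).div (tendsto_const_nhds.add hX) (by norm_num)
  · exact (((hX.const_mul _).mul (hZ.add hY))).div
      ((hZ2.add (hX.const_mul μ)).mul (hY2.add (hX.const_mul μ))) (mul_ne_zero hz2 hz2)

/-- the profile equation on the open quarter circle -/
structure Prof (m k μ β : ℝ) (f f' f'' : ℝ → ℝ) : Prop where
  d1 : ∀ t ∈ Ioo 0 (Real.pi / 2), HasDerivAt f (f' t) t
  d2 : ∀ t ∈ Ioo 0 (Real.pi / 2), HasDerivAt f' (f'' t) t
  N : ∀ t ∈ Ioo 0 (Real.pi / 2), 0 < β ^ 2 * f t ^ 2 + f' t ^ 2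
  ode : ∀ t ∈ Ioo 0 (Real.pi / 2), f'' t * (β ^ 2 * f t ^ 2 + μ * f' t ^ 2)
    = -((k - 1) / Real.tan t - (m - 1) * Real.tan t) * f' t * (β ^ 2 * f t ^ 2 + f' t ^ 2)
      - f t * ((μ - 1) * β ^ 2 * f' t ^ 2
        + β * (μ * β + m + k - 1 - μ) * (β ^ 2 * f t ^ 2 + f' t ^ 2))

lemma Z_alg {m k μ β a b w t : ℝ} (ht : 0 < t) (hb : b ≠ 0) (hμ : 0 < μ)
    (hode : w * (β ^ 2 * a ^ 2 + μ * b ^ 2)
      = -((k - 1) / t - (m - 1) * t) * b * (β ^ 2 * a ^ 2 + b ^ 2)
      - a * ((μ - 1) * β ^ 2 * b ^ 2 + β * (μ * β + m + k - 1 - μ) * (β ^ 2 * a ^ 2 + b ^ 2))) :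
    ((-(β * (b * t + a * (1 + t ^ 2))) * b - -(β * a * t) * w) / b ^ 2) * (t / (1 + t ^ 2))
      = RR μ β m k (t ^ 2) (-(β * a * t) / b) := by
  have hM : 0 < β ^ 2 * a ^ 2 + μ * b ^ 2 := by positivity
  have hw : w = (-((k - 1) / t - (m - 1) * t) * b * (β ^ 2 * a ^ 2 + b ^ 2)
      - a * ((μ - 1) * β ^ 2 * b ^ 2 + β * (μ * β + m + k - 1 - μ) * (β ^ 2 * a ^ 2 + b ^ 2)))
      / (β ^ 2 * a ^ 2 + μ * b ^ 2) := by
    rw [eq_div_iff hM.ne', hode]
  have h1 : (-(β * a * t) / b) ^ 2 + μ * t ^ 2 = t ^ 2 * (β ^ 2 * a ^ 2 + μ * b ^ 2) / b ^ 2 := by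
    field_simp
  have h2 : (-(β * a * t) / b) ^ 2 + t ^ 2 = t ^ 2 * (β ^ 2 * a ^ 2 + b ^ 2) / b ^ 2 := by
    field_simp
  unfold RR
  rw [h1, h2, hw]
  field_simp
  ring

section
variable {m k μ β : ℝ} {f f' f'' : ℝ → ℝ}

/-- `Z` -/
noncomputable def ZZ (β : ℝ) (f f' : ℝ → ℝ) (t : ℝ) : ℝ := -(β * f t * Real.tan t) / f' t

lemma tan_pos {t : ℝ} (ht : t ∈ Ioo 0 (Real.pi / 2)) : 0 < Real.tan t :=
  Real.tan_pos_of_pos_of_lt_pi_div_two ht.1 ht.2

lemma hasDerivAt_tan {t : ℝ} (ht : t ∈ Ioo 0 (Real.pi / 2)) :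
    HasDerivAt Real.tan (1 + Real.tan t ^ 2) t := by
  have hc : 0 < Real.cos t := Real.cos_pos_of_mem_Ioo ⟨by linarith [ht.1, Real.pi_pos], ht.2⟩
  have := Real.hasDerivAt_tan hc.ne'
  refine this.congr_deriv ?_
  rw [Real.tan_eq_sin_div_cos]
  have := Real.sin_sq_add_cos_sq t
  field_simp
  linarith

lemma hasDerivAt_ZZ (hμ : 0 < μ) (P : Prof m k μ β f f' f'') {t : ℝ}
    (ht : t ∈ Ioo 0 (Real.pi / 2)) (hb : f' t ≠ 0) :
    HasDerivAt (ZZ β f f') (RR μ β m k (Real.tan t ^ 2) (ZZ β f f' t)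
      * ((1 + Real.tan t ^ 2) / Real.tan t)) t := by
  have ht0 := tan_pos ht
  have h1 := (((P.d1 t ht).const_mul β).mul (hasDerivAt_tan ht)).neg.div (P.d2 t ht) hb
  have h2 := Z_alg ht0 hb hμ (P.ode t ht)
  unfold ZZ
  refine h1.congr_deriv ?_
  rw [← h2]
  have h3 : (1 + Real.tan t ^ 2) ≠ 0 := by positivity
  simp only [Pi.neg_apply, Pi.mul_apply]
  field_simp

/-- the comparison -/
lemma compare (hμ : 0 < μ) (P : Prof m k μ β f f' f'') (hk : 0 < k)
    (hB : 0 < μ * β + m + k - 1 - μ)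
    {b : ℝ} (hb : 0 < b) (hb2 : b ≤ Real.pi / 2) (hneg : ∀ t ∈ Ioo 0 b, f' t < 0)
    (hZ : Tendsto (ZZ β f f') (𝓝[>] 0) (𝓝 (k / (μ * β + m + k - 1 - μ))))
    {Y Y' : ℝ → ℝ} (hY : ∀ t ∈ Ioo 0 (Real.pi / 2), HasDerivAt Y (Y' t) t)
    (hsub : ∀ t ∈ Ioo 0 (Real.pi / 2),
      Y' t * (Real.tan t / (1 + Real.tan t ^ 2)) < RR μ β m k (Real.tan t ^ 2) (Y t))
    {z : ℝ} (hY0 : Tendsto Y (𝓝[>] 0) (𝓝 z)) (hz : z ≤ k / (μ * β + m + k - 1 - μ))
    {t : ℝ} (ht : t ∈ Ioo 0 b) : Y t ≤ ZZ β f f' t := by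
  by_contra hcon
  push Not at hcon
  have hsubI : ∀ t ∈ Ioo 0 b, t ∈ Ioo 0 (Real.pi / 2) := fun t ht => ⟨ht.1, lt_of_lt_of_le ht.2 hb2⟩
  have hdZ : ∀ t ∈ Ioo 0 b, HasDerivAt (fun t => ZZ β f f' t - Y t)
      (RR μ β m k (Real.tan t ^ 2) (ZZ β f f' t) * ((1 + Real.tan t ^ 2) / Real.tan t) - Y' t) t :=
    fun t ht => (hasDerivAt_ZZ hμ P (hsubI t ht) (hneg t ht).ne).sub (hY t (hsubI t ht))
  have hcont : ContinuousOn (fun t => ZZ β f f' t - Y t) (Ioo 0 b) :=
    fun t ht => (hdZ t ht).continuousAt.continuousWithinAt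
  -- negative on the whole interval to the left
  have hleft : ∀ s ∈ Ioc 0 t, ZZ β f f' s - Y s < 0 := by
    intro s hs
    by_contra hs2
    push Not at hs2
    set S : Set ℝ := {r | r ∈ Icc s t ∧ 0 ≤ ZZ β f f' r - Y r} with hS
    have hSsub : Icc s t ⊆ Ioo 0 b := fun r hr => ⟨lt_of_lt_of_le hs.1 hr.1, lt_of_le_of_lt hr.2 ht.2⟩
    have hSc : IsClosed S := by
      have := (hcont.mono hSsub).preimage_isClosed_of_isClosed isClosed_Icc (isClosed_Ici (a := 0))
      convert! this using 1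
    have hSn : S.Nonempty := ⟨s, ⟨le_refl _, hs.2⟩, hs2⟩
    have hSb : BddAbove S := ⟨t, fun r hr => hr.1.2⟩
    set r := sSup S with hr
    have hrS : r ∈ S := hSc.csSup_mem hSn hSb
    have hrt : r < t := by
      rcases eq_or_lt_of_le hrS.1.2 with h | h
      · exfalso
        have := hrS.2
        rw [h] at this
        linarith
      · exact h
    have hneg' : ∀ x ∈ Ioc r t, ZZ β f f' x - Y x < 0 := by
      intro x hx
      by_contra hc
      push Not at hc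
      have : x ∈ S := ⟨⟨hrS.1.1.trans hx.1.le, hx.2⟩, hc⟩
      exact absurd (le_csSup hSb this) (not_le.mpr hx.1)
    have hrI := hSsub hrS.1
    -- value zero at `r`
    have hr0 : ZZ β f f' r - Y r = 0 := by
      apply le_antisymm _ hrS.2
      have h1 : Tendsto (fun x => ZZ β f f' x - Y x) (𝓝[>] r) (𝓝 (ZZ β f f' r - Y r)) :=
        (hdZ r hrI).continuousAt.tendsto.mono_left nhdsWithin_le_nhds
      refine le_of_tendsto h1 ?_
      filter_upwards [Ioc_mem_nhdsGT hrt] with x hx using (hneg' x hx).le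
    -- the derivative there is positive
    have hd := hdZ r hrI
    have hpos : 0 < RR μ β m k (Real.tan r ^ 2) (ZZ β f f' r)
        * ((1 + Real.tan r ^ 2) / Real.tan r) - Y' r := by
      have h1 := hsub r (hsubI r hrI)
      have h2 : ZZ β f f' r = Y r := by linarith
      rw [h2]
      have ht0 := tan_pos (hsubI r hrI)
      have h3 : Y' r = Y' r * (Real.tan r / (1 + Real.tan r ^ 2))
          * ((1 + Real.tan r ^ 2) / Real.tan r) := by
        have : (1 + Real.tan r ^ 2) ≠ 0 := by positivity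
        field_simp
      have h4 : 0 < (1 + Real.tan r ^ 2) / Real.tan r := by positivity
      have := mul_lt_mul_of_pos_right h1 h4
      linarith
    have hd' := hd.hasDerivWithinAt (s := Ioi r)
    have hslope := (hasDerivWithinAt_iff_tendsto_slope' (by simp)).mp hd'
    have hle : RR μ β m k (Real.tan r ^ 2) (ZZ β f f' r)
        * ((1 + Real.tan r ^ 2) / Real.tan r) - Y' r ≤ 0 := by
      refine le_of_tendsto hslope ?_
      filter_upwards [Ioc_mem_nhdsGT hrt] with x hx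
      rw [slope_def_field, hr0, sub_zero]
      have := hneg' x hx
      have h5 : 0 < x - r := by linarith [hx.1]
      exact div_nonpos_of_nonpos_of_nonneg this.le h5.le
    linarith
  -- behaviour at the pole
  have hev : ∀ᶠ s in 𝓝[>] (0 : ℝ), s ∈ Ioc 0 t := Ioc_mem_nhdsGT ht.1
  have hlim : Tendsto (fun s => ZZ β f f' s - Y s) (𝓝[>] 0)
      (𝓝 (k / (μ * β + m + k - 1 - μ) - z)) := hZ.sub hY0
  have hle : k / (μ * β + m + k - 1 - μ) - z ≤ 0 :=
    le_of_tendsto hlim (by filter_upwards [hev] with s hs using (hleft s hs).le)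
  have hzk : z = k / (μ * β + m + k - 1 - μ) := by linarith
  have hz0 : 0 < z := by rw [hzk]; positivity
  have hX0 : Tendsto (fun s => Real.tan s ^ 2) (𝓝[>] 0) (𝓝 0) := by
    have h1 : ContinuousAt Real.tan 0 := by
      refine Real.continuousAt_tan.mpr ?_
      rw [Real.cos_zero]; exact one_ne_zero
    have h2 := (h1.tendsto.mono_left nhdsWithin_le_nhds : Tendsto Real.tan (𝓝[>] 0) _).pow 2
    simpa using h2
  have hQ := QF_tendsto (μ := μ) (β := β) (m := m) (k := k) hz0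
    (by rw [hzk]; field_simp) hX0 (hzk ▸ hZ) hY0
  have hQneg : ∀ᶠ s in 𝓝[>] (0 : ℝ), QF μ β m k (Real.tan s ^ 2) (ZZ β f f' s) (Y s) < 0 :=
    hQ.eventually (gt_mem_nhds (by linarith))
  obtain ⟨ε, hε, hεI⟩ : ∃ ε > 0, ∀ s ∈ Ioo 0 ε,
      s ∈ Ioc 0 t ∧ QF μ β m k (Real.tan s ^ 2) (ZZ β f f' s) (Y s) < 0 := by
    have h1 := hev.and hQneg
    rw [eventually_nhdsWithin_iff, Metric.eventually_nhds_iff] at h1
    obtain ⟨ε, hε, h2⟩ := h1
    refine ⟨ε, hε, fun s hs => h2 ?_ hs.1⟩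
    rw [Real.dist_eq, sub_zero, abs_of_pos hs.1]
    exact hs.2
  have hmono : StrictMonoOn (fun s => ZZ β f f' s - Y s) (Ioo 0 ε) := by
    apply strictMonoOn_of_deriv_pos (convex_Ioo _ _)
    · intro s hs
      have hs' := (hεI s hs).1
      exact (hdZ s ⟨hs'.1, lt_of_le_of_lt hs'.2 ht.2⟩).continuousAt.continuousWithinAt
    · intro s hs
      rw [interior_Ioo] at hs
      have hs' := (hεI s hs).1
      have hsI : s ∈ Ioo 0 b := ⟨hs'.1, lt_of_le_of_lt hs'.2 ht.2⟩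
      rw [(hdZ s hsI).deriv]
      have ht0 := tan_pos (hsubI s hsI)
      have h1 := hsub s (hsubI s hsI)
      have h2 := RR_sub (μ := μ) (β := β) (m := m) (k := k) (X := Real.tan s ^ 2)
        (Z := ZZ β f f' s) (Y := Y s) hμ (by positivity)
      have h3 := hleft s hs'
      have h4 := (hεI s hs).2
      have h5 : 0 < (ZZ β f f' s - Y s) * QF μ β m k (Real.tan s ^ 2) (ZZ β f f' s) (Y s) :=
        mul_pos_of_neg_of_neg h3 h4
      have h6 : Y' s * (Real.tan s / (1 + Real.tan s ^ 2))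
          < RR μ β m k (Real.tan s ^ 2) (ZZ β f f' s) := by linarith
      have h7 : Y' s = Y' s * (Real.tan s / (1 + Real.tan s ^ 2))
          * ((1 + Real.tan s ^ 2) / Real.tan s) := by
        have : (1 + Real.tan s ^ 2) ≠ 0 := by positivity
        field_simp
      have h8 : 0 < (1 + Real.tan s ^ 2) / Real.tan s := by positivity
      have := mul_lt_mul_of_pos_right h6 h8
      linarith
  have hs0 : ε / 2 ∈ Ioo 0 ε := ⟨by linarith, by linarith⟩
  have hneg0 := hleft (ε / 2) (hεI _ hs0).1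
  have : k / (μ * β + m + k - 1 - μ) - z ≤ ZZ β f f' (ε / 2) - Y (ε / 2) := by
    refine le_of_tendsto hlim ?_
    filter_upwards [Ioo_mem_nhdsGT (by linarith : (0 : ℝ) < ε / 2)] with s hs
    exact (hmono ⟨hs.1, by linarith [hs.2]⟩ hs0 hs.2).le
  linarith

/-- behaviour at the pole -/
structure Pole (m k μ β : ℝ) (f f' : ℝ → ℝ) (f0 : ℝ) : Prop where
  pos : 0 < f0
  lim : Tendsto f (𝓝[>] 0) (𝓝 f0)
  lim' : Tendsto (fun t => f' t / t) (𝓝[>] 0) (𝓝 (-(β * (μ * β + m + k - 1 - μ) * f0 / k)))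

lemma tan_div_tendsto : Tendsto (fun t : ℝ => Real.tan t / t) (𝓝[>] 0) (𝓝 1) := by
  have h1 : HasDerivAt Real.tan 1 0 := by
    have := Real.hasDerivAt_tan (x := 0) (by rw [Real.cos_zero]; exact one_ne_zero)
    simpa using this
  have h2 := (hasDerivWithinAt_iff_tendsto_slope' (s := Ioi (0 : ℝ)) (by simp)).mp
    h1.hasDerivWithinAt
  refine h2.congr' ?_
  filter_upwards [self_mem_nhdsWithin] with t ht
  rw [slope_def_field, Real.tan_zero, sub_zero, sub_zero]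

lemma ZZ_tendsto (hk : 0 < k) (hβ : 0 < β) (hB : 0 < μ * β + m + k - 1 - μ) {f0 : ℝ}
    (h : Pole m k μ β f f' f0) :
    Tendsto (ZZ β f f') (𝓝[>] 0) (𝓝 (k / (μ * β + m + k - 1 - μ))) := by
  have hf0 := h.pos
  have e : k / (μ * β + m + k - 1 - μ)
      = -(β * f0 * 1) / (-(β * (μ * β + m + k - 1 - μ) * f0 / k)) := by
    field_simp
  rw [e]
  have h1 := (((h.lim.const_mul β).mul tan_div_tendsto).neg).div h.lim'
    (by
      have : 0 < β * (μ * β + m + k - 1 - μ) * f0 / k := by positivity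
      linarith)
  refine h1.congr' ?_
  filter_upwards [self_mem_nhdsWithin] with t ht
  have ht0 : t ≠ 0 := ne_of_gt ht
  unfold ZZ
  simp only [Pi.div_apply]
  by_cases hft : f' t = 0
  · rw [hft]; simp
  · field_simp

/-- **Comparison up to the equator.** -/
theorem left (hμ : 0 < μ) (P : Prof m k μ β f f' f'') (hk : 0 < k) (hβ : 0 < β)
    (hB : 0 < μ * β + m + k - 1 - μ) {f0 : ℝ} (h0 : Pole m k μ β f f' f0)
    {Y Y' : ℝ → ℝ} (hY : ∀ t ∈ Ioo 0 (Real.pi / 2), HasDerivAt Y (Y' t) t)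
    (hsub : ∀ t ∈ Ioo 0 (Real.pi / 2),
      Y' t * (Real.tan t / (1 + Real.tan t ^ 2)) < RR μ β m k (Real.tan t ^ 2) (Y t))
    {z : ℝ} (hY0 : Tendsto Y (𝓝[>] 0) (𝓝 z)) (hz : z ≤ k / (μ * β + m + k - 1 - μ))
    {t : ℝ} (ht : t ∈ Ioo 0 (Real.pi / 2)) : f' t < 0 ∧ Y t ≤ ZZ β f f' t := by
  have hpi : 0 < Real.pi / 2 := by positivity
  have hZ0 := ZZ_tendsto hk hβ hB h0
  suffices hall : ∀ t ∈ Ioo 0 (Real.pi / 2), f' t < 0 from
    ⟨hall t ht, compare hμ P hk hB hpi (le_refl _) hall hZ0 hY hsub hY0 hz ht⟩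
  clear ht t
  by_contra hcon
  push Not at hcon
  obtain ⟨t1, ht1, hft1⟩ := hcon
  have hcf' : ContinuousOn f' (Ioo 0 (Real.pi / 2)) :=
    fun t ht => (P.d2 t ht).continuousAt.continuousWithinAt
  -- negative near the pole
  have hneg0 : ∀ᶠ t in 𝓝[>] (0 : ℝ), f' t < 0 := by
    have h1 : -(β * (μ * β + m + k - 1 - μ) * f0 / k) < 0 := by
      have := h0.pos
      have : 0 < β * (μ * β + m + k - 1 - μ) * f0 / k := by positivity
      linarith
    have h2 := h0.lim'.eventually (gt_mem_nhds h1)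
    filter_upwards [h2, self_mem_nhdsWithin] with t ht ht'
    have ht0 : 0 < t := ht'
    by_contra hc
    push Not at hc
    have := div_nonneg hc ht0.le
    linarith
  obtain ⟨ε, hε, hεI⟩ : ∃ ε > 0, ∀ s ∈ Ioo 0 ε, f' s < 0 := by
    rw [eventually_nhdsWithin_iff, Metric.eventually_nhds_iff] at hneg0
    obtain ⟨ε, hε, h2⟩ := hneg0
    refine ⟨ε, hε, fun s hs => h2 ?_ hs.1⟩
    rw [Real.dist_eq, sub_zero, abs_of_pos hs.1]
    exact hs.2
  have hεt : ε ≤ t1 := by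
    by_contra hc
    push Not at hc
    have := hεI t1 ⟨ht1.1, hc⟩
    linarith
  -- the first zero
  set S : Set ℝ := {r | r ∈ Icc ε t1 ∧ 0 ≤ f' r} with hS
  have hSsub : Icc ε t1 ⊆ Ioo 0 (Real.pi / 2) :=
    fun r hr => ⟨lt_of_lt_of_le hε hr.1, lt_of_le_of_lt hr.2 ht1.2⟩
  have hSc : IsClosed S := by
    have := (hcf'.mono hSsub).preimage_isClosed_of_isClosed isClosed_Icc (isClosed_Ici (a := 0))
    convert! this using 1
  have hSn : S.Nonempty := ⟨t1, ⟨hεt, le_refl _⟩, hft1⟩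
  have hSb : BddBelow S := ⟨ε, fun r hr => hr.1.1⟩
  set b := sInf S with hb
  have hbS : b ∈ S := hSc.csInf_mem hSn hSb
  have hbI := hSsub hbS.1
  have hneg : ∀ t ∈ Ioo 0 b, f' t < 0 := by
    intro t ht
    rcases lt_or_ge t ε with h | h
    · exact hεI t ⟨ht.1, h⟩
    · by_contra hc
      push Not at hc
      have : t ∈ S := ⟨⟨h, ht.2.le.trans hbS.1.2⟩, hc⟩
      exact absurd (csInf_le hSb this) (not_le.mpr ht.2)
  have hb0 : f' b = 0 := by
    apply le_antisymm _ hbS.2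
    have h1 : Tendsto f' (𝓝[<] b) (𝓝 (f' b)) :=
      (P.d2 b hbI).continuousAt.tendsto.mono_left nhdsWithin_le_nhds
    refine le_of_tendsto h1 ?_
    filter_upwards [Ioo_mem_nhdsLT hbI.1] with x hx using (hneg x hx).le
  have hcomp : ∀ t ∈ Ioo 0 b, Y t ≤ ZZ β f f' t := fun t ht =>
    compare hμ P hk hB hbI.1 hbI.2.le hneg hZ0 hY hsub hY0 hz ht
  have hNb := P.N b hbI
  rw [hb0] at hNb
  have hfb : f b ≠ 0 := by
    intro h
    rw [h] at hNb
    simp at hNb
  -- sign of `f b`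
  have hfb0 : 0 ≤ f b := by
    have h1 : Tendsto (fun t => Y t * f' t + β * f t * Real.tan t) (𝓝[<] b)
        (𝓝 (Y b * f' b + β * f b * Real.tan b)) := by
      have : ContinuousAt (fun t => Y t * f' t + β * f t * Real.tan t) b :=
        ((hY b hbI).continuousAt.mul (P.d2 b hbI).continuousAt).add
          (((P.d1 b hbI).continuousAt.const_mul β).mul (hasDerivAt_tan hbI).continuousAt)
      exact this.tendsto.mono_left nhdsWithin_le_nhds
    have h2 : 0 ≤ Y b * f' b + β * f b * Real.tan b := by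
      refine ge_of_tendsto h1 ?_
      filter_upwards [Ioo_mem_nhdsLT hbI.1] with x hx
      have h3 := hcomp x hx
      have h4 := hneg x hx
      unfold ZZ at h3
      rw [le_div_iff_of_neg h4] at h3
      linarith
    rw [hb0, mul_zero, zero_add] at h2
    have h5 := tan_pos hbI
    by_contra hc
    push Not at hc
    have : β * f b * Real.tan b < 0 := by
      have : β * f b < 0 := mul_neg_of_pos_of_neg hβ hc
      exact mul_neg_of_neg_of_pos this h5
    linarith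
  have hfbpos : 0 < f b := lt_of_le_of_ne hfb0 (Ne.symm hfb)
  -- second derivative
  have hode := P.ode b hbI
  rw [hb0] at hode
  have hw : f'' b < 0 := by
    have h1 : f'' b * (β ^ 2 * f b ^ 2)
        = -(f b * (β * (μ * β + m + k - 1 - μ) * (β ^ 2 * f b ^ 2))) := by
      linear_combination hode
    have h2 : 0 < f b * (β * (μ * β + m + k - 1 - μ) * (β ^ 2 * f b ^ 2)) := by positivity
    have h3 : 0 < β ^ 2 * f b ^ 2 := by positivity
    by_contra hc
    push Not at hc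
    have := mul_nonneg hc h3.le
    linarith
  have hslope := (hasDerivWithinAt_iff_tendsto_slope' (s := Iio b) (by simp)).mp
    (P.d2 b hbI).hasDerivWithinAt
  have hge : 0 ≤ f'' b := by
    refine ge_of_tendsto hslope ?_
    filter_upwards [Ioo_mem_nhdsLT hbI.1] with x hx
    rw [slope_def_field, hb0, sub_zero]
    exact (div_pos_of_neg_of_neg (hneg x hx) (by linarith [hx.2])).le
  linarith

end

end Pool.Agent.H76.BP
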