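import Pool.Agent.H76.BP.Cmp

/-!
# No profile with `1 < β ≤ 1 + 2/p`
-/

set_option autoImplicit false
open Filter Topology Set

namespace Pool.Agent.H76.BP

lemma fam (m k e κ : ℝ) (hκ : 0 < κ) :
    (∀ X : ℝ, 0 < X → HasDerivAt (fun X => k - m * X - e * X / (1 + κ * X))
      (-m - e / (1 + κ * X) ^ 2) X) ∧
    Tendsto (fun X : ℝ => k - m * X - e * X / (1 + κ * X)) (𝓝[>] 0) (𝓝 k) ∧
    Tendsto (fun X : ℝ => -(k - m * X - e * X / (1 + κ * X)) / X) atTop (𝓝 m) := by
  refine ⟨fun X hX => ?_, ?_, ?_⟩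
  · have hL : 1 + κ * X ≠ 0 := by positivity
    have h1 : HasDerivAt (fun X : ℝ => 1 + κ * X) κ X := by
      simpa using ((hasDerivAt_id X).const_mul κ).const_add 1
    have h2 : HasDerivAt (fun X : ℝ => e * X) e X := by
      simpa using (hasDerivAt_id X).const_mul e
    have h3 : HasDerivAt (fun X : ℝ => k - m * X) (-m) X := by
      simpa using ((hasDerivAt_id X).const_mul m).const_sub k
    refine (h3.sub (h2.div h1 hL)).congr_deriv ?_
    field_simp
    ring
  · have h1 : ContinuousAt (fun X : ℝ => k - m * X - e * X / (1 + κ * X)) 0 := by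
      refine ContinuousAt.sub (by fun_prop) (ContinuousAt.div (by fun_prop) (by fun_prop) ?_)
      simp
    have h2 := h1.tendsto
    simp only [mul_zero, sub_zero, zero_div] at h2
    exact h2.mono_left nhdsWithin_le_nhds
  · have h1 : Tendsto (fun X : ℝ => 1 + κ * X) atTop atTop :=
      tendsto_atTop_add_const_left _ _ (tendsto_id.const_mul_atTop hκ)
    have h2 : Tendsto (fun X : ℝ => -k / X + m + e / (1 + κ * X)) atTop (𝓝 (0 + m + 0)) :=
      ((tendsto_const_nhds.div_atTop tendsto_id).add tendsto_const_nhds).add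
        (tendsto_const_nhds.div_atTop h1)
    simp only [zero_add, add_zero] at h2
    refine h2.congr' ?_
    filter_upwards [Ioi_mem_atTop (0 : ℝ)] with X hX
    have hX0 : 0 < X := hX
    have hL : 1 + κ * X ≠ 0 := by positivity
    field_simp
    ring

/-- The comparison function. -/
lemma exists_sub (m k : ℕ) (hm : 1 ≤ m) (hmk : m ≤ k) (q : ℝ) (hq : 0 ≤ q) (hq1 : q < 1) :
    ∃ z z' : ℝ → ℝ, (∀ X : ℝ, 0 < X → HasDerivAt z (z' X) X) ∧
      Tendsto z (𝓝[>] 0) (𝓝 k) ∧ Tendsto (fun X : ℝ => -z X / X) atTop (𝓝 m) ∧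
      (∀ X : ℝ, 0 < X → 0 ≤ FF m k q (z X) (z' X) X) ∧
      (0 < q → ∀ X : ℝ, 0 < X → 0 < FF m k q (z X) (z' X) X) := by
  have hm' : (1 : ℝ) ≤ m := by exact_mod_cast hm
  have hlin : ∀ X : ℝ, (k : ℝ) - m * X - 0 * X / (1 + 1 * X) = k - m * X := fun X => by simp
  have hlin' : ∀ X : ℝ, -(m : ℝ) - 0 / (1 + 1 * X) ^ 2 = -m := fun X => by simp
  rcases eq_or_lt_of_le hq with h0 | h0
  · -- `q = 0`
    obtain ⟨h1, h2, h3⟩ := fam m k 0 1 one_pos
    refine ⟨_, _, h1, h2, h3, fun X hX => ?_, fun h => absurd h (by rw [← h0]; simp)⟩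
    rw [hlin, hlin', ← h0, FF_zero]
  suffices hsuff : ∃ z z' : ℝ → ℝ, (∀ X : ℝ, 0 < X → HasDerivAt z (z' X) X) ∧
      Tendsto z (𝓝[>] 0) (𝓝 k) ∧ Tendsto (fun X : ℝ => -z X / X) atTop (𝓝 m) ∧
      (∀ X : ℝ, 0 < X → 0 < FF m k q (z X) (z' X) X) by
    obtain ⟨z, z', h1, h2, h3, h4⟩ := hsuff
    exact ⟨z, z', h1, h2, h3, fun X hX => (h4 X hX).le, fun _ => h4⟩
  rcases eq_or_lt_of_le hmk with hE | hlt
  · -- `m = k`
    subst hE
    obtain ⟨h1, h2, h3⟩ := fam m m 0 1 one_pos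
    refine ⟨_, _, h1, h2, h3, fun X hX => ?_⟩
    have e1 : (m : ℝ) - m * X - 0 * X / (1 + 1 * X) = m - m * X := by simp
    rw [e1, hlin']
    exact FF_diag_pos m q X hm' h0 hX
  by_cases h12 : m = 1 ∧ k = 2
  · obtain ⟨rfl, rfl⟩ := h12
    have h5 : 0 < 5 - q := by linarith
    obtain ⟨h1, h2, h3⟩ := fam 1 2 (4 * q / (5 - q)) (4 / 9) (by norm_num)
    refine ⟨_, _, h1, by simpa using h2, by simpa using h3, fun X hX => ?_⟩
    have h := FF_12_pos q X h0 hq1 hX
    have hX9 : 0 < 9 + 4 * X := by positivity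
    have hX9' : 0 < 1 + 4 / 9 * X := by positivity
    have e1 : (2 : ℝ) - 1 * X - 4 * q / (5 - q) * X / (1 + 4 / 9 * X)
        = ((2 - X) * ((5 - q) * (9 + 4 * X)) - 36 * q * X) / ((5 - q) * (9 + 4 * X)) := by
      field_simp
      ring
    have e2 : -(1 : ℝ) - 4 * q / (5 - q) / (1 + 4 / 9 * X) ^ 2
        = (-((5 - q) * (9 + 4 * X)) ^ 2 - 324 * q * (5 - q)) / ((5 - q) * (9 + 4 * X)) ^ 2 := by
      field_simp
      ring
    push_cast
    rw [e1, e2]
    exact h
  · -- the general case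
    have hk0 : (0 : ℝ) < k := by exact_mod_cast (by omega : 0 < k)
    have hm0 : (0 : ℝ) < m := by linarith
    have hD : 0 < (m : ℝ) + k + q := by positivity
    set c : ℝ := 2 * m * (m + 2) with hc
    have hc0 : 0 < c := by positivity
    obtain ⟨h1, h2, h3⟩ := fam m k q (c / ((m : ℝ) + k + q) ^ 2) (by positivity)
    refine ⟨_, _, h1, h2, h3, fun X hX => ?_⟩
    have hL : 0 < 1 + c / ((m : ℝ) + k + q) ^ 2 * X := by positivity
    have e1 : (k : ℝ) - m * X - q * X / (1 + c / ((m : ℝ) + k + q) ^ 2 * X)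
        = ((k - m * X) * (1 + c / ((m : ℝ) + k + q) ^ 2 * X) - q * X)
          / (1 + c / ((m : ℝ) + k + q) ^ 2 * X) := by
      rw [eq_div_iff hL.ne', sub_mul, div_mul_cancel₀ _ hL.ne']
    have e2 : -(m : ℝ) - q / (1 + c / ((m : ℝ) + k + q) ^ 2 * X) ^ 2
        = (-m * (1 + c / ((m : ℝ) + k + q) ^ 2 * X) ^ 2 - q)
          / (1 + c / ((m : ℝ) + k + q) ^ 2 * X) ^ 2 := by
      have hL2 : (1 + c / ((m : ℝ) + k + q) ^ 2 * X) ^ 2 ≠ 0 := by positivity
      rw [eq_div_iff hL2, sub_mul, div_mul_cancel₀ _ hL2]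
    rw [e1, e2]
    rcases Nat.lt_or_ge m 2 with hm2 | hm2
    · -- `m = 1`, `k ≥ 3`
      have hm1 : m = 1 := by omega
      subst hm1
      have hk3 : 3 ≤ k := by
        rcases Nat.lt_or_ge k 3 with h | h
        · exfalso; exact h12 ⟨rfl, by omega⟩
        · exact h
      obtain ⟨j, hj⟩ : ∃ j : ℝ, j = k - 3 := ⟨_, rfl⟩
      have hj0 : 0 ≤ j := by
        rw [hj]
        have : (3 : ℝ) ≤ k := by exact_mod_cast hk3
        linarith
      have ek : (k : ℝ) = 3 + j := by rw [hj]; ring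
      have eD : ((1 : ℕ) : ℝ) + k + q = 4 + j + q := by rw [ek]; push_cast; ring
      have ec : c = 6 := by rw [hc]; norm_num
      have em : ((1 : ℕ) : ℝ) = 1 := by norm_num
      refine FF_gen_pos _ _ _ _ _ hm0 hk0 h0 hX hc0.le ?_ ?_ ?_ ?_ ?_ ?_ ?_ <;>
        rw [eD, ec, ek, em]
      · exact QB0 j q hj0 hq
      · exact QB1 j q hj0 hq
      · exact QB2 j q hj0 hq
      · exact QB3 j q hj0 hq
      · exact QB4 j q hj0 hq
      · exact QB5 j q hj0 hq
      · exact QB6 j q hj0 hq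
    · obtain ⟨i, hi⟩ : ∃ i : ℝ, i = m - 2 := ⟨_, rfl⟩
      obtain ⟨j, hj⟩ : ∃ j : ℝ, j = k - m - 1 := ⟨_, rfl⟩
      have hi0 : 0 ≤ i := by
        rw [hi]
        have : (2 : ℝ) ≤ m := by exact_mod_cast hm2
        linarith
      have hj0 : 0 ≤ j := by
        rw [hj]
        have : (m : ℝ) + 1 ≤ k := by exact_mod_cast hlt
        linarith
      have em : (m : ℝ) = i + 2 := by rw [hi]; ring
      have ek : (k : ℝ) = i + 3 + j := by rw [hj, hi]; ring
      have eD : (m : ℝ) + k + q = 2 * i + 5 + j + q := by rw [ek, em]; ring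
      have ec : c = 2 * (i + 2) * (i + 4) := by rw [hc, em]; ring
      refine FF_gen_pos _ _ _ _ _ hm0 hk0 h0 hX hc0.le ?_ ?_ ?_ ?_ ?_ ?_ ?_ <;>
        rw [eD, ec, ek, em]
      · exact QA0 i j q hi0 hj0 hq
      · exact QA1 i j q hi0 hj0 hq
      · exact QA2 i j q hi0 hj0 hq
      · exact QA3 i j q hi0 hj0 hq
      · exact QA4 i j q hi0 hj0 hq
      · exact QA5 i j q hi0 hj0 hq
      · exact QA6 i j q hi0 hj0 hq

/-- profile with both poles -/
structure Full (m k μ β : ℝ) (f f' f'' : ℝ → ℝ) (f0 f1 : ℝ) : Prop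
    extends Prof m k μ β f f' f'' where
  ne0 : f0 ≠ 0
  ne1 : f1 ≠ 0
  l0 : Tendsto f (𝓝[>] 0) (𝓝 f0)
  l0' : Tendsto (fun t => f' t / t) (𝓝[>] 0) (𝓝 (-(β * (μ * β + m + k - 1 - μ) * f0 / k)))
  l1 : Tendsto (fun t => f (Real.pi / 2 - t)) (𝓝[>] 0) (𝓝 f1)
  l1' : Tendsto (fun t => -f' (Real.pi / 2 - t) / t) (𝓝[>] 0)
    (𝓝 (-(β * (μ * β + m + k - 1 - μ) * f1 / m)))

lemma tan_refl (t : ℝ) : Real.tan (Real.pi / 2 - t) = 1 / Real.tan t := by
  rw [Real.tan_pi_div_two_sub, one_div]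

lemma refl_mem {t : ℝ} (ht : t ∈ Ioo 0 (Real.pi / 2)) : Real.pi / 2 - t ∈ Ioo 0 (Real.pi / 2) :=
  ⟨by linarith [ht.2], by linarith [ht.1]⟩

lemma hasDerivAt_refl {f : ℝ → ℝ} {a t : ℝ} (h : HasDerivAt f a (Real.pi / 2 - t)) :
    HasDerivAt (fun t => f (Real.pi / 2 - t)) (-a) t := by
  have h1 : HasDerivAt (fun t : ℝ => Real.pi / 2 - t) (-1) t := by
    simpa using (hasDerivAt_id t).const_sub (Real.pi / 2)
  have := h.scomp t h1
  simpa [Function.comp_def] using this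

section
variable {m k μ β f0 f1 : ℝ} {f f' f'' : ℝ → ℝ}

lemma Prof.refl (h : Prof m k μ β f f' f'') : Prof k m μ β (fun t => f (Real.pi / 2 - t))
    (fun t => -f' (Real.pi / 2 - t)) (fun t => f'' (Real.pi / 2 - t)) where
  d1 t ht := hasDerivAt_refl (h.d1 _ (refl_mem ht))
  d2 t ht := by
    have := (hasDerivAt_refl (h.d2 _ (refl_mem ht))).neg
    rw [neg_neg] at this
    exact this
  N t ht := by
    have := h.N _ (refl_mem ht)
    simpa using this
  ode t ht := by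
    have h1 := h.ode _ (refl_mem ht)
    rw [tan_refl] at h1
    have h2 := tan_pos ht
    have e1 : (k - 1) / (1 / Real.tan t) = (k - 1) * Real.tan t := by field_simp
    have e2 : (m - 1) * (1 / Real.tan t) = (m - 1) / Real.tan t := by field_simp
    rw [e1, e2] at h1
    linear_combination h1

lemma Prof.neg (h : Prof m k μ β f f' f'') : Prof m k μ β (fun t => -f t)
    (fun t => -f' t) (fun t => -f'' t) where
  d1 t ht := (h.d1 t ht).neg
  d2 t ht := (h.d2 t ht).neg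
  N t ht := by
    have := h.N t ht
    simpa using this
  ode t ht := by
    have h1 := h.ode t ht
    linear_combination -h1

lemma Full.refl (h : Full m k μ β f f' f'' f0 f1) : Full k m μ β (fun t => f (Real.pi / 2 - t))
    (fun t => -f' (Real.pi / 2 - t)) (fun t => f'' (Real.pi / 2 - t)) f1 f0 where
  toProf := h.toProf.refl
  ne0 := h.ne1
  ne1 := h.ne0
  l0 := h.l1
  l0' := by
    have := h.l1'
    convert! this using 3
    ring
  l1 := by simpa using h.l0
  l1' := by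
    have := h.l0'
    simp only [sub_sub_cancel, neg_neg]
    convert! this using 3
    ring

lemma Full.neg (h : Full m k μ β f f' f'' f0 f1) : Full m k μ β (fun t => -f t)
    (fun t => -f' t) (fun t => -f'' t) (-f0) (-f1) where
  toProf := h.toProf.neg
  ne0 := neg_ne_zero.mpr h.ne0
  ne1 := neg_ne_zero.mpr h.ne1
  l0 := h.l0.neg
  l0' := by
    have := h.l0'.neg
    refine (this.congr fun t => ?_).trans_eq ?_
    · ring
    · congr 1; ring
  l1 := h.l1.neg
  l1' := by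
    have := h.l1'.neg
    refine (this.congr fun t => ?_).trans_eq ?_
    · ring
    · congr 1; ring

end

lemma RR_symm {μ β m k X Z : ℝ} (hμ : 0 < μ) (hX : 0 < X) :
    RR μ β k m (1 / X) (-Z / X) = (RR μ β m k X Z - 2 * Z) / X := by
  have h1 : 0 < Z ^ 2 + μ * X := by positivity
  have e1 : (-Z / X) ^ 2 + μ * (1 / X) = (Z ^ 2 + μ * X) / X ^ 2 := by field_simp
  have e2 : (-Z / X) ^ 2 + 1 / X = (Z ^ 2 + X) / X ^ 2 := by field_simp
  unfold RR
  rw [e1, e2]
  field_simp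
  ring

/-- **The contradiction**, `m ≤ k`, positive at the first pole. -/
lemma contra_aux (m k : ℕ) (hm : 1 ≤ m) (hmk : m ≤ k) {p μ β f0 f1 : ℝ} {f f' f'' : ℝ → ℝ}
    (hp : 2 ≤ p) (hμ : μ = p - 1) (hβ : 1 < β) (hβ2 : β ≤ 1 + 2 / p) (hne : p ≠ 2 ∨ β ≠ 2)
    (h : Full m k μ β f f' f'' f0 f1) (h0 : 0 < f0) : False := by
  have hp0 : 0 < p := by linarith
  have hm0 : (0 : ℝ) < m := by exact_mod_cast (by omega : 0 < m)
  have hk0 : (0 : ℝ) < k := by exact_mod_cast (by omega : 0 < k)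
  have hμ1 : 1 ≤ μ := by rw [hμ]; linarith
  have hμ0 : 0 < μ := by linarith
  obtain ⟨q, hq⟩ : ∃ q : ℝ, q = 1 - 2 / p := ⟨_, rfl⟩
  have hq0 : 0 ≤ q := by
    rw [hq]
    have : 2 / p ≤ 1 := by rw [div_le_one hp0]; exact hp
    linarith
  have hq1 : q < 1 := by
    rw [hq]
    have : 0 < 2 / p := by positivity
    linarith
  have hμq : μ = (1 + q) / (1 - q) := by
    rw [eq_div_iff (by linarith), hμ, hq]
    field_simp
    ring
  have hβq : β ≤ 2 - q := by rw [hq]; linarith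
  have hstrict : 0 < q ∨ β < 2 - q := by
    rcases eq_or_lt_of_le hq0 with h1 | h1
    · right
      have hp2 : p = 2 := by
        rw [← h1] at hq
        field_simp at hq
        linarith
      rcases hne with h2 | h2
      · exact absurd hp2 h2
      · rw [← h1] at hβq ⊢
        exact lt_of_le_of_ne hβq (by simpa using h2)
    · left; exact h1
  have hD : 0 < (m : ℝ) + k + q := by positivity
  have hB : 0 < μ * β + m + k - 1 - μ := by
    have h1 : 0 < μ * (β - 1) := mul_pos hμ0 (by linarith)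
    have h2 : (1 : ℝ) ≤ m := by exact_mod_cast hm
    linarith
  have hBD : μ * β + m + k - 1 - μ ≤ m + k + q := by
    have h1 : μ * (β - 1) ≤ μ * (1 - q) := by
      apply mul_le_mul_of_nonneg_left _ hμ0.le; linarith
    have h2 : μ * (1 - q) = 1 + q := by
      rw [hμq, div_mul_cancel₀]; linarith
    linarith
  obtain ⟨z, z', hz, hz0, hz1, hF, hF'⟩ := exists_sub m k hm hmk q hq0 hq1
  have hsubX : ∀ X : ℝ, 0 < X →
      2 * X * z' X / (m + k + q) < RR μ β m k X (z X / (m + k + q)) := fun X hX =>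
    sub_of_FF hm0 hk0 hq0 hq1 hμq hβq hX (hF X hX) (by
      rcases hstrict with h1 | h1
      · exact Or.inl (hF' h1 X hX)
      · exact Or.inr h1)
  obtain ⟨Y, hY⟩ : ∃ Y : ℝ → ℝ, Y = fun t => z (Real.tan t ^ 2) / (m + k + q) := ⟨_, rfl⟩
  obtain ⟨Y', hY'⟩ : ∃ Y' : ℝ → ℝ, Y' = fun t => z' (Real.tan t ^ 2)
      * (2 * Real.tan t * (1 + Real.tan t ^ 2)) / (m + k + q) := ⟨_, rfl⟩
  have hYd : ∀ t ∈ Ioo 0 (Real.pi / 2), HasDerivAt Y (Y' t) t := by
    intro t ht
    have h1 := tan_pos ht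
    have h2 : HasDerivAt (fun t => Real.tan t ^ 2) (2 * Real.tan t * (1 + Real.tan t ^ 2)) t := by
      have := (hasDerivAt_tan ht).pow 2
      refine this.congr_deriv ?_
      simp
    have h3 := (hz (Real.tan t ^ 2) (by positivity)).comp t h2
    rw [hY, hY']
    exact h3.div_const _
  have hYs : ∀ t ∈ Ioo 0 (Real.pi / 2),
      Y' t * (Real.tan t / (1 + Real.tan t ^ 2)) < RR μ β m k (Real.tan t ^ 2) (Y t) := by
    intro t ht
    have h1 := tan_pos ht
    have h2 := hsubX (Real.tan t ^ 2) (by positivity)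
    rw [hY, hY']
    have h3 : (1 + Real.tan t ^ 2) ≠ 0 := by positivity
    have e : z' (Real.tan t ^ 2) * (2 * Real.tan t * (1 + Real.tan t ^ 2)) / (m + k + q)
        * (Real.tan t / (1 + Real.tan t ^ 2))
        = 2 * Real.tan t ^ 2 * z' (Real.tan t ^ 2) / (m + k + q) := by
      field_simp
    simp only
    rw [e]
    exact h2
  have htan0 : Tendsto (fun s => Real.tan s ^ 2) (𝓝[>] 0) (𝓝[>] 0) := by
    rw [tendsto_nhdsWithin_iff]
    constructor
    · have h1 : ContinuousAt Real.tan 0 := by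
        refine Real.continuousAt_tan.mpr ?_
        rw [Real.cos_zero]; exact one_ne_zero
      have h2 := (h1.tendsto.mono_left nhdsWithin_le_nhds : Tendsto Real.tan (𝓝[>] 0) _).pow 2
      simpa using h2
    · filter_upwards [Ioo_mem_nhdsGT (by positivity : (0 : ℝ) < Real.pi / 2)] with s hs
      have := tan_pos hs
      exact pow_pos this 2
  have hY0 : Tendsto Y (𝓝[>] 0) (𝓝 (k / (m + k + q))) := by
    rw [hY]
    exact (hz0.comp htan0).div_const _
  have hzle : (k : ℝ) / (m + k + q) ≤ k / (μ * β + m + k - 1 - μ) := by gcongr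
  have hβ0 : 0 < β := by linarith
  have hL := fun t ht => left hμ0 h.toProf hk0 hβ0 hB ⟨h0, h.l0, h.l0'⟩ hYd hYs hY0 hzle (t := t) ht
  -- sign at the second pole
  have hκ : 0 < β * (μ * β + m + k - 1 - μ) := by positivity
  have hf1 : f1 < 0 := by
    refine lt_of_le_of_ne ?_ h.ne1
    have h1 : 0 ≤ -(β * (μ * β + m + k - 1 - μ) * f1 / m) := by
      refine ge_of_tendsto h.l1' ?_
      filter_upwards [Ioo_mem_nhdsGT (by positivity : (0 : ℝ) < Real.pi / 2)] with s hs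
      have := (hL _ (refl_mem hs)).1
      exact div_nonneg (by linarith) hs.1.le
    by_contra hc
    push Not at hc
    have : 0 < β * (μ * β + m + k - 1 - μ) * f1 / m := by positivity
    linarith
  have hg := h.refl.neg
  -- the reflected comparison function
  have hg0 : (0 : ℝ) < -f1 := by linarith
  have hB' : 0 < μ * β + k + m - 1 - μ := by linarith
  obtain ⟨W, hW⟩ : ∃ W : ℝ → ℝ, W = fun t => -Y (Real.pi / 2 - t) * Real.tan t ^ 2 := ⟨_, rfl⟩
  obtain ⟨W', hW'⟩ : ∃ W' : ℝ → ℝ, W' = fun t => Y' (Real.pi / 2 - t) * Real.tan t ^ 2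
      + -Y (Real.pi / 2 - t) * (2 * Real.tan t * (1 + Real.tan t ^ 2)) := ⟨_, rfl⟩
  have hWd : ∀ t ∈ Ioo 0 (Real.pi / 2), HasDerivAt W (W' t) t := by
    intro t ht
    have h2 : HasDerivAt (fun t => Real.tan t ^ 2) (2 * Real.tan t * (1 + Real.tan t ^ 2)) t := by
      have := (hasDerivAt_tan ht).pow 2
      refine this.congr_deriv ?_
      simp
    have h3 := ((hasDerivAt_refl (hYd _ (refl_mem ht))).neg).mul h2
    rw [hW, hW']
    refine h3.congr_deriv ?_
    simp only [neg_neg, Pi.neg_apply]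
  have hWs : ∀ t ∈ Ioo 0 (Real.pi / 2),
      W' t * (Real.tan t / (1 + Real.tan t ^ 2)) < RR μ β k m (Real.tan t ^ 2) (W t) := by
    intro t ht
    have h1 := tan_pos ht
    have h2 := hYs _ (refl_mem ht)
    rw [tan_refl] at h2
    have h3 : (1 + Real.tan t ^ 2) ≠ 0 := by positivity
    have h4 := RR_symm (μ := μ) (β := β) (m := m) (k := k) (X := (1 / Real.tan t) ^ 2)
      (Z := Y (Real.pi / 2 - t)) hμ0 (by positivity)
    have e1 : 1 / (1 / Real.tan t) ^ 2 = Real.tan t ^ 2 := by field_simp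
    have e2 : -Y (Real.pi / 2 - t) / (1 / Real.tan t) ^ 2
        = -Y (Real.pi / 2 - t) * Real.tan t ^ 2 := by field_simp
    rw [e1, e2] at h4
    rw [hW, hW']
    simp only
    rw [h4]
    have e3 : (Y' (Real.pi / 2 - t) * Real.tan t ^ 2
      + -Y (Real.pi / 2 - t) * (2 * Real.tan t * (1 + Real.tan t ^ 2)))
        * (Real.tan t / (1 + Real.tan t ^ 2))
      = (Y' (Real.pi / 2 - t) * (1 / Real.tan t / (1 + (1 / Real.tan t) ^ 2))
        - 2 * Y (Real.pi / 2 - t)) / (1 / Real.tan t) ^ 2 := by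
      field_simp
      ring
    rw [e3]
    apply div_lt_div_of_pos_right _ (by positivity)
    linarith
  have hW0 : Tendsto W (𝓝[>] 0) (𝓝 (m / (m + k + q))) := by
    have h1 : Tendsto (fun t => (1 / Real.tan t) ^ 2) (𝓝[>] 0) atTop := by
      have h2 : Tendsto (fun s => (Real.tan s ^ 2)⁻¹) (𝓝[>] 0) atTop :=
        tendsto_inv_nhdsGT_zero.comp htan0
      refine h2.congr fun s => ?_
      rw [one_div, inv_pow]
    have h2 := (hz1.comp h1).div_const ((m : ℝ) + k + q)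
    refine h2.congr' ?_
    filter_upwards [Ioo_mem_nhdsGT (by positivity : (0 : ℝ) < Real.pi / 2)] with s hs
    have hs0 := tan_pos hs
    rw [hW, hY]
    simp only [Function.comp_apply]
    rw [tan_refl]
    field_simp
  have hzle' : (m : ℝ) / (m + k + q) ≤ m / (μ * β + k + m - 1 - μ) := by
    have : μ * β + k + m - 1 - μ ≤ m + k + q := by linarith
    gcongr
  have hR := fun t ht => left hμ0 hg.toProf hm0 hβ0 hB'
    ⟨hg0, hg.l0, hg.l0'⟩ hWd hWs hW0 hzle' (t := t) ht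
  -- equality
  have heq : ∀ t ∈ Ioo 0 (Real.pi / 2), ZZ β f f' t = Y t := by
    intro t ht
    apply le_antisymm _ (hL t ht).2
    have h1 := (hR _ (refl_mem ht)).2
    have ht0 := tan_pos ht
    rw [hW] at h1
    unfold ZZ at h1 ⊢
    simp only [sub_sub_cancel, neg_neg] at h1
    rw [tan_refl] at h1
    have hf' := (hL t ht).1
    have e1 : -(β * -f t * (1 / Real.tan t)) / f' t
        = -(-(β * f t * Real.tan t) / f' t) * (1 / Real.tan t) ^ 2 := by
      have := hf'.ne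
      field_simp
    rw [e1] at h1
    have h3 : 0 < (1 / Real.tan t) ^ 2 := by positivity
    have := le_of_mul_le_mul_right h1 h3
    linarith
  have hpi4 : Real.pi / 4 ∈ Ioo 0 (Real.pi / 2) := ⟨by positivity, by linarith [Real.pi_pos]⟩
  have hd1 := hasDerivAt_ZZ hμ0 h.toProf hpi4 (hL _ hpi4).1.ne
  have hd2 : HasDerivAt (ZZ β f f') (Y' (Real.pi / 4)) (Real.pi / 4) := by
    refine (hYd _ hpi4).congr_of_eventuallyEq ?_
    filter_upwards [Ioo_mem_nhds hpi4.1 hpi4.2] with t ht using heq t ht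
  have h1 := hd1.unique hd2
  have h2 := hYs _ hpi4
  rw [← h1, heq _ hpi4] at h2
  have ht0 := tan_pos hpi4
  have h3 : (1 + Real.tan (Real.pi / 4) ^ 2) ≠ 0 := by positivity
  have e : RR μ β m k (Real.tan (Real.pi / 4) ^ 2) (Y (Real.pi / 4))
      * ((1 + Real.tan (Real.pi / 4) ^ 2) / Real.tan (Real.pi / 4))
      * (Real.tan (Real.pi / 4) / (1 + Real.tan (Real.pi / 4) ^ 2))
      = RR μ β m k (Real.tan (Real.pi / 4) ^ 2) (Y (Real.pi / 4)) := by
    field_simp
  rw [e] at h2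
  exact lt_irrefl _ h2

/-- **No profile with `1 < β ≤ 1 + 2/p`**, except for `p = β = 2`. -/
theorem contra (m k : ℕ) (hm : 1 ≤ m) (hk : 1 ≤ k) {p μ β f0 f1 : ℝ} {f f' f'' : ℝ → ℝ}
    (hp : 2 ≤ p) (hμ : μ = p - 1) (hβ : 1 < β) (hβ2 : β ≤ 1 + 2 / p) (hne : p ≠ 2 ∨ β ≠ 2)
    (h : Full m k μ β f f' f'' f0 f1) : False := by
  rcases le_total m k with hmk | hmk
  · rcases lt_or_gt_of_ne h.ne0 with h0 | h0
    · exact contra_aux m k hm hmk hp hμ hβ hβ2 hne h.neg (by linarith)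
    · exact contra_aux m k hm hmk hp hμ hβ hβ2 hne h h0
  · rcases lt_or_gt_of_ne h.ne1 with h0 | h0
    · exact contra_aux k m hk hmk hp hμ hβ hβ2 hne h.refl.neg (by linarith)
    · exact contra_aux k m hk hmk hp hμ hβ hβ2 hne h.refl h0

end Pool.Agent.H76.BP
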