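import Pool.Agent.H76.BP.OscD

/-!
# Homogeneous maps in general dimension
-/

set_option autoImplicit false
open MeasureTheory Metric Filter Topology Set
open scoped ContDiff RealInnerProductSpace

namespace Pool.Agent.H76.BP

open Pool.Agent.H76.PL (E Mat V A grad osc IsPHarmonic Homog)

variable {d n : ℕ} {p β γ : ℝ} {h : E d → E n}

lemma hasFD (hc : ContDiff ℝ 1 h) (x : E d) : HasFDerivAt h (fderiv ℝ h x) x :=
  ((hc.differentiable (by simp)) x).hasFDerivAt

lemma fderiv_homog (hc : ContDiff ℝ 1 h) (hh : Homog β h) {t : ℝ} (ht : 0 < t) (x : E d) :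
    fderiv ℝ h (t • x) = t ^ (β - 1) • fderiv ℝ h x := by
  have h1 : HasFDerivAt (fun y : E d => h (t • y))
      ((fderiv ℝ h (t • x)).comp (t • ContinuousLinearMap.id ℝ (E d))) x :=
    (hasFD hc (t • x)).comp x ((hasFDerivAt_id x).const_smul t)
  have h2 : HasFDerivAt (fun y : E d => h (t • y)) (t ^ β • fderiv ℝ h x) x := by
    have e : (fun y : E d => h (t • y)) = fun y => t ^ β • h y := funext fun y => hh t ht y
    rw [e]
    exact (hasFD hc x).const_smul (t ^ β)
  have h3 := h1.unique h2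
  ext1 v
  have h4 := congrArg (fun L : E d →L[ℝ] E n => L v) h3
  simp only [ContinuousLinearMap.comp_apply, smul_apply,
    ContinuousLinearMap.id_apply, map_smul] at h4
  rw [smul_apply, Real.rpow_sub_one ht.ne', div_eq_inv_mul, mul_smul, ← h4,
    smul_smul, inv_mul_cancel₀ ht.ne', one_smul]

lemma grad_homog (hc : ContDiff ℝ 1 h) (hh : Homog β h) {t : ℝ} (ht : 0 < t) (x : E d) :
    grad h (t • x) = t ^ (β - 1) • grad h x := by
  unfold grad
  rw [fderiv_homog hc hh ht]
  ext q
  simp

lemma V_smul {c : ℝ} (hc : 0 < c) (ξ : Mat n d) : V p (c • ξ) = c ^ (p / 2) • V p ξ := by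
  unfold V
  rw [norm_smul, Real.norm_of_nonneg hc.le, Real.mul_rpow hc.le (norm_nonneg _), smul_smul,
    smul_smul]
  congr 1
  have : c ^ (p / 2) = c ^ ((p - 2) / 2) * c := by
    rw [← Real.rpow_add_one hc.ne']
    congr 1; ring
  rw [this]; ring

lemma V_homog (hc : ContDiff ℝ 1 h) (hh : Homog β h) (hγ : γ = (β - 1) * p / 2) {t : ℝ}
    (ht : 0 < t) (x : E d) : V p (grad h (t • x)) = t ^ γ • V p (grad h x) := by
  rw [grad_homog hc hh ht, V_smul (Real.rpow_pos_of_pos ht _), ← Real.rpow_mul ht.le, hγ]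
  congr 2; ring

lemma V_ne_zero {ξ : Mat n d} (hξ : ξ ≠ 0) : V p ξ ≠ 0 := by
  unfold V
  have : 0 < ‖ξ‖ := norm_pos_iff.mpr hξ
  exact smul_ne_zero (Real.rpow_pos_of_pos this _).ne' hξ

lemma contDiffAt_V {ξ : Mat n d} (hξ : ξ ≠ 0) : ContDiffAt ℝ 1 (V p : Mat n d → Mat n d) ξ := by
  unfold V
  exact ((contDiffAt_norm ℝ hξ).rpow_const_of_ne (norm_ne_zero_iff.mpr hξ)).smul contDiffAt_id

lemma continuous_grad (hc : ContDiff ℝ 1 h) : Continuous (grad h) := by
  unfold grad
  have : Continuous (fun x : E d => fun q : Fin n × Fin d =>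
      fderiv ℝ h x (EuclideanSpace.single q.2 1) q.1) := by
    apply continuous_pi
    intro q
    have h1 : Continuous fun x : E d => fderiv ℝ h x (EuclideanSpace.single q.2 1) :=
      (hc.continuous_fderiv (by simp)).clm_apply continuous_const
    exact (EuclideanSpace.proj q.1 : E n →L[ℝ] ℝ).continuous.comp h1
  exact (PiLp.continuous_toLp 2 _).comp this

/-- homogeneous of degree `> 1` and `C¹` off the origin implies `C¹`. -/
lemma contDiff_of_homog {G : E d → Mat n d} (hγ : 1 < γ)
    (hG : ∀ t : ℝ, 0 < t → ∀ x, G (t • x) = t ^ γ • G x) (hs : ∀ x, x ≠ 0 → ContDiffAt ℝ 1 G x) :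
    ContDiff ℝ 1 G := by
  have hd : ∀ x, x ≠ 0 → HasFDerivAt G (fderiv ℝ G x) x := fun x hx =>
    ((hs x hx).differentiableAt (by simp)).hasFDerivAt
  have hG0 : G 0 = 0 := by
    have h1 := hG 2 (by norm_num) 0
    rw [smul_zero] at h1
    have h2 : ((2 : ℝ) ^ γ - 1) • G 0 = 0 := by rw [sub_smul, one_smul, ← h1, sub_self]
    have h3 : 1 < (2 : ℝ) ^ γ := Real.one_lt_rpow (by norm_num) (by linarith)
    rcases smul_eq_zero.mp h2 with h | h
    · linarith
    · exact h
  have hdh : ∀ t : ℝ, 0 < t → ∀ x, x ≠ 0 → fderiv ℝ G (t • x) = t ^ (γ - 1) • fderiv ℝ G x := by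
    intro t ht x hx
    have htx : t • x ≠ 0 := smul_ne_zero ht.ne' hx
    have h1 : HasFDerivAt (fun y : E d => G (t • y))
        ((fderiv ℝ G (t • x)).comp (t • ContinuousLinearMap.id ℝ (E d))) x :=
      (hd _ htx).comp x ((hasFDerivAt_id x).const_smul t)
    have h2 : HasFDerivAt (fun y : E d => G (t • y)) (t ^ γ • fderiv ℝ G x) x := by
      have e : (fun y : E d => G (t • y)) = fun y => t ^ γ • G y := funext fun y => hG t ht y
      rw [e]
      exact (hd x hx).const_smul (t ^ γ)
    have h3 := h1.unique h2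
    ext1 v
    have h4 := congrArg (fun L : E d →L[ℝ] Mat n d => L v) h3
    simp only [ContinuousLinearMap.comp_apply, smul_apply,
      ContinuousLinearMap.id_apply, map_smul] at h4
    rw [smul_apply, Real.rpow_sub_one ht.ne', div_eq_inv_mul, mul_smul, ← h4,
      smul_smul, inv_mul_cancel₀ ht.ne', one_smul]
  -- bounds on the unit sphere
  have hsph : ∀ x ∈ sphere (0 : E d) 1, x ≠ 0 := by
    intro x hx h0
    rw [h0, mem_sphere_zero_iff_norm, norm_zero] at hx
    exact zero_ne_one hx
  obtain ⟨M, hM⟩ := (isCompact_sphere (0 : E d) 1).exists_bound_of_continuousOn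
    (f := fderiv ℝ G) (fun x hx =>
      ((hs x (hsph x hx)).continuousAt_fderiv (by simp)).continuousWithinAt)
  obtain ⟨M', hM'⟩ := (isCompact_sphere (0 : E d) 1).exists_bound_of_continuousOn
    (f := G) (fun x hx => (hs x (hsph x hx)).continuousAt.continuousWithinAt)
  have hb1 : ∀ x : E d, ‖G x‖ ≤ M' * ‖x‖ ^ γ := by
    intro x
    by_cases hx : x = 0
    · rw [hx, hG0, norm_zero, norm_zero, Real.zero_rpow (by linarith), mul_zero]
    · have hn : 0 < ‖x‖ := norm_pos_iff.mpr hx
      have h1 := hG ‖x‖ hn (‖x‖⁻¹ • x)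
      rw [smul_smul, mul_inv_cancel₀ hn.ne', one_smul] at h1
      rw [h1, norm_smul, Real.norm_of_nonneg (by positivity), mul_comm]
      gcongr
      apply hM'
      rw [mem_sphere_zero_iff_norm, norm_smul, norm_inv, norm_norm, inv_mul_cancel₀ hn.ne']
  have hb2 : ∀ x : E d, x ≠ 0 → ‖fderiv ℝ G x‖ ≤ M * ‖x‖ ^ (γ - 1) := by
    intro x hx
    have hn : 0 < ‖x‖ := norm_pos_iff.mpr hx
    have hx' : ‖x‖⁻¹ • x ≠ 0 := smul_ne_zero (inv_ne_zero hn.ne') hx
    have h1 := hdh ‖x‖ hn (‖x‖⁻¹ • x) hx'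
    rw [smul_smul, mul_inv_cancel₀ hn.ne', one_smul] at h1
    rw [h1, norm_smul, Real.norm_of_nonneg (by positivity), mul_comm]
    gcongr
    apply hM
    rw [mem_sphere_zero_iff_norm, norm_smul, norm_inv, norm_norm, inv_mul_cancel₀ hn.ne']
  -- differentiability at the origin
  have hlim : Tendsto (fun x : E d => ‖x‖ ^ (γ - 1)) (𝓝 0) (𝓝 0) := by
    have h1 : ContinuousAt (fun x : E d => ‖x‖ ^ (γ - 1)) 0 :=
      continuous_norm.continuousAt.rpow_const (Or.inr (by linarith))
    have := h1.tendsto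
    rwa [norm_zero, Real.zero_rpow (by linarith)] at this
  have hd0 : HasFDerivAt G (0 : E d →L[ℝ] Mat n d) 0 := by
    rw [hasFDerivAt_iff_tendsto]
    simp only [hG0, sub_zero, zero_apply]
    have h1 : ∀ x : E d, ‖‖x‖⁻¹ * ‖G x‖‖ ≤ |M'| * ‖x‖ ^ (γ - 1) := by
      intro x
      rw [Real.norm_of_nonneg (by positivity)]
      by_cases hx : x = 0
      · rw [hx, norm_zero, inv_zero, zero_mul, Real.zero_rpow (by linarith), mul_zero]
      · have hn : 0 < ‖x‖ := norm_pos_iff.mpr hx
        rw [inv_mul_le_iff₀ hn]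
        calc ‖G x‖ ≤ M' * ‖x‖ ^ γ := hb1 x
          _ ≤ |M'| * ‖x‖ ^ γ := by gcongr; exact le_abs_self _
          _ = ‖x‖ * (|M'| * ‖x‖ ^ (γ - 1)) := by
              rw [Real.rpow_sub_one hn.ne']; field_simp
    refine squeeze_zero_norm h1 ?_
    simpa using hlim.const_mul |M'|
  rw [contDiff_one_iff_fderiv]
  refine ⟨fun x => ?_, ?_⟩
  · by_cases hx : x = 0
    · rw [hx]; exact hd0.differentiableAt
    · exact (hd x hx).differentiableAt
  · rw [continuous_iff_continuousAt]
    intro x
    by_cases hx : x = 0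
    · rw [hx]
      show Tendsto _ _ _
      rw [hd0.fderiv]
      have h1 : ∀ x : E d, ‖fderiv ℝ G x‖ ≤ |M| * ‖x‖ ^ (γ - 1) := by
        intro x
        by_cases hx : x = 0
        · rw [hx, hd0.fderiv, norm_zero]; positivity
        · calc _ ≤ M * ‖x‖ ^ (γ - 1) := hb2 x hx
            _ ≤ _ := by gcongr; exact le_abs_self _
      refine squeeze_zero_norm h1 ?_
      simpa using hlim.const_mul |M|
    · exact (hs x hx).continuousAt_fderiv (by simp)

lemma osc_const {C : Mat n d} (x : E d) {r : ℝ} (hr : 0 < r) : osc (fun _ => C) x r = 0 := by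
  unfold osc
  have h1 : ⨍ _ in ball x r, C = C := by
    apply setAverage_const
    · exact (isOpen_ball.measure_pos volume ⟨x, mem_ball_self hr⟩).ne'
    · exact measure_ball_lt_top.ne
  simp [h1]

/-- The gradient of a homogeneous map of degree at most one is constant. -/
lemma grad_const (hc : ContDiff ℝ 1 h) (hh : Homog β h) (hβ : β ≤ 1) (x : E d) :
    grad h x = grad h 0 := by
  have hcont : Tendsto (fun t : ℝ => grad h (t • x)) (𝓝[>] 0) (𝓝 (grad h 0)) := by
    have h1 : ContinuousAt (fun t : ℝ => grad h (t • x)) 0 :=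
      ((continuous_grad hc).comp (by fun_prop : Continuous fun t : ℝ => t • x)).continuousAt
    have h2 := h1.tendsto
    rw [zero_smul] at h2
    exact h2.mono_left nhdsWithin_le_nhds
  rcases eq_or_lt_of_le hβ with h1 | h1
  · have h2 : (fun t : ℝ => grad h (t • x)) =ᶠ[𝓝[>] 0] fun _ => grad h x := by
      filter_upwards [self_mem_nhdsWithin] with t ht
      rw [grad_homog hc hh ht, h1, sub_self, Real.rpow_zero, one_smul]
    exact (tendsto_nhds_unique (hcont.congr' h2) tendsto_const_nhds).symm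
  · -- both sides vanish
    have key : ∀ x : E d, grad h x = 0 := by
      intro x
      have hcont : Tendsto (fun t : ℝ => grad h (t • x)) (𝓝[>] 0) (𝓝 (grad h 0)) := by
        have h1 : ContinuousAt (fun t : ℝ => grad h (t • x)) 0 :=
          ((continuous_grad hc).comp (by fun_prop : Continuous fun t : ℝ => t • x)).continuousAt
        have h2 := h1.tendsto
        rw [zero_smul] at h2
        exact h2.mono_left nhdsWithin_le_nhds
      have h3 : Tendsto (fun t : ℝ => t ^ (1 - β)) (𝓝[>] 0) (𝓝 0) := by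
        have h4 : ContinuousAt (fun t : ℝ => t ^ (1 - β)) 0 :=
          continuousAt_id.rpow_const (Or.inr (by linarith))
        have h5 := h4.tendsto
        rw [Real.zero_rpow (by linarith)] at h5
        exact h5.mono_left nhdsWithin_le_nhds
      have h4 := h3.smul hcont
      rw [zero_smul] at h4
      have h2 : (fun t : ℝ => t ^ (1 - β) • grad h (t • x)) =ᶠ[𝓝[>] 0] fun _ => grad h x := by
        filter_upwards [self_mem_nhdsWithin] with t ht
        have ht' : 0 < t := ht
        rw [grad_homog hc hh ht, smul_smul, ← Real.rpow_add ht']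
        have : 1 - β + (β - 1) = 0 := by ring
        rw [this, Real.rpow_zero, one_smul]
      exact (tendsto_nhds_unique (h4.congr' h2) tendsto_const_nhds).symm
    rw [key, key]

end Pool.Agent.H76.BP
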