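import Pool.Agent.H76.PL.Main

/-!
# Bipolar coordinates in `ℝ^m × ℝ^k`
-/

set_option autoImplicit false
open MeasureTheory Metric Filter Topology Set
open scoped ContDiff RealInnerProductSpace

namespace Pool.Agent.H76.BP

open Pool.Agent.H76.PL

/-- the first `m` coordinates -/
noncomputable def fs {m k : ℕ} (x : E (m + k)) : E m := WithLp.toLp 2 fun i => x (Fin.castAdd k i)

/-- the last `k` coordinates -/
noncomputable def sn {m k : ℕ} (x : E (m + k)) : E k := WithLp.toLp 2 fun j => x (Fin.natAdd m j)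

section
variable {m k : ℕ}

@[simp] lemma fs_apply (x : E (m + k)) (i : Fin m) : fs x i = x (Fin.castAdd k i) := rfl
@[simp] lemma sn_apply (x : E (m + k)) (j : Fin k) : sn x j = x (Fin.natAdd m j) := rfl

/-- `fs` as a continuous linear map -/
noncomputable def fsL : E (m + k) →L[ℝ] E m :=
  (ContinuousLinearMap.fst ℝ (E m) (E k)).comp
    (EuclideanSpace.finAddEquivProd (𝕜 := ℝ) (n := m) (m := k) : E (m + k) →L[ℝ] E m × E k)

noncomputable def snL : E (m + k) →L[ℝ] E k :=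
  (ContinuousLinearMap.snd ℝ (E m) (E k)).comp
    (EuclideanSpace.finAddEquivProd (𝕜 := ℝ) (n := m) (m := k) : E (m + k) →L[ℝ] E m × E k)

lemma fsL_apply (x : E (m + k)) : fsL x = fs x := by
  ext i
  simp [fsL]

lemma snL_apply (x : E (m + k)) : snL x = sn x := by
  ext i
  simp [snL]

lemma measurePreserving_pair :
    MeasurePreserving (fun x : E (m + k) => (fs x, sn x)) volume volume := by
  have h1 := (LinearIsometryEquiv.piLpCongrLeft 2 ℝ ℝ (finSumFinEquiv (m := m) (n := k)).symm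
    ).measurePreserving
  have h2 := (PiLp.sumPiLpEquivProdLpPiLp (𝕜 := ℝ) (ι := Fin m) (κ := Fin k) 2
    (fun _ => ℝ)).measurePreserving
  have h3 := WithLp.volume_preserving_ofLp (E m) (E k)
  have h4 := h3.comp (h2.comp h1)
  convert! h4 using 1

lemma norm_sq_split (x : E (m + k)) : ‖x‖ ^ 2 = ‖fs x‖ ^ 2 + ‖sn x‖ ^ 2 := by
  rw [EuclideanSpace.norm_sq_eq, EuclideanSpace.norm_sq_eq, EuclideanSpace.norm_sq_eq,
    Fin.sum_univ_add]
  rfl

lemma inner_split (x y : E (m + k)) : ⟪x, y⟫ = ⟪fs x, fs y⟫ + ⟪sn x, sn y⟫ := by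
  simp only [PiLp.inner_apply, Fin.sum_univ_add]
  rfl

/-- the norms of the two blocks -/
noncomputable def pr (x : E (m + k)) : E 2 := ‖fs x‖ • ee 0 + ‖sn x‖ • ee 1

@[simp] lemma pr_zero (x : E (m + k)) : pr x 0 = ‖fs x‖ := by simp [pr]
@[simp] lemma pr_one (x : E (m + k)) : pr x 1 = ‖sn x‖ := by simp [pr]

lemma continuous_fs : Continuous (fs : E (m + k) → E m) := by
  have h := (fsL (m := m) (k := k)).continuous
  have e : (fs : E (m + k) → E m) = fun x => fsL x := funext fun x => (fsL_apply x).symm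
  rw [e]
  exact h

lemma continuous_sn : Continuous (sn : E (m + k) → E k) := by
  have h := (snL (m := m) (k := k)).continuous
  have e : (sn : E (m + k) → E k) = fun x => snL x := funext fun x => (snL_apply x).symm
  rw [e]
  exact h

lemma continuous_pr : Continuous (pr : E (m + k) → E 2) := by
  unfold pr
  have := continuous_fs (m := m) (k := k)
  have := continuous_sn (m := m) (k := k)
  fun_prop

lemma norm_pr (x : E (m + k)) : ‖pr x‖ = ‖x‖ := by
  have h1 : ‖pr x‖ ^ 2 = ‖x‖ ^ 2 := by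
    rw [norm_sq_split, EuclideanSpace.norm_sq_eq, Fin.sum_univ_two]
    simp
  exact (sq_eq_sq₀ (norm_nonneg _) (norm_nonneg _)).mp h1

/-- the derivative of `pr` off the axes -/
noncomputable def dpr (x : E (m + k)) : E (m + k) →L[ℝ] E 2 :=
  (‖fs x‖⁻¹ • (innerSL ℝ (fs x)).comp fsL).smulRight (ee 0)
    + (‖sn x‖⁻¹ • (innerSL ℝ (sn x)).comp snL).smulRight (ee 1)

lemma hasFDerivAt_norm_fs {x : E (m + k)} (hx : fs x ≠ 0) :
    HasFDerivAt (fun y : E (m + k) => ‖fs y‖) (‖fs x‖⁻¹ • (innerSL ℝ (fs x)).comp fsL) x := by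
  have h1 : HasFDerivAt (fun y : E m => ‖y‖) (‖fs x‖⁻¹ • innerSL ℝ (fs x)) (fs x) := by
    have h2 := (hasStrictFDerivAt_norm_sq (fs x)).hasFDerivAt.sqrt
      (pow_ne_zero 2 (norm_ne_zero_iff.mpr hx))
    have e1 : (fun y : E m => Real.sqrt (‖y‖ ^ 2)) = fun y => ‖y‖ := by
      ext y; rw [Real.sqrt_sq (norm_nonneg _)]
    rw [e1] at h2
    refine h2.congr_fderiv ?_
    rw [Real.sqrt_sq (norm_nonneg _)]
    ext v
    simp
    field_simp
  have h3 : HasFDerivAt (fun y : E (m + k) => fsL y) fsL x := fsL.hasFDerivAt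
  rw [← fsL_apply] at h1
  have h4 := h1.comp x h3
  simp only [Function.comp_def, fsL_apply] at h4
  exact h4

lemma hasFDerivAt_norm_sn {x : E (m + k)} (hx : sn x ≠ 0) :
    HasFDerivAt (fun y : E (m + k) => ‖sn y‖) (‖sn x‖⁻¹ • (innerSL ℝ (sn x)).comp snL) x := by
  have h1 : HasFDerivAt (fun y : E k => ‖y‖) (‖sn x‖⁻¹ • innerSL ℝ (sn x)) (sn x) := by
    have h2 := (hasStrictFDerivAt_norm_sq (sn x)).hasFDerivAt.sqrt
      (pow_ne_zero 2 (norm_ne_zero_iff.mpr hx))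
    have e1 : (fun y : E k => Real.sqrt (‖y‖ ^ 2)) = fun y => ‖y‖ := by
      ext y; rw [Real.sqrt_sq (norm_nonneg _)]
    rw [e1] at h2
    refine h2.congr_fderiv ?_
    rw [Real.sqrt_sq (norm_nonneg _)]
    ext v
    simp
    field_simp
  have h3 : HasFDerivAt (fun y : E (m + k) => snL y) snL x := snL.hasFDerivAt
  rw [← snL_apply] at h1
  have h4 := h1.comp x h3
  simp only [Function.comp_def, snL_apply] at h4
  exact h4

lemma hasFDerivAt_pr {x : E (m + k)} (h1 : fs x ≠ 0) (h2 : sn x ≠ 0) :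
    HasFDerivAt pr (dpr x) x :=
  ((hasFDerivAt_norm_fs h1).smul_const (ee 0)).add ((hasFDerivAt_norm_sn h2).smul_const (ee 1))

/-- inner product of gradients -/
lemma inner_grad_sum {d n : ℕ} (g φ : E d → E n) (x : E d) :
    ⟪grad g x, grad φ x⟫ = ∑ i : Fin d, ⟪fderiv ℝ g x (EuclideanSpace.single i 1),
      fderiv ℝ φ x (EuclideanSpace.single i 1)⟫ := by
  simp only [grad, PiLp.inner_apply, Fintype.sum_prod_type]
  rw [Finset.sum_comm]

lemma dpr_castAdd (x : E (m + k)) (i : Fin m) :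
    dpr x (EuclideanSpace.single (Fin.castAdd k i) 1) = (‖fs x‖⁻¹ * fs x i) • ee 0 := by
  have h1 : fs (EuclideanSpace.single (Fin.castAdd k i) (1 : ℝ)) = EuclideanSpace.single i 1 := by
    ext j
    simp [Pi.single_apply]
  have h2 : sn (EuclideanSpace.single (Fin.castAdd k i) (1 : ℝ)) = 0 := by
    ext j
    simp
    intro h
    have := congrArg Fin.val h
    simp at this
    omega
  simp [dpr, fsL_apply, snL_apply, h1, h2, EuclideanSpace.inner_single_right]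

lemma dpr_natAdd (x : E (m + k)) (j : Fin k) :
    dpr x (EuclideanSpace.single (Fin.natAdd m j) 1) = (‖sn x‖⁻¹ * sn x j) • ee 1 := by
  have h1 : sn (EuclideanSpace.single (Fin.natAdd m j) (1 : ℝ)) = EuclideanSpace.single j 1 := by
    ext j
    simp [Pi.single_apply]
  have h2 : fs (EuclideanSpace.single (Fin.natAdd m j) (1 : ℝ)) = 0 := by
    ext j
    simp
    intro h
    have := congrArg Fin.val h
    simp at this
    omega
  simp [dpr, fsL_apply, snL_apply, h1, h2, EuclideanSpace.inner_single_right]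

/-- gradients of functions of the two norms -/
lemma inner_grad_pr {n : ℕ} {g φ : E 2 → E n} {x : E (m + k)} (h1 : fs x ≠ 0) (h2 : sn x ≠ 0)
    (hg : DifferentiableAt ℝ g (pr x)) (hφ : DifferentiableAt ℝ φ (pr x)) :
    ⟪grad (fun y => g (pr y)) x, grad (fun y => φ (pr y)) x⟫ = ⟪grad g (pr x), grad φ (pr x)⟫ := by
  rw [inner_grad_sum, inner_grad_sum]
  have d1 : fderiv ℝ (fun y => g (pr y)) x = (fderiv ℝ g (pr x)).comp (dpr x) :=
    (hg.hasFDerivAt.comp x (hasFDerivAt_pr h1 h2)).fderiv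
  have d2 : fderiv ℝ (fun y => φ (pr y)) x = (fderiv ℝ φ (pr x)).comp (dpr x) :=
    (hφ.hasFDerivAt.comp x (hasFDerivAt_pr h1 h2)).fderiv
  rw [d1, d2, Fin.sum_univ_add, Fin.sum_univ_two]
  simp only [ContinuousLinearMap.comp_apply, dpr_castAdd, dpr_natAdd, map_smul,
    real_inner_smul_left, real_inner_smul_right]
  have n1 : ‖fs x‖ ≠ 0 := norm_ne_zero_iff.mpr h1
  have n2 : ‖sn x‖ ≠ 0 := norm_ne_zero_iff.mpr h2
  have s1 : ∑ i : Fin m, fs x i ^ 2 = ‖fs x‖ ^ 2 := by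
    rw [EuclideanSpace.norm_sq_eq]; simp
  have s2 : ∑ i : Fin k, sn x i ^ 2 = ‖sn x‖ ^ 2 := by
    rw [EuclideanSpace.norm_sq_eq]; simp
  have e1 : ∑ i : Fin m, ‖fs x‖⁻¹ * fs x i * (‖fs x‖⁻¹ * fs x i *
      ⟪fderiv ℝ g (pr x) (ee 0), fderiv ℝ φ (pr x) (ee 0)⟫)
      = ⟪fderiv ℝ g (pr x) (ee 0), fderiv ℝ φ (pr x) (ee 0)⟫ := by
    have : ∀ i : Fin m, ‖fs x‖⁻¹ * fs x i * (‖fs x‖⁻¹ * fs x i *
      ⟪fderiv ℝ g (pr x) (ee 0), fderiv ℝ φ (pr x) (ee 0)⟫)
      = fs x i ^ 2 * ((‖fs x‖ ^ 2)⁻¹ * ⟪fderiv ℝ g (pr x) (ee 0), fderiv ℝ φ (pr x) (ee 0)⟫) :=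
      fun i => by rw [← inv_pow]; ring
    rw [Finset.sum_congr rfl fun i _ => this i, ← Finset.sum_mul, s1, ← mul_assoc,
      mul_inv_cancel₀ (pow_ne_zero 2 n1), one_mul]
  have e2 : ∑ i : Fin k, ‖sn x‖⁻¹ * sn x i * (‖sn x‖⁻¹ * sn x i *
      ⟪fderiv ℝ g (pr x) (ee 1), fderiv ℝ φ (pr x) (ee 1)⟫)
      = ⟪fderiv ℝ g (pr x) (ee 1), fderiv ℝ φ (pr x) (ee 1)⟫ := by
    have : ∀ i : Fin k, ‖sn x‖⁻¹ * sn x i * (‖sn x‖⁻¹ * sn x i *
      ⟪fderiv ℝ g (pr x) (ee 1), fderiv ℝ φ (pr x) (ee 1)⟫)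
      = sn x i ^ 2 * ((‖sn x‖ ^ 2)⁻¹ * ⟪fderiv ℝ g (pr x) (ee 1), fderiv ℝ φ (pr x) (ee 1)⟫) :=
      fun i => by rw [← inv_pow]; ring
    rw [Finset.sum_congr rfl fun i _ => this i, ← Finset.sum_mul, s2, ← mul_assoc,
      mul_inv_cancel₀ (pow_ne_zero 2 n2), one_mul]
  rw [e1, e2]
  rfl

end

end Pool.Agent.H76.BP
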