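import Pool.Agent.H76.BP.MainB

/-!
# Axially symmetric maps: geometry and integration
-/

set_option autoImplicit false
open MeasureTheory Metric Filter Topology Set
open scoped ContDiff RealInnerProductSpace

namespace Pool.Agent.H76.BP

open Pool.Agent.H76.PL

section
variable {k n : ℕ}

/-- first coordinate and norm of the rest -/
noncomputable def pz (x : E (1 + k)) : E 2 := (fs x 0) • ee 0 + ‖sn x‖ • ee 1

@[simp] lemma pz_zero (x : E (1 + k)) : pz x 0 = fs x 0 := by simp [pz]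
@[simp] lemma pz_one (x : E (1 + k)) : pz x 1 = ‖sn x‖ := by simp [pz]

lemma continuous_fs0 : Continuous fun x : E (1 + k) => fs x 0 := by
  have h1 : Continuous fun y : E 1 => y 0 :=
    (EuclideanSpace.proj (0 : Fin 1) : E 1 →L[ℝ] ℝ).continuous
  exact h1.comp continuous_fs

lemma continuous_pz : Continuous (pz : E (1 + k) → E 2) := by
  unfold pz
  have := continuous_fs0 (k := k)
  have := continuous_sn (m := 1) (k := k)
  fun_prop

lemma norm_fs_one (y : E 1) : ‖y‖ ^ 2 = y 0 ^ 2 := by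
  rw [EuclideanSpace.norm_sq_eq]; simp

lemma norm_pz (x : E (1 + k)) : ‖pz x‖ = ‖x‖ := by
  have h1 : ‖pz x‖ ^ 2 = ‖x‖ ^ 2 := by
    rw [norm_sq_split, EuclideanSpace.norm_sq_eq, Fin.sum_univ_two, norm_fs_one]
    simp
  exact (sq_eq_sq₀ (norm_nonneg _) (norm_nonneg _)).mp h1

/-- the derivative of `pz` off the axis -/
noncomputable def dpz (x : E (1 + k)) : E (1 + k) →L[ℝ] E 2 :=
  ((EuclideanSpace.proj (0 : Fin 1) : E 1 →L[ℝ] ℝ).comp fsL).smulRight (ee 0)
    + (‖sn x‖⁻¹ • (innerSL ℝ (sn x)).comp snL).smulRight (ee 1)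

lemma hasFDerivAt_fs0 (x : E (1 + k)) :
    HasFDerivAt (fun y : E (1 + k) => fs y 0)
      ((EuclideanSpace.proj (0 : Fin 1) : E 1 →L[ℝ] ℝ).comp fsL) x := by
  have h := ((EuclideanSpace.proj (0 : Fin 1) : E 1 →L[ℝ] ℝ).comp
    (fsL (m := 1) (k := k))).hasFDerivAt (x := x)
  refine h.congr_of_eventuallyEq (Eventually.of_forall fun y => ?_)
  simp only [ContinuousLinearMap.comp_apply, fsL_apply]
  rfl

lemma hasFDerivAt_pz {x : E (1 + k)} (h2 : sn x ≠ 0) : HasFDerivAt pz (dpz x) x :=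
  ((hasFDerivAt_fs0 x).smul_const (ee 0)).add ((hasFDerivAt_norm_sn h2).smul_const (ee 1))

lemma dpz_castAdd (x : E (1 + k)) (i : Fin 1) :
    dpz x (EuclideanSpace.single (Fin.castAdd k i) 1) = ee 0 := by
  have hi : i = 0 := Subsingleton.elim _ _
  subst hi
  have h1 : fs (EuclideanSpace.single (Fin.castAdd k (0 : Fin 1)) (1 : ℝ))
      = EuclideanSpace.single 0 1 := by
    ext j
    have hj : j = 0 := Subsingleton.elim _ _
    subst hj
    simp [Pi.single_apply]
  have h2 : sn (EuclideanSpace.single (Fin.castAdd k (0 : Fin 1)) (1 : ℝ)) = 0 := by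
    ext j
    simp
    intro h
    have := congrArg Fin.val h
    simp at this
  simp [dpz, fsL_apply, snL_apply, h1, h2]

lemma dpz_natAdd (x : E (1 + k)) (j : Fin k) :
    dpz x (EuclideanSpace.single (Fin.natAdd 1 j) 1) = (‖sn x‖⁻¹ * sn x j) • ee 1 := by
  have h1 : sn (EuclideanSpace.single (Fin.natAdd 1 j) (1 : ℝ)) = EuclideanSpace.single j 1 := by
    ext j
    simp [Pi.single_apply]
  have h2 : fs (EuclideanSpace.single (Fin.natAdd 1 j) (1 : ℝ)) = 0 := by
    ext j
    simp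
    intro h
    have := congrArg Fin.val h
    simp at this
    omega
  simp [dpz, fsL_apply, snL_apply, h1, h2, EuclideanSpace.inner_single_right]

/-- gradients of axially symmetric functions -/
lemma inner_grad_pz {g φ : E 2 → E n} {x : E (1 + k)} (h2 : sn x ≠ 0)
    (hg : DifferentiableAt ℝ g (pz x)) (hφ : DifferentiableAt ℝ φ (pz x)) :
    ⟪grad (fun y => g (pz y)) x, grad (fun y => φ (pz y)) x⟫ = ⟪grad g (pz x), grad φ (pz x)⟫ := by
  rw [inner_grad_sum, inner_grad_sum]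
  have d1 : fderiv ℝ (fun y => g (pz y)) x = (fderiv ℝ g (pz x)).comp (dpz x) :=
    (hg.hasFDerivAt.comp x (hasFDerivAt_pz h2)).fderiv
  have d2 : fderiv ℝ (fun y => φ (pz y)) x = (fderiv ℝ φ (pz x)).comp (dpz x) :=
    (hφ.hasFDerivAt.comp x (hasFDerivAt_pz h2)).fderiv
  rw [d1, d2, Fin.sum_univ_add, Fin.sum_univ_two]
  simp only [ContinuousLinearMap.comp_apply, dpz_castAdd, dpz_natAdd, map_smul,
    real_inner_smul_left, real_inner_smul_right]
  have n2 : ‖sn x‖ ≠ 0 := norm_ne_zero_iff.mpr h2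
  have s2 : ∑ i : Fin k, sn x i ^ 2 = ‖sn x‖ ^ 2 := by
    rw [EuclideanSpace.norm_sq_eq]; simp
  have e2 : ∑ i : Fin k, ‖sn x‖⁻¹ * sn x i * (‖sn x‖⁻¹ * sn x i *
      ⟪fderiv ℝ g (pz x) (ee 1), fderiv ℝ φ (pz x) (ee 1)⟫)
      = ⟪fderiv ℝ g (pz x) (ee 1), fderiv ℝ φ (pz x) (ee 1)⟫ := by
    have : ∀ i : Fin k, ‖sn x‖⁻¹ * sn x i * (‖sn x‖⁻¹ * sn x i *
      ⟪fderiv ℝ g (pz x) (ee 1), fderiv ℝ φ (pz x) (ee 1)⟫)
      = sn x i ^ 2 * ((‖sn x‖ ^ 2)⁻¹ * ⟪fderiv ℝ g (pz x) (ee 1), fderiv ℝ φ (pz x) (ee 1)⟫) :=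
      fun i => by rw [← inv_pow]; ring
    rw [Finset.sum_congr rfl fun i _ => this i, ← Finset.sum_mul, s2, ← mul_assoc,
      mul_inv_cancel₀ (pow_ne_zero 2 n2), one_mul]
  rw [e2]
  simp only [Finset.univ_unique, Finset.sum_const, Finset.card_singleton, one_smul]
  rfl

lemma integral_E1 (f : E 1 → ℝ) : ∫ y, f y = ∫ r : ℝ, f (EuclideanSpace.single 0 r) := by
  have hmp : MeasurePreserving
      ((MeasurableEquiv.toLp 2 (Fin 1 → ℝ)).symm.trans (MeasurableEquiv.funUnique (Fin 1) ℝ)) :=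
    (EuclideanSpace.volume_preserving_symm_measurableEquiv_toLp (Fin 1)).trans
      (volume_preserving_funUnique (Fin 1) ℝ)
  rw [← hmp.integral_comp' (fun r : ℝ => f (EuclideanSpace.single 0 r))]
  apply integral_congr_ae
  refine Eventually.of_forall fun x => ?_
  simp only
  congr 1
  ext i
  have hi : i = 0 := Subsingleton.elim _ _
  subst hi
  simp [MeasurableEquiv.funUnique]

lemma integral_pz (hk : 1 ≤ k) {G : E 2 → ℝ} (hG : Continuous G)
    (hc : HasCompactSupport G) (hz : ∀ z : E 2, z 1 ≤ 0 → G z = 0) :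
    ∃ C : ℝ, 0 < C ∧ ∫ x : E (1 + k), G (pz x) = C * ∫ z : E 2, z 1 ^ (k - 1) * G z := by
  obtain ⟨R, hR⟩ : ∃ R : ℝ, ∀ z : E 2, R < ‖z‖ → G z = 0 := by
    obtain ⟨R, hR⟩ := hc.isCompact.isBounded.subset_closedBall (0 : E 2)
    refine ⟨R, fun z hz => ?_⟩
    apply image_eq_zero_of_notMem_tsupport
    intro hm
    have := hR hm
    rw [mem_closedBall_zero_iff] at this
    linarith
  have hle1 : ∀ a b : ℝ, |a| ≤ ‖a • ee 0 + b • ee 1‖ := fun a b => by
    apply abs_le_of_sq_le_sq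
    · rw [norm_comb]; nlinarith [sq_nonneg b]
    · exact norm_nonneg _
  have hle2 : ∀ a b : ℝ, |b| ≤ ‖a • ee 0 + b • ee 1‖ := fun a b => by
    apply abs_le_of_sq_le_sq
    · rw [norm_comb]; nlinarith [sq_nonneg a]
    · exact norm_nonneg _
  have hc0 : Continuous fun q : E 1 × E k => q.1 0 := by
    have h1 : Continuous fun y : E 1 => y 0 :=
      (EuclideanSpace.proj (0 : Fin 1) : E 1 →L[ℝ] ℝ).continuous
    exact h1.comp continuous_fst
  have hcq : Continuous fun q : E 1 × E k => (q.1 0) • ee 0 + ‖q.2‖ • ee 1 := by fun_prop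
  -- product space
  have h1 : ∫ x : E (1 + k), G (pz x)
      = ∫ q : E 1 × E k, G ((q.1 0) • ee 0 + ‖q.2‖ • ee 1) := by
    have hmp := measurePreserving_pair (m := 1) (k := k)
    rw [← hmp.map_eq, integral_map hmp.measurable.aemeasurable]
    · rfl
    · exact (hG.comp hcq).aestronglyMeasurable
  have hint : Integrable (fun q : E 1 × E k => G ((q.1 0) • ee 0 + ‖q.2‖ • ee 1)) := by
    apply Continuous.integrable_of_hasCompactSupport (hG.comp hcq)
    apply HasCompactSupport.of_support_subset_isCompact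
      ((isCompact_closedBall (0 : E 1) R).prod (isCompact_closedBall (0 : E k) R))
    intro q hq
    have hq' : ‖(q.1 0) • ee 0 + ‖q.2‖ • ee 1‖ ≤ R := by
      by_contra hcon
      push Not at hcon
      exact hq (hR _ hcon)
    refine ⟨?_, ?_⟩
    · rw [mem_closedBall_zero_iff]
      have h5 := hle1 (q.1 0) ‖q.2‖
      have h6 : ‖q.1‖ = |q.1 0| := by
        have := norm_fs_one q.1
        rw [← sq_abs (q.1 0)] at this
        exact (sq_eq_sq₀ (norm_nonneg _) (abs_nonneg _)).mp this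
      rw [h6]
      linarith
    · rw [mem_closedBall_zero_iff]
      have := hle2 (q.1 0) ‖q.2‖
      rw [abs_norm] at this
      linarith
  have h2 : ∫ q : E 1 × E k, G ((q.1 0) • ee 0 + ‖q.2‖ • ee 1)
      = (k * volume.real (ball (0 : E k) 1))
        * ∫ r : ℝ, ∫ s in Ioi (0 : ℝ), s ^ (k - 1) * G (r • ee 0 + s • ee 1) := by
    rw [Measure.volume_eq_prod, integral_prod _ hint]
    have e1 : ∀ a : E 1, ∫ b : E k, G ((a 0) • ee 0 + ‖b‖ • ee 1)
        = (k * volume.real (ball (0 : E k) 1)) * ∫ s in Ioi (0 : ℝ), s ^ (k - 1)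
          * G ((a 0) • ee 0 + s • ee 1) := fun a =>
      integral_norm hk (fun s => G ((a 0) • ee 0 + s • ee 1))
    simp only [e1]
    rw [integral_const_mul, integral_E1]
    simp
  -- whole plane
  have h3 : ∫ r : ℝ, ∫ s in Ioi (0 : ℝ), s ^ (k - 1) * G (r • ee 0 + s • ee 1)
      = ∫ r : ℝ, ∫ s : ℝ, s ^ (k - 1) * G (r • ee 0 + s • ee 1) := by
    congr 1
    ext r
    apply setIntegral_eq_integral_of_forall_compl_eq_zero
    intro s hs
    rw [mem_Ioi, not_lt] at hs
    rw [hz _ (by simpa using hs), mul_zero]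
  have hint2 : Integrable (fun q : ℝ × ℝ => q.2 ^ (k - 1)
      * G (q.1 • ee 0 + q.2 • ee 1)) := by
    apply Continuous.integrable_of_hasCompactSupport
    · have : Continuous fun q : ℝ × ℝ => G (q.1 • ee 0 + q.2 • ee 1) := hG.comp (by fun_prop)
      fun_prop
    apply HasCompactSupport.of_support_subset_isCompact
      ((isCompact_closedBall (0 : ℝ) R).prod (isCompact_closedBall (0 : ℝ) R))
    intro q hq
    have hq' : ‖q.1 • ee 0 + q.2 • ee 1‖ ≤ R := by
      by_contra hcon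
      push Not at hcon
      exact hq (by simp only; rw [hR _ hcon, mul_zero])
    refine ⟨?_, ?_⟩
    · rw [mem_closedBall_zero_iff, Real.norm_eq_abs]
      exact (hle1 q.1 q.2).trans hq'
    · rw [mem_closedBall_zero_iff, Real.norm_eq_abs]
      exact (hle2 q.1 q.2).trans hq'
  have h4 : ∫ r : ℝ, ∫ s : ℝ, s ^ (k - 1) * G (r • ee 0 + s • ee 1)
      = ∫ z : E 2, z 1 ^ (k - 1) * G z := by
    rw [integral_E2, Measure.volume_eq_prod, integral_prod _ (by
      rw [← Measure.volume_eq_prod]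
      simpa using hint2)]
    simp
  refine ⟨k * volume.real (ball (0 : E k) 1), ?_, ?_⟩
  · have := ball_pos k
    have : (0 : ℝ) < k := by exact_mod_cast (by omega : 0 < k)
    positivity
  · rw [h1, h2, h3, h4]

end

end Pool.Agent.H76.BP
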