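import Pool.Agent.H76.BP.Geo

/-!
# Integration in bipolar coordinates
-/

set_option autoImplicit false
open MeasureTheory Metric Filter Topology Set
open scoped ContDiff RealInnerProductSpace

namespace Pool.Agent.H76.BP

open Pool.Agent.H76.PL

lemma integral_E2 (f : E 2 → ℝ) : ∫ x, f x = ∫ q : ℝ × ℝ, f (q.1 • ee 0 + q.2 • ee 1) := by
  have hmp : MeasurePreserving
      ((MeasurableEquiv.toLp 2 (Fin 2 → ℝ)).symm.trans (MeasurableEquiv.finTwoArrow (α := ℝ))) :=
    (EuclideanSpace.volume_preserving_symm_measurableEquiv_toLp (Fin 2)).trans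
      (volume_preserving_finTwoArrow ℝ)
  rw [← hmp.integral_comp' (fun q : ℝ × ℝ => f (q.1 • ee 0 + q.2 • ee 1))]
  apply integral_congr_ae
  refine Eventually.of_forall fun x => ?_
  simp only
  congr 1
  ext i
  fin_cases i <;> simp

lemma integral_norm {d : ℕ} (hd : 1 ≤ d) (f : ℝ → ℝ) :
    ∫ x : E d, f ‖x‖ = (d * volume.real (ball (0 : E d) 1)) * ∫ r in Ioi (0 : ℝ), r ^ (d - 1) * f r
    := by
  haveI : Nontrivial (E d) := by
    haveI : NeZero d := ⟨by omega⟩
    refine ⟨⟨EuclideanSpace.single 0 1, 0, ?_⟩⟩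
    intro h
    have := congrArg (fun z : E d => z 0) h
    simp at this
  rw [integral_fun_norm_addHaar volume f]
  have : Module.finrank ℝ (E d) = d := by simp
  rw [this]
  simp only [nsmul_eq_mul, smul_eq_mul]
  ring

lemma ball_pos (d : ℕ) : 0 < volume.real (ball (0 : E d) 1) := by
  simp only [Measure.real]
  exact ENNReal.toReal_pos (isOpen_ball.measure_pos volume
    (⟨0, by simp⟩ : (ball (0 : E d) 1).Nonempty)).ne' measure_ball_lt_top.ne

lemma norm_comb (a b : ℝ) : ‖a • ee 0 + b • ee 1‖ ^ 2 = a ^ 2 + b ^ 2 := by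
  rw [EuclideanSpace.norm_sq_eq, Fin.sum_univ_two]
  simp

lemma integral_pr {m k : ℕ} (hm : 1 ≤ m) (hk : 1 ≤ k) {G : E 2 → ℝ} (hG : Continuous G)
    (hc : HasCompactSupport G) (hz : ∀ z : E 2, (z 0 ≤ 0 ∨ z 1 ≤ 0) → G z = 0) :
    ∃ C : ℝ, 0 < C ∧ ∫ x : E (m + k), G (pr x) = C * ∫ z : E 2, z 0 ^ (m - 1) * z 1 ^ (k - 1) * G z
    := by
  obtain ⟨R, hR⟩ : ∃ R : ℝ, ∀ z : E 2, R < ‖z‖ → G z = 0 := by
    obtain ⟨R, hR⟩ := hc.isCompact.isBounded.subset_closedBall (0 : E 2)
    refine ⟨R, fun z hz => ?_⟩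
    apply image_eq_zero_of_notMem_tsupport
    intro hm
    have := hR hm
    rw [mem_closedBall_zero_iff] at this
    linarith
  have hle1 : ∀ a b : ℝ, |a| ≤ ‖a • ee 0 + b • ee 1‖ := fun a b => by
    apply abs_le_of_sq_le_sq
    · rw [norm_comb]; nlinarith [sq_nonneg b]
    · exact norm_nonneg _
  have hle2 : ∀ a b : ℝ, |b| ≤ ‖a • ee 0 + b • ee 1‖ := fun a b => by
    apply abs_le_of_sq_le_sq
    · rw [norm_comb]; nlinarith [sq_nonneg a]
    · exact norm_nonneg _
  -- product space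
  have h1 : ∫ x : E (m + k), G (pr x)
      = ∫ q : E m × E k, G (‖q.1‖ • ee 0 + ‖q.2‖ • ee 1) := by
    have hmp := measurePreserving_pair (m := m) (k := k)
    rw [← hmp.map_eq, integral_map hmp.measurable.aemeasurable]
    · rfl
    · have : Continuous fun q : E m × E k => G (‖q.1‖ • ee 0 + ‖q.2‖ • ee 1) :=
        hG.comp (by fun_prop)
      exact this.aestronglyMeasurable
  have hint : Integrable (fun q : E m × E k => G (‖q.1‖ • ee 0 + ‖q.2‖ • ee 1)) := by
    apply Continuous.integrable_of_hasCompactSupport (hG.comp (by fun_prop))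
    apply HasCompactSupport.of_support_subset_isCompact
      ((isCompact_closedBall (0 : E m) R).prod (isCompact_closedBall (0 : E k) R))
    intro q hq
    have hq' : ‖‖q.1‖ • ee 0 + ‖q.2‖ • ee 1‖ ≤ R := by
      by_contra hcon
      push Not at hcon
      exact hq (hR _ hcon)
    refine ⟨?_, ?_⟩
    · rw [mem_closedBall_zero_iff]
      have := hle1 ‖q.1‖ ‖q.2‖
      rw [abs_norm] at this
      linarith
    · rw [mem_closedBall_zero_iff]
      have := hle2 ‖q.1‖ ‖q.2‖
      rw [abs_norm] at this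
      linarith
  have h2 : ∫ q : E m × E k, G (‖q.1‖ • ee 0 + ‖q.2‖ • ee 1)
      = (m * volume.real (ball (0 : E m) 1)) * ((k * volume.real (ball (0 : E k) 1))
        * ∫ r in Ioi (0 : ℝ), r ^ (m - 1) * ∫ s in Ioi (0 : ℝ), s ^ (k - 1)
          * G (r • ee 0 + s • ee 1)) := by
    rw [Measure.volume_eq_prod, integral_prod _ hint]
    have e1 : ∀ a : E m, ∫ b : E k, G (‖a‖ • ee 0 + ‖b‖ • ee 1)
        = (k * volume.real (ball (0 : E k) 1)) * ∫ s in Ioi (0 : ℝ), s ^ (k - 1)
          * G (‖a‖ • ee 0 + s • ee 1) := fun a =>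
      integral_norm hk (fun s => G (‖a‖ • ee 0 + s • ee 1))
    simp only [e1]
    rw [integral_const_mul, integral_norm hm (fun r => ∫ s in Ioi (0 : ℝ), s ^ (k - 1)
          * G (r • ee 0 + s • ee 1))]
    ring
  -- whole plane
  have h3 : ∫ r in Ioi (0 : ℝ), r ^ (m - 1) * ∫ s in Ioi (0 : ℝ), s ^ (k - 1)
          * G (r • ee 0 + s • ee 1)
      = ∫ r : ℝ, ∫ s : ℝ, r ^ (m - 1) * s ^ (k - 1) * G (r • ee 0 + s • ee 1) := by
    have e1 : ∀ r : ℝ, r ^ (m - 1) * ∫ s in Ioi (0 : ℝ), s ^ (k - 1) * G (r • ee 0 + s • ee 1)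
        = ∫ s : ℝ, r ^ (m - 1) * s ^ (k - 1) * G (r • ee 0 + s • ee 1) := by
      intro r
      have e2 : ∫ s in Ioi (0 : ℝ), s ^ (k - 1) * G (r • ee 0 + s • ee 1)
          = ∫ s : ℝ, s ^ (k - 1) * G (r • ee 0 + s • ee 1) := by
        apply setIntegral_eq_integral_of_forall_compl_eq_zero
        intro s hs
        rw [mem_Ioi, not_lt] at hs
        rw [hz _ (Or.inr (by simpa using hs)), mul_zero]
      rw [e2, ← integral_const_mul]
      congr 1
      ext s
      ring
    simp only [e1]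
    apply setIntegral_eq_integral_of_forall_compl_eq_zero
    intro r hr
    rw [mem_Ioi, not_lt] at hr
    have : ∀ s : ℝ, r ^ (m - 1) * s ^ (k - 1) * G (r • ee 0 + s • ee 1) = 0 := fun s => by
      rw [hz _ (Or.inl (by simpa using hr)), mul_zero]
    simp [this]
  have hint2 : Integrable (fun q : ℝ × ℝ => q.1 ^ (m - 1) * q.2 ^ (k - 1)
      * G (q.1 • ee 0 + q.2 • ee 1)) := by
    apply Continuous.integrable_of_hasCompactSupport
    · have : Continuous fun q : ℝ × ℝ => G (q.1 • ee 0 + q.2 • ee 1) := hG.comp (by fun_prop)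
      fun_prop
    apply HasCompactSupport.of_support_subset_isCompact
      ((isCompact_closedBall (0 : ℝ) R).prod (isCompact_closedBall (0 : ℝ) R))
    intro q hq
    have hq' : ‖q.1 • ee 0 + q.2 • ee 1‖ ≤ R := by
      by_contra hcon
      push Not at hcon
      exact hq (by simp only; rw [hR _ hcon, mul_zero])
    refine ⟨?_, ?_⟩
    · rw [mem_closedBall_zero_iff, Real.norm_eq_abs]
      exact (hle1 q.1 q.2).trans hq'
    · rw [mem_closedBall_zero_iff, Real.norm_eq_abs]
      exact (hle2 q.1 q.2).trans hq'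
  have h4 : ∫ r : ℝ, ∫ s : ℝ, r ^ (m - 1) * s ^ (k - 1) * G (r • ee 0 + s • ee 1)
      = ∫ z : E 2, z 0 ^ (m - 1) * z 1 ^ (k - 1) * G z := by
    rw [integral_E2, Measure.volume_eq_prod, integral_prod _ (by
      rw [← Measure.volume_eq_prod]
      simpa using hint2)]
    simp
  refine ⟨(m * volume.real (ball (0 : E m) 1)) * (k * volume.real (ball (0 : E k) 1)), ?_, ?_⟩
  · have := ball_pos m
    have := ball_pos k
    have : (0 : ℝ) < m := by exact_mod_cast (by omega : 0 < m)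
    have : (0 : ℝ) < k := by exact_mod_cast (by omega : 0 < k)
    positivity
  · rw [h1, h2, h3, h4]; ring

end Pool.Agent.H76.BP
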