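import Pool.Agent.H76.BP.GenD

/-!
# Regularity across the axes
-/

set_option autoImplicit false
open MeasureTheory Metric Filter Topology Set Asymptotics
open scoped ContDiff RealInnerProductSpace

namespace Pool.Agent.H76.BP

open Pool.Agent.H76.PL (E Mat V A grad osc IsPHarmonic Homog)

section
variable {X Y Z W : Type*} [NormedAddCommGroup X] [NormedSpace ℝ X]
  [NormedAddCommGroup Y] [NormedSpace ℝ Y] [NormedAddCommGroup Z] [NormedSpace ℝ Z]
  [NormedAddCommGroup W] [NormedSpace ℝ W]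

/-- product of a continuous map with a differentiable one which vanishes at the point. -/
lemma hasFDerivAt_bil_zero (B : Y →L[ℝ] Z →L[ℝ] W) {b : X → Y} {a : X → Z} {x : X}
    {b' : X →L[ℝ] Y} (hb : HasFDerivAt b b' x) (ha : ContinuousAt a x) (h0 : b x = 0) :
    HasFDerivAt (fun y => B (b y) (a y)) ((B.flip (a x)).comp b') x := by
  have h1 : HasFDerivAt (fun y => B (b y) (a x)) ((B.flip (a x)).comp b') x := by
    have := (B.flip (a x)).hasFDerivAt.comp x hb
    exact this
  have h2 : HasFDerivAt (fun y => B (b y) (a y - a x)) (0 : X →L[ℝ] W) x := by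
    rw [hasFDerivAt_iff_isLittleO]
    have e1 : (fun y => B (b y) (a y - a x) - B (b x) (a x - a x) - (0 : X →L[ℝ] W) (y - x))
        = fun y => B (b y) (a y - a x) := by
      ext1 y; simp
    rw [e1]
    have o1 : (fun y => b y) =O[𝓝 x] fun y => y - x := by
      have := hb.isBigO_sub
      simpa [h0] using this
    have o2 : (fun y => a y - a x) =o[𝓝 x] fun _ => (1 : ℝ) := by
      rw [isLittleO_one_iff]
      have := ha.tendsto.sub_const (a x)
      rwa [sub_self] at this
    have o3 : (fun y => B (b y) (a y - a x)) =O[𝓝 x] fun y => ‖b y‖ * ‖a y - a x‖ := by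
      refine IsBigO.of_bound ‖B‖ (Eventually.of_forall fun y => ?_)
      rw [norm_mul, norm_norm, norm_norm, ← mul_assoc]
      exact B.le_opNorm₂ _ _
    have o4 : (fun y => ‖b y‖ * ‖a y - a x‖) =o[𝓝 x] fun y => ‖y - x‖ * (1 : ℝ) :=
      o1.norm_norm.mul_isLittleO o2.norm_left
    have o5 := o3.trans_isLittleO o4
    simp only [mul_one] at o5
    exact o5.of_norm_right
  have h3 := h1.add h2
  rw [add_zero] at h3
  refine h3.congr_of_eventuallyEq (Eventually.of_forall fun y => ?_)
  simp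

/-- **Key lemma.** -/
lemma bil_C1 (B : Y →L[ℝ] Z →L[ℝ] W) {O S : Set X} (hO : IsOpen O) (hS : IsClosed S)
    {b : X → Y} {b' : X → X →L[ℝ] Y} {a : X → Z} {a' : X → X →L[ℝ] Z}
    (hb : ∀ x ∈ O, HasFDerivAt b (b' x) x) (hb' : ContinuousOn b' O)
    (hb0 : ∀ x ∈ O, x ∈ S → b x = 0) (ha : ContinuousOn a O)
    (ha1 : ∀ x ∈ O, x ∉ S → HasFDerivAt a (a' x) x) (ha' : ContinuousOn a' (O \ S))
    (hlim : ∀ x ∈ O, x ∈ S → Tendsto (fun y => ‖b y‖ * ‖a' y‖) (𝓝[O \ S] x) (𝓝 0)) :
    ∀ x ∈ O, ContDiffAt ℝ 1 (fun y => B (b y) (a y)) x := by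
  intro x hx
  set D : X → X →L[ℝ] W := fun y => (B.flip (a y)).comp (b' y) + (B (b y)).comp (a' y) with hD
  have hbc : ContinuousOn b O := fun y hy => (hb y hy).continuousAt.continuousWithinAt
  rw [contDiffAt_one_iff]
  refine ⟨D, O, hO.mem_nhds hx, ?_, ?_⟩
  · intro y hy
    have hyO := hO.mem_nhds hy
    have c1 : ContinuousAt (fun y => (B.flip (a y)).comp (b' y)) y :=
      ((B.flip.continuous.continuousAt.comp (ha.continuousAt hyO))).clm_comp
        (hb'.continuousAt hyO)
    have c2 : ContinuousAt (fun y => (B (b y)).comp (a' y)) y := by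
      by_cases hyS : y ∈ S
      · have e0 : (B (b y)).comp (a' y) = 0 := by rw [hb0 y hy hyS]; simp
        show Tendsto (fun z => (B (b z)).comp (a' z)) (𝓝 y) (𝓝 ((B (b y)).comp (a' y)))
        rw [e0]
        -- within `O \ S`
        have t1 : Tendsto (fun z => (B (b z)).comp (a' z)) (𝓝[O \ S] y) (𝓝 0) := by
          have := (hlim y hy hyS).const_mul ‖B‖
          rw [mul_zero] at this
          refine squeeze_zero_norm (fun z => ?_) this
          calc ‖(B (b z)).comp (a' z)‖ ≤ ‖B (b z)‖ * ‖a' z‖ :=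
                ContinuousLinearMap.opNorm_comp_le _ _
            _ ≤ (‖B‖ * ‖b z‖) * ‖a' z‖ := by
                gcongr
                exact B.le_opNorm _
            _ = _ := by ring
        have t2 : Tendsto (fun z => (B (b z)).comp (a' z)) (𝓝[O ∩ S] y) (𝓝 0) := by
          refine tendsto_const_nhds.congr' ?_
          filter_upwards [self_mem_nhdsWithin] with z hz
          rw [hb0 z hz.1 hz.2]; simp
        have t3 : Tendsto (fun z => (B (b z)).comp (a' z)) (𝓝[O] y) (𝓝 0) := by
          have : O = (O \ S) ∪ (O ∩ S) := by rw [sdiff_union_inter]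
          rw [this, nhdsWithin_union]
          exact t1.sup t2
        rwa [hO.nhdsWithin_eq hy] at t3
      · have hyOS : (O \ S) ∈ 𝓝 y := (hO.sdiff hS).mem_nhds ⟨hy, hyS⟩
        exact ((B.continuous.continuousAt.comp (hbc.continuousAt hyO))).clm_comp
          (ha'.continuousAt hyOS)
    exact (c1.add c2).continuousWithinAt
  · intro y hy
    by_cases hyS : y ∈ S
    · have h1 := hasFDerivAt_bil_zero B (hb y hy) (ha.continuousAt (hO.mem_nhds hy)) (hb0 y hy hyS)
      have e : D y = (B.flip (a y)).comp (b' y) := by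
        rw [hD]; simp only; rw [hb0 y hy hyS]; simp
      rw [e]
      exact h1
    · have h1 := B.hasFDerivAt_of_bilinear (hb y hy) (ha1 y hy hyS)
      refine h1.congr_fderiv ?_
      ext v
      simp [hD, add_comm]

end

variable {d n : ℕ} {p β γ : ℝ} {h : E d → E n}

lemma contDiffAt_grad {x : E d} (hx : ContDiffAt ℝ 1 (fderiv ℝ h) x) :
    ContDiffAt ℝ 1 (grad h) x := by
  rw [contDiffAt_euclidean]
  intro q
  have h2 : ContDiffAt ℝ 1 (fun x : E d => fderiv ℝ h x (EuclideanSpace.single q.2 1)) x :=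
    hx.clm_apply contDiffAt_const
  exact (contDiffAt_euclidean.mp h2) q.1

/-- conclusion from regularity of the gradient off the origin -/
theorem conclude {x0 : E d} (hx0 : ‖x0‖ = 1) (hc : ContDiff ℝ 1 h) (hh : Homog β h)
    (hγ : γ = (β - 1) * p / 2) (hγ1 : 1 < γ) (hne : ∀ x, x ≠ 0 → grad h x ≠ 0)
    (hreg : ∀ x, x ≠ 0 → ContDiffAt ℝ 1 (fderiv ℝ h) x) :
    (ContDiff ℝ 1 fun x => V p (grad h x)) ∧
    (∃ c : ℝ, ∀ (x : E d) (r θ : ℝ), 0 < r → 0 < θ → θ ≤ 1 →
      osc (fun x => V p (grad h x)) x (θ * r) ≤ c * θ * osc (fun x => V p (grad h x)) x r) := by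
  have hVh : ∀ t : ℝ, 0 < t → ∀ x, (fun x => V p (grad h x)) (t • x)
      = t ^ γ • (fun x => V p (grad h x)) x := fun t ht x => V_homog hc hh hγ ht x
  have hC1 : ContDiff ℝ 1 fun x => V p (grad h x) := by
    apply contDiff_of_homog hγ1 hVh
    intro x hx
    exact (contDiffAt_V (hne x hx)).comp x (contDiffAt_grad (hreg x hx))
  exact ⟨hC1, linear_decay hx0 hC1 (by linarith) hVh fun x hx => V_ne_zero (hne x hx)⟩

/-- conclusion in the case of a constant gradient -/
theorem conclude_const (h0 : ∀ x, grad h x = grad h 0) :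
    (ContDiff ℝ 1 fun x => V p (grad h x)) ∧
    (∃ c : ℝ, ∀ (x : E d) (r θ : ℝ), 0 < r → 0 < θ → θ ≤ 1 →
      osc (fun x => V p (grad h x)) x (θ * r) ≤ c * θ * osc (fun x => V p (grad h x)) x r) := by
  have e : (fun x => V p (grad h x)) = fun _ => V p (grad h 0) := funext fun x => by rw [h0 x]
  rw [e]
  refine ⟨contDiff_const, 0, fun x r θ hr hθ _ => ?_⟩
  rw [osc_const x (mul_pos hθ hr), osc_const x hr]
  simp

end Pool.Agent.H76.BP
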