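import Pool.Agent.H76.BP.Key

/-!
# Regularity off the origin
-/

set_option autoImplicit false
open MeasureTheory Metric Filter Topology Set Asymptotics
open scoped ContDiff RealInnerProductSpace

namespace Pool.Agent.H76.BP

open Pool.Agent.H76.PL (E Mat V A grad osc IsPHarmonic Homog)

variable {d n : ℕ} {β : ℝ} {h : E d → E n}

/-- `(b, a) ↦ b ⊗ a` -/
noncomputable def BB (d n : ℕ) : (E d →L[ℝ] ℝ) →L[ℝ] E n →L[ℝ] (E d →L[ℝ] E n) :=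
  ContinuousLinearMap.smulRightL ℝ (E d) (E n)

lemma BB_apply (b : E d →L[ℝ] ℝ) (a : E n) : BB d n b a = b.smulRight a := rfl

theorem reg_abs (hc : ContDiff ℝ 1 h) {T : E d → ℝ} {S : Set (E d)} (hS : IsClosed S)
    (hT : ContDiffOn ℝ ∞ T {0}ᶜ) (hTS : ∀ x, x ≠ 0 → x ∈ S → fderiv ℝ T x = 0)
    (hdense : ∀ x, x ≠ 0 → x ∈ S → x ∈ closure ({0}ᶜ \ S)) {a : E d → E n}
    {a' : E d → E d →L[ℝ] E n} (ha : ContinuousOn a {0}ᶜ)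
    (ha1 : ∀ x, x ≠ 0 → x ∉ S → HasFDerivAt a (a' x) x) (ha' : ContinuousOn a' ({0}ᶜ \ S))
    (hlim : ∀ x, x ≠ 0 → x ∈ S →
      Tendsto (fun y => ‖fderiv ℝ T y‖ * ‖a' y‖) (𝓝[{0}ᶜ \ S] x) (𝓝 0))
    (hK : ∀ x, x ≠ 0 → x ∉ S → fderiv ℝ h x = (β * (‖x‖ ^ 2)⁻¹) • (innerSL ℝ x).smulRight (h x)
      + ‖x‖ ^ β • (fderiv ℝ T x).smulRight (a x)) :
    ∀ x, x ≠ 0 → ContDiffAt ℝ 1 (fderiv ℝ h) x := by
  have hO : IsOpen ({0}ᶜ : Set (E d)) := isOpen_compl_singleton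
  have hT1 : ContDiffOn ℝ 1 (fderiv ℝ T) {0}ᶜ :=
    ((contDiffOn_infty_iff_fderiv_of_isOpen hO).mp hT).2.of_le (by exact_mod_cast le_top)
  have hTd : ∀ x ∈ ({0}ᶜ : Set (E d)), HasFDerivAt (fderiv ℝ T) (fderiv ℝ (fderiv ℝ T) x) x :=
    fun x hx => ((hT1.differentiableOn (by simp)).differentiableAt (hO.mem_nhds hx)).hasFDerivAt
  have hTc : ContinuousOn (fderiv ℝ (fderiv ℝ T)) {0}ᶜ :=
    hT1.continuousOn_fderiv_of_isOpen hO (by simp)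
  have hB := bil_C1 (BB d n) hO hS (b := fderiv ℝ T)
    (b' := fderiv ℝ (fderiv ℝ T)) (a := a) (a' := a') hTd hTc (fun x hx hxS => hTS x hx hxS) ha
    (fun x hx hxS => ha1 x hx hxS) ha' (fun x hx hxS => hlim x hx hxS)
  set K1 : E d → E d →L[ℝ] E n := fun x =>
    (β * (‖x‖ ^ 2)⁻¹) • (innerSL ℝ x).smulRight (h x)
      + ‖x‖ ^ β • BB d n (fderiv ℝ T x) (a x) with hK1
  have hK1c : ∀ x, x ≠ 0 → ContDiffAt ℝ 1 K1 x := by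
    intro x hx
    have hn : ‖x‖ ≠ 0 := norm_ne_zero_iff.mpr hx
    have c1 : ContDiffAt ℝ 1 (fun x : E d => β * (‖x‖ ^ 2)⁻¹) x :=
      contDiffAt_const.mul (((contDiff_norm_sq ℝ).contDiffAt).inv (pow_ne_zero 2 hn))
    have i1 : ContDiffAt ℝ 1 (fun x : E d => (innerSL ℝ : E d →L[ℝ] E d →L[ℝ] ℝ) x) x :=
      (innerSL ℝ : E d →L[ℝ] E d →L[ℝ] ℝ).contDiff.contDiffAt
    have c2 : ContDiffAt ℝ 1 (fun x : E d => ((innerSL ℝ : E d →L[ℝ] E d →L[ℝ] ℝ) x).smulRight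
        (h x)) x := i1.smulRight hc.contDiffAt
    have c3 : ContDiffAt ℝ 1 (fun x : E d => ‖x‖ ^ β) x :=
      (contDiffAt_norm ℝ hx).rpow_const_of_ne hn
    exact (c1.smul c2).add (c3.smul (hB x hx))
  -- equality everywhere
  have heq : ∀ x, x ≠ 0 → x ∉ S → fderiv ℝ h x = K1 x := fun x hx hxS => by
    rw [hK x hx hxS]; rfl
  have hall : ∀ x, x ≠ 0 → fderiv ℝ h x = K1 x := by
    intro x hx
    by_cases hxS : x ∈ S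
    · have hne : (𝓝[{0}ᶜ \ S] x).NeBot := mem_closure_iff_nhdsWithin_neBot.mp (hdense x hx hxS)
      have t1 : Tendsto (fderiv ℝ h) (𝓝[{0}ᶜ \ S] x) (𝓝 (fderiv ℝ h x)) :=
        (hc.continuous_fderiv (by simp)).continuousAt.tendsto.mono_left nhdsWithin_le_nhds
      have t2 : Tendsto K1 (𝓝[{0}ᶜ \ S] x) (𝓝 (K1 x)) :=
        (hK1c x hx).continuousAt.tendsto.mono_left nhdsWithin_le_nhds
      refine tendsto_nhds_unique t1 (t2.congr' ?_)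
      filter_upwards [self_mem_nhdsWithin] with y hy
      exact (heq y hy.1 hy.2).symm
    · exact heq x hx hxS
  intro x hx
  refine (hK1c x hx).congr_of_eventuallyEq ?_
  filter_upwards [hO.mem_nhds hx] with y hy
  exact hall y hy

/-- the squared cosine of the angle to a subspace -/
lemma hasFDerivAt_quot {X : Type*} [NormedAddCommGroup X] [InnerProductSpace ℝ X]
    (L : E d →L[ℝ] X) (hL : ∀ x, ‖L x‖ ≤ ‖x‖) {x : E d} (hx : x ≠ 0) :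
    ‖fderiv ℝ (fun y => ‖L y‖ ^ 2 / ‖y‖ ^ 2) x‖ ≤ 4 * ‖L x‖ / ‖x‖ ^ 2 := by
  have hn : 0 < ‖x‖ := norm_pos_iff.mpr hx
  have h1 : HasFDerivAt (fun y => ‖L y‖ ^ 2) (((2 : ℝ) • innerSL ℝ (L x)).comp L) x := by
    have := (hasStrictFDerivAt_norm_sq (L x)).hasFDerivAt.comp x L.hasFDerivAt
    refine this.congr_fderiv ?_
    ext v; simp
  have h2 : HasFDerivAt (fun y : E d => ‖y‖ ^ 2) ((2 : ℝ) • innerSL ℝ x) x := by
    have := (hasStrictFDerivAt_norm_sq x).hasFDerivAt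
    refine this.congr_fderiv ?_
    ext v; simp
  have h3 : HasFDerivAt (fun y => ‖L y‖ ^ 2 / ‖y‖ ^ 2)
      ((‖x‖ ^ 2)⁻¹ • (((2 : ℝ) • innerSL ℝ (L x)).comp L)
        - (‖L x‖ ^ 2 * ((‖x‖ ^ 2) ^ 2)⁻¹) • ((2 : ℝ) • innerSL ℝ x)) x := by
    have h2' := (hasDerivAt_inv (show ‖x‖ ^ 2 ≠ 0 by positivity)).comp_hasFDerivAt x h2
    have := h1.mul h2'
    refine (this.congr_of_eventuallyEq (Eventually.of_forall fun y => ?_)).congr_fderiv ?_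
    · simp [div_eq_mul_inv]
    · ext v
      simp
      ring
  rw [h3.fderiv]
  refine ContinuousLinearMap.opNorm_le_bound _ (by positivity) fun v => ?_
  simp only [sub_apply, smul_apply, ContinuousLinearMap.comp_apply, innerSL_apply_apply,
    smul_eq_mul]
  have b1 : |⟪L x, L v⟫| ≤ ‖L x‖ * ‖v‖ :=
    (abs_real_inner_le_norm _ _).trans (by gcongr; exact hL v)
  have b2 : |⟪x, v⟫| ≤ ‖x‖ * ‖v‖ := abs_real_inner_le_norm _ _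
  have b3 : ‖L x‖ ^ 2 ≤ ‖L x‖ * ‖x‖ := by
    rw [sq]; gcongr; exact hL x
  rw [Real.norm_eq_abs]
  calc |(‖x‖ ^ 2)⁻¹ * (2 * ⟪L x, L v⟫) - ‖L x‖ ^ 2 * ((‖x‖ ^ 2) ^ 2)⁻¹ * (2 * ⟪x, v⟫)|
      ≤ |(‖x‖ ^ 2)⁻¹ * (2 * ⟪L x, L v⟫)| + |‖L x‖ ^ 2 * ((‖x‖ ^ 2) ^ 2)⁻¹ * (2 * ⟪x, v⟫)| :=
        abs_sub _ _
    _ = (‖x‖ ^ 2)⁻¹ * (2 * |⟪L x, L v⟫|) + ‖L x‖ ^ 2 * ((‖x‖ ^ 2) ^ 2)⁻¹ * (2 * |⟪x, v⟫|) := by
        rw [abs_mul, abs_mul, abs_mul, abs_mul, abs_mul, abs_two,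
          abs_of_nonneg (by positivity : (0 : ℝ) ≤ (‖x‖ ^ 2)⁻¹),
          abs_of_nonneg (by positivity : (0 : ℝ) ≤ ‖L x‖ ^ 2),
          abs_of_nonneg (by positivity : (0 : ℝ) ≤ ((‖x‖ ^ 2) ^ 2)⁻¹)]
    _ ≤ (‖x‖ ^ 2)⁻¹ * (2 * (‖L x‖ * ‖v‖)) + (‖L x‖ * ‖x‖) * ((‖x‖ ^ 2) ^ 2)⁻¹
          * (2 * (‖x‖ * ‖v‖)) := by gcongr
    _ = 4 * ‖L x‖ / ‖x‖ ^ 2 * ‖v‖ := by
        field_simp
        ring

lemma contDiffOn_quot {X : Type*} [NormedAddCommGroup X] [InnerProductSpace ℝ X]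
    (L : E d →L[ℝ] X) : ContDiffOn ℝ ∞ (fun y => ‖L y‖ ^ 2 / ‖y‖ ^ 2) ({0}ᶜ : Set (E d)) := by
  have h1 : ContDiff ℝ ∞ fun y => ‖L y‖ ^ 2 := (contDiff_norm_sq ℝ).comp L.contDiff
  have h2 : ContDiff ℝ ∞ fun y : E d => ‖y‖ ^ 2 := contDiff_norm_sq ℝ
  exact h1.contDiffOn.div h2.contDiffOn fun x hx => pow_ne_zero 2 (norm_ne_zero_iff.mpr hx)

end Pool.Agent.H76.BP
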