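import Pool.Agent.H76.BP.VP2
import Pool.Agent.H76.BP.Alpha
import Pool.Agent.H76.BP.RegAbs

/-!
# `O(m) × O(k)`-invariant homogeneous `p`-harmonic maps
-/

set_option autoImplicit false
open MeasureTheory Metric Filter Topology Set
open scoped ContDiff RealInnerProductSpace

namespace Pool.Agent.H76.BP

open Pool.Agent.H76.PL (E Mat V A grad osc IsPHarmonic Homog ee er et NN uu vv)

section
variable {m k n : ℕ}

lemma norm_fs_le (x : E (m + k)) : ‖fs x‖ ≤ ‖x‖ := by
  have := norm_sq_split x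
  nlinarith [norm_nonneg x, norm_nonneg (fs x), sq_nonneg ‖sn x‖]

lemma norm_sn_le (x : E (m + k)) : ‖sn x‖ ≤ ‖x‖ := by
  have := norm_sq_split x
  nlinarith [norm_nonneg x, norm_nonneg (sn x), sq_nonneg ‖fs x‖]

/-- the angle -/
noncomputable def tht (x : E (m + k)) : ℝ := Real.arcsin (‖sn x‖ / ‖x‖)

/-- squared sine -/
noncomputable def TT (x : E (m + k)) : ℝ := ‖snL x‖ ^ 2 / ‖x‖ ^ 2

/-- the axes -/
def SS (m k : ℕ) : Set (E (m + k)) := {x | fs x = 0 ∨ sn x = 0}

lemma isClosed_SS : IsClosed (SS m k) :=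
  (isClosed_eq continuous_fs continuous_const).union (isClosed_eq continuous_sn continuous_const)

lemma ratio_mem (x : E (m + k)) : ‖sn x‖ / ‖x‖ ∈ Icc (0 : ℝ) 1 := by
  refine ⟨by positivity, ?_⟩
  exact div_le_one_of_le₀ (norm_sn_le x) (norm_nonneg x)

lemma sin_tht (x : E (m + k)) : Real.sin (tht x) = ‖sn x‖ / ‖x‖ := by
  unfold tht
  rw [Real.sin_arcsin (by linarith [(ratio_mem x).1]) (ratio_mem x).2]

lemma cos_tht {x : E (m + k)} (hx : x ≠ 0) : Real.cos (tht x) = ‖fs x‖ / ‖x‖ := by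
  unfold tht
  have hn : 0 < ‖x‖ := norm_pos_iff.mpr hx
  rw [Real.cos_arcsin]
  have : 1 - (‖sn x‖ / ‖x‖) ^ 2 = (‖fs x‖ / ‖x‖) ^ 2 := by
    rw [div_pow, div_pow]
    have := norm_sq_split x
    field_simp
    linarith
  rw [this, Real.sqrt_sq (by positivity)]

lemma tht_mem (x : E (m + k)) : tht x ∈ Icc 0 (Real.pi / 2) :=
  ⟨Real.arcsin_nonneg.mpr (ratio_mem x).1, Real.arcsin_le_pi_div_two _⟩

lemma tht_mem' {x : E (m + k)} (hx : x ≠ 0) (hS : x ∉ SS m k) : tht x ∈ Ioo 0 (Real.pi / 2) := by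
  have hn : 0 < ‖x‖ := norm_pos_iff.mpr hx
  unfold SS at hS
  rw [mem_ofPred_eq, not_or] at hS
  have h1 : 0 < ‖fs x‖ := norm_pos_iff.mpr hS.1
  have h2 : 0 < ‖sn x‖ := norm_pos_iff.mpr hS.2
  refine ⟨Real.arcsin_pos.mpr (by positivity), ?_⟩
  refine lt_of_le_of_ne (tht_mem x).2 fun h => ?_
  have h3 := cos_tht hx
  rw [h, Real.cos_pi_div_two] at h3
  have : 0 < ‖fs x‖ / ‖x‖ := by positivity
  linarith

lemma continuousOn_tht : ContinuousOn (tht : E (m + k) → ℝ) {0}ᶜ := by
  unfold tht
  apply Real.continuous_arcsin.comp_continuousOn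
  exact continuous_sn.norm.continuousOn.div continuous_norm.continuousOn
    fun x hx => norm_ne_zero_iff.mpr hx

lemma pr_polar {x : E (m + k)} (hx : x ≠ 0) : pr x = ‖x‖ • er (tht x) := by
  have hn : 0 < ‖x‖ := norm_pos_iff.mpr hx
  unfold pr er
  rw [sin_tht, cos_tht hx, smul_add, smul_smul, smul_smul, mul_div_cancel₀ _ hn.ne',
    mul_div_cancel₀ _ hn.ne']

lemma TT_eq (x : E (m + k)) : TT x = Real.sin (tht x) ^ 2 := by
  unfold TT
  rw [sin_tht, snL_apply, div_pow]

lemma TT_fs {x : E (m + k)} (hx : x ≠ 0) : TT x = 1 - ‖fsL x‖ ^ 2 / ‖x‖ ^ 2 := by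
  have hn : 0 < ‖x‖ := norm_pos_iff.mpr hx
  unfold TT
  rw [snL_apply, fsL_apply]
  have := norm_sq_split x
  field_simp
  linarith

lemma dTT_sn {x : E (m + k)} (hx : x ≠ 0) :
    ‖fderiv ℝ (TT : E (m + k) → ℝ) x‖ ≤ 4 * ‖sn x‖ / ‖x‖ ^ 2 := by
  have := hasFDerivAt_quot (snL (m := m) (k := k)) (fun x => by
    rw [snL_apply]; exact norm_sn_le x) hx
  rw [snL_apply] at this
  exact this

lemma dTT_fs {x : E (m + k)} (hx : x ≠ 0) :
    ‖fderiv ℝ (TT : E (m + k) → ℝ) x‖ ≤ 4 * ‖fs x‖ / ‖x‖ ^ 2 := by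
  have h1 := hasFDerivAt_quot (fsL (m := m) (k := k)) (fun x => by
    rw [fsL_apply]; exact norm_fs_le x) hx
  rw [fsL_apply] at h1
  have h2 : (TT : E (m + k) → ℝ) =ᶠ[𝓝 x] fun x => 1 - ‖fsL x‖ ^ 2 / ‖x‖ ^ 2 := by
    filter_upwards [isOpen_ne.mem_nhds hx] with y hy
    exact TT_fs hy
  rw [h2.fderiv_eq, fderiv_const_sub, norm_neg]
  exact h1

lemma contDiffOn_TT : ContDiffOn ℝ ∞ (TT : E (m + k) → ℝ) {0}ᶜ := contDiffOn_quot snL

lemma dTT_zero {x : E (m + k)} (hx : x ≠ 0) (hS : x ∈ SS m k) :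
    fderiv ℝ (TT : E (m + k) → ℝ) x = 0 := by
  rw [← norm_le_zero_iff]
  rcases hS with h | h
  · have := dTT_fs hx
    rw [h] at this
    simpa using this
  · have := dTT_sn hx
    rw [h] at this
    simpa using this

/-- the derivative of the angle -/
lemma hasFDerivAt_tht {x : E (m + k)} (hx : x ≠ 0) (hS : x ∉ SS m k) :
    HasFDerivAt (tht : E (m + k) → ℝ)
      ((2 * Real.sin (tht x) * Real.cos (tht x))⁻¹ • fderiv ℝ (TT : E (m + k) → ℝ) x) x := by
  have ht := tht_mem' hx hS
  have hs := sin_pos' ht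
  have hc := cos_pos' ht
  have hTd : HasFDerivAt (TT : E (m + k) → ℝ) (fderiv ℝ TT x) x :=
    ((contDiffOn_TT.differentiableOn (by simp)).differentiableAt
      (isOpen_compl_singleton.mem_nhds hx)).hasFDerivAt
  have hT := TT_eq x
  have h1 : HasFDerivAt (fun y : E (m + k) => Real.sqrt (TT y))
      ((1 / (2 * Real.sqrt (TT x))) • fderiv ℝ TT x) x :=
    hTd.sqrt (by rw [hT]; positivity)
  have hsq : Real.sqrt (TT x) = Real.sin (tht x) := by rw [hT, Real.sqrt_sq hs.le]
  have h2 : HasDerivAt Real.arcsin (1 / Real.sqrt (1 - Real.sqrt (TT x) ^ 2)) (Real.sqrt (TT x)) := by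
    apply Real.hasDerivAt_arcsin
    · rw [hsq]; linarith
    · rw [hsq]
      intro h
      have := Real.sin_sq_add_cos_sq (tht x)
      rw [h] at this
      nlinarith
  have h3 := h2.comp_hasFDerivAt x h1
  have h4 : (Real.arcsin ∘ fun y : E (m + k) => Real.sqrt (TT y)) = tht := by
    ext y
    simp only [Function.comp_apply]
    unfold tht TT
    rw [snL_apply, ← div_pow, Real.sqrt_sq (by positivity)]
  rw [h4] at h3
  refine h3.congr_fderiv ?_
  rw [smul_smul, hsq]
  congr 1
  have : 1 - Real.sin (tht x) ^ 2 = Real.cos (tht x) ^ 2 := by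
    have := Real.sin_sq_add_cos_sq (tht x); linarith
  rw [this, Real.sqrt_sq hc.le]
  field_simp

lemma dense_SS (i : Fin m) (j : Fin k) {x : E (m + k)} (_hx : x ≠ 0) :
    x ∈ closure (({0}ᶜ : Set (E (m + k))) \ SS m k) := by
  set e : E (m + k) := emb i j (ee 0 + ee 1) with he
  have he1 : fs e ≠ 0 := by
    rw [he, fs_emb]
    simp
  have he2 : sn e ≠ 0 := by
    rw [he, sn_emb]
    simp
  have hlim : Tendsto (fun ε : ℝ => x + ε • e) (𝓝[>] 0) (𝓝 x) := by
    have : Continuous fun ε : ℝ => x + ε • e := by fun_prop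
    have h1 := (this.continuousAt (x := 0)).tendsto.mono_left
      (nhdsWithin_le_nhds (s := Ioi (0 : ℝ)))
    simpa using h1
  have hfsadd : ∀ ε : ℝ, fs (x + ε • e) = fs x + ε • fs e := fun ε => by
    rw [← fsL_apply, map_add, map_smul, fsL_apply, fsL_apply]
  have hsnadd : ∀ ε : ℝ, sn (x + ε • e) = sn x + ε • sn e := fun ε => by
    rw [← snL_apply, map_add, map_smul, snL_apply, snL_apply]
  have key : ∀ {F : Type} [NormedAddCommGroup F] [NormedSpace ℝ F] (a b : F), b ≠ 0 →
      ∀ᶠ ε : ℝ in 𝓝[>] 0, a + ε • b ≠ 0 := by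
    intro F _ _ a b hb
    by_cases ha : a = 0
    · filter_upwards [self_mem_nhdsWithin] with ε hε
      rw [ha, zero_add]
      exact smul_ne_zero (ne_of_gt hε) hb
    · have : Continuous fun ε : ℝ => a + ε • b := by fun_prop
      have h1 := (this.continuousAt (x := 0)).tendsto.mono_left
        (nhdsWithin_le_nhds (s := Ioi (0 : ℝ)))
      simp only [zero_smul, add_zero] at h1
      exact h1.eventually (isOpen_ne.mem_nhds ha)
  refine mem_closure_of_tendsto hlim ?_
  filter_upwards [key (fs x) (fs e) he1, key (sn x) (sn e) he2] with ε h1 h2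
  have h3 : fs (x + ε • e) ≠ 0 := by rw [hfsadd]; exact h1
  refine ⟨?_, ?_⟩
  · intro h
    rw [mem_singleton_iff] at h
    apply h3
    rw [h]
    ext l; simp
  · intro h
    rcases h with h | h
    · exact h3 h
    · rw [hsnadd] at h; exact h2 h

/-- derivative of a power of the norm -/
lemma hasFDerivAt_norm_rpow {d : ℕ} (β : ℝ) {x : E d} (hx : x ≠ 0) :
    HasFDerivAt (fun y : E d => ‖y‖ ^ β) ((β * (‖x‖ ^ 2)⁻¹ * ‖x‖ ^ β) • innerSL ℝ x) x := by
  have hn : 0 < ‖x‖ := norm_pos_iff.mpr hx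
  have h2 : HasFDerivAt (fun y : E d => ‖y‖ ^ 2) ((2 : ℝ) • innerSL ℝ x) x := by
    have := (hasStrictFDerivAt_norm_sq x).hasFDerivAt
    refine this.congr_fderiv ?_
    ext v; simp
  have h3 := h2.rpow_const (p := β / 2) (Or.inl (by positivity))
  have e1 : (fun y : E d => (‖y‖ ^ 2) ^ (β / 2)) = fun y => ‖y‖ ^ β := by
    ext y
    rw [← Real.rpow_natCast, ← Real.rpow_mul (norm_nonneg _)]
    congr 1; push_cast; ring
  rw [e1] at h3
  refine h3.congr_fderiv ?_
  rw [smul_smul]
  congr 1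
  have e2 : (‖x‖ ^ 2) ^ (β / 2 - 1) = ‖x‖ ^ β * (‖x‖ ^ 2)⁻¹ := by
    rw [Real.rpow_sub_one (by positivity), ← Real.rpow_natCast, ← Real.rpow_mul (norm_nonneg _),
      div_eq_mul_inv]
    congr 2
    push_cast; ring
  rw [e2]
  ring

lemma fderiv_self {d : ℕ} {β : ℝ} {h : E d → E n} (hc : ContDiff ℝ 1 h) (hh : Homog β h) (x : E d) :
    fderiv ℝ h x x = β • h x := by
  have h1 : HasDerivAt (fun s : ℝ => s • x) x 1 := by
    simpa using (hasDerivAt_id (1 : ℝ)).smul_const x
  have h2 : HasDerivAt (fun s : ℝ => h (s • x)) (fderiv ℝ h ((1 : ℝ) • x) x) 1 :=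
    ((hc.differentiable (by simp)) _).hasFDerivAt.comp_hasDerivAt (1 : ℝ) h1
  have h3 : HasDerivAt (fun s : ℝ => s ^ β • h x) ((β * (1 : ℝ) ^ (β - 1)) • h x) 1 :=
    (Real.hasDerivAt_rpow_const (Or.inl one_ne_zero)).smul_const _
  have h4 : (fun s : ℝ => h (s • x)) =ᶠ[𝓝 1] fun s => s ^ β • h x := by
    filter_upwards [Ioi_mem_nhds one_pos] with s hs
    exact hh s hs _
  have := h2.unique (h3.congr_of_eventuallyEq h4)
  simpa using this

lemma fderiv_of_grad {d : ℕ} {h : E d → E n} {x : E d} (h0 : grad h x = 0) : fderiv ℝ h x = 0 := by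
  apply ContinuousLinearMap.coe_injective
  refine (EuclideanSpace.basisFun (Fin d) ℝ).toBasis.ext fun i => ?_
  ext l
  have := congrArg (fun q : Mat n d => q (l, i)) h0
  simpa [grad] using this

end

lemma eq_zero_of_eq_neg' {n : ℕ} {v : E n} (h : v = -v) : v = 0 := by
  have h2 : (2 : ℝ) • v = 0 := by
    rw [two_smul]
    nth_rewrite 2 [h]
    exact add_neg_cancel v
  exact (smul_eq_zero.mp h2).resolve_left two_ne_zero

/-- **Main theorem of the bipolar part.** -/
theorem mainB {m k n : ℕ} (hm : 1 ≤ m) (hk : 1 ≤ k) {p β : ℝ} (hp2 : 2 < p)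
    {h : E (m + k) → E n} (hp : IsPHarmonic p h) (hh : Homog β h) (hi : Inv h) :
    (ContDiff ℝ 1 fun x => V p (grad h x)) ∧
    (∃ c : ℝ, ∀ (x : E (m + k)) (r θ : ℝ), 0 < r → 0 < θ → θ ≤ 1 →
      osc (fun x => V p (grad h x)) x (θ * r) ≤ c * θ * osc (fun x => V p (grad h x)) x r) ∧
    ((∀ x, grad h x = grad h 0) ∨ 1 + 2 / p < β) := by
  have hc := hp.1
  have hp0 : 0 < p := by linarith
  rcases le_or_gt β 1 with hβ1 | hβ1
  · have h0 := grad_const hc hh hβ1
    obtain ⟨h1, h2⟩ := conclude_const (p := p) h0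
    exact ⟨h1, h2, Or.inl h0⟩
  have hβ0 : 0 < β := by linarith
  set i : Fin m := ⟨0, hm⟩ with hidef
  set j : Fin k := ⟨0, hk⟩ with hjdef
  set H := HH i j h with hH
  have hHc : ContDiff ℝ 1 H := HH_contDiff hc i j
  have hHh : Homog β H := HH_homog hh i j
  have hhx : ∀ x, h x = H (pr x) := fun x => congrFun (h_eq hi i j) x
  -- form of `h`
  have hform : ∀ x : E (m + k), x ≠ 0 → h x = ‖x‖ ^ β • uu H (tht x) := by
    intro x hx
    rw [hhx, pr_polar hx]
    exact hHh _ (norm_pos_iff.mpr hx) _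
  -- symmetries of the profile
  have hv0 : vv H 0 = 0 := by
    have h1 := PL.hasDerivAt_uu hHc 0
    have h2 : HasDerivAt (fun t => uu H (-t)) (-vv H 0) 0 := by
      have h3 : HasDerivAt (uu H) (vv H 0) (-(0 : ℝ)) := by rw [neg_zero]; exact h1
      have := h3.scomp (0 : ℝ) (hasDerivAt_neg (0 : ℝ))
      simpa [Function.comp_def] using this
    have h3 : (fun t => uu H (-t)) = uu H := by
      ext1 t
      unfold uu
      apply HH_abs hi
      · simp [PL.er_zero]
      · simp [PL.er_one]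
    rw [h3] at h2
    have h4 := h1.unique h2
    exact eq_zero_of_eq_neg' h4
  have hv1 : vv H (Real.pi / 2) = 0 := by
    have h1 := PL.hasDerivAt_uu hHc (Real.pi / 2)
    have h2 : HasDerivAt (fun t => uu H (Real.pi - t)) (-vv H (Real.pi / 2)) (Real.pi / 2) := by
      have h3 : HasDerivAt (uu H) (vv H (Real.pi / 2)) (Real.pi - Real.pi / 2) := by
        have : Real.pi - Real.pi / 2 = Real.pi / 2 := by ring
        rw [this]; exact h1
      have h5 : HasDerivAt (fun t : ℝ => Real.pi - t) (-1) (Real.pi / 2) := by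
        simpa using (hasDerivAt_id (Real.pi / 2)).const_sub Real.pi
      have := h3.scomp (Real.pi / 2) h5
      simpa [Function.comp_def] using this
    have h3 : (fun t => uu H (Real.pi - t)) = uu H := by
      ext1 t
      unfold uu
      apply HH_abs hi
      · simp [PL.er_zero]
      · simp [PL.er_one]
    rw [h3] at h2
    have h4 := h1.unique h2
    exact eq_zero_of_eq_neg' h4
  set κ := ((β - 1) * (p - 1) + ((m - 1 + (k - 1) : ℕ) : ℝ) + 1) * β with hκd
  obtain ⟨μ, hμ⟩ : ∃ μ : ℝ, μ = p - 1 := ⟨_, rfl⟩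
  have hμ0 : 0 < μ := by rw [hμ]; linarith
  have hκ : κ = β * (μ * β + m + k - 1 - μ) := by
    rw [hκd, hμ]
    push_cast [Nat.cast_sub hm, Nat.cast_sub hk]
    ring
  have hVP : VP m k p β κ (uu H) (vv H) :=
    { hu := PL.hasDerivAt_uu hHc
      hv := PL.continuous_vv hHc
      hf := fun t ht => flux_B (by linarith) hβ0.ne' hHc hHh
        (fun w hχ hψ hχs hψc hψs => weak_plane (by linarith) hp hi hm hk i j w hχ hψ hχs hψc hψs)
        ht }
  by_cases hz : ∀ b ∈ Ioo 0 (Real.pi / 2), ¬ 0 < NN β (uu H b, vv H b)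
  · -- the zero map
    have hpi : (0 : ℝ) < Real.pi / 2 := by positivity
    have hu0 : ∀ t ∈ Icc 0 (Real.pi / 2), uu H t = 0 := by
      have hcs : IsClosed {t | uu H t = 0} := isClosed_eq (PL.continuous_uu hHc) continuous_const
      intro t ht
      have hcl : t ∈ closure (Ioo 0 (Real.pi / 2)) := by rw [closure_Ioo hpi.ne]; exact ht
      refine closure_minimal (fun s hs => ?_) hcs hcl
      have h1 := hz s hs
      by_contra hne
      apply h1
      unfold NN
      have : 0 < ‖uu H s‖ := norm_pos_iff.mpr hne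
      simp only
      positivity
    have hh0 : ∀ x, h x = 0 := by
      intro x
      by_cases hx : x = 0
      · have h1 := hh 2 (by norm_num) 0
        rw [smul_zero] at h1
        have h2 : ((2 : ℝ) ^ β - 1) • h 0 = 0 := by rw [sub_smul, one_smul, ← h1, sub_self]
        have h3 : 1 < (2 : ℝ) ^ β := Real.one_lt_rpow (by norm_num) (by linarith)
        rw [hx]
        rcases smul_eq_zero.mp h2 with h | h
        · linarith
        · exact h
      · rw [hform x hx, hu0 _ (tht_mem x), smul_zero]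
    have h0 : ∀ x, grad h x = grad h 0 := by
      have : h = fun _ => 0 := funext hh0
      intro x
      rw [this]
      unfold grad
      simp
    obtain ⟨h1, h2⟩ := conclude_const (p := p) h0
    exact ⟨h1, h2, Or.inl h0⟩
  push Not at hz
  obtain ⟨b, hb, hNb⟩ := hz
  obtain ⟨w, f, f', f'', f0, f1, hw, hF, huv, hfc, hf'c, ⟨hf0, hf1⟩, -⟩ :=
    hVP.exists_full hm hk hp2.le hβ1.le hμ hκ hv0 hv1 hb hNb
  -- the exponent
  have hβ2 : 1 + 2 / p < β := by
    by_contra hcon
    push Not at hcon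
    exact contra m k hm hk hp2.le hμ hβ1 hcon (Or.inl hp2.ne') hF
  have hm0 : (0 : ℝ) < m := by exact_mod_cast hm
  have hk0 : (0 : ℝ) < k := by exact_mod_cast hk
  -- nonvanishing gradient
  have hne : ∀ x : E (m + k), x ≠ 0 → grad h x ≠ 0 := by
    intro x hx h0
    have hn : 0 < ‖x‖ := norm_pos_iff.mpr hx
    have hfd := fderiv_of_grad h0
    have h1 := fderiv_self hc hh x
    rw [hfd] at h1
    simp only [zero_apply] at h1
    have h2 : h x = 0 := by
      rcases smul_eq_zero.mp h1.symm with h | h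
      · exact absurd h hβ0.ne'
      · exact h
    rw [hform x hx, (huv _ (tht_mem x)).1, smul_smul] at h2
    have hw0 : w ≠ 0 := by intro h; rw [h, norm_zero] at hw; exact zero_ne_one hw
    have h3 : f (tht x) = 0 := by
      rcases smul_eq_zero.mp h2 with h | h
      · rcases mul_eq_zero.mp h with h | h
        · exact absurd h (Real.rpow_pos_of_pos hn _).ne'
        · exact h
      · exact absurd h hw0
    by_cases hS : x ∈ SS m k
    · rcases hS with h | h
      · -- `fs x = 0`
        have h4 : tht x = Real.pi / 2 := by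
          have h5 := cos_tht hx
          rw [h, norm_zero, zero_div] at h5
          have h6 := tht_mem x
          by_contra hne
          have : 0 < Real.cos (tht x) := Real.cos_pos_of_mem_Ioo
            ⟨by linarith [h6.1, Real.pi_pos], lt_of_le_of_ne h6.2 hne⟩
          linarith
        rw [h4, hf1] at h3
        exact hF.ne1 h3
      · have h4 : tht x = 0 := by
          unfold tht
          rw [h, norm_zero, zero_div, Real.arcsin_zero]
        rw [h4, hf0] at h3
        exact hF.ne0 h3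
    · have ht := tht_mem' hx hS
      have hN := hF.N _ ht
      rw [h3] at hN
      have hf'0 : f' (tht x) ≠ 0 := by
        intro h; rw [h] at hN; simp at hN
      have hS' := hS
      unfold SS at hS'
      rw [mem_ofPred_eq, not_or] at hS'
      have dH : DifferentiableAt ℝ H (pr x) := hHc.differentiable (by simp) _
      have e2 := inner_grad_pr hS'.1 hS'.2 dH dH
      have e4 : (fun y => H (pr y)) = h := funext fun y => (hhx y).symm
      rw [e4, h0, inner_zero_left] at e2
      have e5 := PL.inner_grad H H (pr x) (tht x)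
      rw [← e2, pr_polar hx, PL.fderiv_er hHc hHh hn, PL.fderiv_et hHc hHh hn] at e5
      rw [(huv _ (tht_mem x)).2] at e5
      simp only [real_inner_self_eq_norm_sq, norm_smul, hw, mul_one] at e5
      have h5 : 0 < ‖‖x‖ ^ (β - 1)‖ * ‖f' (tht x)‖ := by
        have h6 : 0 < ‖x‖ ^ (β - 1) := Real.rpow_pos_of_pos hn _
        rw [Real.norm_of_nonneg h6.le]
        have := norm_pos_iff.mpr hf'0
        positivity
      nlinarith [sq_nonneg (‖β * ‖x‖ ^ (β - 1)‖ * ‖uu H (tht x)‖)]
  -- regularity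
  set al0 := al m k μ β f' f0 f1 with hal0
  have hreg : ∀ x, x ≠ 0 → ContDiffAt ℝ 1 (fderiv ℝ h) x := by
    refine reg_abs (β := β) (T := TT) (S := SS m k) (a := fun x => al0 (tht x) • w)
      (a' := fun x => ((2 * Real.sin (tht x) * Real.cos (tht x))⁻¹
        • fderiv ℝ (TT : E (m + k) → ℝ) x).smulRight (al' f' f'' (tht x) • w))
      hc isClosed_SS contDiffOn_TT (fun x hx hS => dTT_zero hx hS)
      (fun x hx _ => dense_SS i j hx) ?_ ?_ ?_ ?_ ?_
    · exact ContinuousOn.smul (hF.continuousOn_al.comp continuousOn_tht fun x _ => tht_mem x)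
        continuousOn_const
    · intro x hx hS
      have h1 := (hF.hasDerivAt_al (tht_mem' hx hS)).comp_hasFDerivAt x (hasFDerivAt_tht hx hS)
      have h2 := h1.smul_const w
      refine h2.congr_fderiv ?_
      ext v
      simp [mul_assoc, mul_comm]
      ring
    · have hsub : ({0}ᶜ \ SS m k : Set (E (m + k))) ⊆ {0}ᶜ := sdiff_subset
      have c1 : ContinuousOn (tht : E (m + k) → ℝ) ({0}ᶜ \ SS m k) := continuousOn_tht.mono hsub
      have c2 : ContinuousOn (fderiv ℝ (TT : E (m + k) → ℝ)) ({0}ᶜ \ SS m k) :=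
        (contDiffOn_TT.continuousOn_fderiv_of_isOpen isOpen_compl_singleton (by simp)).mono hsub
      have c3 : ContinuousOn (fun x : E (m + k) => al' f' f'' (tht x)) ({0}ᶜ \ SS m k) :=
        (hF.continuousOn_al' hμ0).comp c1 fun x hx => tht_mem' hx.1 hx.2
      have c4 : ContinuousOn (fun x : E (m + k) => (2 * Real.sin (tht x) * Real.cos (tht x))⁻¹)
          ({0}ᶜ \ SS m k) := by
        refine ContinuousOn.inv₀ ?_ fun x hx => ?_
        · exact (continuousOn_const.mul (Real.continuous_sin.comp_continuousOn c1)).mul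
            (Real.continuous_cos.comp_continuousOn c1)
        · have ht := tht_mem' hx.1 hx.2
          have := sin_pos' ht
          have := cos_pos' ht
          positivity
      have c5 := c4.smul c2
      have c6 : ContinuousOn (fun x : E (m + k) => al' f' f'' (tht x) • w) ({0}ᶜ \ SS m k) :=
        c3.smul continuousOn_const
      exact ((BB (m + k) n).continuous.comp_continuousOn c5).clm_apply c6
    · -- the limit on the axes
      intro x hx hS
      have hn : 0 < ‖x‖ := norm_pos_iff.mpr hx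
      have hwithin : Tendsto (fun y : E (m + k) => al' f' f'' (tht y)
          * (Real.sin (tht y) * Real.cos (tht y))) (𝓝[{0}ᶜ \ SS m k] x) (𝓝 0) := by
        have htc : Tendsto (tht : E (m + k) → ℝ) (𝓝[{0}ᶜ \ SS m k] x) (𝓝 (tht x)) :=
          (continuousOn_tht.continuousAt (isOpen_compl_singleton.mem_nhds hx)).tendsto.mono_left
            nhdsWithin_le_nhds
        rcases hS with h | h
        · have h4 : tht x = Real.pi / 2 := by
            have h5 := cos_tht hx
            rw [h, norm_zero, zero_div] at h5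
            have h6 := tht_mem x
            by_contra hne
            have : 0 < Real.cos (tht x) := Real.cos_pos_of_mem_Ioo
              ⟨by linarith [h6.1, Real.pi_pos], lt_of_le_of_ne h6.2 hne⟩
            linarith
          have h5 : Tendsto (tht : E (m + k) → ℝ) (𝓝[{0}ᶜ \ SS m k] x) (𝓝[<] (Real.pi / 2)) := by
            rw [tendsto_nhdsWithin_iff]
            refine ⟨by rw [← h4]; exact htc, ?_⟩
            filter_upwards [self_mem_nhdsWithin] with y hy
            exact (tht_mem' hy.1 hy.2).2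
          exact (hF.al'_lim1 hβ0 hm0 hμ0).comp h5
        · have h4 : tht x = 0 := by
            unfold tht
            rw [h, norm_zero, zero_div, Real.arcsin_zero]
          have h5 : Tendsto (tht : E (m + k) → ℝ) (𝓝[{0}ᶜ \ SS m k] x) (𝓝[>] 0) := by
            rw [tendsto_nhdsWithin_iff]
            refine ⟨by rw [← h4]; exact htc, ?_⟩
            filter_upwards [self_mem_nhdsWithin] with y hy
            exact (tht_mem' hy.1 hy.2).1
          exact (hF.al'_lim hβ0 hk0 hμ0).comp h5
      have hlim2 : Tendsto (fun y : E (m + k) => 16 * ‖al' f' f'' (tht y)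
          * (Real.sin (tht y) * Real.cos (tht y))‖ * (‖y‖ ^ 2)⁻¹) (𝓝[{0}ᶜ \ SS m k] x) (𝓝 0) := by
        have hn2 : Tendsto (fun y : E (m + k) => ‖y‖ ^ 2) (𝓝[{0}ᶜ \ SS m k] x)
            (𝓝 (‖x‖ ^ 2)) := by
          have : Continuous fun y : E (m + k) => ‖y‖ ^ 2 := by fun_prop
          exact this.continuousAt.tendsto.mono_left nhdsWithin_le_nhds
        have h1 := (hwithin.norm.const_mul 16).mul (hn2.inv₀ (by positivity))
        simpa using h1
      refine squeeze_zero' (Eventually.of_forall fun y => by positivity) ?_ hlim2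
      filter_upwards [self_mem_nhdsWithin] with y hy
      have hny : 0 < ‖y‖ := norm_pos_iff.mpr hy.1
      have ht := tht_mem' hy.1 hy.2
      have hs := sin_pos' ht
      have hcs := cos_pos' ht
      rw [ContinuousLinearMap.norm_smulRight_apply, norm_smul, norm_smul, hw, mul_one,
        Real.norm_of_nonneg (by positivity : (0 : ℝ) ≤ (2 * Real.sin (tht y) * Real.cos (tht y))⁻¹),
        norm_mul, Real.norm_of_nonneg (by positivity :
          (0 : ℝ) ≤ Real.sin (tht y) * Real.cos (tht y))]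
      set D := ‖fderiv ℝ (TT : E (m + k) → ℝ) y‖ with hD
      have b1 : D ≤ 4 * Real.sin (tht y) / ‖y‖ := by
        have := dTT_sn hy.1
        rw [sin_tht]
        calc D ≤ 4 * ‖sn y‖ / ‖y‖ ^ 2 := this
          _ = _ := by field_simp
      have b2 : D ≤ 4 * Real.cos (tht y) / ‖y‖ := by
        have := dTT_fs hy.1
        rw [cos_tht hy.1]
        calc D ≤ 4 * ‖fs y‖ / ‖y‖ ^ 2 := this
          _ = _ := by field_simp
      have hD0 : 0 ≤ D := norm_nonneg _
      have b3 : D ^ 2 ≤ 32 * (Real.sin (tht y) ^ 2 * Real.cos (tht y) ^ 2) * (‖y‖ ^ 2)⁻¹ := by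
        have hsc := Real.sin_sq_add_cos_sq (tht y)
        have hi0 : 0 < (‖y‖ ^ 2)⁻¹ := by positivity
        rcases le_total (Real.sin (tht y) ^ 2) (1 / 2) with h | h
        · have h1 : D ^ 2 ≤ (4 * Real.sin (tht y) / ‖y‖) ^ 2 := by gcongr
          have h2 : (4 * Real.sin (tht y) / ‖y‖) ^ 2
              = 16 * Real.sin (tht y) ^ 2 * (‖y‖ ^ 2)⁻¹ := by
            rw [div_pow]; ring
          rw [h2] at h1
          refine h1.trans ?_
          apply mul_le_mul_of_nonneg_right _ hi0.le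
          nlinarith [sq_nonneg (Real.sin (tht y))]
        · have h1 : D ^ 2 ≤ (4 * Real.cos (tht y) / ‖y‖) ^ 2 := by gcongr
          have h2 : (4 * Real.cos (tht y) / ‖y‖) ^ 2
              = 16 * Real.cos (tht y) ^ 2 * (‖y‖ ^ 2)⁻¹ := by
            rw [div_pow]; ring
          rw [h2] at h1
          refine h1.trans ?_
          apply mul_le_mul_of_nonneg_right _ hi0.le
          nlinarith [sq_nonneg (Real.cos (tht y))]
      have hA : 0 ≤ ‖al' f' f'' (tht y)‖ := norm_nonneg _
      calc D * ((2 * Real.sin (tht y) * Real.cos (tht y))⁻¹ * D * ‖al' f' f'' (tht y)‖)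
          = D ^ 2 * ((2 * Real.sin (tht y) * Real.cos (tht y))⁻¹ * ‖al' f' f'' (tht y)‖) := by ring
        _ ≤ (32 * (Real.sin (tht y) ^ 2 * Real.cos (tht y) ^ 2) * (‖y‖ ^ 2)⁻¹)
            * ((2 * Real.sin (tht y) * Real.cos (tht y))⁻¹ * ‖al' f' f'' (tht y)‖) := by gcongr
        _ = 16 * (‖al' f' f'' (tht y)‖ * (Real.sin (tht y) * Real.cos (tht y))) * (‖y‖ ^ 2)⁻¹ := by
            field_simp
            ring
    · -- the formula
      intro x hx hS
      have ht := tht_mem' hx hS
      have h1 : HasFDerivAt (fun y : E (m + k) => f (tht y)) (f' (tht x) •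
          ((2 * Real.sin (tht x) * Real.cos (tht x))⁻¹ • fderiv ℝ (TT : E (m + k) → ℝ) x)) x :=
        (hF.d1 _ ht).comp_hasFDerivAt x (hasFDerivAt_tht hx hS)
      have h2 := ((hasFDerivAt_norm_rpow β hx).mul h1).smul_const w
      have h3 : h =ᶠ[𝓝 x] fun y : E (m + k) => (‖y‖ ^ β * f (tht y)) • w := by
        filter_upwards [isOpen_ne.mem_nhds hx] with y hy
        rw [hform y hy, (huv _ (tht_mem y)).1, smul_smul]
      rw [(h2.congr_of_eventuallyEq h3).fderiv]
      have h4 : h x = (‖x‖ ^ β * f (tht x)) • w := by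
        rw [hform x hx, (huv _ (tht_mem x)).1, smul_smul]
      simp only [h4, hal0, al_eq ht]
      ext1 v
      simp only [ContinuousLinearMap.smulRight_apply, add_apply, smul_apply, smul_eq_mul,
        innerSL_apply_apply, smul_smul, ← add_smul]
      congr 1
      field_simp
      ring
  have hx0 : ‖(EuclideanSpace.single (Fin.castAdd k i) (1 : ℝ) : E (m + k))‖ = 1 := by simp
  have hγ : (β - 1) * p / 2 = (β - 1) * p / 2 := rfl
  have hγ1 : 1 < (β - 1) * p / 2 := by
    have : 2 / p < β - 1 := by linarith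
    rw [div_lt_iff₀ hp0] at this
    linarith
  obtain ⟨h1, h2⟩ := conclude hx0 hc hh hγ hγ1 hne hreg
  exact ⟨h1, h2, Or.inr hβ2⟩

end Pool.Agent.H76.BP
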