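import Pool.Agent.H76.BP.Z2
import Pool.Agent.H76.BP.Alpha

/-!
# The function `-f'(t) / sin t`
-/

set_option autoImplicit false
open Filter Topology Set

namespace Pool.Agent.H76.BP

section
variable {k μ β f0 f1 : ℝ} {f f' f'' : ℝ → ℝ}

/-- limit of the second derivative at the pole -/
lemma PZ.lim2 (h : PZ k μ β f f' f'' f0 f1) (hβ : 0 < β) (hk : 0 < k) (hμ : 0 < μ) :
    Tendsto f'' (𝓝[>] 0) (𝓝 (-(β * (μ * β + k - μ) * f0 / k))) := by
  set B := μ * β + k - μ with hB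
  set L := -(β * B * f0 / k) with hL
  have hf0 := h.ne0
  have hI : ∀ᶠ t in 𝓝[>] (0 : ℝ), t ∈ Ioo 0 Real.pi := Ioo_mem_nhdsGT Real.pi_pos
  have hid : Tendsto (fun t : ℝ => t) (𝓝[>] 0) (𝓝 0) := nhdsWithin_le_nhds
  have hf'0 : Tendsto f' (𝓝[>] 0) (𝓝 0) := by
    have h1 := h.l0'.mul hid
    rw [mul_zero] at h1
    refine h1.congr' ?_
    filter_upwards [hI] with t ht
    have : t ≠ 0 := ne_of_gt ht.1
    field_simp
  have hN : Tendsto (fun t => β ^ 2 * f t ^ 2 + f' t ^ 2) (𝓝[>] 0) (𝓝 (β ^ 2 * f0 ^ 2)) := by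
    have h1 := ((h.l0.pow 2).const_mul (β ^ 2)).add (hf'0.pow 2)
    simpa using h1
  have hM : Tendsto (fun t => β ^ 2 * f t ^ 2 + μ * f' t ^ 2) (𝓝[>] 0) (𝓝 (β ^ 2 * f0 ^ 2)) := by
    have h1 := ((h.l0.pow 2).const_mul (β ^ 2)).add ((hf'0.pow 2).const_mul μ)
    simpa using h1
  have hM0 : β ^ 2 * f0 ^ 2 ≠ 0 := by positivity
  have hc : Tendsto (fun t => (k - 1) * (f' t / t / (Real.sin t / t) * Real.cos t))
      (𝓝[>] 0) (𝓝 ((k - 1) * (L / 1 * 1))) :=
    (((h.l0'.div sin_div_tendsto' one_ne_zero).mul cos_tendsto').const_mul (k - 1))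
  have hR := (((hc.neg.mul hN).sub (h.l0.mul (((hf'0.pow 2).const_mul ((μ - 1) * β ^ 2)).add
    (hN.const_mul (β * B)))))).div hM hM0
  have e : (-((k - 1) * (L / 1 * 1)) * (β ^ 2 * f0 ^ 2)
      - f0 * ((μ - 1) * β ^ 2 * 0 ^ 2 + β * B * (β ^ 2 * f0 ^ 2))) / (β ^ 2 * f0 ^ 2) = L := by
    rw [hL]
    field_simp
    ring
  rw [e] at hR
  refine hR.congr' ?_
  filter_upwards [hI] with t ht
  have ht0 : 0 < t := ht.1
  have hsp := sinp ht
  have hode := h.ode t ht
  have hMp : 0 < β ^ 2 * f t ^ 2 + μ * f' t ^ 2 := by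
    have hn := h.N t ht
    by_cases hft : f' t = 0
    · rw [hft] at hn ⊢
      simpa using hn
    · positivity
  simp only [Pi.div_apply]
  rw [div_eq_iff hMp.ne', hode]
  unfold cz
  field_simp
  ring

/-- the function `-f'(t) / sin t`, extended to the poles -/
noncomputable def az (k μ β : ℝ) (f' : ℝ → ℝ) (f0 f1 : ℝ) (t : ℝ) : ℝ :=
  if t ≤ 0 then β * (μ * β + k - μ) * f0 / k
  else if Real.pi ≤ t then -(β * (μ * β + k - μ) * f1 / k)
  else -f' t / Real.sin t

/-- its derivative -/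
noncomputable def az' (f' f'' : ℝ → ℝ) (t : ℝ) : ℝ :=
  (-f'' t * Real.sin t + f' t * Real.cos t) / Real.sin t ^ 2

lemma az_eq {t : ℝ} (ht : t ∈ Ioo 0 Real.pi) :
    az k μ β f' f0 f1 t = -f' t / Real.sin t := by
  unfold az
  rw [if_neg (not_le.mpr ht.1), if_neg (not_le.mpr ht.2)]

lemma PZ.hasDerivAt_az (h : PZ k μ β f f' f'' f0 f1) {t : ℝ}
    (ht : t ∈ Ioo 0 Real.pi) :
    HasDerivAt (az k μ β f' f0 f1) (az' f' f'' t) t := by
  have hs := sinp ht
  have h2 := ((h.d2 t ht).neg).div (Real.hasDerivAt_sin t) hs.ne'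
  have h3 := h2.congr_deriv (g' := az' f' f'' t) (by
    unfold az'
    simp only [Pi.neg_apply]
    ring)
  refine h3.congr_of_eventuallyEq ?_
  filter_upwards [Ioo_mem_nhds ht.1 ht.2] with s hs
  exact az_eq hs

lemma PZ.continuousOn_az' (h : PZ k μ β f f' f'' f0 f1) (hμ : 0 < μ) :
    ContinuousOn (az' f' f'') (Ioo 0 Real.pi) := by
  have hfc : ContinuousOn f (Ioo 0 Real.pi) :=
    fun t ht => (h.d1 t ht).continuousAt.continuousWithinAt
  have hf'c : ContinuousOn f' (Ioo 0 Real.pi) :=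
    fun t ht => (h.d2 t ht).continuousAt.continuousWithinAt
  have hcz : ContinuousOn (cz k) (Ioo 0 Real.pi) := by
    unfold cz
    exact continuousOn_const.mul (Real.continuous_cos.continuousOn.div
      Real.continuous_sin.continuousOn fun t ht => (sinp ht).ne')
  have hMp : ∀ t ∈ Ioo 0 Real.pi, β ^ 2 * f t ^ 2 + μ * f' t ^ 2 ≠ 0 := by
    intro t ht
    have hn := h.N t ht
    by_cases hft : f' t = 0
    · rw [hft] at hn ⊢
      simpa using hn.ne'
    · positivity
  have hf''c : ContinuousOn f'' (Ioo 0 Real.pi) := by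
    have h1 : ContinuousOn (fun t => (-cz k t * f' t
        * (β ^ 2 * f t ^ 2 + f' t ^ 2)
      - f t * ((μ - 1) * β ^ 2 * f' t ^ 2
        + β * (μ * β + k - μ) * (β ^ 2 * f t ^ 2 + f' t ^ 2)))
        / (β ^ 2 * f t ^ 2 + μ * f' t ^ 2)) (Ioo 0 Real.pi) := by
      refine ContinuousOn.div ?_ (by fun_prop) hMp
      fun_prop
    refine h1.congr fun t ht => ?_
    rw [eq_div_iff (hMp t ht), h.ode t ht]
  unfold az'
  refine ContinuousOn.div (by fun_prop) (by fun_prop) fun t ht => ?_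
  have := sinp ht
  positivity

lemma PZ.az'_lim (h : PZ k μ β f f' f'' f0 f1) (hβ : 0 < β) (hk : 0 < k) (hμ : 0 < μ) :
    Tendsto (fun t => az' f' f'' t * Real.sin t) (𝓝[>] 0) (𝓝 0) := by
  have hI : ∀ᶠ t in 𝓝[>] (0 : ℝ), t ∈ Ioo 0 Real.pi := Ioo_mem_nhdsGT Real.pi_pos
  have h1 := h.lim2 hβ hk hμ
  have h2 := h.l0'
  set L := -(β * (μ * β + k - μ) * f0 / k)
  have h3 : Tendsto (fun t => -f'' t + (f' t / t) * Real.cos t / (Real.sin t / t)) (𝓝[>] 0)
      (𝓝 (-L + L * 1 / 1)) :=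
    h1.neg.add ((h2.mul cos_tendsto').div sin_div_tendsto' (by norm_num))
  have e : -L + L * 1 / 1 = 0 := by ring
  rw [e] at h3
  refine h3.congr' ?_
  filter_upwards [hI] with t ht
  have ht0 : 0 < t := ht.1
  have hs := sinp ht
  unfold az'
  field_simp

lemma PZ.az_lim0 (h : PZ k μ β f f' f'' f0 f1) :
    Tendsto (az k μ β f' f0 f1) (𝓝[>] 0) (𝓝 (β * (μ * β + k - μ) * f0 / k)) := by
  have hI : ∀ᶠ t in 𝓝[>] (0 : ℝ), t ∈ Ioo 0 Real.pi := Ioo_mem_nhdsGT Real.pi_pos
  have h2 := h.l0'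
  have h3 : Tendsto (fun t => -(f' t / t) / (Real.sin t / t)) (𝓝[>] 0)
      (𝓝 (-(-(β * (μ * β + k - μ) * f0 / k)) / 1)) :=
    h2.neg.div sin_div_tendsto' (by norm_num)
  rw [neg_neg, div_one] at h3
  refine h3.congr' ?_
  filter_upwards [hI] with t ht
  have ht0 : 0 < t := ht.1
  have hs := sinp ht
  rw [az_eq ht]
  field_simp

lemma az_refl (t : ℝ) : az k μ β (fun t => -f' (Real.pi - t)) f1 f0 t
    = -az k μ β f' f0 f1 (Real.pi - t) := by
  unfold az
  by_cases h1 : t ≤ 0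
  · rw [if_pos h1, if_neg, if_pos (by linarith), neg_neg]
    intro h; linarith [Real.pi_pos]
  · rw [if_neg h1]
    push Not at h1
    by_cases h2 : Real.pi ≤ t
    · rw [if_pos h2, if_pos (by linarith)]
    · rw [if_neg h2, if_neg (by push Not; linarith [not_le.mp h2]), if_neg (by push Not; linarith)]
      rw [Real.sin_pi_sub]
      ring

lemma az'_refl (t : ℝ) : az' (fun t => -f' (Real.pi - t)) (fun t => f'' (Real.pi - t)) t
    = az' f' f'' (Real.pi - t) := by
  unfold az'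
  rw [Real.sin_pi_sub, Real.cos_pi_sub]
  ring

lemma tendsto_reflZ : Tendsto (fun t : ℝ => Real.pi - t) (𝓝[<] Real.pi) (𝓝[>] 0) := by
  rw [tendsto_nhdsWithin_iff]
  constructor
  · have : Continuous fun t : ℝ => Real.pi - t := by fun_prop
    have h1 := (this.continuousAt (x := Real.pi)).tendsto.mono_left
      (nhdsWithin_le_nhds (s := Iio Real.pi))
    simpa using h1
  · filter_upwards [self_mem_nhdsWithin] with t ht
    have : t < Real.pi := ht
    rw [mem_Ioi]; linarith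

lemma PZ.az'_lim1 (h : PZ k μ β f f' f'' f0 f1) (hβ : 0 < β) (hk : 0 < k) (hμ : 0 < μ) :
    Tendsto (fun t => az' f' f'' t * Real.sin t) (𝓝[<] Real.pi) (𝓝 0) := by
  have h1 := (h.refl.az'_lim hβ hk hμ).comp tendsto_reflZ
  refine h1.congr fun t => ?_
  simp only [Function.comp_apply]
  rw [az'_refl, Real.sin_pi_sub, sub_sub_cancel]

lemma PZ.continuousOn_az (h : PZ k μ β f f' f'' f0 f1) :
    ContinuousOn (az k μ β f' f0 f1) (Icc 0 Real.pi) := by
  have hpi : (0 : ℝ) < Real.pi := Real.pi_pos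
  intro t ht
  rcases eq_or_lt_of_le ht.1 with h0 | h0
  · subst h0
    have h1 : ContinuousWithinAt (az k μ β f' f0 f1) (Ioi 0) 0 := by
      have := h.az_lim0
      unfold ContinuousWithinAt
      convert! this using 2
      unfold az
      rw [if_pos (le_refl _)]
    have h2 : ContinuousWithinAt (az k μ β f' f0 f1) (Ici 0) 0 := by
      rw [← Ioi_insert]; exact h1.insert
    exact h2.mono Icc_subset_Ici_self
  · rcases eq_or_lt_of_le ht.2 with h1 | h1
    · subst h1
      have h2 : Tendsto (az k μ β f' f0 f1) (𝓝[<] Real.pi)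
          (𝓝 (az k μ β f' f0 f1 Real.pi)) := by
        have h3 := (h.refl.az_lim0.comp tendsto_reflZ).neg
        have e1 : -(β * (μ * β + k - μ) * f1 / k) = az k μ β f' f0 f1 Real.pi := by
          unfold az
          rw [if_neg (not_le.mpr h0), if_pos (le_refl _)]
        rw [e1] at h3
        refine h3.congr fun t => ?_
        simp only [Function.comp_apply]
        rw [az_refl, sub_sub_cancel, neg_neg]
      have h3 : ContinuousWithinAt (az k μ β f' f0 f1) (Iio Real.pi) Real.pi := h2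
      have h4 : ContinuousWithinAt (az k μ β f' f0 f1) (Iic Real.pi) Real.pi := by
        rw [← Iio_insert]; exact h3.insert
      exact h4.mono Icc_subset_Iic_self
    · exact (h.hasDerivAt_az ⟨h0, h1⟩).continuousAt.continuousWithinAt

end

end Pool.Agent.H76.BP
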