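import Pool.Agent.H76.BP.WeakZ
import Pool.Agent.H76.BP.Z3

/-!
# Axially symmetric homogeneous `p`-harmonic maps
-/

set_option autoImplicit false
open MeasureTheory Metric Filter Topology Set
open scoped ContDiff RealInnerProductSpace

namespace Pool.Agent.H76.BP

open Pool.Agent.H76.PL (E Mat V A grad osc IsPHarmonic Homog ee er et NN uu vv)

section
variable {k n : ℕ}

/-- the first unit vector -/
noncomputable def e1z (k : ℕ) : E (1 + k) := EuclideanSpace.single (Fin.castAdd k (0 : Fin 1)) 1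

lemma inner_e1z (x : E (1 + k)) : ⟪e1z k, x⟫ = fs x 0 := by
  unfold e1z
  rw [EuclideanSpace.inner_single_left]
  simp

lemma norm_e1z : ‖e1z k‖ = 1 := by unfold e1z; simp

/-- the cosine of the polar angle -/
noncomputable def TZ (x : E (1 + k)) : ℝ := ⟪e1z k, x⟫ * ‖x‖⁻¹

/-- the polar angle -/
noncomputable def thz (x : E (1 + k)) : ℝ := Real.arccos (TZ x)

/-- the axis -/
def SZ (k : ℕ) : Set (E (1 + k)) := {x | sn x = 0}

lemma isClosed_SZ : IsClosed (SZ k) := isClosed_eq continuous_sn continuous_const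

lemma sq_TZ {x : E (1 + k)} (hx : x ≠ 0) : TZ x ^ 2 = 1 - (‖sn x‖ / ‖x‖) ^ 2 := by
  have hn : 0 < ‖x‖ := norm_pos_iff.mpr hx
  unfold TZ
  rw [inner_e1z]
  have h1 := norm_sq_split x
  rw [norm_fs_one] at h1
  field_simp
  linarith

lemma TZ_mem (x : E (1 + k)) : TZ x ∈ Icc (-1 : ℝ) 1 := by
  by_cases hx : x = 0
  · subst hx
    unfold TZ
    simp
  · have h := sq_TZ hx
    have h2 : TZ x ^ 2 ≤ 1 := by
      rw [h]
      linarith [sq_nonneg (‖sn x‖ / ‖x‖)]
    exact abs_le.mp (abs_le_one_of_sq_le_one h2)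
where
  abs_le_one_of_sq_le_one {a : ℝ} (h : a ^ 2 ≤ 1) : |a| ≤ 1 := by
    rw [← sq_abs] at h
    nlinarith [abs_nonneg a]

lemma cos_thz (x : E (1 + k)) : Real.cos (thz x) = TZ x := by
  unfold thz
  exact Real.cos_arccos (TZ_mem x).1 (TZ_mem x).2

lemma sin_thz {x : E (1 + k)} (hx : x ≠ 0) : Real.sin (thz x) = ‖sn x‖ / ‖x‖ := by
  unfold thz
  rw [Real.sin_arccos, sq_TZ hx]
  have : 1 - (1 - (‖sn x‖ / ‖x‖) ^ 2) = (‖sn x‖ / ‖x‖) ^ 2 := by ring
  rw [this, Real.sqrt_sq (by positivity)]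

lemma thz_mem (x : E (1 + k)) : thz x ∈ Icc 0 Real.pi :=
  ⟨Real.arccos_nonneg _, Real.arccos_le_pi _⟩

lemma thz_mem' {x : E (1 + k)} (hx : x ≠ 0) (hS : x ∉ SZ k) : thz x ∈ Ioo 0 Real.pi := by
  have hn : 0 < ‖x‖ := norm_pos_iff.mpr hx
  have h2 : 0 < ‖sn x‖ := norm_pos_iff.mpr hS
  have hs := sin_thz hx
  have hpos : 0 < ‖sn x‖ / ‖x‖ := by positivity
  have hm := thz_mem x
  refine ⟨lt_of_le_of_ne hm.1 fun h => ?_, lt_of_le_of_ne hm.2 fun h => ?_⟩
  · rw [← h, Real.sin_zero] at hs; linarith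
  · rw [h, Real.sin_pi] at hs; linarith

lemma thz_S {x : E (1 + k)} (hx : x ≠ 0) (hS : x ∈ SZ k) : thz x = 0 ∨ thz x = Real.pi := by
  have hs := sin_thz hx
  have h0 : sn x = 0 := hS
  rw [h0, norm_zero, zero_div] at hs
  have hm := thz_mem x
  rcases eq_or_lt_of_le hm.1 with h | h
  · left; exact h.symm
  · rcases eq_or_lt_of_le hm.2 with h' | h'
    · right; exact h'
    · have := Real.sin_pos_of_pos_of_lt_pi h h'
      linarith

lemma contDiffOn_TZ : ContDiffOn ℝ ∞ (TZ : E (1 + k) → ℝ) {0}ᶜ := by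
  intro x hx
  have h1 : ContDiffAt ℝ ∞ (fun x : E (1 + k) => ⟪e1z k, x⟫) x :=
    (innerSL ℝ (e1z k)).contDiff.contDiffAt
  have h2 : ContDiffAt ℝ ∞ (fun x : E (1 + k) => ‖x‖⁻¹) x :=
    (contDiffAt_norm ℝ hx).inv (norm_ne_zero_iff.mpr hx)
  exact (h1.mul h2).contDiffWithinAt

lemma continuousOn_thz : ContinuousOn (thz : E (1 + k) → ℝ) {0}ᶜ :=
  Real.continuous_arccos.comp_continuousOn contDiffOn_TZ.continuousOn

lemma pz_polar {x : E (1 + k)} (hx : x ≠ 0) : pz x = ‖x‖ • er (thz x) := by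
  have hn : 0 < ‖x‖ := norm_pos_iff.mpr hx
  unfold pz er
  rw [sin_thz hx, cos_thz, smul_add, smul_smul, smul_smul, mul_div_cancel₀ _ hn.ne']
  unfold TZ
  rw [inner_e1z]
  congr 2
  field_simp

lemma hasFDerivAt_TZ {x : E (1 + k)} (hx : x ≠ 0) :
    HasFDerivAt (TZ : E (1 + k) → ℝ)
      (innerSL ℝ (‖x‖⁻¹ • (e1z k - (⟪e1z k, x⟫ * (‖x‖ ^ 2)⁻¹) • x))) x := by
  have hn : 0 < ‖x‖ := norm_pos_iff.mpr hx
  have h1 : HasFDerivAt (fun x : E (1 + k) => ⟪e1z k, x⟫) (innerSL ℝ (e1z k)) x :=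
    (innerSL ℝ (e1z k)).hasFDerivAt
  have h2 : HasFDerivAt (fun x : E (1 + k) => ‖x‖ ^ (-1 : ℝ)) _ x := hasFDerivAt_norm_rpow (-1) hx
  have e2 : (fun x : E (1 + k) => ‖x‖ ^ (-1 : ℝ)) = fun x => ‖x‖⁻¹ := by
    ext y; rw [Real.rpow_neg_one]
  rw [e2, Real.rpow_neg_one] at h2
  refine (h1.mul h2).congr_fderiv ?_
  ext v
  simp only [add_apply, smul_apply, smul_eq_mul, innerSL_apply_apply,
    real_inner_smul_left, inner_sub_left]
  ring

lemma dTZ {x : E (1 + k)} (hx : x ≠ 0) :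
    ‖fderiv ℝ (TZ : E (1 + k) → ℝ) x‖ = ‖sn x‖ / ‖x‖ ^ 2 := by
  have hn : 0 < ‖x‖ := norm_pos_iff.mpr hx
  rw [(hasFDerivAt_TZ hx).fderiv, innerSL_apply_norm, norm_smul, norm_inv, norm_norm]
  have h1 : ‖e1z k - (⟪e1z k, x⟫ * (‖x‖ ^ 2)⁻¹) • x‖ ^ 2 = (‖sn x‖ / ‖x‖) ^ 2 := by
    rw [norm_sub_sq_real, norm_e1z, norm_smul, inner_smul_right, mul_pow, norm_mul, mul_pow,
      Real.norm_eq_abs, sq_abs, norm_inv, norm_pow, norm_norm]
    have h2 := norm_sq_split x
    rw [norm_fs_one, ← inner_e1z] at h2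
    field_simp
    linarith
  have h3 : ‖e1z k - (⟪e1z k, x⟫ * (‖x‖ ^ 2)⁻¹) • x‖ = ‖sn x‖ / ‖x‖ :=
    (sq_eq_sq₀ (norm_nonneg _) (by positivity)).mp h1
  rw [h3]
  field_simp

lemma dTZ_zero {x : E (1 + k)} (hx : x ≠ 0) (hS : x ∈ SZ k) :
    fderiv ℝ (TZ : E (1 + k) → ℝ) x = 0 := by
  rw [← norm_eq_zero, dTZ hx]
  have h0 : sn x = 0 := hS
  rw [h0, norm_zero, zero_div]

/-- the derivative of the angle -/
lemma hasFDerivAt_thz {x : E (1 + k)} (hx : x ≠ 0) (hS : x ∉ SZ k) :
    HasFDerivAt (thz : E (1 + k) → ℝ)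
      ((-(Real.sin (thz x))⁻¹) • fderiv ℝ (TZ : E (1 + k) → ℝ) x) x := by
  have ht := thz_mem' hx hS
  have hs := sinp ht
  have hTd : HasFDerivAt (TZ : E (1 + k) → ℝ) (fderiv ℝ TZ x) x :=
    ((contDiffOn_TZ.differentiableOn (by simp)).differentiableAt
      (isOpen_compl_singleton.mem_nhds hx)).hasFDerivAt
  have hc := cos_thz x
  have hsc := Real.sin_sq_add_cos_sq (thz x)
  have h2 : HasDerivAt Real.arccos (-(1 / Real.sqrt (1 - TZ x ^ 2))) (TZ x) := by
    apply Real.hasDerivAt_arccos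
    · intro h; rw [hc, h] at hsc; nlinarith
    · intro h; rw [hc, h] at hsc; nlinarith
  have h3 := h2.comp_hasFDerivAt x hTd
  refine h3.congr_fderiv ?_
  congr 1
  have : 1 - TZ x ^ 2 = Real.sin (thz x) ^ 2 := by rw [hc] at hsc; linarith
  rw [this, Real.sqrt_sq hs.le, one_div]

lemma dense_SZ (j : Fin k) {x : E (1 + k)} (hx : x ≠ 0) :
    x ∈ closure (({0}ᶜ : Set (E (1 + k))) \ SZ k) := by
  refine closure_mono ?_ (dense_SS (0 : Fin 1) j hx)
  intro y hy
  exact ⟨hy.1, fun h => hy.2 (Or.inr h)⟩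

end

/-- **Main theorem of the axially symmetric part.** -/
theorem mainZ {k n : ℕ} (hk : 1 ≤ k) {p β : ℝ} (hp2 : 2 < p)
    {h : E (1 + k) → E n} (hp : IsPHarmonic p h) (hh : Homog β h) (hi : InvZ h) :
    (ContDiff ℝ 1 fun x => V p (grad h x)) ∧
    (∃ c : ℝ, ∀ (x : E (1 + k)) (r θ : ℝ), 0 < r → 0 < θ → θ ≤ 1 →
      osc (fun x => V p (grad h x)) x (θ * r) ≤ c * θ * osc (fun x => V p (grad h x)) x r) ∧
    ((∀ x, grad h x = grad h 0) ∨ 1 + 2 / p < β) := by
  have hc := hp.1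
  have hp0 : 0 < p := by linarith
  rcases le_or_gt β 1 with hβ1 | hβ1
  · have h0 := grad_const hc hh hβ1
    obtain ⟨h1, h2⟩ := conclude_const (p := p) h0
    exact ⟨h1, h2, Or.inl h0⟩
  have hβ0 : 0 < β := by linarith
  set j : Fin k := ⟨0, hk⟩ with hjdef
  set H := HH (0 : Fin 1) j h with hH
  have hHc : ContDiff ℝ 1 H := HH_contDiff hc 0 j
  have hHh : Homog β H := HH_homog hh 0 j
  have hhx : ∀ x, h x = H (pz x) := fun x => congrFun (hz_eq hi j) x
  -- form of `h`
  have hform : ∀ x : E (1 + k), x ≠ 0 → h x = ‖x‖ ^ β • uu H (thz x) := by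
    intro x hx
    rw [hhx, pz_polar hx]
    exact hHh _ (norm_pos_iff.mpr hx) _
  have hHabs : ∀ z z' : E 2, z 0 = z' 0 → |z 1| = |z' 1| → H z = H z' := by
    intro z z' h0 h1
    apply hi
    · rw [fs_emb, fs_emb, h0]
    · rw [norm_sn_emb, norm_sn_emb, h1]
  -- symmetries of the profile
  have hv0 : vv H 0 = 0 := by
    have h1 := PL.hasDerivAt_uu hHc 0
    have h2 : HasDerivAt (fun t => uu H (-t)) (-vv H 0) 0 := by
      have h3 : HasDerivAt (uu H) (vv H 0) (-(0 : ℝ)) := by rw [neg_zero]; exact h1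
      have := h3.scomp (0 : ℝ) (hasDerivAt_neg (0 : ℝ))
      simpa [Function.comp_def] using this
    have h3 : (fun t => uu H (-t)) = uu H := by
      ext1 t
      unfold uu
      apply hHabs
      · simp [PL.er_zero]
      · simp [PL.er_one]
    rw [h3] at h2
    have h4 := h1.unique h2
    exact eq_zero_of_eq_neg' h4
  have hv1 : vv H Real.pi = 0 := by
    have h1 := PL.hasDerivAt_uu hHc Real.pi
    have h2 : HasDerivAt (fun t => uu H (2 * Real.pi - t)) (-vv H Real.pi) Real.pi := by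
      have h3 : HasDerivAt (uu H) (vv H Real.pi) (2 * Real.pi - Real.pi) := by
        have : 2 * Real.pi - Real.pi = Real.pi := by ring
        rw [this]; exact h1
      have h5 : HasDerivAt (fun t : ℝ => 2 * Real.pi - t) (-1) Real.pi := by
        simpa using (hasDerivAt_id Real.pi).const_sub (2 * Real.pi)
      have := h3.scomp Real.pi h5
      simpa [Function.comp_def] using this
    have h3 : (fun t => uu H (2 * Real.pi - t)) = uu H := by
      ext1 t
      unfold uu
      apply hHabs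
      · simp [PL.er_zero, Real.cos_two_pi_sub]
      · simp [PL.er_one, Real.sin_two_pi_sub]
    rw [h3] at h2
    have h4 := h1.unique h2
    exact eq_zero_of_eq_neg' h4
  set κ := ((β - 1) * (p - 1) + ((1 - 1 + (k - 1) : ℕ) : ℝ) + 1) * β with hκd
  obtain ⟨μ, hμ⟩ : ∃ μ : ℝ, μ = p - 1 := ⟨_, rfl⟩
  have hμ0 : 0 < μ := by rw [hμ]; linarith
  have hκ : κ = β * (μ * β + k - μ) := by
    rw [hκd, hμ]
    push_cast [Nat.cast_sub hk]
    ring
  have hVZ : VZ k p β κ (uu H) (vv H) :=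
    { hu := PL.hasDerivAt_uu hHc
      hv := PL.continuous_vv hHc
      hf := fun t ht => by
        have := flux_T (m := 1) (k := k) Real.pi_pos le_rfl (by linarith : 1 < p) hβ0.ne' hHc hHh
          (fun w hχ hψ hχs hψc hψs => weak_planeZ (by linarith) hp hi hk j w hχ hψ hχs hψc hψs)
          ht
        rw [sz_eq]
        exact this }
  by_cases hz : ∀ b ∈ Ioo 0 Real.pi, ¬ 0 < NN β (uu H b, vv H b)
  · -- the zero map
    have hpi : (0 : ℝ) < Real.pi := Real.pi_pos
    have hu0 : ∀ t ∈ Icc 0 Real.pi, uu H t = 0 := by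
      have hcs : IsClosed {t | uu H t = 0} := isClosed_eq (PL.continuous_uu hHc) continuous_const
      intro t ht
      have hcl : t ∈ closure (Ioo 0 Real.pi) := by rw [closure_Ioo hpi.ne]; exact ht
      refine closure_minimal (fun s hs => ?_) hcs hcl
      have h1 := hz s hs
      by_contra hne
      apply h1
      unfold NN
      have : 0 < ‖uu H s‖ := norm_pos_iff.mpr hne
      simp only
      positivity
    have hh0 : ∀ x, h x = 0 := by
      intro x
      by_cases hx : x = 0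
      · have h1 := hh 2 (by norm_num) 0
        rw [smul_zero] at h1
        have h2 : ((2 : ℝ) ^ β - 1) • h 0 = 0 := by rw [sub_smul, one_smul, ← h1, sub_self]
        have h3 : 1 < (2 : ℝ) ^ β := Real.one_lt_rpow (by norm_num) (by linarith)
        rw [hx]
        rcases smul_eq_zero.mp h2 with h | h
        · linarith
        · exact h
      · rw [hform x hx, hu0 _ (thz_mem x), smul_zero]
    have h0 : ∀ x, grad h x = grad h 0 := by
      have : h = fun _ => 0 := funext hh0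
      intro x
      rw [this]
      unfold grad
      simp
    obtain ⟨h1, h2⟩ := conclude_const (p := p) h0
    exact ⟨h1, h2, Or.inl h0⟩
  push Not at hz
  obtain ⟨b, hb, hNb⟩ := hz
  obtain ⟨w, f, f', f'', f0, f1, hw, hF, huv, hfc, hf'c, ⟨hf0, hf1⟩, -⟩ :=
    hVZ.exists_full hk hp2.le hβ1.le hμ hκ hv0 hv1 hb hNb
  -- the exponent
  have hβ2 : 1 + 2 / p < β := by
    by_contra hcon
    push Not at hcon
    exact PZ.contra hk hp2 hμ hβ1 hcon hF
  have hk0 : (0 : ℝ) < k := by exact_mod_cast hk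
  -- nonvanishing gradient
  have hne : ∀ x : E (1 + k), x ≠ 0 → grad h x ≠ 0 := by
    intro x hx h0
    have hn : 0 < ‖x‖ := norm_pos_iff.mpr hx
    have hfd := fderiv_of_grad h0
    have h1 := fderiv_self hc hh x
    rw [hfd] at h1
    simp only [zero_apply] at h1
    have h2 : h x = 0 := by
      rcases smul_eq_zero.mp h1.symm with h | h
      · exact absurd h hβ0.ne'
      · exact h
    rw [hform x hx, (huv _ (thz_mem x)).1, smul_smul] at h2
    have hw0 : w ≠ 0 := by intro h; rw [h, norm_zero] at hw; exact zero_ne_one hw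
    have h3 : f (thz x) = 0 := by
      rcases smul_eq_zero.mp h2 with h | h
      · rcases mul_eq_zero.mp h with h | h
        · exact absurd h (Real.rpow_pos_of_pos hn _).ne'
        · exact h
      · exact absurd h hw0
    by_cases hS : x ∈ SZ k
    · rcases thz_S hx hS with h4 | h4
      · rw [h4, hf0] at h3
        exact hF.ne0 h3
      · rw [h4, hf1] at h3
        exact hF.ne1 h3
    · have ht := thz_mem' hx hS
      have hN := hF.N _ ht
      rw [h3] at hN
      have hf'0 : f' (thz x) ≠ 0 := by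
        intro h; rw [h] at hN; simp at hN
      have dH : DifferentiableAt ℝ H (pz x) := hHc.differentiable (by simp) _
      have e2 := inner_grad_pz (x := x) hS dH dH
      have e4 : (fun y => H (pz y)) = h := funext fun y => (hhx y).symm
      rw [e4, h0, inner_zero_left] at e2
      have e5 := PL.inner_grad H H (pz x) (thz x)
      rw [← e2, pz_polar hx, PL.fderiv_er hHc hHh hn, PL.fderiv_et hHc hHh hn] at e5
      rw [(huv _ (thz_mem x)).2] at e5
      simp only [real_inner_self_eq_norm_sq, norm_smul, hw, mul_one] at e5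
      have h5 : 0 < ‖‖x‖ ^ (β - 1)‖ * ‖f' (thz x)‖ := by
        have h6 : 0 < ‖x‖ ^ (β - 1) := Real.rpow_pos_of_pos hn _
        rw [Real.norm_of_nonneg h6.le]
        have := norm_pos_iff.mpr hf'0
        positivity
      nlinarith [sq_nonneg (‖β * ‖x‖ ^ (β - 1)‖ * ‖uu H (thz x)‖)]
  -- regularity
  set al0 := az k μ β f' f0 f1 with hal0
  have hreg : ∀ x, x ≠ 0 → ContDiffAt ℝ 1 (fderiv ℝ h) x := by
    refine reg_abs (β := β) (T := TZ) (S := SZ k) (a := fun x => al0 (thz x) • w)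
      (a' := fun x => ((-(Real.sin (thz x))⁻¹)
        • fderiv ℝ (TZ : E (1 + k) → ℝ) x).smulRight (az' f' f'' (thz x) • w))
      hc isClosed_SZ contDiffOn_TZ (fun x hx hS => dTZ_zero hx hS)
      (fun x hx _ => dense_SZ j hx) ?_ ?_ ?_ ?_ ?_
    · exact ContinuousOn.smul (hF.continuousOn_az.comp continuousOn_thz fun x _ => thz_mem x)
        continuousOn_const
    · intro x hx hS
      have h1 := (hF.hasDerivAt_az (thz_mem' hx hS)).comp_hasFDerivAt x (hasFDerivAt_thz hx hS)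
      have h2 := h1.smul_const w
      refine h2.congr_fderiv ?_
      ext v
      simp [mul_assoc, mul_comm]
      ring
    · have hsub : ({0}ᶜ \ SZ k : Set (E (1 + k))) ⊆ {0}ᶜ := sdiff_subset
      have c1 : ContinuousOn (thz : E (1 + k) → ℝ) ({0}ᶜ \ SZ k) := continuousOn_thz.mono hsub
      have c2 : ContinuousOn (fderiv ℝ (TZ : E (1 + k) → ℝ)) ({0}ᶜ \ SZ k) :=
        (contDiffOn_TZ.continuousOn_fderiv_of_isOpen isOpen_compl_singleton (by simp)).mono hsub
      have c3 : ContinuousOn (fun x : E (1 + k) => az' f' f'' (thz x)) ({0}ᶜ \ SZ k) :=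
        (hF.continuousOn_az' hμ0).comp c1 fun x hx => thz_mem' hx.1 hx.2
      have c4 : ContinuousOn (fun x : E (1 + k) => -(Real.sin (thz x))⁻¹)
          ({0}ᶜ \ SZ k) := by
        refine (ContinuousOn.inv₀ ?_ fun x hx => ?_).neg
        · exact Real.continuous_sin.comp_continuousOn c1
        · exact (sinp (thz_mem' hx.1 hx.2)).ne'
      have c5 := c4.smul c2
      have c6 : ContinuousOn (fun x : E (1 + k) => az' f' f'' (thz x) • w) ({0}ᶜ \ SZ k) :=
        c3.smul continuousOn_const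
      exact ((BB (1 + k) n).continuous.comp_continuousOn c5).clm_apply c6
    · -- the limit on the axis
      intro x hx hS
      have hn : 0 < ‖x‖ := norm_pos_iff.mpr hx
      have hwithin : Tendsto (fun y : E (1 + k) => az' f' f'' (thz y)
          * Real.sin (thz y)) (𝓝[{0}ᶜ \ SZ k] x) (𝓝 0) := by
        have htc : Tendsto (thz : E (1 + k) → ℝ) (𝓝[{0}ᶜ \ SZ k] x) (𝓝 (thz x)) :=
          (continuousOn_thz.continuousAt (isOpen_compl_singleton.mem_nhds hx)).tendsto.mono_left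
            nhdsWithin_le_nhds
        rcases thz_S hx hS with h4 | h4
        · have h5 : Tendsto (thz : E (1 + k) → ℝ) (𝓝[{0}ᶜ \ SZ k] x) (𝓝[>] 0) := by
            rw [tendsto_nhdsWithin_iff]
            refine ⟨by rw [← h4]; exact htc, ?_⟩
            filter_upwards [self_mem_nhdsWithin] with y hy
            exact (thz_mem' hy.1 hy.2).1
          exact (hF.az'_lim hβ0 hk0 hμ0).comp h5
        · have h5 : Tendsto (thz : E (1 + k) → ℝ) (𝓝[{0}ᶜ \ SZ k] x) (𝓝[<] Real.pi) := by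
            rw [tendsto_nhdsWithin_iff]
            refine ⟨by rw [← h4]; exact htc, ?_⟩
            filter_upwards [self_mem_nhdsWithin] with y hy
            exact (thz_mem' hy.1 hy.2).2
          exact (hF.az'_lim1 hβ0 hk0 hμ0).comp h5
      have hlim2 : Tendsto (fun y : E (1 + k) => ‖az' f' f'' (thz y)
          * Real.sin (thz y)‖ * (‖y‖ ^ 2)⁻¹) (𝓝[{0}ᶜ \ SZ k] x) (𝓝 0) := by
        have hn2 : Tendsto (fun y : E (1 + k) => ‖y‖ ^ 2) (𝓝[{0}ᶜ \ SZ k] x)
            (𝓝 (‖x‖ ^ 2)) := by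
          have : Continuous fun y : E (1 + k) => ‖y‖ ^ 2 := by fun_prop
          exact this.continuousAt.tendsto.mono_left nhdsWithin_le_nhds
        have h1 := (hwithin.norm).mul (hn2.inv₀ (by positivity))
        simpa using h1
      refine hlim2.congr' ?_
      filter_upwards [self_mem_nhdsWithin] with y hy
      have hny : 0 < ‖y‖ := norm_pos_iff.mpr hy.1
      have ht := thz_mem' hy.1 hy.2
      have hs := sinp ht
      rw [ContinuousLinearMap.norm_smulRight_apply, norm_smul, norm_smul, hw, mul_one,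
        norm_neg, norm_inv, Real.norm_of_nonneg hs.le, norm_mul, Real.norm_of_nonneg hs.le,
        dTZ hy.1]
      have hsn : ‖sn y‖ = Real.sin (thz y) * ‖y‖ := by
        rw [sin_thz hy.1]; field_simp
      rw [hsn]
      field_simp
    · -- the formula
      intro x hx hS
      have ht := thz_mem' hx hS
      have h1 : HasFDerivAt (fun y : E (1 + k) => f (thz y)) (f' (thz x) •
          ((-(Real.sin (thz x))⁻¹) • fderiv ℝ (TZ : E (1 + k) → ℝ) x)) x :=
        (hF.d1 _ ht).comp_hasFDerivAt x (hasFDerivAt_thz hx hS)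
      have h2 := ((hasFDerivAt_norm_rpow β hx).mul h1).smul_const w
      have h3 : h =ᶠ[𝓝 x] fun y : E (1 + k) => (‖y‖ ^ β * f (thz y)) • w := by
        filter_upwards [isOpen_ne.mem_nhds hx] with y hy
        rw [hform y hy, (huv _ (thz_mem y)).1, smul_smul]
      rw [(h2.congr_of_eventuallyEq h3).fderiv]
      have h4 : h x = (‖x‖ ^ β * f (thz x)) • w := by
        rw [hform x hx, (huv _ (thz_mem x)).1, smul_smul]
      simp only [h4, hal0, az_eq ht]
      ext1 v
      simp only [ContinuousLinearMap.smulRight_apply, add_apply, smul_apply, smul_eq_mul,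
        innerSL_apply_apply, smul_smul, ← add_smul]
      congr 1
      field_simp
      ring
  have hx0 : ‖(EuclideanSpace.single (Fin.castAdd k 0) (1 : ℝ) : E (1 + k))‖ = 1 := by simp
  have hγ : (β - 1) * p / 2 = (β - 1) * p / 2 := rfl
  have hγ1 : 1 < (β - 1) * p / 2 := by
    have : 2 / p < β - 1 := by linarith
    rw [div_lt_iff₀ hp0] at this
    linarith
  obtain ⟨h1, h2⟩ := conclude hx0 hc hh hγ hγ1 hne hreg
  exact ⟨h1, h2, Or.inr hβ2⟩

end Pool.Agent.H76.BP
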