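import Pool.Agent.H76.BP.VProf

/-!
# Behaviour of vector valued profiles at the poles
-/

set_option autoImplicit false
open MeasureTheory Metric Filter Topology Set
open scoped ContDiff RealInnerProductSpace

namespace Pool.Agent.H76.BP

open Pool.Agent.H76.PL

lemma sin_div_tendsto : Tendsto (fun t : ℝ => Real.sin t / t) (𝓝[>] 0) (𝓝 1) := by
  have h1 : HasDerivAt Real.sin 1 0 := by
    have := Real.hasDerivAt_sin 0
    rwa [Real.cos_zero] at this
  have h2 := (hasDerivWithinAt_iff_tendsto_slope' (s := Ioi (0 : ℝ)) (by simp)).mp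
    h1.hasDerivWithinAt
  refine h2.congr' ?_
  filter_upwards [self_mem_nhdsWithin] with t ht
  rw [slope_def_field, Real.sin_zero, sub_zero, sub_zero]

lemma cos_tendsto : Tendsto Real.cos (𝓝[>] 0) (𝓝 1) := by
  have := Real.continuous_cos.continuousAt (x := 0)
  have h := this.tendsto.mono_left (nhdsWithin_le_nhds (s := Ioi (0 : ℝ)))
  rwa [Real.cos_zero] at h

section
variable {F : Type*} [NormedAddCommGroup F] [InnerProductSpace ℝ F] [FiniteDimensional ℝ F]
variable {m k : ℕ} {p β κ : ℝ} {u v : ℝ → F}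

lemma VP.pole_w (h : VP m k p β κ u v) (hk : 1 ≤ k) (hv0 : v 0 = 0)
    (hN0 : 0 < NN β (u 0, v 0)) (w : F) :
    Tendsto (fun t => ⟪v t, w⟫ / t) (𝓝[>] 0) (𝓝 (-(κ * ⟪u 0, w⟫ / k))) := by
  have hk0 : (0 : ℝ) < k := by exact_mod_cast hk
  obtain ⟨j, rfl⟩ : ∃ j, k = j + 1 := ⟨k - 1, by omega⟩
  set e := (p - 2) / 2 with he
  obtain ⟨W, hW⟩ : ∃ W : ℝ → ℝ, W = fun t => (NN β (u t, v t)) ^ e := ⟨_, rfl⟩
  have hWc : ContinuousAt W 0 := by
    rw [hW]; exact h.contN.continuousAt.rpow_const (Or.inl hN0.ne')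
  have hWt : Tendsto W (𝓝[>] 0) (𝓝 (W 0)) := hWc.tendsto.mono_left nhdsWithin_le_nhds
  have hW0 : 0 < W 0 := by rw [hW]; exact Real.rpow_pos_of_pos hN0 _
  have hut : Tendsto (fun t => ⟪u t, w⟫) (𝓝[>] 0) (𝓝 ⟪u 0, w⟫) := by
    have : Continuous fun t => ⟪u t, w⟫ := h.contU.inner continuous_const
    exact this.continuousAt.tendsto.mono_left nhdsWithin_le_nhds
  have hvt : Tendsto (fun t => ⟪v t, w⟫) (𝓝[>] 0) (𝓝 0) := by
    have : Continuous fun t => ⟪v t, w⟫ := h.hv.inner continuous_const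
    have h1 := (this.continuousAt (x := 0)).tendsto.mono_left
      (nhdsWithin_le_nhds (s := Ioi (0 : ℝ)))
    rwa [hv0, inner_zero_left] at h1
  have hct : Tendsto (fun t => Real.cos t ^ (m - 1)) (𝓝[>] 0) (𝓝 1) := by
    have := cos_tendsto.pow (m - 1); rwa [one_pow] at this
  have hst : Tendsto (fun t => (Real.sin t / t) ^ j) (𝓝[>] 0) (𝓝 1) := by
    have := sin_div_tendsto.pow j; rwa [one_pow] at this
  have hI : ∀ᶠ t in 𝓝[>] (0 : ℝ), t ∈ Ioo 0 (Real.pi / 2) := Ioo_mem_nhdsGT (by positivity)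
  have hL := HasDerivAt.lhopital_zero_nhdsGT (a := 0) (l := 𝓝 (-(κ * (W 0 * ⟪u 0, w⟫) / (j + 1))))
    (f := fun t => sc m (j + 1) t * (W t * ⟪v t, w⟫))
    (f' := fun t => -(κ * sc m (j + 1) t * W t * ⟪u t, w⟫))
    (g := fun t => t ^ (j + 1)) (g' := fun t => ((j + 1 : ℕ) : ℝ) * t ^ j) ?_ ?_ ?_ ?_ ?_ ?_
  · -- conclusion
    have h1 := hL.div ((hct.mul hst).mul hWt) (by rw [one_mul, one_mul]; exact hW0.ne')
    have e1 : -(κ * (W 0 * ⟪u 0, w⟫) / (j + 1)) / (1 * 1 * W 0)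
        = -(κ * ⟪u 0, w⟫ / ((j + 1 : ℕ) : ℝ)) := by
      push_cast
      field_simp
    rw [e1] at h1
    refine h1.congr' ?_
    filter_upwards [hI, hWt.eventually (lt_mem_nhds hW0)] with t ht hWt0
    have ht0 : t ≠ 0 := ne_of_gt ht.1
    have hct0 : 0 < Real.cos t :=
      Real.cos_pos_of_mem_Ioo ⟨by linarith [ht.1, Real.pi_pos], ht.2⟩
    have hst0 : 0 < Real.sin t :=
      Real.sin_pos_of_pos_of_lt_pi ht.1 (by linarith [ht.2, Real.pi_pos])
    simp only [Pi.div_apply, sc, Nat.add_sub_cancel]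
    rw [div_pow, pow_succ]
    field_simp
  · filter_upwards [hI] with t ht
    have h1 := (innerSL ℝ w).hasFDerivAt.comp_hasDerivAt t (h.hf t ht)
    have e1 : (fun t => sc m (j + 1) t * (W t * ⟪v t, w⟫))
        = (innerSL ℝ w) ∘ fun s => sc m (j + 1) s • ((NN β (u s, v s)) ^ e • v s) := by
      ext s
      simp only [Function.comp_apply, innerSL_apply_apply, inner_smul_right, hW]
      rw [real_inner_comm]
    rw [e1]
    refine h1.congr_deriv ?_
    simp only [innerSL_apply_apply, inner_smul_right, hW]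
    rw [real_inner_comm]
    ring
  · exact Eventually.of_forall fun t => by
      have := hasDerivAt_pow (j + 1) t
      simpa using this
  · filter_upwards [hI] with t ht
    have : 0 < t := ht.1
    positivity
  · have h1 : Tendsto (sc m (j + 1)) (𝓝[>] 0) (𝓝 (sc m (j + 1) 0)) :=
      continuous_sc.continuousAt.tendsto.mono_left nhdsWithin_le_nhds
    have := h1.mul (hWt.mul hvt)
    simpa using this
  · have : Tendsto (fun t : ℝ => t ^ (j + 1)) (𝓝 0) (𝓝 (0 ^ (j + 1))) :=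
      (continuous_pow (j + 1)).continuousAt.tendsto
    rw [zero_pow (by omega)] at this
    exact this.mono_left nhdsWithin_le_nhds
  · have h1 := (((hct.mul hst).mul (hWt.mul hut)).const_mul (-κ)).div_const ((j : ℝ) + 1)
    have e1 : -κ * (1 * 1 * (W 0 * ⟪u 0, w⟫)) / ((j : ℝ) + 1)
        = -(κ * (W 0 * ⟪u 0, w⟫) / (j + 1)) := by ring
    rw [e1] at h1
    refine h1.congr' ?_
    filter_upwards [hI] with t ht
    have ht0 : t ≠ 0 := ne_of_gt ht.1
    simp only [sc, Nat.add_sub_cancel]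
    push_cast
    rw [div_pow]
    field_simp

/-- **Scalar form of a vector valued profile.** -/
theorem VP.exists_full (h : VP m k p β κ u v) (hm : 1 ≤ m) (hk : 1 ≤ k) (hp : 2 ≤ p)
    (hβ : 1 ≤ β) {μ : ℝ} (hμ : μ = p - 1) (hκ : κ = β * (μ * β + m + k - 1 - μ))
    (hv0 : v 0 = 0) (hv1 : v (Real.pi / 2) = 0)
    {b : ℝ} (hb : b ∈ Ioo 0 (Real.pi / 2)) (hN : 0 < NN β (u b, v b)) :
    ∃ (w : F) (f f' f'' : ℝ → ℝ) (f0 f1 : ℝ), ‖w‖ = 1 ∧ Full m k μ β f f' f'' f0 f1 ∧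
      (∀ t ∈ Icc 0 (Real.pi / 2), u t = f t • w ∧ v t = f' t • w) ∧
      Continuous f ∧ Continuous f' ∧ (f 0 = f0 ∧ f (Real.pi / 2) = f1) ∧
      (f' 0 = 0 ∧ f' (Real.pi / 2) = 0) := by
  have hpi : (0 : ℝ) < Real.pi / 2 := by positivity
  have hpos : ∀ t ∈ Icc 0 (Real.pi / 2), 0 < NN β (u t, v t) := fun t ht =>
    h.pos hm hk hp hβ hb hN ht
  obtain ⟨w, hw, huv, hu0⟩ := h.scalar hm hk hpos hv0
  have hfc : Continuous fun t => ⟪u t, w⟫ := h.contU.inner continuous_const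
  have hf'c : Continuous fun t => ⟪v t, w⟫ := h.hv.inner continuous_const
  have huv' : ∀ t ∈ Icc 0 (Real.pi / 2), u t = ⟪u t, w⟫ • w ∧ v t = ⟪v t, w⟫ • w := by
    intro t ht
    rcases eq_or_lt_of_le ht.2 with h1 | h1
    · have hcl : t ∈ closure (Ioo 0 (Real.pi / 2)) := by
        rw [closure_Ioo hpi.ne]; exact ht
      constructor
      · have hcs : IsClosed {t | u t = ⟪u t, w⟫ • w} :=
          isClosed_eq h.contU (hfc.smul continuous_const)
        exact closure_minimal (fun s hs => (huv s ⟨hs.1.le, hs.2⟩).1) hcs hcl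
      · have hcs : IsClosed {t | v t = ⟪v t, w⟫ • w} :=
          isClosed_eq h.hv (hf'c.smul continuous_const)
        exact closure_minimal (fun s hs => (huv s ⟨hs.1.le, hs.2⟩).2) hcs hcl
    · exact huv t ⟨ht.1, h1⟩
  have hNN : ∀ t ∈ Icc 0 (Real.pi / 2), NN β (u t, v t) = β ^ 2 * ⟪u t, w⟫ ^ 2 + ⟪v t, w⟫ ^ 2 := by
    intro t ht
    obtain ⟨h1, h2⟩ := huv' t ht
    have e1 : ‖u t‖ ^ 2 = ⟪u t, w⟫ ^ 2 := by
      have : ‖u t‖ = |⟪u t, w⟫| := by
        nth_rewrite 1 [h1]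
        rw [norm_smul, hw, mul_one, Real.norm_eq_abs]
      rw [this, sq_abs]
    have e2 : ‖v t‖ ^ 2 = ⟪v t, w⟫ ^ 2 := by
      have : ‖v t‖ = |⟪v t, w⟫| := by
        nth_rewrite 1 [h2]
        rw [norm_smul, hw, mul_one, Real.norm_eq_abs]
      rw [this, sq_abs]
    unfold NN
    simp only
    rw [e1, e2]
  have hu1 : ⟪u (Real.pi / 2), w⟫ ≠ 0 := by
    intro h0
    have h1 := hpos (Real.pi / 2) ⟨hpi.le, le_refl _⟩
    rw [hNN _ ⟨hpi.le, le_refl _⟩, h0, hv1, inner_zero_left] at h1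
    simp at h1
  refine ⟨w, fun t => ⟪u t, w⟫, fun t => ⟪v t, w⟫,
    fun t => ⟪vd κ ((p - 2) / 2) β (cc m k t) (u t) (v t), w⟫, ⟪u 0, w⟫,
    ⟪u (Real.pi / 2), w⟫, hw, ?_, huv', hfc, hf'c, ⟨rfl, rfl⟩, ?_⟩
  · refine { d1 := ?_, d2 := ?_, N := ?_, ode := ?_, ne0 := hu0.ne', ne1 := hu1, l0 := ?_,
             l0' := ?_, l1 := ?_, l1' := ?_ }
    · intro t ht
      have h1 := (innerSL ℝ w).hasFDerivAt.comp_hasDerivAt t (h.hu t)
      have e1 : (fun t => ⟪u t, w⟫) = (innerSL ℝ w) ∘ u := by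
        ext s; simp only [Function.comp_apply, innerSL_apply_apply]; rw [real_inner_comm]
      rw [e1]
      refine h1.congr_deriv ?_
      simp only [innerSL_apply_apply]; rw [real_inner_comm]
    · intro t ht
      have h1 := (innerSL ℝ w).hasFDerivAt.comp_hasDerivAt t
        (h.ode hm hk hp ht (hpos t ⟨ht.1.le, ht.2.le⟩))
      have e1 : (fun t => ⟪v t, w⟫) = (innerSL ℝ w) ∘ v := by
        ext s; simp only [Function.comp_apply, innerSL_apply_apply]; rw [real_inner_comm]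
      rw [e1]
      refine h1.congr_deriv ?_
      simp only [innerSL_apply_apply]; rw [real_inner_comm]
    · intro t ht
      have h1 := hpos t ⟨ht.1.le, ht.2.le⟩
      rwa [hNN t ⟨ht.1.le, ht.2.le⟩] at h1
    · intro t ht
      have htI : t ∈ Icc 0 (Real.pi / 2) := ⟨ht.1.le, ht.2.le⟩
      have h1 := hpos t htI
      have hn := hNN t htI
      obtain ⟨h2, h3⟩ := huv' t htI
      have e1 : ⟪u t, v t⟫ = ⟪u t, w⟫ * ⟪v t, w⟫ := by
        nth_rewrite 1 [h3]
        rw [inner_smul_right]; ring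
      have e2 : ‖v t‖ ^ 2 = ⟪v t, w⟫ ^ 2 := by
        have : ‖v t‖ = |⟪v t, w⟫| := by
          nth_rewrite 1 [h3]
          rw [norm_smul, hw, mul_one, Real.norm_eq_abs]
        rw [this, sq_abs]
      unfold vd om2
      rw [inner_sub_left, real_inner_smul_left, real_inner_smul_left, e1, e2, hn]
      rw [hn] at h1
      set x := ⟪u t, w⟫
      set y := ⟪v t, w⟫
      have hden : β ^ 2 * x ^ 2 + y ^ 2 + 2 * ((p - 2) / 2) * y ^ 2 = β ^ 2 * x ^ 2 + μ * y ^ 2 := by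
        rw [hμ]; ring
      have hM : 0 < β ^ 2 * x ^ 2 + μ * y ^ 2 := by
        have : 1 ≤ μ := by rw [hμ]; linarith
        nlinarith [sq_nonneg y]
      rw [hden]
      have hcc : (k - 1) / Real.tan t - (m - 1) * Real.tan t = cc m k t := rfl
      rw [hcc]
      have he : (p - 2) / 2 = (μ - 1) / 2 := by rw [hμ]; ring
      rw [he, ← hκ]
      obtain ⟨M, hMd⟩ : ∃ M, M = β ^ 2 * x ^ 2 + μ * y ^ 2 := ⟨_, rfl⟩
      rw [← hMd] at hM ⊢
      have hM' : M ≠ 0 := hM.ne'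
      field_simp
      rw [hMd]
      ring
    · exact hfc.continuousAt.tendsto.mono_left nhdsWithin_le_nhds
    · have := h.pole_w hk hv0 (hpos 0 ⟨le_refl _, hpi.le⟩) w
      rwa [hκ] at this
    · have : Continuous fun t => ⟪u (Real.pi / 2 - t), w⟫ := hfc.comp (by fun_prop)
      have h1 := (this.continuousAt (x := 0)).tendsto.mono_left
        (nhdsWithin_le_nhds (s := Ioi (0 : ℝ)))
      simpa using h1
    · have := h.refl.pole_w hm (by simp [hv1]) (by
        have := hpos (Real.pi / 2) ⟨hpi.le, le_refl _⟩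
        simpa [NN_neg] using this) w
      simp only [sub_zero, inner_neg_left] at this
      rw [hκ] at this
      exact this
  · simp [hv0, hv1]

end

end Pool.Agent.H76.BP
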