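import Pool.Agent.H76.BP.WeakB
import Pool.Agent.H76.BP.Contra

/-!
# Vector valued profiles
-/

set_option autoImplicit false
open MeasureTheory Metric Filter Topology Set
open scoped ContDiff RealInnerProductSpace

namespace Pool.Agent.H76.BP

open Pool.Agent.H76.PL

/-- positivity propagates to the left -/
lemma pos_left {f f' : ℝ → ℝ} {a b C : ℝ} (hab : a ≤ b) (hf : ContinuousOn f (Icc a b))
    (h : ∀ t ∈ Ioo a b, 0 < f t → HasDerivAt f (f' t) t ∧ f' t ≤ C * f t) (hb : 0 < f b) :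
    0 < f a := by
  by_contra hcon
  push Not at hcon
  set S : Set ℝ := {t | t ∈ Icc a b ∧ f t ≤ 0} with hS
  have hSc : IsClosed S := by
    have := hf.preimage_isClosed_of_isClosed isClosed_Icc (isClosed_Iic (a := 0))
    convert! this using 1
  have hSn : S.Nonempty := ⟨a, ⟨le_refl _, hab⟩, hcon⟩
  have hSb : BddAbove S := ⟨b, fun t ht => ht.1.2⟩
  set s := sSup S with hs
  have hsS : s ∈ S := hSc.csSup_mem hSn hSb
  have hpos : ∀ t ∈ Ioc s b, 0 < f t := by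
    intro t ht
    by_contra hc
    push Not at hc
    have : t ∈ S := ⟨⟨hsS.1.1.trans ht.1.le, ht.2⟩, hc⟩
    exact absurd (le_csSup hSb this) (not_le.mpr ht.1)
  have hmono : AntitoneOn (fun t => f t * Real.exp (-C * t)) (Icc s b) := by
    apply antitoneOn_of_deriv_nonpos (convex_Icc _ _)
    · exact (hf.mono (Icc_subset_Icc_left hsS.1.1)).mul (by fun_prop)
    · intro t ht
      rw [interior_Icc] at ht
      have h1 := (h t ⟨lt_of_le_of_lt hsS.1.1 ht.1, ht.2⟩ (hpos t ⟨ht.1, ht.2.le⟩)).1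
      exact (h1.differentiableAt.mul (by fun_prop)).differentiableWithinAt
    · intro t ht
      rw [interior_Icc] at ht
      have h1 := h t ⟨lt_of_le_of_lt hsS.1.1 ht.1, ht.2⟩ (hpos t ⟨ht.1, ht.2.le⟩)
      have h2 : HasDerivAt (fun t => Real.exp (-C * t)) (Real.exp (-C * t) * (-C * 1)) t :=
        ((hasDerivAt_id t).const_mul (-C)).exp
      have h4 : deriv (fun t => f t * Real.exp (-C * t)) t
          = f' t * Real.exp (-C * t) + f t * (Real.exp (-C * t) * (-C * 1)) := (h1.1.mul h2).deriv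
      rw [h4]
      have h6 : f' t * Real.exp (-C * t) + f t * (Real.exp (-C * t) * (-C * 1))
        = (f' t - C * f t) * Real.exp (-C * t) := by ring
      rw [h6]
      exact mul_nonpos_of_nonpos_of_nonneg (by linarith [h1.2]) (Real.exp_pos _).le
  have h1 := hmono ⟨le_refl _, hsS.1.2⟩ ⟨hsS.1.2, le_refl _⟩ hsS.1.2
  have h2 : f s * Real.exp (-C * s) ≤ 0 :=
    mul_nonpos_of_nonpos_of_nonneg hsS.2 (Real.exp_pos _).le
  have h3 : 0 < f b * Real.exp (-C * b) := mul_pos hb (Real.exp_pos _)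
  simp only at h1
  linarith

/-- logarithmic derivative of the weight -/
noncomputable def cc (m k : ℝ) (t : ℝ) : ℝ := (k - 1) / Real.tan t - (m - 1) * Real.tan t

lemma sc_pos {m k : ℕ} {t : ℝ} (ht : t ∈ Ioo 0 (Real.pi / 2)) : 0 < sc m k t := by
  have hc : 0 < Real.cos t :=
    Real.cos_pos_of_mem_Ioo ⟨by linarith [ht.1, Real.pi_pos], ht.2⟩
  have hs : 0 < Real.sin t := Real.sin_pos_of_pos_of_lt_pi ht.1 (by linarith [ht.2, Real.pi_pos])
  unfold sc
  positivity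

lemma hasDerivAt_sc {m k : ℕ} (hm : 1 ≤ m) (hk : 1 ≤ k) {t : ℝ} (ht : t ∈ Ioo 0 (Real.pi / 2)) :
    HasDerivAt (sc m k) (sc m k t * cc m k t) t := by
  have hc : 0 < Real.cos t :=
    Real.cos_pos_of_mem_Ioo ⟨by linarith [ht.1, Real.pi_pos], ht.2⟩
  have hs : 0 < Real.sin t := Real.sin_pos_of_pos_of_lt_pi ht.1 (by linarith [ht.2, Real.pi_pos])
  have h1 := (Real.hasDerivAt_cos t).pow (m - 1)
  have h2 := (Real.hasDerivAt_sin t).pow (k - 1)
  have e1 : ((m - 1 : ℕ) : ℝ) * Real.cos t ^ (m - 1 - 1) * -Real.sin t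
      = Real.cos t ^ (m - 1) * (-((m : ℝ) - 1) * Real.tan t) := by
    rw [Nat.cast_sub hm, Real.tan_eq_sin_div_cos]
    rcases Nat.eq_zero_or_pos (m - 1) with h0 | h0
    · have : m = 1 := by omega
      subst this
      simp
    · obtain ⟨j, hj⟩ : ∃ j, m - 1 = j + 1 := ⟨m - 2, by omega⟩
      rw [hj, pow_succ, Nat.add_sub_cancel]
      push_cast
      field_simp
  have e2 : ((k - 1 : ℕ) : ℝ) * Real.sin t ^ (k - 1 - 1) * Real.cos t
      = Real.sin t ^ (k - 1) * (((k : ℝ) - 1) / Real.tan t) := by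
    rw [Nat.cast_sub hk, Real.tan_eq_sin_div_cos]
    rcases Nat.eq_zero_or_pos (k - 1) with h0 | h0
    · have : k = 1 := by omega
      subst this
      simp
    · obtain ⟨j, hj⟩ : ∃ j, k - 1 = j + 1 := ⟨k - 2, by omega⟩
      rw [hj, pow_succ, Nat.add_sub_cancel]
      push_cast
      field_simp
  have h3 := h1.mul h2
  unfold sc cc
  refine h3.congr_deriv ?_
  simp only [Pi.pow_apply]
  rw [e1, e2]
  ring

section
variable {F : Type*} [NormedAddCommGroup F] [InnerProductSpace ℝ F]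

/-- vector valued profile -/
structure VP (m k : ℕ) (p β κ : ℝ) (u v : ℝ → F) : Prop where
  hu : ∀ t, HasDerivAt u (v t) t
  hv : Continuous v
  hf : ∀ t ∈ Ioo 0 (Real.pi / 2),
    HasDerivAt (fun s => sc m k s • ((NN β (u s, v s)) ^ ((p - 2) / 2) • v s))
      (-(κ * sc m k t * (NN β (u t, v t)) ^ ((p - 2) / 2)) • u t) t

variable {m k : ℕ} {p β κ : ℝ} {u v : ℝ → F}

lemma sc_refl (m k : ℕ) (t : ℝ) : sc m k (Real.pi / 2 - t) = sc k m t := by
  unfold sc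
  rw [Real.cos_pi_div_two_sub, Real.sin_pi_div_two_sub, mul_comm]

lemma hasDerivAt_reflF {f : ℝ → F} {a : F} {t : ℝ} (h : HasDerivAt f a (Real.pi / 2 - t)) :
    HasDerivAt (fun t => f (Real.pi / 2 - t)) (-a) t := by
  have h1 : HasDerivAt (fun t : ℝ => Real.pi / 2 - t) (-1) t := by
    simpa using (hasDerivAt_id t).const_sub (Real.pi / 2)
  have := h.scomp t h1
  simpa [Function.comp_def] using this

lemma NN_neg (x y : F) : NN β (x, -y) = NN β (x, y) := by unfold NN; simp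

lemma VP.refl (h : VP m k p β κ u v) : VP k m p β κ (fun t => u (Real.pi / 2 - t))
    (fun t => -v (Real.pi / 2 - t)) where
  hu t := hasDerivAt_reflF (h.hu _)
  hv := by
    have := h.hv
    fun_prop
  hf t ht := by
    have h1 := hasDerivAt_reflF (h.hf _ (refl_mem ht))
    have h2 := h1.neg
    rw [neg_neg] at h2
    rw [sc_refl] at h2
    simp only [NN_neg]
    refine (h2.congr_of_eventuallyEq (Eventually.of_forall fun s => ?_))
    simp only [Pi.neg_apply, sc_refl, smul_neg]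

lemma VP.contU (h : VP m k p β κ u v) : Continuous u :=
  continuous_iff_continuousAt.mpr fun t => (h.hu t).continuousAt

lemma VP.contN (h : VP m k p β κ u v) : Continuous fun t => NN β (u t, v t) := by
  have := h.contU
  have := h.hv
  unfold NN
  fun_prop

variable [FiniteDimensional ℝ F]

/-- the coefficient `W'/W` -/
noncomputable def om2 (κ e β c : ℝ) (x y : F) : ℝ :=
  e * (2 * (β ^ 2 - κ) * ⟪x, y⟫ - 2 * c * ‖y‖ ^ 2) / (NN β (x, y) + 2 * e * ‖y‖ ^ 2)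

/-- the second derivative -/
noncomputable def vd (κ e β c : ℝ) (x y : F) : F := -κ • x - (c + om2 κ e β c x y) • y

/-- **Second order equation.** -/
lemma VP.ode (h : VP m k p β κ u v) (hm : 1 ≤ m) (hk : 1 ≤ k) (hp : 2 ≤ p) {t : ℝ}
    (ht : t ∈ Ioo 0 (Real.pi / 2)) (hN : 0 < NN β (u t, v t)) :
    HasDerivAt v (vd κ ((p - 2) / 2) β (cc m k t) (u t) (v t)) t := by
  have hs := sc_pos (m := m) (k := k) ht
  have hsd := hasDerivAt_sc hm hk ht
  set e := (p - 2) / 2 with he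
  have he0 : 0 ≤ e := by rw [he]; linarith
  have hg : DifferentiableAt ℝ (fun s => (NN β (u s, v s)) ^ e • v s) t := by
    have h1 : DifferentiableAt ℝ (fun s => (sc m k s)⁻¹ • (sc m k s • ((NN β (u s, v s)) ^ e • v s)))
        t := (hsd.differentiableAt.inv hs.ne').smul (h.hf t ht).differentiableAt
    refine h1.congr_of_eventuallyEq ?_
    filter_upwards [Ioo_mem_nhds ht.1 ht.2] with s hs'
    rw [smul_smul, inv_mul_cancel₀ (sc_pos hs').ne', one_smul]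
  have hdiff : DifferentiableAt ℝ v t :=
    differentiableAt_of_flux β e (by linarith) (h.hu t).differentiableAt h.hv.continuousAt hN hg
  obtain ⟨v', hv'⟩ : ∃ v', HasDerivAt v v' t := ⟨_, hdiff.hasDerivAt⟩
  set N := NN β (u t, v t) with hn
  have hNd := hasDerivAt_NN (b := β) (h.hu t) hv'
  set N' := β ^ 2 * (2 * ⟪u t, v t⟫) + 2 * ⟪v t, v'⟫ with hn'
  have hWd := hsd.smul ((hNd.rpow_const (p := e) (Or.inl hN.ne')).smul hv')
  have huniq := hWd.unique (h.hf t ht)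
  have hp1 : N ^ (e - 1) = N ^ e / N := Real.rpow_sub_one hN.ne' e
  have hpos : 0 < N ^ e := Real.rpow_pos_of_pos hN e
  rw [← hn, hp1] at huniq
  set c := cc m k t with hc
  set S := sc m k t with hS
  have h1 : (S * N ^ e) • (v' + (c + e * N' / N) • v t + κ • u t) = 0 := by
    have e1 : (S * N ^ e) • (v' + (c + e * N' / N) • v t + κ • u t)
        = (S • (N ^ e • v' + (N' * e * (N ^ e / N)) • v t) + (S * c) • N ^ e • v t)
          - (-(κ * S * N ^ e) • u t) := by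
      rw [smul_add, smul_add, smul_add, neg_smul, sub_neg_eq_add, smul_smul, smul_smul, smul_smul,
        smul_smul, smul_smul]
      have e2 : S * N ^ e * (c + e * N' / N) = S * c * N ^ e + S * (N' * e * (N ^ e / N)) := by
        field_simp
      rw [e2, add_smul]
      have e3 : S * N ^ e * κ = κ * S * N ^ e := by ring
      rw [e3]
      abel
    have e4 : (S • (N ^ e • v' + (N' * e * (N ^ e / N)) • v t) + (S * c) • N ^ e • v t)
        = -(κ * S * N ^ e) • u t := huniq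
    rw [e1, e4, sub_self]
  have h2 : v' + (c + e * N' / N) • v t + κ • u t = 0 := by
    rcases smul_eq_zero.mp h1 with h | h
    · exact absurd h (mul_pos hs hpos).ne'
    · exact h
  set w := e * N' / N with hw
  have h3 : v' = -κ • u t - (c + w) • v t := by
    rw [neg_smul]
    have := h2
    rw [add_assoc, add_eq_zero_iff_eq_neg] at this
    rw [this]; abel
  have h4 : ⟪v t, v'⟫ = -κ * ⟪u t, v t⟫ - (c + w) * ‖v t‖ ^ 2 := by
    rw [h3, inner_sub_right, inner_smul_right, inner_smul_right, real_inner_self_eq_norm_sq,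
      real_inner_comm]
  have h5 : w * N = e * N' := by rw [hw]; field_simp
  have hden : 0 < N + 2 * e * ‖v t‖ ^ 2 := by positivity
  have h6 : w = om2 κ e β c (u t) (v t) := by
    unfold om2
    rw [← hn, eq_div_iff hden.ne']
    rw [hn', h4] at h5
    linear_combination h5
  rw [h3, h6] at hv'
  exact hv'

lemma NN_deriv_le {κ e β c C0 : ℝ} (he : 0 ≤ e) (hβ : 1 ≤ β) {x y : F} (hN : 0 < NN β (x, y))
    (hc : -C0 ≤ c) (hC0 : 0 ≤ C0) :
    β ^ 2 * (2 * ⟪x, y⟫) + 2 * ⟪y, vd κ e β c x y⟫ ≤ (|β ^ 2 - κ| + 2 * C0) * NN β (x, y) := by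
  set N := NN β (x, y) with hn
  have hy : ‖y‖ ^ 2 ≤ N := by
    rw [hn]; unfold NN
    have : 0 ≤ β ^ 2 * ‖x‖ ^ 2 := by positivity
    simp only
    linarith
  have hden : 0 < N + 2 * e * ‖y‖ ^ 2 := by positivity
  have e1 : β ^ 2 * (2 * ⟪x, y⟫) + 2 * ⟪y, vd κ e β c x y⟫
      = (2 * (β ^ 2 - κ) * ⟪x, y⟫ - 2 * c * ‖y‖ ^ 2) * (N / (N + 2 * e * ‖y‖ ^ 2)) := by
    unfold vd om2
    rw [inner_sub_right, inner_smul_right, inner_smul_right, real_inner_self_eq_norm_sq,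
      real_inner_comm, ← hn]
    field_simp
    ring
  rw [e1]
  have hxy : |⟪x, y⟫| ≤ N / 2 := by
    have h1 := b_inner_bound (b := β) (x := x) (y := y)
    rw [abs_mul, abs_of_pos (by linarith : (0 : ℝ) < β)] at h1
    have := abs_nonneg ⟪x, y⟫
    rw [← hn] at h1
    nlinarith
  have hnum : 2 * (β ^ 2 - κ) * ⟪x, y⟫ - 2 * c * ‖y‖ ^ 2 ≤ (|β ^ 2 - κ| + 2 * C0) * N := by
    have h1 : 2 * (β ^ 2 - κ) * ⟪x, y⟫ ≤ |β ^ 2 - κ| * N := by
      calc _ ≤ |2 * (β ^ 2 - κ) * ⟪x, y⟫| := le_abs_self _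
        _ = 2 * |β ^ 2 - κ| * |⟪x, y⟫| := by rw [abs_mul, abs_mul, abs_two]
        _ ≤ 2 * |β ^ 2 - κ| * (N / 2) := by gcongr
        _ = _ := by ring
    have h2 : -(2 * c * ‖y‖ ^ 2) ≤ 2 * C0 * N := by
      calc -(2 * c * ‖y‖ ^ 2) = 2 * (-c) * ‖y‖ ^ 2 := by ring
        _ ≤ 2 * C0 * ‖y‖ ^ 2 := by gcongr; linarith
        _ ≤ _ := by gcongr
    linarith
  have hr0 : 0 ≤ N / (N + 2 * e * ‖y‖ ^ 2) := by positivity
  have hr1 : N / (N + 2 * e * ‖y‖ ^ 2) ≤ 1 := by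
    rw [div_le_one hden]
    have : 0 ≤ 2 * e * ‖y‖ ^ 2 := by positivity
    linarith
  have hR : 0 ≤ (|β ^ 2 - κ| + 2 * C0) * N := by positivity
  calc _ ≤ ((|β ^ 2 - κ| + 2 * C0) * N) * (N / (N + 2 * e * ‖y‖ ^ 2)) :=
        mul_le_mul_of_nonneg_right hnum hr0
    _ ≤ ((|β ^ 2 - κ| + 2 * C0) * N) * 1 := mul_le_mul_of_nonneg_left hr1 hR
    _ = _ := mul_one _

/-- lower bound for the coefficient away from the second pole -/
lemma cc_lower {m k : ℕ} (hk : 1 ≤ k) {t b : ℝ} (ht : t ∈ Ioo 0 b)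
    (hb : b < Real.pi / 2) : -((m : ℝ) * Real.tan b) ≤ cc m k t := by
  have ht' : t ∈ Ioo 0 (Real.pi / 2) := ⟨ht.1, by linarith [ht.2]⟩
  have h1 := tan_pos ht'
  have h2 : Real.tan t ≤ Real.tan b :=
    (Real.tan_lt_tan_of_lt_of_lt_pi_div_two (by linarith [ht.1, Real.pi_pos]) hb ht.2).le
  have h3 : 0 ≤ ((k : ℝ) - 1) / Real.tan t := by
    have : (1 : ℝ) ≤ k := by exact_mod_cast hk
    exact div_nonneg (by linarith) h1.le
  unfold cc
  have h4 : ((m : ℝ) - 1) * Real.tan t ≤ m * Real.tan b := by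
    have : (0 : ℝ) ≤ m := Nat.cast_nonneg m
    calc ((m : ℝ) - 1) * Real.tan t ≤ m * Real.tan t := by nlinarith
      _ ≤ _ := by gcongr
  linarith

lemma VP.pos_left (h : VP m k p β κ u v) (hm : 1 ≤ m) (hk : 1 ≤ k) (hp : 2 ≤ p) (hβ : 1 ≤ β)
    {b : ℝ} (hb : b ∈ Ioo 0 (Real.pi / 2)) (hN : 0 < NN β (u b, v b)) {a : ℝ}
    (ha : a ∈ Icc 0 b) : 0 < NN β (u a, v a) := by
  have htb : 0 < Real.tan b := tan_pos hb
  refine BP.pos_left (f := fun t => NN β (u t, v t)) (f' := fun t => β ^ 2 * (2 * ⟪u t, v t⟫)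
    + 2 * ⟪v t, vd κ ((p - 2) / 2) β (cc m k t) (u t) (v t)⟫)
    (C := |β ^ 2 - κ| + 2 * (m * Real.tan b)) ha.2 h.contN.continuousOn (fun t ht hpos => ?_) hN
  have ht' : t ∈ Ioo 0 (Real.pi / 2) := ⟨lt_of_le_of_lt ha.1 ht.1, lt_trans ht.2 hb.2⟩
  refine ⟨hasDerivAt_NN (h.hu t) (h.ode hm hk hp ht' hpos), ?_⟩
  exact NN_deriv_le (by linarith) hβ hpos (cc_lower hk ⟨ht'.1, ht.2⟩ hb.2) (by positivity)

/-- **Nondegeneracy.** -/
lemma VP.pos (h : VP m k p β κ u v) (hm : 1 ≤ m) (hk : 1 ≤ k) (hp : 2 ≤ p) (hβ : 1 ≤ β)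
    {b : ℝ} (hb : b ∈ Ioo 0 (Real.pi / 2)) (hN : 0 < NN β (u b, v b)) {a : ℝ}
    (ha : a ∈ Icc 0 (Real.pi / 2)) : 0 < NN β (u a, v a) := by
  rcases le_total a b with hab | hab
  · exact h.pos_left hm hk hp hβ hb hN ⟨ha.1, hab⟩
  · have h1 := h.refl.pos_left hk hm hp hβ (b := Real.pi / 2 - b) (refl_mem hb)
      (by simpa [NN_neg] using hN) (a := Real.pi / 2 - a) ⟨by linarith [ha.2], by linarith⟩
    simpa [NN_neg] using h1

/-- **Reduction to scalar profiles.** -/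
lemma VP.scalar (h : VP m k p β κ u v) (hm : 1 ≤ m) (hk : 1 ≤ k)
    (hpos : ∀ t ∈ Icc 0 (Real.pi / 2), 0 < NN β (u t, v t)) (hv0 : v 0 = 0) :
    ∃ w : F, ‖w‖ = 1 ∧ (∀ t ∈ Ico 0 (Real.pi / 2), u t = ⟪u t, w⟫ • w ∧ v t = ⟪v t, w⟫ • w) ∧
      0 < ⟪u 0, w⟫ := by
  have hpi : (0 : ℝ) < Real.pi / 2 := by positivity
  have hu0 : u 0 ≠ 0 := by
    intro h0
    have := hpos 0 ⟨le_refl _, hpi.le⟩
    rw [h0, hv0] at this
    unfold NN at this
    simp at this
  have hn0 : 0 < ‖u 0‖ := norm_pos_iff.mpr hu0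
  obtain ⟨w, hw⟩ : ∃ w : F, w = ‖u 0‖⁻¹ • u 0 := ⟨_, rfl⟩
  have hw1 : ‖w‖ = 1 := by
    rw [hw, norm_smul, norm_inv, norm_norm, inv_mul_cancel₀ hn0.ne']
  have huw : ⟪u 0, w⟫ = ‖u 0‖ := by
    rw [hw, real_inner_smul_right, real_inner_self_eq_norm_sq]
    field_simp
  refine ⟨w, hw1, ?_, by rw [huw]; exact hn0⟩
  -- the projection
  set P : F →L[ℝ] F := ContinuousLinearMap.id ℝ F - (innerSL ℝ w).smulRight w with hP
  have hPa : ∀ z, P z = z - ⟪w, z⟫ • w := fun z => by simp [hP]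
  set e := (p - 2) / 2 with he
  obtain ⟨W, hW⟩ : ∃ W : ℝ → ℝ, W = fun t => (NN β (u t, v t)) ^ e := ⟨_, rfl⟩
  have hWc : ContinuousOn W (Icc 0 (Real.pi / 2)) := by
    rw [hW]
    exact h.contN.continuousOn.rpow_const fun t ht => Or.inl (hpos t ht).ne'
  have hWp : ∀ t ∈ Icc 0 (Real.pi / 2), 0 < W t := fun t ht => by
    rw [hW]; exact Real.rpow_pos_of_pos (hpos t ht) _
  obtain ⟨M, hM⟩ := isCompact_Icc.exists_bound_of_continuousOn (hWc.add
    (hWc.inv₀ fun t ht => (hWp t ht).ne'))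
  have hM1 : ∀ t ∈ Icc 0 (Real.pi / 2), W t ≤ M ∧ (W t)⁻¹ ≤ M := by
    intro t ht
    have h1 := hM t ht
    have h2 := hWp t ht
    have h3 : 0 < (W t)⁻¹ := inv_pos.mpr h2
    simp only [Pi.add_apply, Pi.inv_apply] at h1
    rw [Real.norm_of_nonneg (by positivity)] at h1
    constructor <;> linarith
  have hM0 : 0 ≤ M := (hWp 0 ⟨le_refl _, hpi.le⟩).le.trans (hM1 0 ⟨le_refl _, hpi.le⟩).1
  have hPu : ∀ t, HasDerivAt (fun t => P (u t)) (P (v t)) t := fun t =>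
    P.hasFDerivAt.comp_hasDerivAt t (h.hu t)
  have hPy : ∀ t ∈ Ioo 0 (Real.pi / 2), HasDerivAt (fun t => W t • P (v t))
      (-(κ * W t) • P (u t) - cc m k t • (W t • P (v t))) t := by
    intro t ht
    have hs := sc_pos (m := m) (k := k) ht
    have hsd := hasDerivAt_sc hm hk ht
    have h1 : HasDerivAt (fun s => P (sc m k s • ((NN β (u s, v s)) ^ e • v s)))
        (P (-(κ * sc m k t * (NN β (u t, v t)) ^ e) • u t)) t :=
      P.hasFDerivAt.comp_hasDerivAt t (h.hf t ht)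
    have h2 := (hsd.inv hs.ne').smul h1
    have h3 : (fun s => W s • P (v s)) =ᶠ[𝓝 t] fun s => (sc m k s)⁻¹ •
        P (sc m k s • ((NN β (u s, v s)) ^ e • v s)) := by
      filter_upwards [Ioo_mem_nhds ht.1 ht.2] with s hs'
      rw [map_smul, map_smul, smul_smul, inv_mul_cancel₀ (sc_pos hs').ne', one_smul, hW]
    refine (h2.congr_of_eventuallyEq h3).congr_deriv ?_
    simp only [map_smul, smul_smul, hW, Pi.inv_apply]
    rw [sub_eq_add_neg, ← neg_smul]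
    congr 2
    · field_simp
    · field_simp
  have hQ0 : ∀ b ∈ Ioo 0 (Real.pi / 2), ‖P (u b)‖ ^ 2 + ‖W b • P (v b)‖ ^ 2 = 0 := by
    intro b hb
    by_contra hne
    have hposb : 0 < ‖P (u b)‖ ^ 2 + ‖W b • P (v b)‖ ^ 2 :=
      lt_of_le_of_ne (by positivity) (Ne.symm hne)
    have hbI : Icc 0 b ⊆ Icc 0 (Real.pi / 2) := Icc_subset_Icc_right hb.2.le
    have hcontQ : ContinuousOn (fun t => ‖P (u t)‖ ^ 2 + ‖W t • P (v t)‖ ^ 2) (Icc 0 b) := by
      have c1 : Continuous fun t => P (u t) := P.continuous.comp h.contU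
      have c2 : Continuous fun t => P (v t) := P.continuous.comp h.hv
      exact (c1.norm.pow 2).continuousOn.add ((((hWc.mono hbI).smul c2.continuousOn).norm).pow 2)
    have htb : 0 < Real.tan b := tan_pos hb
    have := BP.pos_left (f := fun t => ‖P (u t)‖ ^ 2 + ‖W t • P (v t)‖ ^ 2)
      (f' := fun t => 2 * ⟪P (u t), P (v t)⟫
        + 2 * ⟪W t • P (v t), -(κ * W t) • P (u t) - cc m k t • (W t • P (v t))⟫)
      (C := M + |κ| * M + 2 * (m * Real.tan b)) hb.1.le hcontQ (fun t ht hpt => ?_) hposb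
    · have e1 : P (u 0) = 0 := by
        rw [hPa, real_inner_comm, huw, hw, smul_smul, mul_inv_cancel₀ hn0.ne', one_smul, sub_self]
      have e2 : P (v 0) = 0 := by rw [hv0, map_zero]
      simp [e1, e2] at this
    · have ht' : t ∈ Ioo 0 (Real.pi / 2) := ⟨ht.1, lt_trans ht.2 hb.2⟩
      have htI : t ∈ Icc 0 (Real.pi / 2) := ⟨ht'.1.le, ht'.2.le⟩
      refine ⟨(hPu t).norm_sq.add (hPy t ht').norm_sq, ?_⟩
      obtain ⟨hMW, hMi⟩ := hM1 t htI
      have hW0 := hWp t htI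
      obtain ⟨y, hy⟩ : ∃ y, y = W t • P (v t) := ⟨_, rfl⟩
      have hPv : P (v t) = (W t)⁻¹ • y := by
        rw [hy, smul_smul, inv_mul_cancel₀ hW0.ne', one_smul]
      rw [← hy, hPv]
      set x := P (u t)
      have hc := cc_lower (m := m) hk ht hb.2
      have e1 : 2 * ⟪x, (W t)⁻¹ • y⟫ + 2 * ⟪y, -(κ * W t) • x - cc m k t • y⟫
          = (2 * ⟪x, y⟫) * (W t)⁻¹ - κ * W t * (2 * ⟪x, y⟫) - 2 * cc m k t * ‖y‖ ^ 2 := by
        rw [inner_sub_right, inner_smul_right, inner_smul_right, inner_smul_right,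
          real_inner_self_eq_norm_sq, real_inner_comm x y]
        ring
      rw [e1]
      have hxy : |2 * ⟪x, y⟫| ≤ ‖x‖ ^ 2 + ‖y‖ ^ 2 := by
        have := abs_real_inner_le_norm x y
        rw [abs_mul, abs_two]
        nlinarith [sq_nonneg (‖x‖ - ‖y‖)]
      have hyle : ‖y‖ ^ 2 ≤ ‖x‖ ^ 2 + ‖y‖ ^ 2 := by linarith [sq_nonneg ‖x‖]
      have i1 : (2 * ⟪x, y⟫) * (W t)⁻¹ ≤ M * (‖x‖ ^ 2 + ‖y‖ ^ 2) := by
        calc _ ≤ |(2 * ⟪x, y⟫) * (W t)⁻¹| := le_abs_self _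
          _ = |2 * ⟪x, y⟫| * (W t)⁻¹ := by rw [abs_mul, abs_of_pos (inv_pos.mpr hW0)]
          _ ≤ (‖x‖ ^ 2 + ‖y‖ ^ 2) * M := by
              have := (inv_pos.mpr hW0).le
              gcongr
          _ = _ := by ring
      have i2 : -(κ * W t * (2 * ⟪x, y⟫)) ≤ |κ| * M * (‖x‖ ^ 2 + ‖y‖ ^ 2) := by
        calc _ ≤ |κ * W t * (2 * ⟪x, y⟫)| := neg_le_abs _
          _ = |κ| * W t * |2 * ⟪x, y⟫| := by rw [abs_mul, abs_mul, abs_of_pos hW0]
          _ ≤ _ := by gcongr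
      have i3 : -(2 * cc m k t * ‖y‖ ^ 2) ≤ 2 * (m * Real.tan b) * (‖x‖ ^ 2 + ‖y‖ ^ 2) := by
        calc -(2 * cc m k t * ‖y‖ ^ 2) = 2 * (-cc m k t) * ‖y‖ ^ 2 := by ring
          _ ≤ 2 * (m * Real.tan b) * ‖y‖ ^ 2 := by gcongr; linarith
          _ ≤ _ := by gcongr
      linarith
  have hcase : ∀ b ∈ Ioo 0 (Real.pi / 2), P (u b) = 0 ∧ P (v b) = 0 := by
    intro b hb
    have h1 := hQ0 b hb
    have h2 : ‖P (u b)‖ ^ 2 = 0 := by
      have := sq_nonneg ‖P (u b)‖; have := sq_nonneg ‖W b • P (v b)‖; linarith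
    have h3 : ‖W b • P (v b)‖ ^ 2 = 0 := by
      have := sq_nonneg ‖P (u b)‖; have := sq_nonneg ‖W b • P (v b)‖; linarith
    refine ⟨norm_eq_zero.mp (pow_eq_zero_iff two_ne_zero |>.mp h2), ?_⟩
    have h4 := norm_eq_zero.mp (pow_eq_zero_iff two_ne_zero |>.mp h3)
    rcases smul_eq_zero.mp h4 with h5 | h5
    · exact absurd h5 (hWp b ⟨hb.1.le, hb.2.le⟩).ne'
    · exact h5
  intro t ht
  rcases eq_or_lt_of_le ht.1 with h0 | h0
  · rw [← h0]
    refine ⟨?_, by rw [hv0]; simp⟩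
    rw [huw, hw, smul_smul, mul_inv_cancel₀ hn0.ne', one_smul]
  · obtain ⟨h1, h2⟩ := hcase t ⟨h0, ht.2⟩
    rw [hPa, sub_eq_zero] at h1 h2
    rw [real_inner_comm] at h1 h2
    exact ⟨h1, h2⟩

end

end Pool.Agent.H76.BP
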