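import Pool.Agent.H76.BP.GeoZ

/-!
# From the weak formulation to the profile equation, axially symmetric case
-/

set_option autoImplicit false
open MeasureTheory Metric Filter Topology Set
open scoped ContDiff RealInnerProductSpace

namespace Pool.Agent.H76.BP

open Pool.Agent.H76.PL

section
variable {m k n : ℕ} {p β : ℝ} {H : E 2 → E n}

lemma psubT {τ : ℝ} (hτ : τ ≤ Real.pi) {ψ : ℝ → ℝ} (hψs : tsupport ψ ⊆ Ioo 0 τ) :
    tsupport ψ ⊆ Ioo (-Real.pi) Real.pi := hψs.trans fun t ht =>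
  ⟨by linarith [ht.1, Real.pi_pos], by linarith [ht.2]⟩

lemma weak_polarT {τ : ℝ} (hτ : τ ≤ Real.pi) (hp1 : 1 < p) (hβ : β ≠ 0) (hc : ContDiff ℝ 1 H) (hh : Homog β H)
    (hweak : ∀ {χ ψ : ℝ → ℝ} (w : E n), ContDiff ℝ ∞ χ → ContDiff ℝ ∞ ψ →
      tsupport χ ⊆ Ioo 1 2 → HasCompactSupport ψ → tsupport ψ ⊆ Ioo 0 τ →
      ∫ z : E 2, z 0 ^ (m - 1) * z 1 ^ (k - 1) * ⟪A p (grad H z), grad (tf χ ψ w) z⟫ = 0)
    {χ ψ : ℝ → ℝ}
    (w : E n) (hχ : ContDiff ℝ ∞ χ) (hψ : ContDiff ℝ ∞ ψ)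
    (hχs : tsupport χ ⊆ Ioo 1 2) (hψc : HasCompactSupport ψ)
    (hψs : tsupport ψ ⊆ Ioo 0 τ) :
    (∫ r in (1 : ℝ)..2, r ^ ((β - 1) * (p - 1) + ((m - 1 + (k - 1) : ℕ) : ℝ) + 1) * deriv χ r)
        * (∫ t in (-Real.pi)..Real.pi, β * ⟪sc m k t • (WW p β H t • uu H t), w⟫ * ψ t)
      + (∫ r in (1 : ℝ)..2, r ^ ((β - 1) * (p - 1) + ((m - 1 + (k - 1) : ℕ) : ℝ)) * χ r)
        * (∫ t in (-Real.pi)..Real.pi, ⟪sc m k t • (WW p β H t • vv H t), w⟫ * deriv ψ t) = 0 := by
  have htf := tf_contDiff w hχ hψ hχs hψc (psubT hτ hψs)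
  have h0 := hweak w hχ hψ hχs hψc hψs
  rw [integral_polar] at h0
  have hpi : -Real.pi ≤ Real.pi := by linarith [Real.pi_pos]
  -- restrict to `1 ≤ r ≤ 2`
  have hz : ∀ r : ℝ, r ∉ Ioc 1 2 → χ r = 0 ∧ deriv χ r = 0 := by
    intro r hr
    have h1 : r ∉ tsupport χ := fun hm => hr ⟨(hχs hm).1, (hχs hm).2.le⟩
    refine ⟨image_eq_zero_of_notMem_tsupport h1, ?_⟩
    have h2 : r ∉ tsupport (deriv χ) := fun hm => h1 (tsupport_deriv_subset hm)
    exact image_eq_zero_of_notMem_tsupport h2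
  set s := (β - 1) * (p - 1) + ((m - 1 + (k - 1) : ℕ) : ℝ) with hs
  have cχ := hχ.continuous
  have cχ' : Continuous (deriv χ) := hχ.continuous_deriv (by simp)
  have cψ := hψ.continuous
  have cψ' : Continuous (deriv ψ) := hψ.continuous_deriv (by simp)
  have cWu : Continuous fun t => ⟪sc m k t • (WW p β H t • uu H t), w⟫ :=
    (continuous_sc.smul (continuous_Wu hp1 hβ hc)).inner continuous_const
  have cWv : Continuous fun t => ⟪sc m k t • (WW p β H t • vv H t), w⟫ :=
    (continuous_sc.smul (continuous_Wv hp1 hc)).inner continuous_const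
  have h1 : ∫ q in Ioi (0 : ℝ) ×ˢ Ioo (-Real.pi) Real.pi,
      q.1 • ((q.1 • er q.2) 0 ^ (m - 1) * (q.1 • er q.2) 1 ^ (k - 1)
        * ⟪A p (grad H (q.1 • er q.2)), grad (tf χ ψ w) (q.1 • er q.2)⟫)
      = ∫ q in Ioc (1 : ℝ) 2 ×ˢ Ioo (-Real.pi) Real.pi,
        ((q.1 ^ (s + 1) * deriv χ q.1)
          * (β * ⟪sc m k q.2 • (WW p β H q.2 • uu H q.2), w⟫ * ψ q.2)
        + (q.1 ^ s * χ q.1) * (⟪sc m k q.2 • (WW p β H q.2 • vv H q.2), w⟫ * deriv ψ q.2)) := by
    have e1 : ∫ q in Ioi (0 : ℝ) ×ˢ Ioo (-Real.pi) Real.pi,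
        q.1 • ((q.1 • er q.2) 0 ^ (m - 1) * (q.1 • er q.2) 1 ^ (k - 1)
          * ⟪A p (grad H (q.1 • er q.2)), grad (tf χ ψ w) (q.1 • er q.2)⟫)
        = ∫ q in Ioi (0 : ℝ) ×ˢ Ioo (-Real.pi) Real.pi,
        ((q.1 ^ (s + 1) * deriv χ q.1)
          * (β * ⟪sc m k q.2 • (WW p β H q.2 • uu H q.2), w⟫ * ψ q.2)
        + (q.1 ^ s * χ q.1) * (⟪sc m k q.2 • (WW p β H q.2 • vv H q.2), w⟫ * deriv ψ q.2)) := by
      apply setIntegral_congr_fun (measurableSet_Ioi.prod measurableSet_Ioo)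
      intro q hq
      have hr : 0 < q.1 := hq.1
      have e := integrand_polar (p := p) hc hh w hχ hψ htf hq.1 hq.2
      simp only [smul_eq_mul] at e ⊢
      have e2 : q.1 * ((q.1 • er q.2) 0 ^ (m - 1) * (q.1 • er q.2) 1 ^ (k - 1)
          * ⟪A p (grad H (q.1 • er q.2)), grad (tf χ ψ w) (q.1 • er q.2)⟫)
          = (q.1 ^ (m - 1 + (k - 1)) * sc m k q.2)
            * (q.1 * ⟪A p (grad H (q.1 • er q.2)), grad (tf χ ψ w) (q.1 • er q.2)⟫) := by
        simp only [PiLp.smul_apply, er_zero, er_one, smul_eq_mul]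
        unfold sc
        rw [mul_pow, mul_pow, pow_add]
        ring
      rw [e2, e, hs]
      simp only [real_inner_smul_left]
      have e3 : q.1 ^ ((β - 1) * (p - 1) + ((m - 1 + (k - 1) : ℕ) : ℝ))
          = q.1 ^ ((β - 1) * (p - 1)) * q.1 ^ (m - 1 + (k - 1)) := by
        rw [Real.rpow_add hr, Real.rpow_natCast]
      have e4 : q.1 ^ ((β - 1) * (p - 1) + ((m - 1 + (k - 1) : ℕ) : ℝ) + 1)
          = q.1 ^ ((β - 1) * (p - 1) + 1) * q.1 ^ (m - 1 + (k - 1)) := by
        have : (β - 1) * (p - 1) + ((m - 1 + (k - 1) : ℕ) : ℝ) + 1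
          = (β - 1) * (p - 1) + 1 + ((m - 1 + (k - 1) : ℕ) : ℝ) := by ring
        rw [this, Real.rpow_add hr, Real.rpow_natCast]
      rw [e3, e4]
      ring
    rw [e1]
    apply setIntegral_eq_of_subset_of_forall_sdiff_eq_zero
      (measurableSet_Ioi.prod measurableSet_Ioo)
    · exact prod_mono (fun r hr => lt_trans one_pos hr.1) (subset_refl _)
    · intro q hq
      have : q.1 ∉ Ioc (1 : ℝ) 2 := fun hm => hq.2 ⟨hm, hq.1.2⟩
      obtain ⟨h1, h2⟩ := hz q.1 this
      rw [h1, h2]; ring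
  rw [h1] at h0
  have hrc : ∀ a : ℝ, ContinuousOn (fun r : ℝ => r ^ a) (Icc 1 2) := fun a =>
    continuousOn_id.rpow_const fun r hr => Or.inl (by have := hr.1; simp only [id]; linarith)
  have i1 : IntegrableOn (fun r : ℝ => r ^ (s + 1) * deriv χ r) (Ioc 1 2) :=
    (((hrc _).mul cχ'.continuousOn).integrableOn_compact isCompact_Icc).mono_set Ioc_subset_Icc_self
  have i2 : IntegrableOn (fun r : ℝ => r ^ s * χ r) (Ioc 1 2) :=
    (((hrc _).mul cχ.continuousOn).integrableOn_compact isCompact_Icc).mono_set Ioc_subset_Icc_self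
  have i3 : IntegrableOn (fun t : ℝ => β * ⟪sc m k t • (WW p β H t • uu H t), w⟫ * ψ t)
      (Ioo (-Real.pi) Real.pi) :=
    ((((continuous_const.mul cWu).mul cψ).continuousOn).integrableOn_compact
      (isCompact_Icc (a := -Real.pi) (b := Real.pi))).mono_set Ioo_subset_Icc_self
  have i4 : IntegrableOn (fun t : ℝ => ⟪sc m k t • (WW p β H t • vv H t), w⟫ * deriv ψ t)
      (Ioo (-Real.pi) Real.pi) :=
    (((cWv.mul cψ').continuousOn).integrableOn_compact
      (isCompact_Icc (a := -Real.pi) (b := Real.pi))).mono_set Ioo_subset_Icc_self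
  have j1 : Integrable (fun q : ℝ × ℝ => (q.1 ^ (s + 1) * deriv χ q.1)
      * (β * ⟪sc m k q.2 • (WW p β H q.2 • uu H q.2), w⟫ * ψ q.2))
      (volume.restrict (Ioc (1 : ℝ) 2 ×ˢ Ioo (-Real.pi) Real.pi)) := by
    rw [Measure.volume_eq_prod, ← Measure.prod_restrict]
    exact Integrable.mul_prod (f := fun r : ℝ => r ^ (s + 1) * deriv χ r)
      (g := fun t : ℝ => β * ⟪sc m k t • (WW p β H t • uu H t), w⟫ * ψ t) i1 i3
  have j2 : Integrable (fun q : ℝ × ℝ => (q.1 ^ s * χ q.1)
      * (⟪sc m k q.2 • (WW p β H q.2 • vv H q.2), w⟫ * deriv ψ q.2))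
      (volume.restrict (Ioc (1 : ℝ) 2 ×ˢ Ioo (-Real.pi) Real.pi)) := by
    rw [Measure.volume_eq_prod, ← Measure.prod_restrict]
    exact Integrable.mul_prod (f := fun r : ℝ => r ^ s * χ r)
      (g := fun t : ℝ => ⟪sc m k t • (WW p β H t • vv H t), w⟫ * deriv ψ t) i2 i4
  rw [integral_add j1 j2] at h0
  have k1 := setIntegral_prod_mul (μ := (volume : Measure ℝ)) (ν := (volume : Measure ℝ))
    (fun r : ℝ => r ^ (s + 1) * deriv χ r)
    (fun t : ℝ => β * ⟪sc m k t • (WW p β H t • uu H t), w⟫ * ψ t) (Ioc (1 : ℝ) 2)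
      (Ioo (-Real.pi) Real.pi)
  have k2 := setIntegral_prod_mul (μ := (volume : Measure ℝ)) (ν := (volume : Measure ℝ))
    (fun r : ℝ => r ^ s * χ r)
    (fun t : ℝ => ⟪sc m k t • (WW p β H t • vv H t), w⟫ * deriv ψ t) (Ioc (1 : ℝ) 2)
      (Ioo (-Real.pi) Real.pi)
  rw [← Measure.volume_eq_prod] at k1 k2
  rw [k1, k2] at h0
  rw [intervalIntegral.integral_of_le (by norm_num : (1 : ℝ) ≤ 2),
    intervalIntegral.integral_of_le (by norm_num : (1 : ℝ) ≤ 2),
    intervalIntegral.integral_of_le hpi, intervalIntegral.integral_of_le hpi,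
    integral_Ioc_eq_integral_Ioo (x := -Real.pi), integral_Ioc_eq_integral_Ioo (x := -Real.pi)]
  exact h0

/-- First order form of the profile equation, tested with `w`. -/
lemma flux_auxT {τ : ℝ} (hτ0 : 0 < τ) (hτ : τ ≤ Real.pi) (hp1 : 1 < p) (hβ : β ≠ 0) (hc : ContDiff ℝ 1 H) (hh : Homog β H)
    (hweak : ∀ {χ ψ : ℝ → ℝ} (w : E n), ContDiff ℝ ∞ χ → ContDiff ℝ ∞ ψ →
      tsupport χ ⊆ Ioo 1 2 → HasCompactSupport ψ → tsupport ψ ⊆ Ioo 0 τ →
      ∫ z : E 2, z 0 ^ (m - 1) * z 1 ^ (k - 1) * ⟪A p (grad H z), grad (tf χ ψ w) z⟫ = 0)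
    (w : E n) {t : ℝ} (ht : t ∈ Ioo 0 τ) :
    HasDerivAt (fun s => ⟪sc m k s • (WW p β H s • vv H s), w⟫)
      (-((((β - 1) * (p - 1) + ((m - 1 + (k - 1) : ℕ) : ℝ) + 1) * β)
        * ⟪sc m k t • (WW p β H t • uu H t), w⟫)) t := by
  have hpi' : -Real.pi ≤ Real.pi := by linarith [Real.pi_pos]
  have cWu : Continuous fun t => ⟪sc m k t • (WW p β H t • uu H t), w⟫ :=
    (continuous_sc.smul (continuous_Wu hp1 hβ hc)).inner continuous_const
  have cWv : Continuous fun t => ⟪sc m k t • (WW p β H t • vv H t), w⟫ :=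
    (continuous_sc.smul (continuous_Wv hp1 hc)).inner continuous_const
  set s := (β - 1) * (p - 1) + ((m - 1 + (k - 1) : ℕ) : ℝ) with hs
  set κ := (s + 1) * β with hκ
  obtain ⟨K, hK⟩ : ∃ K : ℝ → ℝ, K = fun t => ∫ x in (0 : ℝ)..t,
      κ * ⟪sc m k x • (WW p β H x • uu H x), w⟫ := ⟨_, rfl⟩
  have hKd : ∀ t, HasDerivAt K (κ * ⟪sc m k t • (WW p β H t • uu H t), w⟫) t := fun t => by
    rw [hK]
    exact intervalIntegral.integral_hasDerivAt_right
      ((continuous_const.mul cWu).intervalIntegrable _ _)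
      ((continuous_const.mul cWu).stronglyMeasurableAtFilter _ _)
      (continuous_const.mul cWu).continuousAt
  have hKc : Continuous K := continuous_iff_continuousAt.mpr fun t => (hKd t).continuousAt
  obtain ⟨χ, hχ, hχc, hχs, hχ0, hχm, -⟩ := exists_bump (c := 1) (d := 2) (by norm_num)
  have cχ := hχ.continuous
  have cχ' : Continuous (deriv χ) := hχ.continuous_deriv (by simp)
  -- integration by parts in `r`
  have hχ1 : χ 1 = 0 := image_eq_zero_of_notMem_tsupport fun hm => by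
    have := (hχs hm).1; linarith
  have hχ2 : χ 2 = 0 := image_eq_zero_of_notMem_tsupport fun hm => by
    have := (hχs hm).2; linarith
  have hparts : ∫ r in (1 : ℝ)..2, r ^ (s + 1) * deriv χ r
      = -((s + 1) * ∫ r in (1 : ℝ)..2, r ^ s * χ r) := by
    have h1 : ∀ r ∈ uIcc (1 : ℝ) 2, HasDerivAt (fun r : ℝ => r ^ (s + 1)) ((s + 1) * r ^ s) r := by
      intro r hr
      rw [uIcc_of_le (by norm_num)] at hr
      have := Real.hasDerivAt_rpow_const (x := r) (p := s + 1) (Or.inl (by linarith [hr.1]))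
      simpa using this
    have h2 : ∀ r ∈ uIcc (1 : ℝ) 2, HasDerivAt χ (deriv χ r) r := fun r _ =>
      (hχ.differentiable (by simp) r).hasDerivAt
    have c1 : IntervalIntegrable (fun r : ℝ => (s + 1) * r ^ s) volume 1 2 := by
      apply ContinuousOn.intervalIntegrable
      rw [uIcc_of_le (by norm_num)]
      exact continuousOn_const.mul (continuousOn_id.rpow_const fun r hr =>
        Or.inl (by have := hr.1; simp only [id]; linarith))
    have := intervalIntegral.integral_mul_deriv_eq_deriv_mul h1 h2 c1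
      (cχ'.intervalIntegrable _ _)
    rw [this, hχ1, hχ2, mul_zero, mul_zero, sub_zero, zero_sub]
    congr 1
    rw [← intervalIntegral.integral_const_mul]
    apply intervalIntegral.integral_congr
    intro r _
    simp only
    ring
  have hpos : 0 < ∫ r in (1 : ℝ)..2, r ^ s * χ r := by
    apply intervalIntegral.integral_pos (by norm_num)
    · exact (continuousOn_id.rpow_const fun r hr =>
        Or.inl (by have := hr.1; simp only [id]; linarith)).mul cχ.continuousOn
    · intro r hr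
      exact mul_nonneg (Real.rpow_nonneg (by linarith [hr.1]) _) (hχ0 r)
    · exact ⟨(1 + 2) / 2, by norm_num, mul_pos (Real.rpow_pos_of_pos (by norm_num) _) hχm⟩
  have hdbr := dbr (F := fun t => ⟪sc m k t • (WW p β H t • vv H t), w⟫ + K t) (cWv.add hKc) hτ0 ?_
  · obtain ⟨C, hC⟩ := hdbr
    have h1 : (fun s => ⟪sc m k s • (WW p β H s • vv H s), w⟫) =ᶠ[𝓝 t] fun s => C - K s := by
      filter_upwards [Ioo_mem_nhds ht.1 ht.2] with s hs
      have := hC s hs
      linarith
    have h2 : HasDerivAt (fun s => C - K s) (-(κ * ⟪sc m k t • (WW p β H t • uu H t), w⟫)) t := by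
      have := (hKd t).const_sub C
      exact this
    exact h2.congr_of_eventuallyEq h1
  · intro ψ hψ hψc hψs
    have h0 := weak_polarT hτ hp1 hβ hc hh hweak w hχ hψ hχs hψc hψs
    rw [← hs, hparts] at h0
    have cψ := hψ.continuous
    have cψ' : Continuous (deriv ψ) := hψ.continuous_deriv (by simp)
    have hψ1 : ψ (-Real.pi) = 0 := image_eq_zero_of_notMem_tsupport fun hm => by
      have := (hψs hm).1; linarith [Real.pi_pos]
    have hψ2 : ψ Real.pi = 0 := image_eq_zero_of_notMem_tsupport fun hm => by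
      have := (hψs hm).2; linarith [Real.pi_pos]
    have e1 : ∫ t in (-Real.pi)..Real.pi, K t * deriv ψ t
        = -∫ t in (-Real.pi)..Real.pi, κ * ⟪sc m k t • (WW p β H t • uu H t), w⟫ * ψ t := by
      rw [intervalIntegral.integral_mul_deriv_eq_deriv_mul (fun t _ => hKd t)
        (fun t _ => (hψ.differentiable (by simp) t).hasDerivAt)
        ((continuous_const.mul cWu).intervalIntegrable _ _) (cψ'.intervalIntegrable _ _),
        hψ1, hψ2, mul_zero, mul_zero, sub_zero, zero_sub]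
    have e2 : ∫ t in (-Real.pi)..Real.pi, κ * ⟪sc m k t • (WW p β H t • uu H t), w⟫ * ψ t
        = (s + 1) * ∫ t in (-Real.pi)..Real.pi,
          β * ⟪sc m k t • (WW p β H t • uu H t), w⟫ * ψ t := by
      rw [← intervalIntegral.integral_const_mul]
      apply intervalIntegral.integral_congr
      intro r _
      simp only [hκ]
      ring
    have e3 : ∫ t in (-Real.pi)..Real.pi,
          (⟪sc m k t • (WW p β H t • vv H t), w⟫ + K t) * deriv ψ t
        = (∫ t in (-Real.pi)..Real.pi, ⟪sc m k t • (WW p β H t • vv H t), w⟫ * deriv ψ t)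
          + ∫ t in (-Real.pi)..Real.pi, K t * deriv ψ t := by
      have ia : IntervalIntegrable (fun t => ⟪sc m k t • (WW p β H t • vv H t), w⟫ * deriv ψ t)
        volume (-Real.pi) Real.pi := (cWv.mul cψ').intervalIntegrable _ _
      have ib : IntervalIntegrable (fun t => K t * deriv ψ t) volume
        (-Real.pi) Real.pi := (hKc.mul cψ').intervalIntegrable _ _
      rw [← intervalIntegral.integral_add ia ib]
      apply intervalIntegral.integral_congr
      intro r _
      simp only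
      ring
    have e4 : ∫ t, (⟪sc m k t • (WW p β H t • vv H t), w⟫ + K t) * deriv ψ t
        = ∫ t in (-Real.pi)..Real.pi,
          (⟪sc m k t • (WW p β H t • vv H t), w⟫ + K t) * deriv ψ t := by
      rw [intervalIntegral.integral_of_le hpi']
      symm
      apply setIntegral_eq_integral_of_forall_compl_eq_zero
      intro t ht
      have h1 : t ∉ tsupport ψ := fun hm => ht
        ⟨by linarith [(hψs hm).1, Real.pi_pos], by linarith [(hψs hm).2, Real.pi_pos]⟩
      have h2 : t ∉ tsupport (deriv ψ) := fun hm => h1 (tsupport_deriv_subset hm)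
      rw [image_eq_zero_of_notMem_tsupport h2, mul_zero]
    rw [e4, e3, e1, e2]
    have h5 : (∫ r in (1 : ℝ)..2, r ^ s * χ r) *
        ((∫ t in (-Real.pi)..Real.pi, ⟪sc m k t • (WW p β H t • vv H t), w⟫ * deriv ψ t)
          - (s + 1) * ∫ t in (-Real.pi)..Real.pi,
            β * ⟪sc m k t • (WW p β H t • uu H t), w⟫ * ψ t) = 0 := by
      linear_combination h0
    rcases mul_eq_zero.mp h5 with h6 | h6
    · exact absurd h6 hpos.ne'
    · linarith

/-- First order form of the profile equation. -/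
theorem flux_T {τ : ℝ} (hτ0 : 0 < τ) (hτ : τ ≤ Real.pi) (hp1 : 1 < p) (hβ : β ≠ 0) (hc : ContDiff ℝ 1 H) (hh : Homog β H)
    (hweak : ∀ {χ ψ : ℝ → ℝ} (w : E n), ContDiff ℝ ∞ χ → ContDiff ℝ ∞ ψ →
      tsupport χ ⊆ Ioo 1 2 → HasCompactSupport ψ → tsupport ψ ⊆ Ioo 0 τ →
      ∫ z : E 2, z 0 ^ (m - 1) * z 1 ^ (k - 1) * ⟪A p (grad H z), grad (tf χ ψ w) z⟫ = 0)
    {t : ℝ} (ht : t ∈ Ioo 0 τ) :
    HasDerivAt (fun s => sc m k s • ((NN β (uu H s, vv H s)) ^ ((p - 2) / 2) • vv H s))
      (-((((β - 1) * (p - 1) + ((m - 1 + (k - 1) : ℕ) : ℝ) + 1) * β) * sc m k t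
        * (NN β (uu H t, vv H t)) ^ ((p - 2) / 2)) • uu H t) t := by
  rw [hasDerivAt_iff_hasFDerivAt, ← hasFDerivWithinAt_univ, hasFDerivWithinAt_euclidean]
  intro i
  rw [hasFDerivWithinAt_univ]
  have h1 := flux_auxT hτ0 hτ hp1 hβ hc hh hweak (EuclideanSpace.single i (1 : ℝ)) ht
  rw [hasDerivAt_iff_hasFDerivAt] at h1
  have e1 : (fun s => ⟪sc m k s • (WW p β H s • vv H s), EuclideanSpace.single i (1 : ℝ)⟫)
      = fun s => (sc m k s • ((NN β (uu H s, vv H s)) ^ ((p - 2) / 2) • vv H s)) i := by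
    ext s
    simp [WW, EuclideanSpace.inner_single_right]
  rw [e1] at h1
  refine h1.congr_fderiv ?_
  ext
  simp [WW, EuclideanSpace.inner_single_right]
  ring

end

section
variable {k n : ℕ}

/-- invariance under rotations about the first axis -/
def InvZ {k n : ℕ} (h : E (1 + k) → E n) : Prop :=
  ∀ x y : E (1 + k), fs x = fs y → ‖sn x‖ = ‖sn y‖ → h x = h y

lemma hz_eq {h : E (1 + k) → E n} (hi : InvZ h) (j : Fin k) :
    h = fun x => HH 0 j h (pz x) := by
  ext1 x
  apply hi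
  · rw [fs_emb, pz_zero]
    ext l
    have hl : l = 0 := Subsingleton.elim _ _
    subst hl
    simp
  · rw [norm_sn_emb, pz_one, abs_norm]

/-- the support of the test functions -/
lemma tsupport_tfZ {χ ψ : ℝ → ℝ} (w : E n)
    (hχs : tsupport χ ⊆ Ioo 1 2) (hψc : HasCompactSupport ψ)
    (hψs : tsupport ψ ⊆ Ioo 0 Real.pi) :
    IsCompact (tsupport (tf χ ψ w)) ∧ ∀ z ∈ tsupport (tf χ ψ w), 0 < z 1 := by
  set C : Set (E 2) := (fun q : ℝ × ℝ => q.1 • er q.2) '' (Icc 1 2 ×ˢ tsupport ψ) with hC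
  have hCc : IsCompact C := by
    apply (isCompact_Icc.prod hψc.isCompact).image
    have := continuous_er
    fun_prop
  have hsub : Function.support (tf χ ψ w) ⊆ C := by
    intro z hz
    have h1 : χ ‖z‖ ≠ 0 := by
      intro h; apply hz; simp [tf, h]
    have h2 : ψ (Complex.arg ⟨z 0, z 1⟩) ≠ 0 := by
      intro h; apply hz; simp [tf, h]
    have h3 := hχs (subset_tsupport _ h1)
    exact ⟨(‖z‖, Complex.arg ⟨z 0, z 1⟩), ⟨⟨h3.1.le, h3.2.le⟩, subset_tsupport _ h2⟩,
      (polar_rep z).symm⟩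
  have hts : tsupport (tf χ ψ w) ⊆ C := closure_minimal hsub hCc.isClosed
  refine ⟨hCc.of_isClosed_subset (isClosed_tsupport _) hts, fun z hz => ?_⟩
  obtain ⟨⟨r, t⟩, ⟨hr, ht⟩, rfl⟩ := hts hz
  have ht' := hψs ht
  have hr0 : 0 < r := by linarith [hr.1]
  simp only [PiLp.smul_apply, er_one, smul_eq_mul]
  exact mul_pos hr0 (Real.sin_pos_of_pos_of_lt_pi ht'.1 ht'.2)

lemma contDiffAt_pz {x : E (1 + k)} (h2 : sn x ≠ 0) :
    ContDiffAt ℝ ∞ (pz : E (1 + k) → E 2) x := by
  have e1 : ContDiffAt ℝ ∞ (fun y : E (1 + k) => fs y 0) x := by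
    have h := ((EuclideanSpace.proj (0 : Fin 1) : E 1 →L[ℝ] ℝ).comp
      (fsL (m := 1) (k := k))).contDiff (n := ∞)
    have e : (fun y : E (1 + k) => fs y 0) = fun y => ((EuclideanSpace.proj (0 : Fin 1) :
        E 1 →L[ℝ] ℝ).comp (fsL (m := 1) (k := k))) y := by
      ext1 y
      simp only [ContinuousLinearMap.comp_apply, fsL_apply]
      rfl
    rw [e]
    exact h.contDiffAt
  have e2 : ContDiffAt ℝ ∞ (fun y : E (1 + k) => ‖sn y‖) x := by
    have := (contDiffAt_norm (n := ∞) ℝ h2)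
    rw [← snL_apply] at this
    have := this.comp x (snL (m := 1) (k := k)).contDiff.contDiffAt
    simpa only [Function.comp_def, snL_apply] using this
  exact (e1.smul contDiffAt_const).add (e2.smul contDiffAt_const)

lemma ne_of_pz {x : E (1 + k)} (h1 : 0 < pz x 1) : sn x ≠ 0 := by
  rw [pz_one] at h1
  exact norm_pos_iff.mp h1

/-- the lifted test function -/
lemma TFz_contDiff {χ ψ : ℝ → ℝ} (w : E n) (hχ : ContDiff ℝ ∞ χ) (hψ : ContDiff ℝ ∞ ψ)
    (hχs : tsupport χ ⊆ Ioo 1 2) (hψc : HasCompactSupport ψ)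
    (hψs : tsupport ψ ⊆ Ioo 0 Real.pi) :
    ContDiff ℝ ∞ fun x : E (1 + k) => tf χ ψ w (pz x) := by
  have htf := tf_contDiff w hχ hψ hχs hψc (psubT le_rfl hψs)
  obtain ⟨-, hq⟩ := tsupport_tfZ w hχs hψc hψs
  rw [contDiff_iff_contDiffAt]
  intro x
  by_cases hx : pz x ∈ tsupport (tf χ ψ w)
  · exact htf.contDiffAt.comp x (contDiffAt_pz (ne_of_pz (hq _ hx)))
  · have hev : ∀ᶠ y in 𝓝 x, pz y ∉ tsupport (tf χ ψ w) :=
      continuous_pz.continuousAt.eventually ((isClosed_tsupport _).isOpen_compl.mem_nhds hx)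
    have : (fun x : E (1 + k) => tf χ ψ w (pz x)) =ᶠ[𝓝 x] fun _ => 0 := by
      filter_upwards [hev] with y hy
      exact image_eq_zero_of_notMem_tsupport hy
    exact contDiffAt_const.congr_of_eventuallyEq this

lemma TFz_compact {χ ψ : ℝ → ℝ} (w : E n) (hχs : tsupport χ ⊆ Ioo 1 2) :
    HasCompactSupport fun x : E (1 + k) => tf χ ψ w (pz x) := by
  apply HasCompactSupport.of_support_subset_isCompact (isCompact_closedBall (0 : E (1 + k)) 2)
  intro x hx
  rw [mem_closedBall_zero_iff]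
  by_contra hcon
  push Not at hcon
  apply hx
  have : χ ‖pz x‖ = 0 := image_eq_zero_of_notMem_tsupport fun hm => by
    have := (hχs hm).2
    rw [norm_pz] at this
    linarith
  simp [tf, this]

/-- the weighted weak formulation in the plane -/
lemma weak_planeZ {p : ℝ} (hp1 : 1 < p) {h : E (1 + k) → E n} (hp : IsPHarmonic p h)
    (hi : InvZ h) (hk : 1 ≤ k) (j : Fin k) {χ ψ : ℝ → ℝ}
    (w : E n) (hχ : ContDiff ℝ ∞ χ) (hψ : ContDiff ℝ ∞ ψ)
    (hχs : tsupport χ ⊆ Ioo 1 2) (hψc : HasCompactSupport ψ)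
    (hψs : tsupport ψ ⊆ Ioo 0 Real.pi) :
    ∫ z : E 2, z 0 ^ (1 - 1) * z 1 ^ (k - 1)
      * ⟪A p (grad (HH 0 j h) z), grad (tf χ ψ w) z⟫ = 0 := by
  have htf := tf_contDiff w hχ hψ hχs hψc (psubT le_rfl hψs)
  obtain ⟨hcomp, hq⟩ := tsupport_tfZ w hχs hψc hψs
  have hHc := HH_contDiff hp.1 0 j
  set G : E 2 → ℝ := fun z => ⟪A p (grad (HH 0 j h) z), grad (tf χ ψ w) z⟫ with hG
  -- lifted integrand
  have hlift : ∀ x : E (1 + k), ⟪A p (grad h x), grad (fun x => tf χ ψ w (pz x)) x⟫ = G (pz x) := by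
    intro x
    by_cases hx : pz x ∈ tsupport (tf χ ψ w)
    · have h3 := ne_of_pz (hq _ hx)
      have dH : DifferentiableAt ℝ (HH 0 j h) (pz x) := hHc.differentiable (by simp) _
      have dtf : DifferentiableAt ℝ (tf χ ψ w) (pz x) := htf.differentiable (by simp) _
      have e1 := inner_grad_pz h3 dH dtf
      have e2 := inner_grad_pz h3 dH dH
      rw [← hz_eq hi j] at e1 e2
      have e3 : ‖grad h x‖ = ‖grad (HH 0 j h) (pz x)‖ := by
        rw [real_inner_self_eq_norm_sq, real_inner_self_eq_norm_sq] at e2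
        exact (sq_eq_sq₀ (norm_nonneg _) (norm_nonneg _)).mp e2
      rw [hG]
      unfold A
      simp only
      rw [real_inner_smul_left, real_inner_smul_left, e1, e3]
    · have e1 : grad (tf χ ψ w) (pz x) = 0 := grad_zero hx
      have e2 : grad (fun x : E (1 + k) => tf χ ψ w (pz x)) x = 0 := by
        apply grad_zero
        intro hx'
        apply hx
        have hsub : tsupport (fun x : E (1 + k) => tf χ ψ w (pz x))
            ⊆ pz ⁻¹' tsupport (tf χ ψ w) := by
          apply closure_minimal _ ((isClosed_tsupport _).preimage continuous_pz)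
          intro y hy
          exact subset_tsupport _ hy
        exact hsub hx'
      rw [hG]
      simp only
      rw [e1, e2, inner_zero_right, inner_zero_right]
  have h0 := hp.2 _ (TFz_contDiff w hχ hψ hχs hψc hψs) (TFz_compact w hχs)
  simp only [hlift] at h0
  have hGc : Continuous G := by
    have h1 : Continuous (grad (HH 0 j h)) := PL.continuous_grad hHc
    have h2 : Continuous (grad (tf χ ψ w)) :=
      PL.continuous_grad (htf.of_le (by exact_mod_cast le_top))
    have h3 : Continuous fun z => A p (grad (HH 0 j h) z) := by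
      have hA : Continuous (A p : Mat n 2 → Mat n 2) := by
        rw [continuous_iff_continuousAt]
        intro ξ
        by_cases hξ : ξ = 0
        · subst hξ
          show Tendsto _ _ _
          have hA0 : A p (0 : Mat n 2) = 0 := by unfold A; rw [smul_zero]
          rw [hA0]
          have hb : ∀ η : Mat n 2, ‖A p η‖ ≤ ‖η‖ ^ (p - 1) := by
            intro η
            unfold A
            rw [norm_smul, Real.norm_of_nonneg (by positivity)]
            rcases eq_or_lt_of_le (norm_nonneg η) with h | h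
            · rw [← h, mul_zero]; positivity
            · rw [← Real.rpow_add_one h.ne']
              apply le_of_eq; congr 1; ring
          refine squeeze_zero_norm hb ?_
          have h4 : ContinuousAt (fun η : Mat n 2 => ‖η‖ ^ (p - 1)) 0 :=
            continuous_norm.continuousAt.rpow_const (Or.inr (by linarith))
          have := h4.tendsto
          rwa [norm_zero, Real.zero_rpow (by linarith)] at this
        · unfold A
          exact (continuous_norm.continuousAt.rpow_const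
            (Or.inl (norm_ne_zero_iff.mpr hξ))).smul continuousAt_id
      exact hA.comp h1
    exact h3.inner h2
  have hGz : ∀ z, z ∉ tsupport (tf χ ψ w) → G z = 0 := by
    intro z hz
    rw [hG]
    simp only
    rw [grad_zero hz, inner_zero_right]
  have hGs : HasCompactSupport G := by
    apply HasCompactSupport.of_support_subset_isCompact hcomp
    intro z hz
    by_contra hc
    exact hz (hGz z hc)
  obtain ⟨C, hC, hint⟩ := integral_pz hk hGc hGs (fun z hz => hGz z fun hm => by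
    have h1 := hq z hm
    linarith)
  rw [hint] at h0
  simp only [Nat.sub_self, pow_zero, one_mul]
  rcases mul_eq_zero.mp h0 with h1 | h1
  · exact absurd h1 hC.ne'
  · exact h1

end

end Pool.Agent.H76.BP
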