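import Pool.Agent.H76.BP.VP2

/-!
# Vector valued profiles on the half circle
-/

set_option autoImplicit false
open MeasureTheory Metric Filter Topology Set
open scoped ContDiff RealInnerProductSpace

namespace Pool.Agent.H76.BP

open Pool.Agent.H76.PL

/-- logarithmic derivative of `sin^(k-1)` -/
noncomputable def cz (k : ℝ) (t : ℝ) : ℝ := (k - 1) * (Real.cos t / Real.sin t)

/-- the weight -/
noncomputable def sz (k : ℕ) (t : ℝ) : ℝ := Real.sin t ^ (k - 1)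

lemma sz_eq (k : ℕ) : sz k = sc 1 k := by
  ext t; unfold sz sc; simp

lemma continuous_sz {k : ℕ} : Continuous (sz k) := by unfold sz; fun_prop

lemma sinp {t : ℝ} (ht : t ∈ Ioo 0 Real.pi) : 0 < Real.sin t :=
  Real.sin_pos_of_pos_of_lt_pi ht.1 ht.2

lemma sz_pos {k : ℕ} {t : ℝ} (ht : t ∈ Ioo 0 Real.pi) : 0 < sz k t := by
  have := sinp ht
  unfold sz
  positivity

lemma hasDerivAt_sz {k : ℕ} (hk : 1 ≤ k) {t : ℝ} (ht : t ∈ Ioo 0 Real.pi) :
    HasDerivAt (sz k) (sz k t * cz k t) t := by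
  have hs := sinp ht
  have h2 := (Real.hasDerivAt_sin t).pow (k - 1)
  unfold sz cz
  refine h2.congr_deriv ?_
  rw [Nat.cast_sub hk]
  rcases Nat.eq_zero_or_pos (k - 1) with h0 | h0
  · have : k = 1 := by omega
    subst this
    simp
  · obtain ⟨j, hj⟩ : ∃ j, k - 1 = j + 1 := ⟨k - 2, by omega⟩
    rw [hj, pow_succ, Nat.add_sub_cancel]
    push_cast
    field_simp

lemma refl_memZ {t : ℝ} (ht : t ∈ Ioo 0 Real.pi) : Real.pi - t ∈ Ioo 0 Real.pi :=
  ⟨by linarith [ht.2], by linarith [ht.1]⟩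

lemma cz_refl (k t : ℝ) : cz k (Real.pi - t) = -cz k t := by
  unfold cz
  rw [Real.cos_pi_sub, Real.sin_pi_sub]
  ring

lemma sz_refl (k : ℕ) (t : ℝ) : sz k (Real.pi - t) = sz k t := by
  unfold sz
  rw [Real.sin_pi_sub]

/-- lower bound for the coefficient away from the second pole -/
lemma cz_lower {k : ℕ} (hk : 1 ≤ k) {t b : ℝ} (ht : t ∈ Ioo 0 b)
    (hb : b < Real.pi) : -((k : ℝ) * |Real.cos b / Real.sin b|) ≤ cz k t := by
  have ht' : t ∈ Ioo 0 Real.pi := ⟨ht.1, by linarith [ht.2]⟩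
  have hb' : b ∈ Ioo 0 Real.pi := ⟨by linarith [ht.1, ht.2], hb⟩
  have h1 := sinp ht'
  have h2 := sinp hb'
  have h3 : Real.cos b / Real.sin b ≤ Real.cos t / Real.sin t := by
    rw [div_le_div_iff₀ h2 h1]
    have := Real.sin_pos_of_pos_of_lt_pi (x := b - t) (by linarith [ht.2]) (by linarith [ht.1])
    rw [Real.sin_sub] at this
    linarith
  have hk1 : (0 : ℝ) ≤ (k : ℝ) - 1 := by
    have : (1 : ℝ) ≤ k := by exact_mod_cast hk
    linarith
  unfold cz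
  calc -((k : ℝ) * |Real.cos b / Real.sin b|) ≤ ((k : ℝ) - 1) * (-|Real.cos b / Real.sin b|) := by
        have := abs_nonneg (Real.cos b / Real.sin b)
        nlinarith
    _ ≤ ((k : ℝ) - 1) * (Real.cos b / Real.sin b) :=
        mul_le_mul_of_nonneg_left (neg_abs_le _) hk1
    _ ≤ _ := mul_le_mul_of_nonneg_left h3 hk1

section
variable {F : Type*} [NormedAddCommGroup F] [InnerProductSpace ℝ F]

/-- vector valued profile -/
structure VZ (k : ℕ) (p β κ : ℝ) (u v : ℝ → F) : Prop where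
  hu : ∀ t, HasDerivAt u (v t) t
  hv : Continuous v
  hf : ∀ t ∈ Ioo 0 Real.pi,
    HasDerivAt (fun s => sz k s • ((NN β (u s, v s)) ^ ((p - 2) / 2) • v s))
      (-(κ * sz k t * (NN β (u t, v t)) ^ ((p - 2) / 2)) • u t) t

variable {k : ℕ} {p β κ : ℝ} {u v : ℝ → F}

lemma VZ.toVP (h : VZ k p β κ u v) : VP 1 k p β κ u v where
  hu := h.hu
  hv := h.hv
  hf t ht := by
    have := h.hf t ⟨ht.1, by linarith [ht.2, Real.pi_pos]⟩
    rw [sz_eq] at this
    exact this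

lemma hasDerivAt_reflZ {f : ℝ → F} {a : F} {t : ℝ} (h : HasDerivAt f a (Real.pi - t)) :
    HasDerivAt (fun t => f (Real.pi - t)) (-a) t := by
  have h1 : HasDerivAt (fun t : ℝ => Real.pi - t) (-1) t := by
    simpa using (hasDerivAt_id t).const_sub Real.pi
  have := h.scomp t h1
  simpa [Function.comp_def] using this

lemma VZ.refl (h : VZ k p β κ u v) : VZ k p β κ (fun t => u (Real.pi - t))
    (fun t => -v (Real.pi - t)) where
  hu t := hasDerivAt_reflZ (h.hu _)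
  hv := by
    have := h.hv
    fun_prop
  hf t ht := by
    have h1 := hasDerivAt_reflZ (h.hf _ (refl_memZ ht))
    have h2 := h1.neg
    rw [neg_neg] at h2
    rw [sz_refl] at h2
    simp only [NN_neg]
    refine (h2.congr_of_eventuallyEq (Eventually.of_forall fun s => ?_))
    simp only [Pi.neg_apply, sz_refl, smul_neg]

lemma VZ.contU (h : VZ k p β κ u v) : Continuous u :=
  continuous_iff_continuousAt.mpr fun t => (h.hu t).continuousAt

lemma VZ.contN (h : VZ k p β κ u v) : Continuous fun t => NN β (u t, v t) := by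
  have := h.contU
  have := h.hv
  unfold NN
  fun_prop

variable [FiniteDimensional ℝ F]

/-- **Second order equation.** -/
lemma VZ.ode (h : VZ k p β κ u v) (hk : 1 ≤ k) (hp : 2 ≤ p) {t : ℝ}
    (ht : t ∈ Ioo 0 Real.pi) (hN : 0 < NN β (u t, v t)) :
    HasDerivAt v (vd κ ((p - 2) / 2) β (cz k t) (u t) (v t)) t := by
  have hs := sz_pos (k := k) ht
  have hsd := hasDerivAt_sz hk ht
  set e := (p - 2) / 2 with he
  have he0 : 0 ≤ e := by rw [he]; linarith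
  have hg : DifferentiableAt ℝ (fun s => (NN β (u s, v s)) ^ e • v s) t := by
    have h1 : DifferentiableAt ℝ (fun s => (sz k s)⁻¹ • (sz k s • ((NN β (u s, v s)) ^ e • v s)))
        t := (hsd.differentiableAt.inv hs.ne').smul (h.hf t ht).differentiableAt
    refine h1.congr_of_eventuallyEq ?_
    filter_upwards [Ioo_mem_nhds ht.1 ht.2] with s hs'
    rw [smul_smul, inv_mul_cancel₀ (sz_pos hs').ne', one_smul]
  have hdiff : DifferentiableAt ℝ v t :=
    differentiableAt_of_flux β e (by linarith) (h.hu t).differentiableAt h.hv.continuousAt hN hg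
  obtain ⟨v', hv'⟩ : ∃ v', HasDerivAt v v' t := ⟨_, hdiff.hasDerivAt⟩
  set N := NN β (u t, v t) with hn
  have hNd := hasDerivAt_NN (b := β) (h.hu t) hv'
  set N' := β ^ 2 * (2 * ⟪u t, v t⟫) + 2 * ⟪v t, v'⟫ with hn'
  have hWd := hsd.smul ((hNd.rpow_const (p := e) (Or.inl hN.ne')).smul hv')
  have huniq := hWd.unique (h.hf t ht)
  have hp1 : N ^ (e - 1) = N ^ e / N := Real.rpow_sub_one hN.ne' e
  have hpos : 0 < N ^ e := Real.rpow_pos_of_pos hN e
  rw [← hn, hp1] at huniq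
  set c := cz k t with hc
  set S := sz k t with hS
  have h1 : (S * N ^ e) • (v' + (c + e * N' / N) • v t + κ • u t) = 0 := by
    have e1 : (S * N ^ e) • (v' + (c + e * N' / N) • v t + κ • u t)
        = (S • (N ^ e • v' + (N' * e * (N ^ e / N)) • v t) + (S * c) • N ^ e • v t)
          - (-(κ * S * N ^ e) • u t) := by
      rw [smul_add, smul_add, smul_add, neg_smul, sub_neg_eq_add, smul_smul, smul_smul, smul_smul,
        smul_smul, smul_smul]
      have e2 : S * N ^ e * (c + e * N' / N) = S * c * N ^ e + S * (N' * e * (N ^ e / N)) := by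
        field_simp
      rw [e2, add_smul]
      have e3 : S * N ^ e * κ = κ * S * N ^ e := by ring
      rw [e3]
      abel
    have e4 : (S • (N ^ e • v' + (N' * e * (N ^ e / N)) • v t) + (S * c) • N ^ e • v t)
        = -(κ * S * N ^ e) • u t := huniq
    rw [e1, e4, sub_self]
  have h2 : v' + (c + e * N' / N) • v t + κ • u t = 0 := by
    rcases smul_eq_zero.mp h1 with h | h
    · exact absurd h (mul_pos hs hpos).ne'
    · exact h
  set w := e * N' / N with hw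
  have h3 : v' = -κ • u t - (c + w) • v t := by
    rw [neg_smul]
    have := h2
    rw [add_assoc, add_eq_zero_iff_eq_neg] at this
    rw [this]; abel
  have h4 : ⟪v t, v'⟫ = -κ * ⟪u t, v t⟫ - (c + w) * ‖v t‖ ^ 2 := by
    rw [h3, inner_sub_right, inner_smul_right, inner_smul_right, real_inner_self_eq_norm_sq,
      real_inner_comm]
  have h5 : w * N = e * N' := by rw [hw]; field_simp
  have hden : 0 < N + 2 * e * ‖v t‖ ^ 2 := by positivity
  have h6 : w = om2 κ e β c (u t) (v t) := by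
    unfold om2
    rw [← hn, eq_div_iff hden.ne']
    rw [hn', h4] at h5
    linear_combination h5
  rw [h3, h6] at hv'
  exact hv'

lemma VZ.pos_left (h : VZ k p β κ u v) (hk : 1 ≤ k) (hp : 2 ≤ p) (hβ : 1 ≤ β)
    {b : ℝ} (hb : b ∈ Ioo 0 Real.pi) (hN : 0 < NN β (u b, v b)) {a : ℝ}
    (ha : a ∈ Icc 0 b) : 0 < NN β (u a, v a) := by
  refine BP.pos_left (f := fun t => NN β (u t, v t)) (f' := fun t => β ^ 2 * (2 * ⟪u t, v t⟫)
    + 2 * ⟪v t, vd κ ((p - 2) / 2) β (cz k t) (u t) (v t)⟫)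
    (C := |β ^ 2 - κ| + 2 * (k * |Real.cos b / Real.sin b|)) ha.2 h.contN.continuousOn
    (fun t ht hpos => ?_) hN
  have ht' : t ∈ Ioo 0 Real.pi := ⟨lt_of_le_of_lt ha.1 ht.1, lt_trans ht.2 hb.2⟩
  refine ⟨hasDerivAt_NN (h.hu t) (h.ode hk hp ht' hpos), ?_⟩
  exact NN_deriv_le (by linarith) hβ hpos (cz_lower hk ⟨ht'.1, ht.2⟩ hb.2) (by positivity)

/-- **Nondegeneracy.** -/
lemma VZ.pos (h : VZ k p β κ u v) (hk : 1 ≤ k) (hp : 2 ≤ p) (hβ : 1 ≤ β)
    {b : ℝ} (hb : b ∈ Ioo 0 Real.pi) (hN : 0 < NN β (u b, v b)) {a : ℝ}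
    (ha : a ∈ Icc 0 Real.pi) : 0 < NN β (u a, v a) := by
  rcases le_total a b with hab | hab
  · exact h.pos_left hk hp hβ hb hN ⟨ha.1, hab⟩
  · have h1 := h.refl.pos_left hk hp hβ (b := Real.pi - b) (refl_memZ hb)
      (by simpa [NN_neg] using hN) (a := Real.pi - a) ⟨by linarith [ha.2], by linarith⟩
    simpa [NN_neg] using h1

/-- **Reduction to scalar profiles.** -/
lemma VZ.scalar (h : VZ k p β κ u v) (hk : 1 ≤ k)
    (hpos : ∀ t ∈ Icc 0 Real.pi, 0 < NN β (u t, v t)) (hv0 : v 0 = 0) :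
    ∃ w : F, ‖w‖ = 1 ∧ (∀ t ∈ Ico 0 Real.pi, u t = ⟪u t, w⟫ • w ∧ v t = ⟪v t, w⟫ • w) ∧
      0 < ⟪u 0, w⟫ := by
  have hpi : (0 : ℝ) < Real.pi := Real.pi_pos
  have hu0 : u 0 ≠ 0 := by
    intro h0
    have := hpos 0 ⟨le_refl _, hpi.le⟩
    rw [h0, hv0] at this
    unfold NN at this
    simp at this
  have hn0 : 0 < ‖u 0‖ := norm_pos_iff.mpr hu0
  obtain ⟨w, hw⟩ : ∃ w : F, w = ‖u 0‖⁻¹ • u 0 := ⟨_, rfl⟩
  have hw1 : ‖w‖ = 1 := by
    rw [hw, norm_smul, norm_inv, norm_norm, inv_mul_cancel₀ hn0.ne']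
  have huw : ⟪u 0, w⟫ = ‖u 0‖ := by
    rw [hw, real_inner_smul_right, real_inner_self_eq_norm_sq]
    field_simp
  refine ⟨w, hw1, ?_, by rw [huw]; exact hn0⟩
  -- the projection
  set P : F →L[ℝ] F := ContinuousLinearMap.id ℝ F - (innerSL ℝ w).smulRight w with hP
  have hPa : ∀ z, P z = z - ⟪w, z⟫ • w := fun z => by simp [hP]
  set e := (p - 2) / 2 with he
  obtain ⟨W, hW⟩ : ∃ W : ℝ → ℝ, W = fun t => (NN β (u t, v t)) ^ e := ⟨_, rfl⟩
  have hWc : ContinuousOn W (Icc 0 Real.pi) := by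
    rw [hW]
    exact h.contN.continuousOn.rpow_const fun t ht => Or.inl (hpos t ht).ne'
  have hWp : ∀ t ∈ Icc 0 Real.pi, 0 < W t := fun t ht => by
    rw [hW]; exact Real.rpow_pos_of_pos (hpos t ht) _
  obtain ⟨M, hM⟩ := isCompact_Icc.exists_bound_of_continuousOn (hWc.add
    (hWc.inv₀ fun t ht => (hWp t ht).ne'))
  have hM1 : ∀ t ∈ Icc 0 Real.pi, W t ≤ M ∧ (W t)⁻¹ ≤ M := by
    intro t ht
    have h1 := hM t ht
    have h2 := hWp t ht
    have h3 : 0 < (W t)⁻¹ := inv_pos.mpr h2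
    simp only [Pi.add_apply, Pi.inv_apply] at h1
    rw [Real.norm_of_nonneg (by positivity)] at h1
    constructor <;> linarith
  have hM0 : 0 ≤ M := (hWp 0 ⟨le_refl _, hpi.le⟩).le.trans (hM1 0 ⟨le_refl _, hpi.le⟩).1
  have hPu : ∀ t, HasDerivAt (fun t => P (u t)) (P (v t)) t := fun t =>
    P.hasFDerivAt.comp_hasDerivAt t (h.hu t)
  have hPy : ∀ t ∈ Ioo 0 Real.pi, HasDerivAt (fun t => W t • P (v t))
      (-(κ * W t) • P (u t) - cz k t • (W t • P (v t))) t := by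
    intro t ht
    have hs := sz_pos (k := k) ht
    have hsd := hasDerivAt_sz hk ht
    have h1 : HasDerivAt (fun s => P (sz k s • ((NN β (u s, v s)) ^ e • v s)))
        (P (-(κ * sz k t * (NN β (u t, v t)) ^ e) • u t)) t :=
      P.hasFDerivAt.comp_hasDerivAt t (h.hf t ht)
    have h2 := (hsd.inv hs.ne').smul h1
    have h3 : (fun s => W s • P (v s)) =ᶠ[𝓝 t] fun s => (sz k s)⁻¹ •
        P (sz k s • ((NN β (u s, v s)) ^ e • v s)) := by
      filter_upwards [Ioo_mem_nhds ht.1 ht.2] with s hs'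
      rw [map_smul, map_smul, smul_smul, inv_mul_cancel₀ (sz_pos hs').ne', one_smul, hW]
    refine (h2.congr_of_eventuallyEq h3).congr_deriv ?_
    simp only [map_smul, smul_smul, hW, Pi.inv_apply]
    rw [sub_eq_add_neg, ← neg_smul]
    congr 2
    · field_simp
    · field_simp
  have hQ0 : ∀ b ∈ Ioo 0 Real.pi, ‖P (u b)‖ ^ 2 + ‖W b • P (v b)‖ ^ 2 = 0 := by
    intro b hb
    by_contra hne
    have hposb : 0 < ‖P (u b)‖ ^ 2 + ‖W b • P (v b)‖ ^ 2 :=
      lt_of_le_of_ne (by positivity) (Ne.symm hne)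
    have hbI : Icc 0 b ⊆ Icc 0 Real.pi := Icc_subset_Icc_right hb.2.le
    have hcontQ : ContinuousOn (fun t => ‖P (u t)‖ ^ 2 + ‖W t • P (v t)‖ ^ 2) (Icc 0 b) := by
      have c1 : Continuous fun t => P (u t) := P.continuous.comp h.contU
      have c2 : Continuous fun t => P (v t) := P.continuous.comp h.hv
      exact (c1.norm.pow 2).continuousOn.add ((((hWc.mono hbI).smul c2.continuousOn).norm).pow 2)
    have := BP.pos_left (f := fun t => ‖P (u t)‖ ^ 2 + ‖W t • P (v t)‖ ^ 2)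
      (f' := fun t => 2 * ⟪P (u t), P (v t)⟫
        + 2 * ⟪W t • P (v t), -(κ * W t) • P (u t) - cz k t • (W t • P (v t))⟫)
      (C := M + |κ| * M + 2 * (k * |Real.cos b / Real.sin b|)) hb.1.le hcontQ
      (fun t ht hpt => ?_) hposb
    · have e1 : P (u 0) = 0 := by
        rw [hPa, real_inner_comm, huw, hw, smul_smul, mul_inv_cancel₀ hn0.ne', one_smul, sub_self]
      have e2 : P (v 0) = 0 := by rw [hv0, map_zero]
      simp [e1, e2] at this
    · have ht' : t ∈ Ioo 0 Real.pi := ⟨ht.1, lt_trans ht.2 hb.2⟩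
      have htI : t ∈ Icc 0 Real.pi := ⟨ht'.1.le, ht'.2.le⟩
      refine ⟨(hPu t).norm_sq.add (hPy t ht').norm_sq, ?_⟩
      obtain ⟨hMW, hMi⟩ := hM1 t htI
      have hW0 := hWp t htI
      obtain ⟨y, hy⟩ : ∃ y, y = W t • P (v t) := ⟨_, rfl⟩
      have hPv : P (v t) = (W t)⁻¹ • y := by
        rw [hy, smul_smul, inv_mul_cancel₀ hW0.ne', one_smul]
      rw [← hy, hPv]
      set x := P (u t)
      have hc := cz_lower hk ht hb.2
      set K0 := (k : ℝ) * |Real.cos b / Real.sin b| with hK0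
      have e1 : 2 * ⟪x, (W t)⁻¹ • y⟫ + 2 * ⟪y, -(κ * W t) • x - cz k t • y⟫
          = (2 * ⟪x, y⟫) * (W t)⁻¹ - κ * W t * (2 * ⟪x, y⟫) - 2 * cz k t * ‖y‖ ^ 2 := by
        rw [inner_sub_right, inner_smul_right, inner_smul_right, inner_smul_right,
          real_inner_self_eq_norm_sq, real_inner_comm x y]
        ring
      rw [e1]
      have hxy : |2 * ⟪x, y⟫| ≤ ‖x‖ ^ 2 + ‖y‖ ^ 2 := by
        have := abs_real_inner_le_norm x y
        rw [abs_mul, abs_two]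
        nlinarith [sq_nonneg (‖x‖ - ‖y‖)]
      have hyle : ‖y‖ ^ 2 ≤ ‖x‖ ^ 2 + ‖y‖ ^ 2 := by linarith [sq_nonneg ‖x‖]
      have i1 : (2 * ⟪x, y⟫) * (W t)⁻¹ ≤ M * (‖x‖ ^ 2 + ‖y‖ ^ 2) := by
        calc _ ≤ |(2 * ⟪x, y⟫) * (W t)⁻¹| := le_abs_self _
          _ = |2 * ⟪x, y⟫| * (W t)⁻¹ := by rw [abs_mul, abs_of_pos (inv_pos.mpr hW0)]
          _ ≤ (‖x‖ ^ 2 + ‖y‖ ^ 2) * M := by
              have := (inv_pos.mpr hW0).le
              gcongr
          _ = _ := by ring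
      have i2 : -(κ * W t * (2 * ⟪x, y⟫)) ≤ |κ| * M * (‖x‖ ^ 2 + ‖y‖ ^ 2) := by
        calc _ ≤ |κ * W t * (2 * ⟪x, y⟫)| := neg_le_abs _
          _ = |κ| * W t * |2 * ⟪x, y⟫| := by rw [abs_mul, abs_mul, abs_of_pos hW0]
          _ ≤ _ := by gcongr
      have hK00 : 0 ≤ K0 := by rw [hK0]; positivity
      have i3 : -(2 * cz k t * ‖y‖ ^ 2) ≤ 2 * K0 * (‖x‖ ^ 2 + ‖y‖ ^ 2) := by
        calc -(2 * cz k t * ‖y‖ ^ 2) = 2 * (-cz k t) * ‖y‖ ^ 2 := by ring
          _ ≤ 2 * K0 * ‖y‖ ^ 2 := by gcongr; linarith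
          _ ≤ _ := by gcongr
      linarith
  have hcase : ∀ b ∈ Ioo 0 Real.pi, P (u b) = 0 ∧ P (v b) = 0 := by
    intro b hb
    have h1 := hQ0 b hb
    have h2 : ‖P (u b)‖ ^ 2 = 0 := by
      have := sq_nonneg ‖P (u b)‖; have := sq_nonneg ‖W b • P (v b)‖; linarith
    have h3 : ‖W b • P (v b)‖ ^ 2 = 0 := by
      have := sq_nonneg ‖P (u b)‖; have := sq_nonneg ‖W b • P (v b)‖; linarith
    refine ⟨norm_eq_zero.mp (pow_eq_zero_iff two_ne_zero |>.mp h2), ?_⟩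
    have h4 := norm_eq_zero.mp (pow_eq_zero_iff two_ne_zero |>.mp h3)
    rcases smul_eq_zero.mp h4 with h5 | h5
    · exact absurd h5 (hWp b ⟨hb.1.le, hb.2.le⟩).ne'
    · exact h5
  intro t ht
  rcases eq_or_lt_of_le ht.1 with h0 | h0
  · rw [← h0]
    refine ⟨?_, by rw [hv0]; simp⟩
    rw [huw, hw, smul_smul, mul_inv_cancel₀ hn0.ne', one_smul]
  · obtain ⟨h1, h2⟩ := hcase t ⟨h0, ht.2⟩
    rw [hPa, sub_eq_zero] at h1 h2
    rw [real_inner_comm] at h1 h2
    exact ⟨h1, h2⟩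

end

/-- scalar profile on the half circle -/
structure PZ (k μ β : ℝ) (f f' f'' : ℝ → ℝ) (f0 f1 : ℝ) : Prop where
  d1 : ∀ t ∈ Ioo 0 Real.pi, HasDerivAt f (f' t) t
  d2 : ∀ t ∈ Ioo 0 Real.pi, HasDerivAt f' (f'' t) t
  N : ∀ t ∈ Ioo 0 Real.pi, 0 < β ^ 2 * f t ^ 2 + f' t ^ 2
  ode : ∀ t ∈ Ioo 0 Real.pi, f'' t * (β ^ 2 * f t ^ 2 + μ * f' t ^ 2)
    = -cz k t * f' t * (β ^ 2 * f t ^ 2 + f' t ^ 2)
      - f t * ((μ - 1) * β ^ 2 * f' t ^ 2
        + β * (μ * β + k - μ) * (β ^ 2 * f t ^ 2 + f' t ^ 2))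
  ne0 : f0 ≠ 0
  ne1 : f1 ≠ 0
  l0 : Tendsto f (𝓝[>] 0) (𝓝 f0)
  l0' : Tendsto (fun t => f' t / t) (𝓝[>] 0) (𝓝 (-(β * (μ * β + k - μ) * f0 / k)))
  l1 : Tendsto (fun t => f (Real.pi - t)) (𝓝[>] 0) (𝓝 f1)
  l1' : Tendsto (fun t => -f' (Real.pi - t) / t) (𝓝[>] 0)
    (𝓝 (-(β * (μ * β + k - μ) * f1 / k)))

section
variable {F : Type*} [NormedAddCommGroup F] [InnerProductSpace ℝ F] [FiniteDimensional ℝ F]
variable {k : ℕ} {p β κ : ℝ} {u v : ℝ → F}

/-- **Scalar form of a vector valued profile.** -/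
theorem VZ.exists_full (h : VZ k p β κ u v) (hk : 1 ≤ k) (hp : 2 ≤ p)
    (hβ : 1 ≤ β) {μ : ℝ} (hμ : μ = p - 1) (hκ : κ = β * (μ * β + k - μ))
    (hv0 : v 0 = 0) (hv1 : v Real.pi = 0)
    {b : ℝ} (hb : b ∈ Ioo 0 Real.pi) (hN : 0 < NN β (u b, v b)) :
    ∃ (w : F) (f f' f'' : ℝ → ℝ) (f0 f1 : ℝ), ‖w‖ = 1 ∧ PZ k μ β f f' f'' f0 f1 ∧
      (∀ t ∈ Icc 0 Real.pi, u t = f t • w ∧ v t = f' t • w) ∧
      Continuous f ∧ Continuous f' ∧ (f 0 = f0 ∧ f Real.pi = f1) ∧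
      (f' 0 = 0 ∧ f' Real.pi = 0) := by
  have hpi : (0 : ℝ) < Real.pi := Real.pi_pos
  have hpos : ∀ t ∈ Icc 0 Real.pi, 0 < NN β (u t, v t) := fun t ht =>
    h.pos hk hp hβ hb hN ht
  obtain ⟨w, hw, huv, hu0⟩ := h.scalar hk hpos hv0
  have hfc : Continuous fun t => ⟪u t, w⟫ := h.contU.inner continuous_const
  have hf'c : Continuous fun t => ⟪v t, w⟫ := h.hv.inner continuous_const
  have huv' : ∀ t ∈ Icc 0 Real.pi, u t = ⟪u t, w⟫ • w ∧ v t = ⟪v t, w⟫ • w := by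
    intro t ht
    rcases eq_or_lt_of_le ht.2 with h1 | h1
    · have hcl : t ∈ closure (Ioo 0 Real.pi) := by
        rw [closure_Ioo hpi.ne]; exact ht
      constructor
      · have hcs : IsClosed {t | u t = ⟪u t, w⟫ • w} :=
          isClosed_eq h.contU (hfc.smul continuous_const)
        exact closure_minimal (fun s hs => (huv s ⟨hs.1.le, hs.2⟩).1) hcs hcl
      · have hcs : IsClosed {t | v t = ⟪v t, w⟫ • w} :=
          isClosed_eq h.hv (hf'c.smul continuous_const)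
        exact closure_minimal (fun s hs => (huv s ⟨hs.1.le, hs.2⟩).2) hcs hcl
    · exact huv t ⟨ht.1, h1⟩
  have hNN : ∀ t ∈ Icc 0 Real.pi, NN β (u t, v t) = β ^ 2 * ⟪u t, w⟫ ^ 2 + ⟪v t, w⟫ ^ 2 := by
    intro t ht
    obtain ⟨h1, h2⟩ := huv' t ht
    have e1 : ‖u t‖ ^ 2 = ⟪u t, w⟫ ^ 2 := by
      have : ‖u t‖ = |⟪u t, w⟫| := by
        nth_rewrite 1 [h1]
        rw [norm_smul, hw, mul_one, Real.norm_eq_abs]
      rw [this, sq_abs]
    have e2 : ‖v t‖ ^ 2 = ⟪v t, w⟫ ^ 2 := by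
      have : ‖v t‖ = |⟪v t, w⟫| := by
        nth_rewrite 1 [h2]
        rw [norm_smul, hw, mul_one, Real.norm_eq_abs]
      rw [this, sq_abs]
    unfold NN
    simp only
    rw [e1, e2]
  have hu1 : ⟪u Real.pi, w⟫ ≠ 0 := by
    intro h0
    have h1 := hpos Real.pi ⟨hpi.le, le_refl _⟩
    rw [hNN _ ⟨hpi.le, le_refl _⟩, h0, hv1, inner_zero_left] at h1
    simp at h1
  refine ⟨w, fun t => ⟪u t, w⟫, fun t => ⟪v t, w⟫,
    fun t => ⟪vd κ ((p - 2) / 2) β (cz k t) (u t) (v t), w⟫, ⟪u 0, w⟫,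
    ⟪u Real.pi, w⟫, hw, ?_, huv', hfc, hf'c, ⟨rfl, rfl⟩, ?_⟩
  · refine { d1 := ?_, d2 := ?_, N := ?_, ode := ?_, ne0 := hu0.ne', ne1 := hu1, l0 := ?_,
             l0' := ?_, l1 := ?_, l1' := ?_ }
    · intro t ht
      have h1 := (innerSL ℝ w).hasFDerivAt.comp_hasDerivAt t (h.hu t)
      have e1 : (fun t => ⟪u t, w⟫) = (innerSL ℝ w) ∘ u := by
        ext s; simp only [Function.comp_apply, innerSL_apply_apply]; rw [real_inner_comm]
      rw [e1]
      refine h1.congr_deriv ?_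
      simp only [innerSL_apply_apply]; rw [real_inner_comm]
    · intro t ht
      have h1 := (innerSL ℝ w).hasFDerivAt.comp_hasDerivAt t
        (h.ode hk hp ht (hpos t ⟨ht.1.le, ht.2.le⟩))
      have e1 : (fun t => ⟪v t, w⟫) = (innerSL ℝ w) ∘ v := by
        ext s; simp only [Function.comp_apply, innerSL_apply_apply]; rw [real_inner_comm]
      rw [e1]
      refine h1.congr_deriv ?_
      simp only [innerSL_apply_apply]; rw [real_inner_comm]
    · intro t ht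
      have h1 := hpos t ⟨ht.1.le, ht.2.le⟩
      rwa [hNN t ⟨ht.1.le, ht.2.le⟩] at h1
    · intro t ht
      have htI : t ∈ Icc 0 Real.pi := ⟨ht.1.le, ht.2.le⟩
      have h1 := hpos t htI
      have hn := hNN t htI
      obtain ⟨h2, h3⟩ := huv' t htI
      have e1 : ⟪u t, v t⟫ = ⟪u t, w⟫ * ⟪v t, w⟫ := by
        nth_rewrite 1 [h3]
        rw [inner_smul_right]; ring
      have e2 : ‖v t‖ ^ 2 = ⟪v t, w⟫ ^ 2 := by
        have : ‖v t‖ = |⟪v t, w⟫| := by
          nth_rewrite 1 [h3]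
          rw [norm_smul, hw, mul_one, Real.norm_eq_abs]
        rw [this, sq_abs]
      unfold vd om2
      rw [inner_sub_left, real_inner_smul_left, real_inner_smul_left, e1, e2, hn]
      rw [hn] at h1
      set x := ⟪u t, w⟫
      set y := ⟪v t, w⟫
      have hden : β ^ 2 * x ^ 2 + y ^ 2 + 2 * ((p - 2) / 2) * y ^ 2 = β ^ 2 * x ^ 2 + μ * y ^ 2 := by
        rw [hμ]; ring
      have hM : 0 < β ^ 2 * x ^ 2 + μ * y ^ 2 := by
        have : 1 ≤ μ := by rw [hμ]; linarith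
        nlinarith [sq_nonneg y]
      rw [hden]
      set C := cz k t
      have he : (p - 2) / 2 = (μ - 1) / 2 := by rw [hμ]; ring
      rw [he, ← hκ]
      obtain ⟨M, hMd⟩ : ∃ M, M = β ^ 2 * x ^ 2 + μ * y ^ 2 := ⟨_, rfl⟩
      rw [← hMd] at hM ⊢
      have hM' : M ≠ 0 := hM.ne'
      field_simp
      rw [hMd]
      ring
    · exact hfc.continuousAt.tendsto.mono_left nhdsWithin_le_nhds
    · have := h.toVP.pole_w hk hv0 (hpos 0 ⟨le_refl _, hpi.le⟩) w
      rwa [hκ] at this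
    · have : Continuous fun t => ⟪u (Real.pi - t), w⟫ := hfc.comp (by fun_prop)
      have h1 := (this.continuousAt (x := 0)).tendsto.mono_left
        (nhdsWithin_le_nhds (s := Ioi (0 : ℝ)))
      simpa using h1
    · have := h.refl.toVP.pole_w hk (by simp [hv1]) (by
        have := hpos Real.pi ⟨hpi.le, le_refl _⟩
        simpa [NN_neg] using this) w
      simp only [sub_zero, inner_neg_left] at this
      rw [hκ] at this
      exact this
  · simp [hv0, hv1]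

end

end Pool.Agent.H76.BP
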