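import Pool.Agent.H76.BP.Z1

/-!
# No axially symmetric profile with `1 < β ≤ 1 + 2/p`
-/

set_option autoImplicit false
open Filter Topology Set

namespace Pool.Agent.H76.BP

section
variable {k μ β f0 f1 : ℝ} {f f' f'' : ℝ → ℝ}

lemma memZ {t : ℝ} (ht : t ∈ Ioo 0 (Real.pi / 2)) : t ∈ Ioo 0 Real.pi :=
  ⟨ht.1, by linarith [ht.2, Real.pi_pos]⟩

lemma hasDerivAt_reflZ' {f : ℝ → ℝ} {a t : ℝ} (h : HasDerivAt f a (Real.pi - t)) :
    HasDerivAt (fun t => f (Real.pi - t)) (-a) t := by
  have h1 : HasDerivAt (fun t : ℝ => Real.pi - t) (-1) t := by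
    simpa using (hasDerivAt_id t).const_sub Real.pi
  have := h.scomp t h1
  simpa [Function.comp_def] using this

lemma PZ.toProf (h : PZ k μ β f f' f'' f0 f1) : Prof 1 k μ β f f' f'' where
  d1 t ht := h.d1 t (memZ ht)
  d2 t ht := h.d2 t (memZ ht)
  N t ht := h.N t (memZ ht)
  ode t ht := by
    have h1 := h.ode t (memZ ht)
    have h2 : cz k t = (k - 1) / Real.tan t := by
      unfold cz
      rw [Real.tan_eq_sin_div_cos, div_div_eq_mul_div, mul_div_assoc]
    rw [h2] at h1
    rw [h1]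
    ring

lemma PZ.refl (h : PZ k μ β f f' f'' f0 f1) : PZ k μ β (fun t => f (Real.pi - t))
    (fun t => -f' (Real.pi - t)) (fun t => f'' (Real.pi - t)) f1 f0 where
  d1 t ht := hasDerivAt_reflZ' (h.d1 _ (refl_memZ ht))
  d2 t ht := by
    have := (hasDerivAt_reflZ' (h.d2 _ (refl_memZ ht))).neg
    rw [neg_neg] at this
    exact this
  N t ht := by
    have := h.N _ (refl_memZ ht)
    simpa using this
  ode t ht := by
    have h1 := h.ode _ (refl_memZ ht)
    rw [cz_refl] at h1
    linear_combination h1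
  ne0 := h.ne1
  ne1 := h.ne0
  l0 := h.l1
  l0' := h.l1'
  l1 := by simpa using h.l0
  l1' := by
    have := h.l0'
    simp only [sub_sub_cancel, neg_neg]
    exact this

lemma PZ.neg (h : PZ k μ β f f' f'' f0 f1) : PZ k μ β (fun t => -f t)
    (fun t => -f' t) (fun t => -f'' t) (-f0) (-f1) where
  d1 t ht := (h.d1 t ht).neg
  d2 t ht := (h.d2 t ht).neg
  N t ht := by
    have := h.N t ht
    simpa using this
  ode t ht := by
    have h1 := h.ode t ht
    linear_combination -h1
  ne0 := neg_ne_zero.mpr h.ne0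
  ne1 := neg_ne_zero.mpr h.ne1
  l0 := h.l0.neg
  l0' := by
    have := h.l0'.neg
    refine (this.congr fun t => ?_).trans_eq ?_
    · ring
    · congr 1; ring
  l1 := h.l1.neg
  l1' := by
    have := h.l1'.neg
    refine (this.congr fun t => ?_).trans_eq ?_
    · ring
    · congr 1; ring

lemma piH : Real.pi / 2 ∈ Ioo 0 Real.pi := ⟨by positivity, by linarith [Real.pi_pos]⟩

lemma cz_half (k : ℝ) : cz k (Real.pi / 2) = 0 := by
  unfold cz; rw [Real.cos_pi_div_two]; simp

end

/-- `RR` at `Z = 1`, `m = 1` -/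
lemma RR_one {μ β k X : ℝ} (hμ : 0 < μ) (hX : 0 < X) (hβ : 1 < β) :
    RR μ β 1 k X 1 < 0 := by
  have e : RR μ β 1 k X 1 = -(μ * (β - 1) * (1 + X)) / (1 + μ * X) := by
    have h1 : 0 < 1 + μ * X := by positivity
    unfold RR
    field_simp
    ring
  rw [e]
  apply div_neg_of_neg_of_pos
  · have : 0 < μ * (β - 1) * (1 + X) := by
      have : 0 < β - 1 := by linarith
      positivity
    linarith
  · positivity

/-- **Sign at the equator.** -/
lemma PZ.equator {k : ℕ} {p μ β f0 f1 : ℝ} {f f' f'' : ℝ → ℝ} (hk : 1 ≤ k) (hp : 2 < p)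
    (hμ : μ = p - 1) (hβ : 1 < β) (hβ2 : β ≤ 1 + 2 / p)
    (h : PZ k μ β f f' f'' f0 f1) (h0 : 0 < f0) :
    f (Real.pi / 2) < 0 ∧ f' (Real.pi / 2) < 0 := by
  have hp0 : 0 < p := by linarith
  have hk0 : (0 : ℝ) < k := by exact_mod_cast (by omega : 0 < k)
  have hμ1 : 1 < μ := by rw [hμ]; linarith
  have hμ0 : 0 < μ := by linarith
  have hβ0 : 0 < β := by linarith
  have hpi : (0 : ℝ) < Real.pi / 2 := by positivity
  obtain ⟨q, hq⟩ : ∃ q : ℝ, q = 1 - 2 / p := ⟨_, rfl⟩
  have hq0 : 0 < q := by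
    rw [hq]
    have : 2 / p < 1 := by rw [div_lt_one hp0]; exact hp
    linarith
  have hq1 : q < 1 := by
    rw [hq]
    have : 0 < 2 / p := by positivity
    linarith
  have hμq : μ = (1 + q) / (1 - q) := by
    rw [eq_div_iff (by linarith), hμ, hq]
    field_simp
    ring
  have hβq : β ≤ 2 - q := by rw [hq]; linarith
  have hB : 0 < μ * β + 1 + k - 1 - μ := by
    have h1 : 0 < μ * (β - 1) := mul_pos hμ0 (by linarith)
    linarith
  have hBD : μ * β + 1 + k - 1 - μ ≤ 1 + k + q := by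
    have h1 : μ * (β - 1) ≤ μ * (1 - q) := by
      apply mul_le_mul_of_nonneg_left _ hμ0.le; linarith
    have h2 : μ * (1 - q) = 1 + q := by
      rw [hμq, div_mul_cancel₀]; linarith
    linarith
  have hBe : μ * β + 1 + k - 1 - μ = μ * β + k - μ := by ring
  have hP := h.toProf
  have hPole : Pole 1 k μ β f f' f0 := ⟨h0, h.l0, by rw [hBe]; exact h.l0'⟩
  obtain ⟨z, z', hz, hz0, hz1, hF, hF'⟩ := exists_sub 1 k le_rfl hk q hq0.le hq1
  have hD : (0 : ℝ) < 1 + k + q := by positivity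
  have hsubX : ∀ X : ℝ, 0 < X →
      2 * X * z' X / (1 + k + q) < RR μ β 1 k X (z X / (1 + k + q)) := fun X hX => by
    have := sub_of_FF (m := 1) one_pos hk0 hq0.le hq1 hμq hβq hX
      (by have := hF X hX; simpa using this) (Or.inl (by have := hF' hq0 X hX; simpa using this))
    exact this
  obtain ⟨Y, hY⟩ : ∃ Y : ℝ → ℝ, Y = fun t => z (Real.tan t ^ 2) / (1 + k + q) := ⟨_, rfl⟩
  obtain ⟨Y', hY'⟩ : ∃ Y' : ℝ → ℝ, Y' = fun t => z' (Real.tan t ^ 2)
      * (2 * Real.tan t * (1 + Real.tan t ^ 2)) / (1 + k + q) := ⟨_, rfl⟩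
  have hYd : ∀ t ∈ Ioo 0 (Real.pi / 2), HasDerivAt Y (Y' t) t := by
    intro t ht
    have h1 := tan_pos ht
    have h2 : HasDerivAt (fun t => Real.tan t ^ 2) (2 * Real.tan t * (1 + Real.tan t ^ 2)) t := by
      have := (hasDerivAt_tan ht).pow 2
      refine this.congr_deriv ?_
      simp
    have h3 := (hz (Real.tan t ^ 2) (by positivity)).comp t h2
    rw [hY, hY']
    exact h3.div_const _
  have hYs : ∀ t ∈ Ioo 0 (Real.pi / 2),
      Y' t * (Real.tan t / (1 + Real.tan t ^ 2)) < RR μ β 1 k (Real.tan t ^ 2) (Y t) := by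
    intro t ht
    have h1 := tan_pos ht
    have h2 := hsubX (Real.tan t ^ 2) (by positivity)
    rw [hY, hY']
    have h3 : (1 + Real.tan t ^ 2) ≠ 0 := by positivity
    have e : z' (Real.tan t ^ 2) * (2 * Real.tan t * (1 + Real.tan t ^ 2)) / (1 + k + q)
        * (Real.tan t / (1 + Real.tan t ^ 2))
        = 2 * Real.tan t ^ 2 * z' (Real.tan t ^ 2) / (1 + k + q) := by
      field_simp
    simp only
    rw [e]
    exact h2
  have htan0 : Tendsto (fun s => Real.tan s ^ 2) (𝓝[>] 0) (𝓝[>] 0) := by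
    rw [tendsto_nhdsWithin_iff]
    constructor
    · have h1 : ContinuousAt Real.tan 0 := by
        refine Real.continuousAt_tan.mpr ?_
        rw [Real.cos_zero]; exact one_ne_zero
      have h2 := (h1.tendsto.mono_left nhdsWithin_le_nhds : Tendsto Real.tan (𝓝[>] 0) _).pow 2
      simpa using h2
    · filter_upwards [Ioo_mem_nhdsGT hpi] with s hs
      have := tan_pos hs
      exact pow_pos this 2
  have hY0 : Tendsto Y (𝓝[>] 0) (𝓝 (k / (1 + k + q))) := by
    rw [hY]
    exact (hz0.comp htan0).div_const _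
  have hzle : (k : ℝ) / (1 + k + q) ≤ k / (μ * β + 1 + k - 1 - μ) := by gcongr
  have hL := fun t ht => left hμ0 hP hk0 hβ0 hB hPole hYd hYs hY0 hzle (t := t) ht
  have hneg : ∀ t ∈ Ioo 0 (Real.pi / 2), f' t < 0 := fun t ht => (hL t ht).1
  have hd1 := h.d1 _ piH
  have hd2 := h.d2 _ piH
  have hNe := h.N _ piH
  have hode := h.ode _ piH
  rw [cz_half] at hode
  have hle : f' (Real.pi / 2) ≤ 0 := by
    have h1 : Tendsto f' (𝓝[<] (Real.pi / 2)) (𝓝 (f' (Real.pi / 2))) :=
      hd2.continuousAt.tendsto.mono_left nhdsWithin_le_nhds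
    refine le_of_tendsto h1 ?_
    filter_upwards [Ioo_mem_nhdsLT hpi] with x hx using (hneg x hx).le
  -- `f'` does not vanish at the equator
  have hlt : f' (Real.pi / 2) < 0 := by
    refine lt_of_le_of_ne hle fun hz0 => ?_
    rw [hz0] at hNe hode
    have hfe : f (Real.pi / 2) ≠ 0 := by
      intro h; rw [h] at hNe; simp at hNe
    have hf2 : f'' (Real.pi / 2) = -(β * (μ * β + k - μ) * f (Real.pi / 2)) := by
      have h1 : (f'' (Real.pi / 2) + β * (μ * β + k - μ) * f (Real.pi / 2))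
          * (β ^ 2 * f (Real.pi / 2) ^ 2) = 0 := by linear_combination hode
      rcases mul_eq_zero.mp h1 with h2 | h2
      · linarith
      · exfalso
        have : β ^ 2 * f (Real.pi / 2) ^ 2 ≠ 0 := by positivity
        exact this h2
    refine contra 1 k le_rfl hk hp.le hμ hβ hβ2 (Or.inl hp.ne')
      (f := f) (f' := f') (f'' := f'') (f0 := f0) (f1 := f (Real.pi / 2)) ?_
    refine { toProf := by simpa using hP, ne0 := h0.ne', ne1 := hfe, l0 := h.l0, l0' := ?_,
             l1 := ?_, l1' := ?_ }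
    · have := h.l0'
      push_cast
      rw [hBe]; exact this
    · have h1 : Tendsto f (𝓝 (Real.pi / 2)) (𝓝 (f (Real.pi / 2))) := hd1.continuousAt.tendsto
      have h2 : Tendsto (fun t : ℝ => Real.pi / 2 - t) (𝓝[>] 0) (𝓝 (Real.pi / 2)) := by
        have : Continuous fun t : ℝ => Real.pi / 2 - t := by fun_prop
        have := (this.continuousAt (x := 0)).tendsto.mono_left
          (nhdsWithin_le_nhds (s := Ioi (0 : ℝ)))
        simpa using this
      exact h1.comp h2
    · have h3 : HasDerivAt (fun t => -f' (Real.pi / 2 - t)) (f'' (Real.pi / 2)) 0 := by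
        have h4 : HasDerivAt f' (f'' (Real.pi / 2)) (Real.pi / 2 - 0) := by
          rw [sub_zero]; exact hd2
        have := (hasDerivAt_refl h4).neg
        rw [neg_neg] at this
        exact this
      have h5 := (hasDerivWithinAt_iff_tendsto_slope' (s := Ioi (0 : ℝ)) (by simp)).mp
        h3.hasDerivWithinAt
      rw [hf2] at h5
      have e1 : -(β * (μ * β + ((1 : ℕ) : ℝ) + k - 1 - μ) * f (Real.pi / 2) / ((1 : ℕ) : ℝ))
          = -(β * (μ * β + k - μ) * f (Real.pi / 2)) := by push_cast; ring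
      rw [e1]
      refine h5.congr' ?_
      filter_upwards [self_mem_nhdsWithin] with t ht
      rw [slope_def_field, sub_zero, sub_zero, hz0]
      simp
  refine ⟨?_, hlt⟩
  by_contra hcon
  push Not at hcon
  -- `f` is positive on the open quarter
  have hfpos : ∀ t ∈ Ioo 0 (Real.pi / 2), 0 < f t := by
    intro t ht
    have hanti : StrictAntiOn f (Icc t (Real.pi / 2)) := by
      apply strictAntiOn_of_deriv_neg (convex_Icc _ _)
      · intro s hs
        exact (h.d1 s ⟨lt_of_lt_of_le ht.1 hs.1,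
          lt_of_le_of_lt hs.2 piH.2⟩).continuousAt.continuousWithinAt
      · intro s hs
        rw [interior_Icc] at hs
        have hs' : s ∈ Ioo 0 (Real.pi / 2) := ⟨lt_trans ht.1 hs.1, hs.2⟩
        rw [(h.d1 s (memZ hs')).deriv]
        exact hneg s hs'
    have := hanti ⟨le_refl _, ht.2.le⟩ ⟨ht.2.le, le_refl _⟩ ht.2
    linarith
  -- `Z < 1`
  have hZ0 : Tendsto (ZZ β f f') (𝓝[>] 0) (𝓝 (k / (μ * β + 1 + k - 1 - μ))) :=
    ZZ_tendsto hk0 hβ0 hB hPole
  have hlim1 : (k : ℝ) / (μ * β + 1 + k - 1 - μ) < 1 := by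
    rw [div_lt_one hB]
    have h1 : 0 < μ * (β - 1) := mul_pos hμ0 (by linarith)
    linarith
  have hZlt : ∀ t ∈ Ioo 0 (Real.pi / 2), ZZ β f f' t < 1 := by
    by_contra hc
    push Not at hc
    obtain ⟨t1, ht1, hZt1⟩ := hc
    have hev := hZ0.eventually (gt_mem_nhds hlim1)
    obtain ⟨ε, hε, hεI⟩ : ∃ ε > 0, ∀ s ∈ Ioo 0 ε, ZZ β f f' s < 1 := by
      rw [eventually_nhdsWithin_iff, Metric.eventually_nhds_iff] at hev
      obtain ⟨ε, hε, h2⟩ := hev
      refine ⟨ε, hε, fun s hs => h2 ?_ hs.1⟩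
      rw [Real.dist_eq, sub_zero, abs_of_pos hs.1]
      exact hs.2
    have hεt : ε ≤ t1 := by
      by_contra hc
      push Not at hc
      have := hεI t1 ⟨ht1.1, hc⟩
      linarith
    have hcZ : ContinuousOn (ZZ β f f') (Icc ε t1) := fun s hs => by
      have hs' : s ∈ Ioo 0 (Real.pi / 2) := ⟨lt_of_lt_of_le hε hs.1, lt_of_le_of_lt hs.2 ht1.2⟩
      exact (hasDerivAt_ZZ hμ0 hP hs' (hneg s hs').ne).continuousAt.continuousWithinAt
    set S : Set ℝ := {r | r ∈ Icc ε t1 ∧ 1 ≤ ZZ β f f' r} with hS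
    have hSc : IsClosed S := by
      have := hcZ.preimage_isClosed_of_isClosed isClosed_Icc (isClosed_Ici (a := 1))
      convert! this using 1
    have hSn : S.Nonempty := ⟨t1, ⟨hεt, le_refl _⟩, hZt1⟩
    have hSb : BddBelow S := ⟨ε, fun r hr => hr.1.1⟩
    set b := sInf S with hb
    have hbS : b ∈ S := hSc.csInf_mem hSn hSb
    have hbI : b ∈ Ioo 0 (Real.pi / 2) :=
      ⟨lt_of_lt_of_le hε hbS.1.1, lt_of_le_of_lt hbS.1.2 ht1.2⟩
    have hlt1 : ∀ t ∈ Ioo 0 b, ZZ β f f' t < 1 := by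
      intro t ht
      rcases lt_or_ge t ε with h' | h'
      · exact hεI t ⟨ht.1, h'⟩
      · by_contra hc
        push Not at hc
        have : t ∈ S := ⟨⟨h', ht.2.le.trans hbS.1.2⟩, hc⟩
        exact absurd (csInf_le hSb this) (not_le.mpr ht.2)
    have hdZ := hasDerivAt_ZZ hμ0 hP hbI (hneg b hbI).ne
    have hb1 : ZZ β f f' b = 1 := by
      apply le_antisymm _ hbS.2
      have h1 : Tendsto (ZZ β f f') (𝓝[<] b) (𝓝 (ZZ β f f' b)) :=
        hdZ.continuousAt.tendsto.mono_left nhdsWithin_le_nhds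
      refine le_of_tendsto h1 ?_
      filter_upwards [Ioo_mem_nhdsLT hbI.1] with x hx using (hlt1 x hx).le
    rw [hb1] at hdZ
    have ht0 := tan_pos hbI
    have hRR := RR_one (k := k) hμ0 (pow_pos ht0 2) hβ
    have hslope := (hasDerivWithinAt_iff_tendsto_slope' (s := Iio b) (by simp)).mp
      hdZ.hasDerivWithinAt
    have hge : 0 ≤ RR μ β 1 k (Real.tan b ^ 2) 1 * ((1 + Real.tan b ^ 2) / Real.tan b) := by
      refine ge_of_tendsto hslope ?_
      filter_upwards [Ioo_mem_nhdsLT hbI.1] with x hx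
      rw [slope_def_field, hb1]
      exact (div_pos_of_neg_of_neg (by linarith [hlt1 x hx]) (by linarith [hx.2])).le
    have : 0 < (1 + Real.tan b ^ 2) / Real.tan b := by positivity
    nlinarith
  -- the function `g`
  have hg : ∀ t ∈ Ioo 0 (Real.pi / 2), 0 < -f' t * Real.cos t - β * f t * Real.sin t := by
    intro t ht
    have h1 := hZlt t ht
    have h2 := hneg t ht
    have hcos : 0 < Real.cos t :=
      Real.cos_pos_of_mem_Ioo ⟨by linarith [ht.1, Real.pi_pos], ht.2⟩
    unfold ZZ at h1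
    rw [div_lt_iff_of_neg h2, Real.tan_eq_sin_div_cos] at h1
    have h3 : f' t * Real.cos t < -(β * f t * Real.sin t) := by
      have h4 := mul_lt_mul_of_pos_right h1 hcos
      have e1 : -(β * f t * (Real.sin t / Real.cos t)) * Real.cos t = -(β * f t * Real.sin t) := by
        field_simp
      rw [e1] at h4
      linarith
    linarith
  have hgd : HasDerivAt (fun t => -f' t * Real.cos t - β * f t * Real.sin t)
      (f' (Real.pi / 2) - β * f' (Real.pi / 2)) (Real.pi / 2) := by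
    have h1 := ((hd2.neg).mul (Real.hasDerivAt_cos (Real.pi / 2))).sub
      ((hd1.const_mul β).mul (Real.hasDerivAt_sin (Real.pi / 2)))
    refine h1.congr_deriv ?_
    rw [Real.cos_pi_div_two, Real.sin_pi_div_two]
    simp
  have hg0 : -f' (Real.pi / 2) * Real.cos (Real.pi / 2) - β * f (Real.pi / 2)
      * Real.sin (Real.pi / 2) = -(β * f (Real.pi / 2)) := by
    rw [Real.cos_pi_div_two, Real.sin_pi_div_two]; ring
  have hge0 : 0 ≤ -(β * f (Real.pi / 2)) := by
    have h1 : Tendsto (fun t => -f' t * Real.cos t - β * f t * Real.sin t) (𝓝[<] (Real.pi / 2))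
        (𝓝 (-(β * f (Real.pi / 2)))) := by
      rw [← hg0]
      exact hgd.continuousAt.tendsto.mono_left nhdsWithin_le_nhds
    refine ge_of_tendsto h1 ?_
    filter_upwards [Ioo_mem_nhdsLT hpi] with x hx using (hg x hx).le
  have hfe : f (Real.pi / 2) = 0 := by
    apply le_antisymm _ hcon
    by_contra hc
    push Not at hc
    have : 0 < β * f (Real.pi / 2) := by positivity
    linarith
  have hslope := (hasDerivWithinAt_iff_tendsto_slope' (s := Iio (Real.pi / 2)) (by simp)).mp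
    hgd.hasDerivWithinAt
  have hle0 : f' (Real.pi / 2) - β * f' (Real.pi / 2) ≤ 0 := by
    refine le_of_tendsto hslope ?_
    filter_upwards [Ioo_mem_nhdsLT hpi] with x hx
    rw [slope_def_field, hg0, hfe, mul_zero, neg_zero, sub_zero]
    exact (div_neg_of_pos_of_neg (hg x hx) (by linarith [hx.2])).le
  nlinarith

/-- **No axially symmetric profile with `1 < β ≤ 1 + 2/p`.** -/
theorem PZ.contra {k : ℕ} {p μ β f0 f1 : ℝ} {f f' f'' : ℝ → ℝ} (hk : 1 ≤ k) (hp : 2 < p)
    (hμ : μ = p - 1) (hβ : 1 < β) (hβ2 : β ≤ 1 + 2 / p)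
    (h : PZ k μ β f f' f'' f0 f1) : False := by
  have key : ∀ {f0 f1 : ℝ} {f f' f'' : ℝ → ℝ}, PZ k μ β f f' f'' f0 f1 →
      0 < f (Real.pi / 2) * f' (Real.pi / 2) := by
    intro f0 f1 f f' f'' h
    rcases lt_or_gt_of_ne h.ne0 with h0 | h0
    · obtain ⟨h1, h2⟩ := h.neg.equator hk hp hμ hβ hβ2 (by linarith)
      have := mul_pos_of_neg_of_neg h1 h2
      simpa using this
    · obtain ⟨h1, h2⟩ := h.equator hk hp hμ hβ hβ2 h0
      exact mul_pos_of_neg_of_neg h1 h2
  have h1 := key h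
  have h2 := key h.refl
  have e : Real.pi - Real.pi / 2 = Real.pi / 2 := by ring
  simp only [e] at h2
  linarith

end Pool.Agent.H76.BP
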